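import Pool.Agent.H44.Crem.TowerDefs

/-!
# M6e: uniform continuity of the composites `Bc`
-/

set_option autoImplicit false

open Complex Metric Set Filter Topology

namespace Pool.Agent.H44.Crem

theorem Bc_congr (h h' : ℕ → ℂ → ℂ) (c : ℕ → ℂ) (j i : ℕ)
    (hh : ∀ l, j ≤ l → l < j + i → h l = h' l) (t : ℝ) : Bc h c j i t = Bc h' c j i t := by
  induction i generalizing t with
  | zero => rfl
  | succ i ih =>
    show Bc h c j i ‖h (j + i) (t * c (j + i + 1))‖ = Bc h' c j i ‖h' (j + i) (t * c (j + i + 1))‖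
    rw [hh (j + i) (by omega) (by omega)]
    exact ih (fun l h1 h2 => hh l h1 (by omega)) _

/-- uniform continuity of `Bc`, uniformly in the unimodular sequence `c` -/
theorem Bc_uc (h : ℕ → ℂ → ℂ) (j i : ℕ)
    (hc : ∀ n, j ≤ n → n < j + i → ContinuousOn (h n) (closedBall 0 1))
    (hn : ∀ n, j ≤ n → n < j + i → ∀ ξ ∈ closedBall (0 : ℂ) 1, ‖h n ξ‖ ≤ 1) {ε : ℝ}
    (hε : 0 < ε) :
    ∃ δ > 0, ∀ c : ℕ → ℂ, (∀ i, ‖c i‖ = 1) → ∀ t ∈ Icc (0 : ℝ) 1, ∀ t' ∈ Icc (0 : ℝ) 1,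
      |t - t'| ≤ δ → |Bc h c j i t - Bc h c j i t'| ≤ ε := by
  induction i with
  | zero => exact ⟨ε, hε, fun c _ t _ t' _ h => h⟩
  | succ i ih =>
    obtain ⟨δ₁, hδ₁, h1⟩ := ih (fun n h1 h2 => hc n h1 (by omega))
      (fun n h1 h2 => hn n h1 (by omega))
    have hu := (isCompact_closedBall (0 : ℂ) 1).uniformContinuousOn_of_continuous
      (hc (j + i) (by omega) (by omega))
    rw [Metric.uniformContinuousOn_iff] at hu
    obtain ⟨δ, hδ, hu⟩ := hu δ₁ hδ₁
    refine ⟨δ / 2, by positivity, fun c hcc t ht t' ht' htt => ?_⟩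
    have hmem : ∀ t ∈ Icc (0 : ℝ) 1, (t * c (j + i + 1) : ℂ) ∈ closedBall (0 : ℂ) 1 := by
      intro t ht
      rw [mem_closedBall_zero_iff, norm_mul, hcc, mul_one, norm_real, Real.norm_eq_abs,
        abs_of_nonneg ht.1]
      exact ht.2
    have hd : dist (t * c (j + i + 1) : ℂ) (t' * c (j + i + 1)) < δ := by
      rw [dist_eq_norm, ← sub_mul, norm_mul, hcc, mul_one, ← ofReal_sub, norm_real,
        Real.norm_eq_abs]
      linarith
    have h2 := hu _ (hmem t ht) _ (hmem t' ht') hd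
    rw [dist_eq_norm] at h2
    exact h1 c hcc _ ⟨norm_nonneg _, hn (j + i) (by omega) (by omega) _ (hmem t ht)⟩ _
      ⟨norm_nonneg _, hn (j + i) (by omega) (by omega) _ (hmem t' ht')⟩
      ((abs_norm_sub_norm_le _ _).trans h2.le)

end Pool.Agent.H44.Crem
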