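import Pool.Agent.H44.Crem.Defs

/-!
# M4, M5: uniform local inversion, and the periodic chain lemma (helper24)
-/

set_option autoImplicit false

open Complex Metric Set Filter Topology

namespace Pool.Agent.H44.Crem

lemma strict_of_diff {Λ : ℂ → ℂ} (hd : Differentiable ℂ Λ) (z : ℂ) :
    HasStrictDerivAt Λ (deriv Λ z) z :=
  (hd.analyticAt z).hasStrictDerivAt

lemma inj_nhds {Λ : ℂ → ℂ} (hd : Differentiable ℂ Λ) (h' : ∀ z, deriv Λ z ≠ 0) (z : ℂ) :
    ∃ U : Set ℂ, IsOpen U ∧ z ∈ U ∧ InjOn Λ U := by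
  have h := (strict_of_diff hd z).eventually_left_inverse (h' z)
  obtain ⟨U, hU, hUo, hzU⟩ := _root_.eventually_nhds_iff.mp h
  refine ⟨U, hUo, hzU, ?_⟩
  intro a ha b hb hab
  rw [← hU a ha, ← hU b hb, hab]

/-- uniform local injectivity of a locally injective entire function on a ball -/
theorem local_inj (Λ : ℂ → ℂ) (hd : Differentiable ℂ Λ) (h' : ∀ z, deriv Λ z ≠ 0) (R : ℝ) :
    ∃ ρ > 0, ∀ y ∈ closedBall (0 : ℂ) R, ∀ y', ‖y' - y‖ ≤ ρ → Λ y' = Λ y → y' = y := by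
  choose U hUo hzU hinj using inj_nhds hd h'
  obtain ⟨δ, hδ, hδ'⟩ := lebesgue_number_lemma_of_metric (isCompact_closedBall (0 : ℂ) R)
    hUo (fun z _ => mem_iUnion.mpr ⟨z, hzU z⟩)
  refine ⟨δ / 2, by positivity, ?_⟩
  intro y hy y' hyy' hΛ
  obtain ⟨i, hi⟩ := hδ' y hy
  apply hinj i (hi _) (hi (mem_ball_self hδ)) hΛ
  rw [mem_ball, dist_eq_norm]
  linarith

/-- uniform openness -/
lemma unif_open (Λ : ℂ → ℂ) (hd : Differentiable ℂ Λ) (h' : ∀ z, deriv Λ z ≠ 0) (R δ : ℝ)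
    (hδ : 0 < δ) :
    ∃ η > 0, ∀ y ∈ closedBall (0 : ℂ) R, ∀ w, ‖w - Λ y‖ < η → ∃ y', ‖y' - y‖ < δ ∧ Λ y' = w := by
  have hc : Continuous Λ := hd.continuous
  have key : ∀ z : ℂ, ∃ η > 0, ∃ V ∈ 𝓝 z, ∀ y ∈ V, ∀ w, ‖w - Λ y‖ < η →
      ∃ y', ‖y' - y‖ < δ ∧ Λ y' = w := by
    intro z
    have h1 : Λ '' ball z (δ / 2) ∈ 𝓝 (Λ z) := by
      rw [← (strict_of_diff hd z).map_nhds_eq (h' z)]
      exact image_mem_map (ball_mem_nhds z (by positivity))
    obtain ⟨η, hη, hη'⟩ := Metric.mem_nhds_iff.mp h1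
    refine ⟨η / 2, by positivity, Λ ⁻¹' ball (Λ z) (η / 2) ∩ ball z (δ / 2), ?_, ?_⟩
    · exact inter_mem (hc.continuousAt.preimage_mem_nhds (ball_mem_nhds _ (by positivity)))
        (ball_mem_nhds _ (by positivity))
    · rintro y ⟨hy1, hy2⟩ w hw
      have hw' : w ∈ ball (Λ z) η := by
        rw [mem_preimage, mem_ball] at hy1
        rw [mem_ball]
        have : dist w (Λ y) < η / 2 := by rw [dist_eq_norm]; exact hw
        linarith [dist_triangle w (Λ y) (Λ z)]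
      obtain ⟨y', hy', rfl⟩ := hη' hw'
      refine ⟨y', ?_, rfl⟩
      rw [← dist_eq_norm]
      rw [mem_ball] at hy' hy2
      linarith [dist_triangle_right y' y z]
  choose η hη V hV hk using key
  obtain ⟨t, ht, htc⟩ := (isCompact_closedBall (0 : ℂ) R).elim_nhds_subcover V (fun z _ => hV z)
  by_cases hne : t.Nonempty
  · refine ⟨t.inf' hne η, ?_, ?_⟩
    · rw [gt_iff_lt, Finset.lt_inf'_iff]
      exact fun i _ => hη i
    · intro y hy w hw
      obtain ⟨z, hz, hyz⟩ := mem_iUnion₂.mp (htc hy)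
      exact hk z y hyz w (lt_of_lt_of_le hw (Finset.inf'_le _ hz))
  · refine ⟨1, one_pos, ?_⟩
    intro y hy
    exfalso
    obtain ⟨z, hz, hyz⟩ := mem_iUnion₂.mp (htc hy)
    exact hne ⟨z, hz⟩

lemma norm_root_sub_one (q : ℕ) (hq : 0 < q) :
    ‖exp (2 * Real.pi * I / q) - 1‖ ≤ 2 * Real.pi / q := by
  have h := Real.norm_exp_I_mul_ofReal_sub_one_le (x := 2 * Real.pi / q)
  have e1 : (I * ((2 * Real.pi / q : ℝ) : ℂ)) = 2 * Real.pi * I / q := by
    push_cast; ring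
  rw [e1, Real.norm_eq_abs, abs_of_nonneg (by positivity)] at h
  exact h

lemma norm_root (q : ℕ) : ‖exp (2 * Real.pi * I / q)‖ = 1 := by
  have e1 : (2 * Real.pi * I / q) = ((2 * Real.pi / q : ℝ) : ℂ) * I := by
    push_cast; ring
  rw [e1, Complex.norm_exp_ofReal_mul_I]

/-- solving `Λ (Φ y) = e^{2πi/q} Λ y` near `y`, for `q` large -/
theorem exists_solve (Λ : ℂ → ℂ) (hd : Differentiable ℂ Λ) (h' : ∀ z, deriv Λ z ≠ 0) (R δ : ℝ)
    (hδ : 0 < δ) :
    ∃ q0 : ℕ, ∀ q : ℕ, q0 ≤ q → ∃ Φ : ℂ → ℂ, DifferentiableOn ℂ Φ (ball 0 R) ∧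
      ∀ y ∈ ball (0 : ℂ) R, ‖Φ y - y‖ ≤ δ ∧ Λ (Φ y) = exp (2 * Real.pi * I / q) * Λ y := by
  obtain ⟨ρ, hρ, hinj⟩ := local_inj Λ hd h' (R + δ)
  set δ' := min δ (ρ / 2) with hδ'def
  have hδ' : 0 < δ' := lt_min hδ (by positivity)
  obtain ⟨η, hη, hop⟩ := unif_open Λ hd h' R δ' hδ'
  obtain ⟨M, hM⟩ := (isCompact_closedBall (0 : ℂ) R).exists_bound_of_continuousOn
    hd.continuous.continuousOn
  obtain ⟨q1, hq1⟩ := exists_nat_gt (2 * Real.pi * (|M| + 1) / η)
  refine ⟨q1 + 1, ?_⟩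
  intro q hq
  have hq0 : 0 < q := by omega
  have hqr : 0 < (q : ℝ) := by exact_mod_cast hq0
  set ω := exp (2 * Real.pi * I / q) with hω
  have hω1 : ‖ω - 1‖ * (|M| + 1) < η := by
    have h1 : ‖ω - 1‖ ≤ 2 * Real.pi / q := norm_root_sub_one q hq0
    have h2 : (q1 : ℝ) + 1 ≤ q := by exact_mod_cast hq
    have h3 : 2 * Real.pi * (|M| + 1) / η < q := by linarith
    have h4 : 2 * Real.pi / q * (|M| + 1) < η := by
      rw [div_lt_iff₀ hη] at h3
      rw [div_mul_eq_mul_div, div_lt_iff₀ hqr]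
      linarith
    exact lt_of_le_of_lt (mul_le_mul_of_nonneg_right h1 (by positivity)) h4
  have hex : ∀ y ∈ ball (0 : ℂ) R, ∃ y', ‖y' - y‖ < δ' ∧ Λ y' = ω * Λ y := by
    intro y hy
    have hy' := ball_subset_closedBall hy
    apply hop y hy'
    have : ω * Λ y - Λ y = (ω - 1) * Λ y := by ring
    rw [this, norm_mul]
    refine lt_of_le_of_lt (mul_le_mul_of_nonneg_left ?_ (norm_nonneg _)) hω1
    linarith [hM y hy', le_abs_self M]
  choose! Φ hΦ1 hΦ2 using hex
  refine ⟨Φ, ?_, fun y hy => ⟨(hΦ1 y hy).le.trans (min_le_left _ _), hΦ2 y hy⟩⟩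
  intro y0 hy0
  apply DifferentiableAt.differentiableWithinAt
  -- local inverse at Φ y0
  have hs := strict_of_diff hd (Φ y0)
  set g := hs.localInverse Λ (deriv Λ (Φ y0)) (Φ y0) (h' _) with hg
  have hgd : HasStrictDerivAt g (deriv Λ (Φ y0))⁻¹ (Λ (Φ y0)) := hs.to_localInverse (h' _)
  have hgr : ∀ᶠ x in 𝓝 (Λ (Φ y0)), Λ (g x) = x := hs.eventually_right_inverse (h' _)
  have hgv : g (Λ (Φ y0)) = Φ y0 := (hs.eventually_left_inverse (h' _)).self_of_nhds
  have hwc : Continuous (fun y => ω * Λ y) := continuous_const.mul hd.continuous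
  have hG : DifferentiableAt ℂ (fun y => g (ω * Λ y)) y0 := by
    have h1 : DifferentiableAt ℂ g (ω * Λ y0) := by
      rw [← hΦ2 y0 hy0]; exact hgd.hasDerivAt.differentiableAt
    exact h1.comp y0 ((hd y0).const_mul ω)
  have hGc : ContinuousAt (fun y => g (ω * Λ y)) y0 := hG.continuousAt
  have hG0 : g (ω * Λ y0) = Φ y0 := by rw [← hΦ2 y0 hy0]; exact hgv
  have e1 : ∀ᶠ y in 𝓝 y0, Λ (g (ω * Λ y)) = ω * Λ y := by
    have : Tendsto (fun y => ω * Λ y) (𝓝 y0) (𝓝 (Λ (Φ y0))) := by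
      rw [hΦ2 y0 hy0]; exact hwc.continuousAt
    exact this.eventually hgr
  have e2 : ∀ᶠ y in 𝓝 y0, ‖g (ω * Λ y) - y‖ < δ' := by
    have hcc : ContinuousAt (fun y => ‖g (ω * Λ y) - y‖) y0 :=
      (hGc.sub continuousAt_id).norm
    apply hcc.eventually_lt continuousAt_const
    show ‖g (ω * Λ y0) - y0‖ < δ'
    rw [hG0]; exact hΦ1 y0 hy0
  have e3 : ∀ᶠ y in 𝓝 y0, y ∈ ball (0 : ℂ) R := isOpen_ball.mem_nhds hy0
  apply hG.congr_of_eventuallyEq
  filter_upwards [e1, e2, e3] with y h1 h2 h3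
  symm
  apply hinj (Φ y)
  · rw [mem_closedBall, dist_zero_right]
    have h4 := hΦ1 y h3
    have h5 : ‖y‖ < R := by simpa using h3
    have h6 : δ' ≤ δ := min_le_left _ _
    calc ‖Φ y‖ = ‖(Φ y - y) + y‖ := by ring_nf
      _ ≤ ‖Φ y - y‖ + ‖y‖ := norm_add_le _ _
      _ ≤ R + δ := by linarith
  · have h4 := hΦ1 y h3
    have h6 : δ' ≤ ρ / 2 := min_le_right _ _
    calc ‖g (ω * Λ y) - Φ y‖ = ‖(g (ω * Λ y) - y) - (Φ y - y)‖ := by ring_nf
      _ ≤ ‖g (ω * Λ y) - y‖ + ‖Φ y - y‖ := norm_sub_le _ _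
      _ ≤ ρ := by linarith
  · rw [h1, hΦ2 y h3]

lemma pigeon (R ρ : ℝ) (hρ : 0 < ρ) : ∃ N : ℕ, ∀ x : ℕ → ℂ, (∀ i ≤ N, ‖x i‖ ≤ R) →
    ∃ i j, i < j ∧ j ≤ N ∧ ‖x i - x j‖ < ρ := by
  obtain ⟨t, -, htf, htc⟩ := (isCompact_closedBall (0 : ℂ) R).finite_cover_balls
    (e := ρ / 2) (by positivity)
  refine ⟨htf.toFinset.card, ?_⟩
  intro x hx
  have hex : ∀ i ≤ htf.toFinset.card, ∃ c ∈ t, x i ∈ ball c (ρ / 2) := by
    intro i hi
    have : x i ∈ closedBall (0 : ℂ) R := by simpa using hx i hi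
    obtain ⟨c, hc, hxc⟩ := mem_iUnion₂.mp (htc this)
    exact ⟨c, hc, hxc⟩
  choose! c hc hxc using hex
  have hcard : htf.toFinset.card < (Finset.range (htf.toFinset.card + 1)).card := by simp
  have hmaps : ∀ i ∈ Finset.range (htf.toFinset.card + 1), c i ∈ htf.toFinset := by
    intro i hi
    have : i ≤ htf.toFinset.card := by
      have := Finset.mem_range.mp hi; omega
    simpa using hc i this
  obtain ⟨i, hi, j, hj, hij, hcij⟩ :=
    Finset.exists_ne_map_eq_of_card_lt_of_maps_to hcard hmaps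
  have hi' : i ≤ htf.toFinset.card := by have := Finset.mem_range.mp hi; omega
  have hj' : j ≤ htf.toFinset.card := by have := Finset.mem_range.mp hj; omega
  have hd : ‖x i - x j‖ < ρ := by
    have h1 := hxc i hi'
    have h2 := hxc j hj'
    rw [← hcij] at h2
    rw [mem_ball] at h1 h2
    rw [← dist_eq_norm]
    linarith [dist_triangle_right (x i) (x j) (c i)]
  rcases lt_or_gt_of_ne hij with h | h
  · exact ⟨i, j, h, hj', hd⟩
  · refine ⟨j, i, h, hi', ?_⟩
    rw [norm_sub_rev]; exact hd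

/-- discrete crossing of a multiple of `2π` -/
lemma crossing (θ : ℕ → ℝ) (P : ℕ) (σ : ℝ) (hσ : 0 ≤ σ) (hP : θ 0 + 2 * Real.pi ≤ θ P)
    (hstep : ∀ j < P, |θ (j + 1) - θ j| ≤ σ) :
    ∃ j ≤ P, ∃ n : ℤ, |θ j - 2 * Real.pi * n| ≤ σ := by
  have hpi : 0 < 2 * Real.pi := by positivity
  set n : ℤ := ⌈θ 0 / (2 * Real.pi)⌉ with hn
  have h1 : θ 0 ≤ 2 * Real.pi * n := by
    have := Int.le_ceil (θ 0 / (2 * Real.pi))
    rw [div_le_iff₀ hpi] at this
    linarith
  have h2 : 2 * Real.pi * n ≤ θ P := by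
    have := Int.ceil_lt_add_one (θ 0 / (2 * Real.pi))
    rw [← hn, ← sub_lt_iff_lt_add, lt_div_iff₀ hpi] at this
    linarith
  have hex : ∃ j, 2 * Real.pi * n ≤ θ j := ⟨P, h2⟩
  classical
  set j := Nat.find hex with hj
  have hj1 : 2 * Real.pi * n ≤ θ j := Nat.find_spec hex
  have hjP : j ≤ P := Nat.find_min' hex h2
  refine ⟨j, hjP, n, ?_⟩
  rcases Nat.eq_zero_or_pos j with h0 | hpos
  · have : θ j = 2 * Real.pi * n := by
      apply le_antisymm _ hj1
      rw [h0]; exact h1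
    rw [this]; simpa using hσ
  · obtain ⟨k, hk⟩ : ∃ k, j = k + 1 := ⟨j - 1, by omega⟩
    have hk1 : θ k < 2 * Real.pi * n := by
      by_contra hcon
      push Not at hcon
      have := Nat.find_min' hex hcon
      omega
    have hs := hstep k (by omega)
    rw [← hk] at hs
    rw [abs_le] at hs ⊢
    constructor <;> linarith [hs.1, hs.2]

/-- the image of a holomorphic right inverse is open -/
lemma open_image (H h : ℂ → ℂ) (hH : Differentiable ℂ H) (R1 R2 : ℝ) (hR2 : R1 < R2)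
    (hh : DifferentiableOn ℂ h (ball 0 R2)) (hHh : ∀ ξ ∈ ball (0 : ℂ) R2, H (h ξ) = ξ) :
    IsOpen (h '' ball 0 R1) := by
  rw [isOpen_iff_mem_nhds]
  rintro _ ⟨ξ, hξ, rfl⟩
  have hξ2 : ξ ∈ ball (0 : ℂ) R2 := ball_subset_ball hR2.le hξ
  have hξn : ball (0 : ℂ) R2 ∈ 𝓝 ξ := isOpen_ball.mem_nhds hξ2
  have hd : DifferentiableAt ℂ h ξ := hh.differentiableAt hξn
  have han : AnalyticAt ℂ h ξ := hh.analyticAt hξn
  have hc : HasDerivAt (H ∘ h) (deriv H (h ξ) * deriv h ξ) ξ :=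
    (hH (h ξ)).hasDerivAt.comp ξ hd.hasDerivAt
  have hid : HasDerivAt (H ∘ h) 1 ξ := by
    apply (hasDerivAt_id ξ).congr_of_eventuallyEq
    filter_upwards [hξn] with x hx
    exact hHh x hx
  have hne : deriv h ξ ≠ 0 := by
    intro h0
    have := hc.unique hid
    rw [h0, mul_zero] at this
    exact zero_ne_one this
  rw [← han.hasStrictDerivAt.map_nhds_eq hne]
  exact image_mem_map (isOpen_ball.mem_nhds hξ)

/-- the periodic chain lemma -/
theorem chain (H e h : ℂ → ℂ) (he : Differentiable ℂ e) (hH : ∀ ζ, H ζ = ζ * exp (e ζ))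
    (h' : ∀ ζ, deriv H ζ ≠ 0) (R R1 R2 : ℝ) (hR : 0 < R) (hR1 : 0 < R1) (hR2 : R1 < R2)
    (hh : DifferentiableOn ℂ h (ball 0 R2)) (hHh : ∀ ξ ∈ ball (0 : ℂ) R2, H (h ξ) = ξ)
    (hseg : ∀ x : ℝ, 0 ≤ x → x ≤ R → ∃ ξ ∈ ball (0 : ℂ) R1, h ξ = x) :
    ∃ (N0 : ℕ) (ρ : ℝ), 0 < ρ ∧ ∀ (q : ℕ) (y : ℕ → ℂ), 1 / ρ ≤ q →
      (∀ i ≤ N0 * q, ‖y i‖ ≤ R) → (∀ i < N0 * q, ‖y (i + 1) - y i‖ ≤ ρ) →
      (∀ i < N0 * q, H (y (i + 1)) = exp (2 * Real.pi * I / q) * H (y i)) →
      ∃ ξ ∈ ball (0 : ℂ) R1, y 0 = h ξ := by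
  have hHd : Differentiable ℂ H := by
    have : H = fun ζ => ζ * exp (e ζ) := funext hH
    rw [this]
    exact differentiable_id.mul he.cexp
  obtain ⟨ρ1, hρ1, hinj⟩ := local_inj H hHd h' R
  obtain ⟨N0, hN0⟩ := pigeon R ρ1 hρ1
  -- the segment
  have hUo := open_image H h hHd R1 R2 hR2 hh hHh
  have hKc : IsCompact ((fun x : ℝ => (x : ℂ)) '' Icc 0 R) :=
    isCompact_Icc.image Complex.continuous_ofReal
  have hKU : (fun x : ℝ => (x : ℂ)) '' Icc 0 R ⊆ h '' ball 0 R1 := by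
    rintro _ ⟨x, hx, rfl⟩
    obtain ⟨ξ, hξ, hξx⟩ := hseg x hx.1 hx.2
    exact ⟨ξ, hξ, hξx⟩
  obtain ⟨δ1, hδ1, hthick⟩ := hKc.exists_thickening_subset_open hUo hKU
  set σ := δ1 / (2 * (R + 1)) with hσdef
  have hσ : 0 < σ := by positivity
  have hRσ : R * σ < δ1 := by
    have : (R + 1) * σ = δ1 / 2 := by rw [hσdef]; field_simp
    nlinarith
  have huc := (isCompact_closedBall (0 : ℂ) R).uniformContinuousOn_of_continuous
    he.continuous.continuousOn
  obtain ⟨ρe, hρe, huce⟩ := Metric.uniformContinuousOn_iff.mp huc (σ / 2) (by positivity)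
  have hsub : closedBall (0 : ℂ) R1 ⊆ ball 0 R2 := closedBall_subset_ball hR2
  have huc2 := (isCompact_closedBall (0 : ℂ) R1).uniformContinuousOn_of_continuous
    (hh.continuousOn.mono hsub)
  obtain ⟨ρh, hρh, huch⟩ := Metric.uniformContinuousOn_iff.mp huc2 (ρ1 / 2) (by positivity)
  have hpi := Real.pi_pos
  set ρ := min (min (ρ1 / 4) (ρe / 2)) (min (σ / (4 * Real.pi)) (ρh / (4 * Real.pi * R1)))
    with hρdef
  have hρ : 0 < ρ := by
    rw [hρdef]
    refine lt_min (lt_min (by positivity) (by positivity)) (lt_min (by positivity) (by positivity))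
  have hρa : ρ ≤ ρ1 / 4 := (min_le_left _ _).trans (min_le_left _ _)
  have hρb : ρ ≤ ρe / 2 := (min_le_left _ _).trans (min_le_right _ _)
  have hρc : 2 * Real.pi * ρ ≤ σ / 2 := by
    have : ρ ≤ σ / (4 * Real.pi) := (min_le_right _ _).trans (min_le_left _ _)
    rw [le_div_iff₀ (by positivity)] at this
    linarith
  have hρd : 2 * Real.pi * ρ * R1 < ρh := by
    have : ρ ≤ ρh / (4 * Real.pi * R1) := (min_le_right _ _).trans (min_le_right _ _)
    rw [le_div_iff₀ (by positivity)] at this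
    linarith
  refine ⟨N0, ρ, hρ, ?_⟩
  intro q y hq hyR hystep hyH
  have hqr : 0 < (q : ℝ) := lt_of_lt_of_le (by positivity) hq
  have hq0 : 0 < q := by exact_mod_cast hqr
  have hqinv : 2 * Real.pi / q ≤ 2 * Real.pi * ρ := by
    rw [div_le_iff₀ hqr]
    rw [div_le_iff₀ hρ] at hq
    nlinarith
  set ω := exp (2 * Real.pi * I / q) with hω
  have hω0 : ω ≠ 0 := exp_ne_zero _
  have hωq : ω ^ q = 1 := by
    rw [hω, ← Complex.exp_nat_mul]
    have : (q : ℂ) * (2 * Real.pi * I / q) = 2 * Real.pi * I := by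
      have : (q : ℂ) ≠ 0 := by exact_mod_cast hq0.ne'
      field_simp
    rw [this, Complex.exp_two_pi_mul_I]
  have hωn : ‖ω‖ = 1 := norm_root q
  have hω1 : ‖ω - 1‖ ≤ 2 * Real.pi / q := norm_root_sub_one q hq0
  have hyHi : ∀ i ≤ N0 * q, H (y i) = ω ^ i * H (y 0) := by
    intro i
    induction i with
    | zero => intro _; simp
    | succ i ih =>
      intro hi
      rw [hyH i (by omega), ih (by omega), pow_succ]
      ring
  -- (a) periodicity
  obtain ⟨i, j, hij, hjN, hclose⟩ := hN0 (fun i => y (i * q)) (by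
    intro i hi
    exact hyR _ (Nat.mul_le_mul_right q hi))
  have hjq : j * q ≤ N0 * q := Nat.mul_le_mul_right q hjN
  have hiq : i * q ≤ N0 * q := Nat.mul_le_mul_right q (hij.le.trans hjN)
  have hPj : i * q + (j - i) * q = j * q := by
    rw [← Nat.add_mul]; congr 1; omega
  have heq1 : y (i * q) = y (j * q) := by
    apply hinj (y (j * q))
    · simpa using hyR _ hjq
    · exact hclose.le
    · rw [hyHi _ hiq, hyHi _ hjq]
      rw [mul_comm i q, pow_mul, mul_comm j q, pow_mul, hωq]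
      simp
  set P := (j - i) * q with hP
  have hback : ∀ a, a + P ≤ N0 * q → y a = y (a + P) → y 0 = y P := by
    intro a
    induction a with
    | zero => intro _ h; simpa using h
    | succ a ih =>
      intro ha hya
      apply ih (by omega)
      apply hinj (y (a + P))
      · simpa using hyR _ (by omega)
      · have h1 := hystep a (by omega)
        have h2 := hystep (a + P) (by omega)
        have h3 : a + 1 + P = a + P + 1 := by ring
        rw [h3] at hya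
        calc ‖y a - y (a + P)‖ = ‖(y (a + P + 1) - y (a + P)) - (y (a + 1) - y a)‖ := by
              rw [hya]; ring_nf
          _ ≤ ‖y (a + P + 1) - y (a + P)‖ + ‖y (a + 1) - y a‖ := norm_sub_le _ _
          _ ≤ ρ1 := by linarith
      · have h1 := hyH a (by omega)
        have h2 := hyH (a + P) (by omega)
        have h3 : a + 1 + P = a + P + 1 := by ring
        rw [h3] at hya
        rw [hya, h2] at h1
        exact (mul_left_cancel₀ hω0 h1).symm
  have hPN : P ≤ N0 * q := by omega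
  have hper : y 0 = y P := by
    apply hback (i * q) (by omega)
    rw [hPj]; exact heq1
  -- (b)
  by_cases hy0 : y 0 = 0
  · obtain ⟨ξ, hξ, hξ0⟩ := hseg 0 le_rfl hR.le
    exact ⟨ξ, hξ, by rw [hy0, hξ0]; simp⟩
  have hyexp : ∀ k ≤ N0 * q, y k = y 0 * exp (2 * Real.pi * I * k / q + e (y 0) - e (y k)) := by
    intro k hk
    have h1 := hyHi k hk
    rw [hH, hH, hω, ← Complex.exp_nat_mul] at h1
    have h2 : y k = (y k * exp (e (y k))) * exp (-e (y k)) := by
      rw [mul_assoc, ← Complex.exp_add]; simp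
    have h3 : (k : ℂ) * (2 * Real.pi * I / q) = 2 * Real.pi * I * k / q := by ring
    calc y k = (y k * exp (e (y k))) * exp (-e (y k)) := h2
      _ = y 0 * exp (2 * Real.pi * I * k / q + e (y 0) - e (y k)) := by
        rw [h1, h3, Complex.exp_sub, Complex.exp_add, Complex.exp_neg]
        ring
  set θ : ℕ → ℝ := fun k => arg (y 0) + (2 * Real.pi * k / q + (e (y 0)).im - (e (y k)).im)
    with hθ
  have hpolar : ∀ k ≤ N0 * q, y k = (‖y k‖ : ℂ) * exp (θ k * I) := by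
    intro k hk
    have h1 := hyexp k hk
    set L := 2 * Real.pi * I * k / q + e (y 0) - e (y k) with hL
    have hLim : L.im = 2 * Real.pi * k / q + (e (y 0)).im - (e (y k)).im := by
      have h3 : L = ((2 * Real.pi * k / q : ℝ) : ℂ) * I + e (y 0) - e (y k) := by
        rw [hL]; push_cast; ring
      rw [h3]
      simp
    have h4 : y 0 = (‖y 0‖ : ℂ) * exp (arg (y 0) * I) := (Complex.norm_mul_exp_arg_mul_I _).symm
    have h5 : exp L = (Real.exp L.re : ℂ) * exp (L.im * I) := by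
      rw [Complex.ofReal_exp, ← Complex.exp_add, Complex.re_add_im]
    have h6 : y k = ((‖y 0‖ * Real.exp L.re : ℝ) : ℂ) * exp (θ k * I) := by
      rw [h1, h5]
      nth_rewrite 1 [h4]
      have h7 : exp (θ k * I) = exp (arg (y 0) * I) * exp (L.im * I) := by
        rw [← Complex.exp_add]
        congr 1
        rw [hLim, hθ]
        push_cast
        ring
      rw [h7]
      push_cast
      ring
    have h8 : ‖y k‖ = ‖y 0‖ * Real.exp L.re := by
      rw [h6, norm_mul, Complex.norm_exp_ofReal_mul_I, mul_one, Complex.norm_real,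
        Real.norm_eq_abs, abs_of_nonneg (by positivity)]
    rw [h8]
    exact h6
  obtain ⟨k, hkP, n, hkn⟩ := crossing θ P σ hσ.le (by
    have h1 : (P : ℝ) / q = ((j - i : ℕ) : ℝ) := by
      rw [hP]; push_cast; field_simp
    have h2 : (1 : ℝ) ≤ ((j - i : ℕ) : ℝ) := by
      have : 1 ≤ j - i := by omega
      exact_mod_cast this
    have h3 : 2 * Real.pi * 1 ≤ 2 * Real.pi * ((j - i : ℕ) : ℝ) :=
      mul_le_mul_of_nonneg_left h2 (by positivity)
    have h4 : 2 * Real.pi * (P : ℝ) / q = 2 * Real.pi * ((j - i : ℕ) : ℝ) := by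
      rw [mul_div_assoc, h1]
    simp only [hθ]
    rw [← hper, h4]
    simp only [Nat.cast_zero, mul_zero, zero_div, zero_add]
    linarith) (by
    intro k hk
    have h1 := hystep k (by omega)
    have h2 : dist (e (y (k + 1))) (e (y k)) < σ / 2 := by
      apply huce
      · simpa using hyR _ (by omega)
      · simpa using hyR _ (by omega)
      · rw [dist_eq_norm]; linarith
    have h3 : |(e (y (k + 1))).im - (e (y k)).im| < σ / 2 := by
      rw [dist_eq_norm] at h2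
      have := Complex.abs_im_le_norm (e (y (k + 1)) - e (y k))
      rw [Complex.sub_im] at this
      linarith
    have h4 : θ (k + 1) - θ k = 2 * Real.pi / q - ((e (y (k + 1))).im - (e (y k)).im) := by
      simp only [hθ]; push_cast; ring
    rw [h4]
    have h5 : |2 * Real.pi / q| ≤ σ / 2 := by
      rw [abs_of_nonneg (by positivity)]
      linarith
    calc |2 * Real.pi / q - ((e (y (k + 1))).im - (e (y k)).im)|
        ≤ |2 * Real.pi / q| + |(e (y (k + 1))).im - (e (y k)).im| := abs_sub _ _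
      _ ≤ σ := by linarith)
  have hkN : k ≤ N0 * q := hkP.trans hPN
  have hyk : y k ∈ h '' ball 0 R1 := by
    apply hthick
    rw [mem_thickening_iff]
    refine ⟨(‖y k‖ : ℂ), ⟨‖y k‖, ⟨norm_nonneg _, hyR k hkN⟩, rfl⟩, ?_⟩
    rw [dist_eq_norm]
    have h1 : exp (θ k * I) = exp (((θ k - 2 * Real.pi * n : ℝ) : ℂ) * I) := by
      have : (((θ k - 2 * Real.pi * n : ℝ) : ℂ) * I) = θ k * I - n * (2 * Real.pi * I) := by
        push_cast; ring
      rw [this, Complex.exp_sub, Complex.exp_int_mul_two_pi_mul_I, div_one]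
    have h2 : y k - (‖y k‖ : ℂ) = (‖y k‖ : ℂ) * (exp (I * ((θ k - 2 * Real.pi * n : ℝ) : ℂ)) - 1) := by
      rw [mul_comm I, ← h1, mul_sub, ← hpolar k hkN, mul_one]
    rw [h2, norm_mul, Complex.norm_real, norm_norm]
    have h3 := Real.norm_exp_I_mul_ofReal_sub_one_le (x := θ k - 2 * Real.pi * n)
    rw [Real.norm_eq_abs] at h3
    calc ‖y k‖ * ‖exp (I * ((θ k - 2 * Real.pi * n : ℝ) : ℂ)) - 1‖ ≤ R * σ :=
          mul_le_mul (hyR k hkN) (h3.trans hkn) (norm_nonneg _) hR.le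
      _ < δ1 := hRσ
  obtain ⟨ξk, hξk, hξyk⟩ := hyk
  -- (c) propagate
  have hprop : ∀ m, k + m ≤ N0 * q → y (k + m) = h (ω ^ m * ξk) := by
    intro m
    induction m with
    | zero => intro _; simp [hξyk]
    | succ m ih =>
      intro hm
      have ih' := ih (by omega)
      have hnorm : ∀ m, ‖ω ^ m * ξk‖ = ‖ξk‖ := by
        intro m; rw [norm_mul, norm_pow, hωn, one_pow, one_mul]
      have hξn : ‖ξk‖ < R1 := by simpa using hξk
      have hin : ∀ m, ω ^ m * ξk ∈ closedBall (0 : ℂ) R1 := by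
        intro m; rw [mem_closedBall, dist_zero_right, hnorm]; exact hξn.le
      symm
      have h3 : k + (m + 1) = k + m + 1 := by ring
      rw [h3]
      apply hinj (y (k + m + 1))
      · simpa using hyR _ (by omega)
      · have h1 := hystep (k + m) (by omega)
        have h2 : dist (h (ω ^ (m + 1) * ξk)) (h (ω ^ m * ξk)) < ρ1 / 2 := by
          apply huch _ (hin _) _ (hin _)
          rw [dist_eq_norm]
          have : ω ^ (m + 1) * ξk - ω ^ m * ξk = (ω - 1) * (ω ^ m * ξk) := by ring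
          rw [this, norm_mul, hnorm]
          have h5 : ‖ω - 1‖ ≤ 2 * Real.pi * ρ := hω1.trans hqinv
          calc ‖ω - 1‖ * ‖ξk‖ ≤ (2 * Real.pi * ρ) * R1 :=
                mul_le_mul h5 hξn.le (norm_nonneg _) (by positivity)
            _ < ρh := hρd
        rw [dist_eq_norm, ← ih'] at h2
        calc ‖h (ω ^ (m + 1) * ξk) - y (k + m + 1)‖
            = ‖(h (ω ^ (m + 1) * ξk) - y (k + m)) - (y (k + m + 1) - y (k + m))‖ := by ring_nf
          _ ≤ ‖h (ω ^ (m + 1) * ξk) - y (k + m)‖ + ‖y (k + m + 1) - y (k + m)‖ := norm_sub_le _ _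
          _ ≤ ρ1 := by linarith
      · rw [hyH (k + m) (by omega), ih', hHh _ (hsub (hin _)), hHh _ (hsub (hin _))]
        ring
  refine ⟨ω ^ (P - k) * ξk, ?_, ?_⟩
  · rw [mem_ball, dist_zero_right, norm_mul, norm_pow, hωn, one_pow, one_mul]
    simpa using hξk
  · have := hprop (P - k) (by omega)
    rw [← this, hper]
    congr 1
    omega

end Pool.Agent.H44.Crem
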