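import Mathlib

/-!
# Topological classification of Cremer points: common definitions

See `proof_MP_6629d0_an.md` in the team store for the mathematics.
-/

set_option autoImplicit false

open Complex Metric Set Filter Topology

namespace Pool.Agent.H44.Crem

/-- The sector map: for `ξ^m` in the slit plane, `sig m ξ` is the `m`-th root of unity nearest to
the direction of `ξ`. -/
noncomputable def sig (m : ℕ) (ξ : ℂ) : ℂ := ξ / (ξ ^ m) ^ ((1 : ℂ) / m) 

/-- `Bc h c j i t` : the composite `b_j ∘ b_{j+1} ∘ ⋯ ∘ b_{j+i-1}` at `t`, where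
`b_l(t) = ‖h_l (t c_{l+1})‖`. -/
noncomputable def Bc (h : ℕ → ℂ → ℂ) (c : ℕ → ℂ) (j : ℕ) : ℕ → ℝ → ℝ
  | 0, t => t
  | (i + 1), t => Bc h c j i ‖h (j + i) (t * c (j + i + 1))‖

/-- Fan coordinates on a compact set `K ∋ 0` of the plane: `D` is the strand (address) of a point
of `K \ {0}`, `r` the position on its strand, and `ell c` the length of the strand `c`. -/
structure FanCoord {C : Type} [TopologicalSpace C] (K : Set ℂ) (D : ℂ → C) (r : ℂ → ℝ)
    (ell : C → ℝ) : Prop where
  compact : IsCompact K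
  zero_mem : (0 : ℂ) ∈ K
  D_cont : ContinuousOn D (K \ {0})
  r_cont : ContinuousOn r K
  r_zero : r 0 = 0
  r_pos : ∀ z ∈ K, z ≠ 0 → 0 < r z
  inj : ∀ z ∈ K, ∀ w ∈ K, z ≠ 0 → w ≠ 0 → D z = D w → r z = r w → z = w
  surj : ∀ c s, 0 < s → (s ≤ ell c ↔ ∃ z ∈ K, z ≠ 0 ∧ D z = c ∧ r z = s)
  ell_nonneg : ∀ c, 0 ≤ ell c

/-- The hypotheses on a length function `ell` on a compact zero-dimensional space used in the
uniqueness theorem: positive somewhere on each nonempty clopen set, and (density of the endpoints)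
all smaller values are nearly attained as maxima on clopen subsets. -/
structure LelekLen {C : Type} [TopologicalSpace C] (ell : C → ℝ) : Prop where
  usc : UpperSemicontinuous ell
  nonneg : ∀ c, 0 ≤ ell c
  pos : ∀ V : Set C, IsClopen V → V.Nonempty → ∃ x ∈ V, 0 < ell x
  dense : ∀ V : Set C, IsClopen V → ∀ x ∈ V, ∀ t, 0 < t → t < ell x → ∀ ε > 0,
    ∃ V' ⊆ V, IsClopen V' ∧ (∀ y ∈ V', ell y ≤ t) ∧ ∃ y ∈ V', t - ε < ell y

end Pool.Agent.H44.Crem
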