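import Pool.Agent.H44.Crem.Defs

/-!
# M7a: elementary facts on the sector map `sig`
-/

set_option autoImplicit false
set_option maxHeartbeats 4000000

open Complex Metric Set Filter Topology

namespace Pool.Agent.H44.Crem

theorem norm_eq_one_of_pow {m : ℕ} (hm : 0 < m) {c : ℂ} (h : c ^ m = 1) : ‖c‖ = 1 :=
  Complex.norm_eq_one_of_pow_eq_one h hm.ne'

theorem sig_pow {m : ℕ} (hm : 0 < m) {ξ : ℂ} (h : ξ ≠ 0) : sig m ξ ^ m = 1 := by
  unfold sig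
  rw [div_pow]
  have h2 : ((ξ ^ m) ^ ((1 : ℂ) / m)) ^ m = ξ ^ m := by
    rw [one_div]; exact Complex.cpow_nat_inv_pow _ hm.ne'
  rw [h2]
  exact div_self (pow_ne_zero _ h)

theorem norm_sig {m : ℕ} (hm : 0 < m) {ξ : ℂ} (h : ξ ≠ 0) : ‖sig m ξ‖ = 1 :=
  norm_eq_one_of_pow hm (sig_pow hm h)

theorem sig_of_pow_eq_one {m : ℕ} {ξ : ℂ} (h : ξ ^ m = 1) : sig m ξ = ξ := by
  unfold sig
  rw [h, Complex.one_cpow, div_one]

theorem ne_zero_of_pow_slit {m : ℕ} (hm : 0 < m) {ξ : ℂ} (h : ξ ^ m ∈ slitPlane) : ξ ≠ 0 := by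
  rintro rfl
  rw [zero_pow hm.ne'] at h
  exact (slitPlane_ne_zero h) rfl

theorem continuousAt_sig {m : ℕ} (_hm : 0 < m) {ξ : ℂ} (h : ξ ^ m ∈ slitPlane) :
    ContinuousAt (sig m) ξ := by
  unfold sig
  have h0 : ξ ^ m ≠ 0 := slitPlane_ne_zero h
  refine ContinuousAt.div continuousAt_id ?_ ?_
  · exact ContinuousAt.cpow (continuousAt_id.pow m) continuousAt_const h
  · intro hz
    rw [Complex.cpow_eq_zero_iff] at hz
    exact h0 hz.1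

/-- polar form of the `m`-th root -/
theorem cpow_root {m : ℕ} (hm : 0 < m) {ξ : ℂ} (h : ξ ≠ 0) :
    (ξ ^ m) ^ ((1 : ℂ) / m) = (‖ξ‖ : ℂ) * exp (((arg (ξ ^ m) / m : ℝ) : ℂ) * I) := by
  have h0 : ξ ^ m ≠ 0 := pow_ne_zero _ h
  have hmC : (m : ℂ) ≠ 0 := by exact_mod_cast hm.ne'
  have hn : (0 : ℝ) < ‖ξ‖ := norm_pos_iff.mpr h
  rw [Complex.cpow_def_of_ne_zero h0]
  have h1 : log (ξ ^ m) = ((m * Real.log ‖ξ‖ : ℝ) : ℂ) + arg (ξ ^ m) * I := by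
    rw [Complex.log]
    rw [norm_pow, Real.log_pow]
  rw [h1]
  have h2 : (((m * Real.log ‖ξ‖ : ℝ) : ℂ) + arg (ξ ^ m) * I) * (1 / m) =
      ((Real.log ‖ξ‖ : ℝ) : ℂ) + ((arg (ξ ^ m) / m : ℝ) : ℂ) * I := by
    push_cast
    field_simp
  rw [h2, Complex.exp_add, ← Complex.ofReal_exp, Real.exp_log hn]

theorem sig_spec {m : ℕ} (hm : 0 < m) {ξ : ℂ} (h : ξ ≠ 0) :
    ξ = sig m ξ * ((‖ξ‖ : ℂ) * exp (((arg (ξ ^ m) / m : ℝ) : ℂ) * I)) := by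
  unfold sig
  rw [cpow_root hm h]
  rw [div_mul_cancel₀]
  apply mul_ne_zero
  · exact_mod_cast (norm_ne_zero_iff.mpr h)
  · exact exp_ne_zero _

/-- the characterisation of `sig` -/
theorem sig_polar {m : ℕ} (hm : 0 < m) {c : ℂ} (hc : c ^ m = 1) {r θ : ℝ} (hr : 0 < r)
    (h1 : -Real.pi < m * θ) (h2 : m * θ ≤ Real.pi) :
    sig m (c * ((r : ℂ) * exp ((θ : ℂ) * I))) = c := by
  have hmC : (m : ℂ) ≠ 0 := by exact_mod_cast hm.ne'
  have hmR : (m : ℝ) ≠ 0 := by exact_mod_cast hm.ne'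
  have hc0 : c ≠ 0 := by
    rintro rfl
    rw [zero_pow hm.ne'] at hc
    exact zero_ne_one hc
  have hrC : (r : ℂ) ≠ 0 := by exact_mod_cast hr.ne'
  set ξ := c * ((r : ℂ) * exp ((θ : ℂ) * I)) with hξ
  have hξ0 : ξ ≠ 0 := mul_ne_zero hc0 (mul_ne_zero hrC (exp_ne_zero _))
  have hnorm : ‖ξ‖ = r := by
    rw [hξ, norm_mul, norm_mul, norm_eq_one_of_pow hm hc, Complex.norm_exp_ofReal_mul_I]
    simp [abs_of_pos hr]
  have hpow : ξ ^ m = ((r ^ m : ℝ) : ℂ) * (Complex.cos ((m * θ : ℝ) : ℂ) +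
      Complex.sin ((m * θ : ℝ) : ℂ) * I) := by
    rw [hξ, mul_pow, hc, one_mul, mul_pow, ← Complex.exp_nat_mul, ← Complex.exp_mul_I]
    push_cast
    ring_nf
  have harg : arg (ξ ^ m) = m * θ := by
    rw [hpow]
    exact Complex.arg_mul_cos_add_sin_mul_I (pow_pos hr m) ⟨h1, h2⟩
  have hkey := sig_spec hm hξ0
  rw [harg, hnorm] at hkey
  have h3 : ((m * θ / m : ℝ) : ℂ) = (θ : ℂ) := by
    congr 1
    field_simp
  rw [h3] at hkey
  have h4 : (r : ℂ) * exp ((θ : ℂ) * I) ≠ 0 := mul_ne_zero hrC (exp_ne_zero _)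
  have h5 : c * ((r : ℂ) * exp ((θ : ℂ) * I)) = sig m ξ * ((r : ℂ) * exp ((θ : ℂ) * I)) := by
    rw [← hkey]
  exact (mul_right_cancel₀ h4 h5).symm

theorem norm_sub_sig_le {m : ℕ} (hm : 0 < m) {ξ : ℂ} (h : ξ ≠ 0) :
    ‖(‖ξ‖ : ℂ) * sig m ξ - ξ‖ ≤ ‖ξ‖ * (Real.pi / m) := by
  have hmR : (0 : ℝ) < m := by exact_mod_cast hm
  set θ : ℝ := arg (ξ ^ m) / m with hθ
  have hθle : |θ| ≤ Real.pi / m := by
    rw [hθ, abs_div, abs_of_pos hmR]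
    exact div_le_div_of_nonneg_right (Complex.abs_arg_le_pi _) hmR.le
  have hspec : ξ = sig m ξ * ((‖ξ‖ : ℂ) * exp ((θ : ℂ) * I)) := sig_spec hm h
  have h1 : (‖ξ‖ : ℂ) * sig m ξ - ξ = (‖ξ‖ : ℂ) * sig m ξ * (1 - exp (I * (θ : ℂ))) := by
    conv_lhs => rw [hspec]
    rw [show (‖sig m ξ * ((‖ξ‖ : ℂ) * exp ((θ : ℂ) * I))‖ : ℂ) = (‖ξ‖ : ℂ) by rw [← hspec]]
    rw [show sig m (sig m ξ * ((‖ξ‖ : ℂ) * exp ((θ : ℂ) * I))) = sig m ξ by rw [← hspec]]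
    ring_nf
  rw [h1, norm_mul, norm_mul, norm_sig hm h, norm_sub_rev]
  have h2 : ‖exp (I * (θ : ℂ)) - 1‖ ≤ ‖θ‖ := by
    exact Real.norm_exp_I_mul_ofReal_sub_one_le
  rw [Real.norm_eq_abs] at h2
  have h3 : ‖(‖ξ‖ : ℂ)‖ = ‖ξ‖ := by simp
  rw [h3, mul_one]
  exact mul_le_mul_of_nonneg_left (h2.trans hθle) (norm_nonneg _)

/-- a nonnegative multiple of a negative real is `≤ 0`, and odd powers are negative -/
theorem not_slit_iff_neg {w : ℂ} : w ∉ slitPlane ↔ ∃ x : ℝ, 0 ≤ x ∧ w = -(x : ℂ) := by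
  rw [Complex.mem_slitPlane_iff]
  constructor
  · intro h
    push Not at h
    refine ⟨-w.re, by linarith [h.1], ?_⟩
    apply Complex.ext
    · simp
    · simp [h.2]
  · rintro ⟨x, hx, rfl⟩
    simp [hx]

theorem not_slit_pow {w : ℂ} {k : ℕ} (hk : Odd k) (h : w ∉ slitPlane) : w ^ k ∉ slitPlane := by
  rw [not_slit_iff_neg] at h ⊢
  obtain ⟨x, hx, rfl⟩ := h
  refine ⟨x ^ k, pow_nonneg hx k, ?_⟩
  rw [hk.neg_pow]
  push_cast
  rfl

theorem slit_of_pow {w : ℂ} {k : ℕ} (hk : Odd k) (h : w ^ k ∈ slitPlane) : w ∈ slitPlane := by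
  by_contra h1
  exact not_slit_pow hk h1 h

theorem arg_lt_pi_of_slit {w : ℂ} (h : w ∈ slitPlane) : arg w < Real.pi := by
  rcases lt_or_eq_of_le (Complex.arg_le_pi w) with h1 | h1
  · exact h1
  · exact absurd h1 (Complex.mem_slitPlane_iff_arg.mp h).1

theorem sig_sig {m k : ℕ} (hm : 0 < m) (hk : Odd k) {ξ : ℂ} (h : ξ ^ (k * m) ∈ slitPlane) :
    sig m (sig (k * m) ξ) = sig m ξ := by
  have hk0 : 0 < k := hk.pos
  have hkm : 0 < k * m := Nat.mul_pos hk0 hm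
  have hξ : ξ ≠ 0 := ne_zero_of_pow_slit hkm h
  have hm' : ξ ^ m ∈ slitPlane := by
    apply slit_of_pow hk
    rw [← pow_mul, mul_comm m k]
    exact h
  have hmR : (0 : ℝ) < m := by exact_mod_cast hm
  have hkR : (0 : ℝ) < k := by exact_mod_cast hk0
  set θ : ℝ := arg (ξ ^ m) / m with hθ
  set ψ : ℝ := arg (ξ ^ (k * m)) / ((k * m : ℕ) : ℝ) with hψ
  have hmθ : m * θ = arg (ξ ^ m) := by rw [hθ]; field_simp
  have hkmψ : k * (m * ψ) = arg (ξ ^ (k * m)) := by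
    rw [hψ]
    push_cast
    field_simp
  have hs1 : ξ = sig m ξ * ((‖ξ‖ : ℂ) * exp ((θ : ℂ) * I)) := sig_spec hm hξ
  have hs2 : ξ = sig (k * m) ξ * ((‖ξ‖ : ℂ) * exp ((ψ : ℂ) * I)) := sig_spec hkm hξ
  have hnC : (‖ξ‖ : ℂ) ≠ 0 := by exact_mod_cast (norm_ne_zero_iff.mpr hξ)
  have hrel : sig (k * m) ξ = sig m ξ * (((1 : ℝ) : ℂ) * exp (((θ - ψ : ℝ) : ℂ) * I)) := by
    have h1 : sig (k * m) ξ * ((‖ξ‖ : ℂ) * exp ((ψ : ℂ) * I)) =
        sig m ξ * ((‖ξ‖ : ℂ) * exp ((θ : ℂ) * I)) := by rw [← hs1, ← hs2]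
    have h2 : exp (((θ - ψ : ℝ) : ℂ) * I) = exp ((θ : ℂ) * I) * exp (-((ψ : ℂ) * I)) := by
      rw [← Complex.exp_add]
      congr 1
      push_cast
      ring
    have h3 : exp ((ψ : ℂ) * I) * exp (-((ψ : ℂ) * I)) = 1 := by
      rw [← Complex.exp_add]
      simp
    rw [h2]
    have h4 : (‖ξ‖ : ℂ) * sig (k * m) ξ = (‖ξ‖ : ℂ) * (sig m ξ *
        (((1 : ℝ) : ℂ) * (exp ((θ : ℂ) * I) * exp (-((ψ : ℂ) * I))))) := by
      calc (‖ξ‖ : ℂ) * sig (k * m) ξ = sig (k * m) ξ * ((‖ξ‖ : ℂ) * exp ((ψ : ℂ) * I)) *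
            exp (-((ψ : ℂ) * I)) := by
            rw [mul_assoc, mul_assoc, h3]; ring
        _ = _ := by rw [h1]; push_cast; ring
    exact mul_left_cancel₀ hnC h4
  have hc1 : sig m ξ ^ m = 1 := sig_pow hm hξ
  have hc2 : sig (k * m) ξ ^ (k * m) = 1 := sig_pow hkm hξ
  -- the angle `θ - ψ` is a multiple of `2π/(km)`
  have hexp : exp ((((k : ℝ) * (m * (θ - ψ)) : ℝ) : ℂ) * I) = 1 := by
    have h1 : sig (k * m) ξ ^ (k * m) = exp ((((k : ℝ) * (m * (θ - ψ)) : ℝ) : ℂ) * I) := by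
      rw [hrel, mul_pow, mul_comm k m, pow_mul (sig m ξ), hc1, one_pow, one_mul, ofReal_one,
        one_mul, ← Complex.exp_nat_mul]
      congr 1
      push_cast
      ring
    rw [← h1, hc2]
  rw [Complex.exp_eq_one_iff] at hexp
  obtain ⟨l, hl⟩ := hexp
  have hlR : (k : ℝ) * (m * (θ - ψ)) = 2 * Real.pi * l := by
    have h1 := congrArg Complex.im hl
    simp at h1
    rw [h1]
    ring
  have hpi : 0 < Real.pi := Real.pi_pos
  have hb1 : |m * θ| < Real.pi := by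
    rw [hmθ, abs_lt]
    exact ⟨Complex.neg_pi_lt_arg _, arg_lt_pi_of_slit hm'⟩
  have hb2 : |k * (m * ψ)| < Real.pi := by
    rw [hkmψ, abs_lt]
    exact ⟨Complex.neg_pi_lt_arg _, arg_lt_pi_of_slit h⟩
  rw [abs_lt] at hb1 hb2
  have hl1 : 2 * (l : ℝ) < k + 1 := by
    have h1 : 2 * Real.pi * l < (k + 1) * Real.pi := by
      rw [← hlR]
      nlinarith [hb1.2, hb2.1]
    nlinarith
  have hl2 : -((k : ℝ) + 1) < 2 * (l : ℝ) := by
    have h1 : -((k + 1) * Real.pi) < 2 * Real.pi * l := by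
      rw [← hlR]
      nlinarith [hb1.1, hb2.2]
    nlinarith
  have hl1' : 2 * l < k + 1 := by exact_mod_cast hl1
  have hl2' : -((k : ℤ) + 1) < 2 * l := by exact_mod_cast hl2
  obtain ⟨q, hq⟩ := hk
  have hl3 : 2 * l ≤ (k : ℤ) - 1 := by omega
  have hl4 : -((k : ℤ) - 1) ≤ 2 * l := by omega
  have hl3' : 2 * (l : ℝ) ≤ k - 1 := by exact_mod_cast hl3
  have hl4' : -((k : ℝ) - 1) ≤ 2 * l := by exact_mod_cast hl4
  rw [hrel]
  apply sig_polar hm hc1 one_pos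
  · have h1 : (k : ℝ) * (-Real.pi) < k * (m * (θ - ψ)) := by
      rw [hlR]; nlinarith
    exact lt_of_mul_lt_mul_left h1 hkR.le
  · have h1 : (k : ℝ) * (m * (θ - ψ)) < k * Real.pi := by
      rw [hlR]; nlinarith
    exact (lt_of_mul_lt_mul_left h1 hkR.le).le

/-- roots of unity of odd order are in the slit plane -/
theorem slit_of_pow_eq_one {k : ℕ} (hk : Odd k) {c : ℂ} (h : c ^ k = 1) : c ∈ slitPlane := by
  apply slit_of_pow hk
  rw [h]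
  exact Complex.one_mem_slitPlane

theorem slit_pos_mul {x : ℝ} (hx : 0 < x) {w : ℂ} (h : w ∈ slitPlane) :
    (x : ℂ) * w ∈ slitPlane := by
  rw [Complex.mem_slitPlane_iff] at h ⊢
  rcases h with h | h
  · left
    simpa using mul_pos hx h
  · right
    simpa [hx.ne'] using h

theorem sig_pos_mul {m : ℕ} (hm : 0 < m) {x : ℝ} (hx : 0 < x) {c : ℂ} (hc : c ≠ 0) :
    sig m ((x : ℂ) * c) = sig m c := by
  have hspec := sig_spec hm hc
  set θ : ℝ := arg (c ^ m) / m with hθ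
  have hmR : (0 : ℝ) < m := by exact_mod_cast hm
  have hmθ : m * θ = arg (c ^ m) := by rw [hθ]; field_simp
  have h1 : (x : ℂ) * c = sig m c * (((x * ‖c‖ : ℝ) : ℂ) * exp ((θ : ℂ) * I)) := by
    conv_lhs => rw [hspec]
    push_cast
    ring
  rw [h1]
  apply sig_polar hm (sig_pow hm hc) (mul_pos hx (norm_pos_iff.mpr hc))
  · rw [hmθ]; exact Complex.neg_pi_lt_arg _
  · rw [hmθ]; exact Complex.arg_le_pi _

end Pool.Agent.H44.Crem
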