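import Pool.Agent.H44.Crem.FanSysDef
import Pool.Agent.H44.Crem.SigLemmas

/-!
# M7b: the one-dimensional composites `Bc` and the points of the fan
-/

set_option autoImplicit false
set_option maxHeartbeats 4000000

open Complex Metric Set Filter Topology

namespace Pool.Agent.H44.Crem

namespace FanSys

variable (s : FanSys)

theorem m_pos' : ∀ n, 0 < s.m n := by
  intro n
  induction n with
  | zero => exact s.m_pos
  | succ n ih =>
    rw [s.m_succ]
    exact Nat.mul_pos (by have := s.k_ge n; omega) ih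

theorem m_posR (n : ℕ) : (0 : ℝ) < s.m n := by exact_mod_cast s.m_pos' n

theorem m_succ_ge (n : ℕ) : 3 * s.m n ≤ s.m (n + 1) := by
  rw [s.m_succ]
  exact Nat.mul_le_mul_right _ (s.k_ge n)

theorem m_add_ge (j i : ℕ) : 3 ^ i * s.m j ≤ s.m (j + i) := by
  induction i with
  | zero => simp
  | succ i ih =>
    have := s.m_succ_ge (j + i)
    calc 3 ^ (i + 1) * s.m j = 3 * (3 ^ i * s.m j) := by ring
      _ ≤ 3 * s.m (j + i) := Nat.mul_le_mul_left _ ih
      _ ≤ _ := this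

theorem inv_m_le (j i : ℕ) : 1 / (s.m (j + i) : ℝ) ≤ 1 / s.m j * (1 / 3) ^ i := by
  have h1 : ((3 : ℝ) ^ i * s.m j) ≤ s.m (j + i) := by exact_mod_cast s.m_add_ge j i
  have h2 : (0 : ℝ) < 3 ^ i * s.m j := mul_pos (by positivity) (s.m_posR j)
  calc 1 / (s.m (j + i) : ℝ) ≤ 1 / (3 ^ i * s.m j) := one_div_le_one_div_of_le h2 h1
    _ = _ := by
      rw [one_div_pow]
      have := (s.m_posR j).ne'
      field_simp

theorem tendsto_inv_m : Tendsto (fun n => 1 / (s.m n : ℝ)) atTop (𝓝 0) := by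
  have h1 : Tendsto (fun n : ℕ => 1 / (s.m 0 : ℝ) * (1 / 3 : ℝ) ^ n) atTop (𝓝 0) := by
    have := (tendsto_pow_atTop_nhds_zero_of_lt_one (r := (1 / 3 : ℝ)) (by norm_num)
      (by norm_num)).const_mul (1 / (s.m 0 : ℝ))
    simpa using this
  apply squeeze_zero _ _ h1
  · intro n
    exact (one_div_pos.mpr (s.m_posR n)).le
  · intro n
    have := s.inv_m_le 0 n
    simpa using this

/-- one step of the one-dimensional dynamics -/
noncomputable def b (c : ℕ → ℂ) (l : ℕ) (t : ℝ) : ℝ := ‖s.h l (t * c (l + 1))‖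

theorem h_norm_le (n : ℕ) {ξ : ℂ} (h : ξ ∈ closedBall (0 : ℂ) 1) : ‖s.h n ξ‖ ≤ ‖ξ‖ := by
  have h1 : ‖ξ‖ ≤ 1 := by simpa using h
  exact (s.h_le n ξ h).trans (s.h_le' n _ ⟨norm_nonneg _, h1⟩)

theorem h_zero (n : ℕ) : s.h n 0 = 0 := by
  have := s.h_norm_le n (ξ := 0) (by simp)
  simpa using this

theorem h_mem (n : ℕ) {ξ : ℂ} (h : ξ ∈ closedBall (0 : ℂ) 1) : s.h n ξ ∈ closedBall (0 : ℂ) 1 := by
  have h1 : ‖ξ‖ ≤ 1 := by simpa using h
  simpa using (s.h_norm_le n h).trans h1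

theorem mul_mem {t : ℝ} (ht : t ∈ Icc (0 : ℝ) 1) {w : ℂ} (hw : ‖w‖ = 1) :
    (t : ℂ) * w ∈ closedBall (0 : ℂ) 1 := by
  simp [hw, abs_of_nonneg ht.1, ht.2]

theorem b_nonneg (c : ℕ → ℂ) (l : ℕ) (t : ℝ) : 0 ≤ s.b c l t := norm_nonneg _

theorem b_zero (c : ℕ → ℂ) (l : ℕ) : s.b c l 0 = 0 := by
  unfold b
  simp [s.h_zero]

variable {s} {c : ℕ → ℂ}

theorem b_le (hc : ∀ i, ‖c i‖ = 1) (l : ℕ) {t : ℝ} (ht : t ∈ Icc (0 : ℝ) 1) : s.b c l t ≤ t := by
  unfold b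
  have h1 := s.h_norm_le l (mul_mem ht (hc (l + 1)))
  have h2 : ‖(t : ℂ) * c (l + 1)‖ = t := by simp [hc, abs_of_nonneg ht.1]
  rwa [h2] at h1

theorem b_mem (hc : ∀ i, ‖c i‖ = 1) (l : ℕ) {t : ℝ} (ht : t ∈ Icc (0 : ℝ) 1) :
    s.b c l t ∈ Icc (0 : ℝ) 1 :=
  ⟨s.b_nonneg c l t, (b_le hc l ht).trans ht.2⟩

theorem b_mono (hc : ∀ i, ‖c i‖ = 1) (l : ℕ) : StrictMonoOn (s.b c l) (Icc 0 1) :=
  s.h_mono l (c (l + 1)) (hc _)

theorem b_cont (hc : ∀ i, ‖c i‖ = 1) (l : ℕ) : ContinuousOn (s.b c l) (Icc 0 1) := by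
  unfold b
  apply ContinuousOn.norm
  apply (s.h_cont l).comp
  · fun_prop
  · intro t ht
    exact mul_mem ht (hc _)

theorem Bc_zero (j : ℕ) (t : ℝ) : Bc s.h c j 0 t = t := rfl

theorem Bc_succ (j i : ℕ) (t : ℝ) : Bc s.h c j (i + 1) t = Bc s.h c j i (s.b c (j + i) t) := rfl

theorem Bc_succ' (j i : ℕ) (t : ℝ) :
    Bc s.h c j (i + 1) t = s.b c j (Bc s.h c (j + 1) i t) := by
  induction i generalizing t with
  | zero => rfl
  | succ i ih =>
    rw [Bc_succ, ih, Bc_succ]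
    rw [show j + (i + 1) = j + 1 + i by ring]

theorem Bc_add (j i i' : ℕ) (t : ℝ) :
    Bc s.h c j (i + i') t = Bc s.h c j i (Bc s.h c (j + i) i' t) := by
  induction i' generalizing t with
  | zero => rfl
  | succ i' ih =>
    rw [← add_assoc, Bc_succ, ih, Bc_succ, add_assoc]

theorem Bc_congr {c c' : ℕ → ℂ} (j i : ℕ) (h : ∀ l, j < l → l ≤ j + i → c l = c' l) (t : ℝ) :
    Bc s.h c j i t = Bc s.h c' j i t := by
  induction i generalizing t with
  | zero => rfl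
  | succ i ih =>
    rw [Bc_succ, Bc_succ, ih (fun l h1 h2 => h l h1 (by omega))]
    unfold b
    rw [h (j + i + 1) (by omega) (by omega)]

theorem Bc_mem (hc : ∀ i, ‖c i‖ = 1) (j i : ℕ) {t : ℝ} (ht : t ∈ Icc (0 : ℝ) 1) :
    Bc s.h c j i t ∈ Icc (0 : ℝ) 1 := by
  induction i generalizing t with
  | zero => exact ht
  | succ i ih => exact ih (b_mem hc _ ht)

theorem Bc_zero_right (j i : ℕ) : Bc s.h c j i 0 = 0 := by
  induction i with
  | zero => rfl
  | succ i ih => rw [Bc_succ, b_zero, ih]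

theorem Bc_strictMono (hc : ∀ i, ‖c i‖ = 1) (j i : ℕ) :
    StrictMonoOn (Bc s.h c j i) (Icc 0 1) := by
  induction i with
  | zero => exact fun x _ y _ h => h
  | succ i ih =>
    intro x hx y hy h
    exact ih (b_mem hc _ hx) (b_mem hc _ hy) (b_mono hc _ hx hy h)

theorem Bc_cont (hc : ∀ i, ‖c i‖ = 1) (j i : ℕ) : ContinuousOn (Bc s.h c j i) (Icc 0 1) := by
  induction i with
  | zero => exact continuousOn_id
  | succ i ih =>
    exact ih.comp (b_cont hc _) (fun x hx => b_mem hc _ hx)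

theorem Bc_le (hc : ∀ i, ‖c i‖ = 1) (j i : ℕ) {t : ℝ} (ht : t ∈ Icc (0 : ℝ) 1) :
    Bc s.h c j i t ≤ t := by
  induction i generalizing t with
  | zero => exact le_refl _
  | succ i ih => exact (ih (b_mem hc _ ht)).trans (b_le hc _ ht)

/-- joint continuity of the composites in the address and the parameter -/
theorem Bc_continuousOn {X : Type*} [TopologicalSpace X] {A : Set X} (cc : X → ℕ → ℂ) (t : X → ℝ)
    (hcc : ∀ j, ContinuousOn (fun z => cc z j) A) (hn : ∀ z ∈ A, ∀ j, ‖cc z j‖ = 1)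
    (ht : ContinuousOn t A) (hm : ∀ z ∈ A, t z ∈ Icc (0 : ℝ) 1) (j i : ℕ) :
    ContinuousOn (fun z => Bc s.h (cc z) j i (t z)) A := by
  induction i generalizing t with
  | zero => exact ht
  | succ i ih =>
    have h1 := ih (fun z => s.b (cc z) (j + i) (t z)) ?_ ?_
    · exact h1
    · unfold b
      apply ContinuousOn.norm
      apply (s.h_cont (j + i)).comp
      · apply ContinuousOn.mul _ (hcc _)
        exact Complex.continuous_ofReal.comp_continuousOn ht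
      · intro z hz
        exact mul_mem (hm z hz) (hn z hz _)
    · intro z hz
      exact b_mem (hn z hz) _ (hm z hz)

/-! ### points of the finite-level sets -/

theorem Lam_Gam (n : ℕ) {ξ : ℂ} (h : ξ ∈ closedBall (0 : ℂ) 1) : s.Lam n (s.Gam n ξ) = ξ := by
  induction n generalizing ξ with
  | zero => rw [s.Gam_zero, s.Lam_zero]
  | succ n ih => rw [s.Gam_succ, s.Lam_succ, ih (s.h_mem n h), s.H_h n ξ h]

variable (s)

/-- the finite-level sets -/
def P (n : ℕ) : Set ℂ := s.Gam n '' closedBall 0 1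

theorem P_succ (n : ℕ) : s.P (n + 1) ⊆ s.P n := by
  rintro _ ⟨ξ, hξ, rfl⟩
  exact ⟨s.h n ξ, s.h_mem n hξ, (s.Gam_succ n ξ).symm⟩

theorem P_anti : Antitone s.P := antitone_nat_of_succ_le s.P_succ

theorem mem_K {z : ℂ} : z ∈ s.K ↔ ∀ n, z ∈ s.P n := by
  unfold K P
  exact mem_iInter

theorem Gam_cont (n : ℕ) : ContinuousOn (s.Gam n) (closedBall 0 1) := by
  induction n with
  | zero =>
    have : s.Gam 0 = id := funext s.Gam_zero
    rw [this]
    exact continuousOn_id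
  | succ n ih =>
    have : s.Gam (n + 1) = s.Gam n ∘ s.h n := funext (s.Gam_succ n)
    rw [this]
    exact ih.comp (s.h_cont n) (fun ξ hξ => s.h_mem n hξ)

theorem Lam_cont (n : ℕ) : Continuous (s.Lam n) := by
  induction n with
  | zero =>
    have : s.Lam 0 = id := funext s.Lam_zero
    rw [this]
    exact continuous_id
  | succ n ih =>
    have : s.Lam (n + 1) = s.H n ∘ s.Lam n := funext (s.Lam_succ n)
    rw [this]
    exact (s.H_cont n).comp ih

theorem Lam_zero' (n : ℕ) : s.Lam n 0 = 0 := by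
  induction n with
  | zero => exact s.Lam_zero 0
  | succ n ih => rw [s.Lam_succ, ih, s.H_zero]

theorem Gam_zero' (n : ℕ) : s.Gam n 0 = 0 := by
  induction n with
  | zero => exact s.Gam_zero 0
  | succ n ih => rw [s.Gam_succ, s.h_zero, ih]

theorem P_compact (n : ℕ) : IsCompact (s.P n) :=
  (isCompact_closedBall 0 1).image_of_continuousOn (s.Gam_cont n)

theorem K_compact : IsCompact s.K := by
  have h1 : s.K ⊆ s.P 0 := fun z hz => s.mem_K.mp hz 0
  apply (s.P_compact 0).of_isClosed_subset _ h1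
  unfold K
  exact isClosed_iInter fun n => (s.P_compact n).isClosed

theorem zero_mem_K : (0 : ℂ) ∈ s.K := by
  rw [mem_K]
  intro n
  exact ⟨0, by simp, s.Gam_zero' n⟩

variable {s}

theorem P_Lam {M : ℕ} {z : ℂ} (hz : z ∈ s.P M) {j : ℕ} (hj : j ≤ M) :
    s.Lam j z ∈ closedBall (0 : ℂ) 1 ∧ s.Gam j (s.Lam j z) = z := by
  obtain ⟨ξ, hξ, rfl⟩ := s.P_anti hj hz
  rw [Lam_Gam j hξ]
  exact ⟨hξ, rfl⟩

theorem P_h {M : ℕ} {z : ℂ} (hz : z ∈ s.P M) {j : ℕ} (hj : j < M) :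
    s.h j (s.Lam (j + 1) z) = s.Lam j z := by
  obtain ⟨h1, h2⟩ := P_Lam hz (j := j + 1) hj
  have h3 : s.Gam j (s.h j (s.Lam (j + 1) z)) = z := by rw [← s.Gam_succ, h2]
  have h4 := congrArg (s.Lam j) h3
  rwa [Lam_Gam j (s.h_mem j h1)] at h4

theorem P_norm_le {M : ℕ} {z : ℂ} (hz : z ∈ s.P M) {j : ℕ} (hj : j < M) :
    ‖s.Lam j z‖ ≤ ‖s.Lam (j + 1) z‖ := by
  rw [← P_h hz hj]
  exact s.h_norm_le j (P_Lam hz (j := j + 1) hj).1

theorem K_Lam {z : ℂ} (hz : z ∈ s.K) (j : ℕ) :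
    s.Lam j z ∈ closedBall (0 : ℂ) 1 ∧ s.Gam j (s.Lam j z) = z :=
  P_Lam (s.mem_K.mp hz j) le_rfl

theorem K_norm {z : ℂ} (hz : z ∈ s.K) (j : ℕ) : ‖s.Lam j z‖ ∈ Icc (0 : ℝ) 1 :=
  ⟨norm_nonneg _, by simpa using (K_Lam hz j).1⟩

theorem K_h {z : ℂ} (hz : z ∈ s.K) (j : ℕ) : s.h j (s.Lam (j + 1) z) = s.Lam j z :=
  P_h (s.mem_K.mp hz (j + 1)) (Nat.lt_succ_self j)

theorem K_norm_le {z : ℂ} (hz : z ∈ s.K) (j : ℕ) : ‖z‖ ≤ ‖s.Lam j z‖ := by
  induction j with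
  | zero => rw [s.Lam_zero]
  | succ j ih => exact ih.trans (P_norm_le (s.mem_K.mp hz (j + 1)) (Nat.lt_succ_self j))

theorem K_ne_zero {z : ℂ} (hz : z ∈ s.K) (h0 : z ≠ 0) (j : ℕ) : s.Lam j z ≠ 0 := by
  have h1 := K_norm_le hz j
  have h2 : 0 < ‖z‖ := norm_pos_iff.mpr h0
  exact norm_pos_iff.mp (h2.trans_le h1)

/-- all coordinates of a point of the fan avoid the negative directions -/
theorem slit_all {z : ℂ} (hz : z ∈ s.K) (h0 : z ≠ 0) (j : ℕ) :
    s.Lam j z ^ s.m j ∈ slitPlane := by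
  by_contra hneg
  have key : ∀ i, s.Lam (j + i) z ^ s.m (j + i) ∉ slitPlane ∧
      2 ^ i * ‖s.Lam j z‖ ≤ ‖s.Lam (j + i) z‖ := by
    intro i
    induction i with
    | zero => exact ⟨hneg, by simp⟩
    | succ i ih =>
      obtain ⟨h1, h2⟩ := ih
      obtain ⟨h3, h4⟩ := s.H_neg (j + i) _ (K_ne_zero hz h0 (j + i)) h1
      rw [← s.Lam_succ] at h3 h4
      constructor
      · have h5 := not_slit_pow (s.k_odd (j + i)) h3
        rw [← pow_mul, mul_comm, ← s.m_succ] at h5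
        exact h5
      · calc 2 ^ (i + 1) * ‖s.Lam j z‖ = 2 * (2 ^ i * ‖s.Lam j z‖) := by ring
          _ ≤ 2 * ‖s.Lam (j + i) z‖ := by linarith
          _ ≤ _ := h4
  have hpos : 0 < ‖s.Lam j z‖ := norm_pos_iff.mpr (K_ne_zero hz h0 j)
  obtain ⟨i, hi⟩ := pow_unbounded_of_one_lt (1 / ‖s.Lam j z‖) (one_lt_two)
  have h1 := (key i).2
  have h2 := (K_norm hz (j + i)).2
  rw [div_lt_iff₀ hpos] at hi
  linarith

/-- **M7, first part.** -/
theorem slit' : ∀ z ∈ s.K, z ≠ 0 → z ^ s.m 0 ∈ slitPlane := by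
  intro z hz h0
  have := slit_all hz h0 0
  rwa [s.Lam_zero] at this

end FanSys

end Pool.Agent.H44.Crem
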