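import Pool.Agent.H44.Crem.FanBc

/-!
# M7c: the radial coordinate of a point of the fan
-/

set_option autoImplicit false
set_option maxHeartbeats 4000000

open Complex Metric Set Filter Topology

namespace Pool.Agent.H44.Crem

namespace FanSys

variable {s : FanSys} {c : ℕ → ℂ}

/-- a point `ξ` of level `j` lies in the open sector of `c j` -/
def Good (s : FanSys) (c : ℕ → ℂ) (j : ℕ) (ξ : ℂ) : Prop :=
  ξ ^ s.m j ∈ slitPlane ∧ sig (s.m j) ξ = c j

/-- an address -/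
structure IsAdr (s : FanSys) (c : ℕ → ℂ) : Prop where
  root : ∀ j, c j ^ s.m j = 1
  link : ∀ j, c j = sig (s.m j) (c (j + 1))

theorem IsAdr.norm (h : s.IsAdr c) (j : ℕ) : ‖c j‖ = 1 := norm_eq_one_of_pow (s.m_pos' j) (h.root j)

theorem Good.ne_zero {j : ℕ} {ξ : ℂ} (h : s.Good c j ξ) : ξ ≠ 0 :=
  ne_zero_of_pow_slit (s.m_pos' j) h.1

theorem Good.close {j : ℕ} {ξ : ℂ} (h : s.Good c j ξ) (h1 : ‖ξ‖ ≤ 1) :
    ‖(‖ξ‖ : ℂ) * c j - ξ‖ ≤ 4 / s.m j := by
  rw [← h.2]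
  have h2 := norm_sub_sig_le (s.m_pos' j) h.ne_zero
  have h3 : ‖ξ‖ * (Real.pi / s.m j) ≤ 1 * (Real.pi / s.m j) :=
    mul_le_mul_of_nonneg_right h1 (div_nonneg Real.pi_pos.le (s.m_posR j).le)
  have h4 : Real.pi / s.m j ≤ 4 / s.m j :=
    div_le_div_of_nonneg_right Real.pi_le_four (s.m_posR j).le
  linarith

theorem Good.down (hc : s.IsAdr c) {j : ℕ} {ξ : ℂ} (h : s.Good c (j + 1) ξ)
    (h1 : ξ ∈ closedBall (0 : ℂ) 1) : s.Good c j (s.h j ξ) := by
  have h2 : ξ ^ (s.k j * s.m j) ∈ slitPlane := by rw [← s.m_succ]; exact h.1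
  have h3 : ξ ^ s.m j ∈ slitPlane := by
    apply slit_of_pow (s.k_odd j)
    rw [← pow_mul, mul_comm]
    exact h2
  refine ⟨(s.h_slit j ξ h1).mp h3, ?_⟩
  rw [s.h_sig j ξ h1 h3, ← sig_sig (s.m_pos' j) (s.k_odd j) h2, ← s.m_succ, h.2]
  exact (hc.link j).symm

theorem Good.of_mul (hc : s.IsAdr c) (j : ℕ) {x : ℝ} (hx : 0 < x) : s.Good c j ((x : ℂ) * c j) := by
  have h0 : c j ≠ 0 := by
    intro h
    have := hc.norm j
    rw [h] at this
    simp at this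
  refine ⟨?_, ?_⟩
  · rw [mul_pow, hc.root, mul_one, ← Complex.ofReal_pow]
    exact Complex.ofReal_mem_slitPlane.mpr (pow_pos hx _)
  · rw [sig_pos_mul (s.m_pos' j) hx h0, sig_of_pow_eq_one (hc.root j)]

/-- the address of a point of the fan -/
noncomputable def adr (s : FanSys) (z : ℂ) (j : ℕ) : ℂ := sig (s.m j) (s.Lam j z)

theorem adr_good {z : ℂ} (hz : z ∈ s.K) (h0 : z ≠ 0) (j : ℕ) :
    s.Good (s.adr z) j (s.Lam j z) := ⟨slit_all hz h0 j, rfl⟩

theorem adr_isAdr {z : ℂ} (hz : z ∈ s.K) (h0 : z ≠ 0) : s.IsAdr (s.adr z) := by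
  constructor
  · intro j
    exact sig_pow (s.m_pos' j) (K_ne_zero hz h0 j)
  · intro j
    unfold adr
    have h1 := slit_all hz h0 (j + 1)
    rw [s.m_succ] at h1
    have h3 : s.Lam (j + 1) z ^ s.m j ∈ slitPlane := by
      apply slit_of_pow (s.k_odd j)
      rw [← pow_mul, mul_comm]
      exact h1
    rw [s.m_succ, sig_sig (s.m_pos' j) (s.k_odd j) h1, ← s.h_sig j _ (K_Lam hz (j + 1)).1 h3,
      K_h hz j]

/-- the basic one-step estimate -/
theorem step_est (hc : ∀ i, ‖c i‖ = 1) {n j : ℕ} (hj : j ≤ n) {ξ : ℂ}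
    (h1 : ξ ∈ closedBall (0 : ℂ) 1) (h2 : ‖(‖ξ‖ : ℂ) * c (n + 1) - ξ‖ ≤ 7 / s.m (n + 1)) :
    |Bc s.h c j (n + 1 - j) ‖ξ‖ - Bc s.h c j (n - j) ‖s.h n ξ‖| ≤ 1 / s.m n := by
  have h3 : n + 1 - j = (n - j) + 1 := by omega
  rw [h3, Bc_succ]
  have h4 : j + (n - j) = n := by omega
  rw [h4]
  unfold b
  have h5 : ‖ξ‖ ∈ Icc (0 : ℝ) 1 := ⟨norm_nonneg _, by simpa using h1⟩
  exact s.condA n j hj c hc _ (mul_mem h5 (hc _)) _ h1 h2

theorem geo_bound (i : ℕ) : ∑ l ∈ Finset.range i, ((1 : ℝ) / 3) ^ l ≤ 3 / 2 := by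
  rw [geom_sum_eq (by norm_num)]
  have : (0 : ℝ) < (1 / 3) ^ i := by positivity
  rw [div_le_iff_of_neg (by norm_num)]
  linarith

/-- finite-level comparison of `‖Lam j z‖` and the composite -/
theorem fin_est (hc : s.IsAdr c) {M : ℕ} {z : ℂ} (hz : z ∈ s.P M)
    (hg : ∀ j ≤ M, s.Good c j (s.Lam j z)) {j i : ℕ} (hji : j + i ≤ M) :
    |Bc s.h c j i ‖s.Lam (j + i) z‖ - ‖s.Lam j z‖| ≤
      1 / s.m j * ∑ l ∈ Finset.range i, ((1 : ℝ) / 3) ^ l := by
  induction i with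
  | zero => simp [Bc_zero]
  | succ i ih =>
    have ih' := ih (by omega)
    have h1 : s.Lam (j + (i + 1)) z ∈ closedBall (0 : ℂ) 1 := (P_Lam hz hji).1
    have h2 := (hg _ hji).close (by simpa using h1)
    have h3 : ‖(‖s.Lam (j + i + 1) z‖ : ℂ) * c (j + i + 1) - s.Lam (j + i + 1) z‖ ≤
        7 / s.m (j + i + 1) := by
      refine h2.trans (div_le_div_of_nonneg_right (by norm_num) (s.m_posR _).le)
    have h4 := step_est hc.norm (n := j + i) (j := j) (by omega) h1 h3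
    rw [show j + i + 1 - j = i + 1 by omega, show j + i - j = i by omega] at h4
    have h5 : s.h (j + i) (s.Lam (j + (i + 1)) z) = s.Lam (j + i) z := P_h hz (by omega)
    rw [h5] at h4
    have h6 := s.inv_m_le j i
    rw [Finset.sum_range_succ, mul_add]
    have h7 := abs_sub_le (Bc s.h c j (i + 1) ‖s.Lam (j + (i + 1)) z‖)
      (Bc s.h c j i ‖s.Lam (j + i) z‖) ‖s.Lam j z‖
    linarith

/-- the finite-level sequence has geometric increments on the fan -/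
theorem K_step {z : ℂ} (hz : z ∈ s.K) (h0 : z ≠ 0) (j i : ℕ) :
    dist (Bc s.h (s.adr z) j i ‖s.Lam (j + i) z‖)
      (Bc s.h (s.adr z) j (i + 1) ‖s.Lam (j + (i + 1)) z‖) ≤ 1 / s.m j * (1 / 3) ^ i := by
  have hc := adr_isAdr hz h0
  have h1 : s.Lam (j + (i + 1)) z ∈ closedBall (0 : ℂ) 1 := (K_Lam hz _).1
  have h2 := (adr_good hz h0 (j + (i + 1))).close (by simpa using h1)
  have h3 : ‖(‖s.Lam (j + i + 1) z‖ : ℂ) * s.adr z (j + i + 1) - s.Lam (j + i + 1) z‖ ≤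
      7 / s.m (j + i + 1) := by
    refine h2.trans (div_le_div_of_nonneg_right (by norm_num) (s.m_posR _).le)
  have h4 := step_est hc.norm (n := j + i) (j := j) (by omega) h1 h3
  rw [show j + i + 1 - j = i + 1 by omega, show j + i - j = i by omega] at h4
  have h5 : s.h (j + i) (s.Lam (j + (i + 1)) z) = s.Lam (j + i) z := K_h hz _
  rw [h5] at h4
  have h6 := s.inv_m_le j i
  rw [dist_comm, Real.dist_eq]
  linarith

/-- the radial coordinate of level `j` -/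
noncomputable def rho (s : FanSys) (z : ℂ) (j : ℕ) : ℝ :=
  limUnder atTop (fun i => Bc s.h (s.adr z) j i ‖s.Lam (j + i) z‖)

theorem rho_tendsto {z : ℂ} (hz : z ∈ s.K) (h0 : z ≠ 0) (j : ℕ) :
    Tendsto (fun i => Bc s.h (s.adr z) j i ‖s.Lam (j + i) z‖) atTop (𝓝 (s.rho z j)) := by
  have h1 : CauchySeq (fun i => Bc s.h (s.adr z) j i ‖s.Lam (j + i) z‖) :=
    cauchySeq_of_le_geometric (1 / 3) (1 / s.m j) (by norm_num) (K_step hz h0 j)
  exact h1.tendsto_limUnder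

theorem rho_dist {z : ℂ} (hz : z ∈ s.K) (h0 : z ≠ 0) (j i : ℕ) :
    dist (Bc s.h (s.adr z) j i ‖s.Lam (j + i) z‖) (s.rho z j) ≤
      1 / s.m j * (1 / 3) ^ i / (1 - 1 / 3) :=
  dist_le_of_le_geometric_of_tendsto (1 / 3) (1 / s.m j) (by norm_num) (K_step hz h0 j)
    (rho_tendsto hz h0 j) i

theorem rho_close {z : ℂ} (hz : z ∈ s.K) (h0 : z ≠ 0) (j : ℕ) :
    |‖s.Lam j z‖ - s.rho z j| ≤ 3 / 2 * (1 / s.m j) := by
  have h1 := rho_dist hz h0 j 0
  rw [Real.dist_eq] at h1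
  simp only [Bc_zero, add_zero, pow_zero, mul_one] at h1
  have h2 : 1 / (s.m j : ℝ) / (1 - 1 / 3) = 3 / 2 * (1 / s.m j) := by
    rw [show (1 - 1 / 3 : ℝ) = 2 / 3 by norm_num]
    ring
  linarith

theorem rho_mem {z : ℂ} (hz : z ∈ s.K) (h0 : z ≠ 0) (j : ℕ) : s.rho z j ∈ Icc (0 : ℝ) 1 := by
  apply isClosed_Icc.mem_of_tendsto (rho_tendsto hz h0 j)
  apply Eventually.of_forall
  intro i
  exact Bc_mem (adr_isAdr hz h0).norm j i (K_norm hz _)

theorem rho_succ {z : ℂ} (hz : z ∈ s.K) (h0 : z ≠ 0) (j : ℕ) :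
    s.rho z j = s.b (s.adr z) j (s.rho z (j + 1)) := by
  have hc := (adr_isAdr hz h0).norm
  have h1 := rho_tendsto hz h0 (j + 1)
  have h2 := (tendsto_add_atTop_iff_nat 1).mpr (rho_tendsto hz h0 j)
  have h3 : Tendsto (fun i => s.b (s.adr z) j
      (Bc s.h (s.adr z) (j + 1) i ‖s.Lam (j + 1 + i) z‖)) atTop
      (𝓝 (s.b (s.adr z) j (s.rho z (j + 1)))) := by
    have h4 := b_cont (s := s) hc j (s.rho z (j + 1)) (rho_mem hz h0 (j + 1))
    apply h4.tendsto.comp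
    apply tendsto_nhdsWithin_of_tendsto_nhds_of_eventually_within _ h1
    apply Eventually.of_forall
    intro i
    exact Bc_mem hc _ _ (K_norm hz _)
  apply tendsto_nhds_unique h2
  apply h3.congr
  intro i
  rw [Bc_succ', show j + 1 + i = j + (i + 1) by ring]

theorem rho_pos {z : ℂ} (hz : z ∈ s.K) (h0 : z ≠ 0) (j : ℕ) : 0 < s.rho z j := by
  by_contra hneg
  have hzero : ∀ i, s.rho z (j + i) = 0 := by
    intro i
    induction i with
    | zero => exact le_antisymm (not_lt.mp hneg) (rho_mem hz h0 j).1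
    | succ i ih =>
      rw [rho_succ hz h0] at ih
      have hc := (adr_isAdr hz h0).norm
      have h1 : s.b (s.adr z) (j + i) (s.rho z (j + i + 1)) = s.b (s.adr z) (j + i) 0 := by
        rw [ih, b_zero]
      exact (b_mono hc (j + i)).injOn (rho_mem hz h0 _) ⟨le_rfl, zero_le_one⟩ h1
  have hn : 0 < ‖z‖ := norm_pos_iff.mpr h0
  have h1 : Tendsto (fun i => 3 / 2 * (1 / (s.m (j + i) : ℝ))) atTop (𝓝 0) := by
    have h2 := (s.tendsto_inv_m.comp (tendsto_add_atTop_nat j)).const_mul (3 / 2)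
    rw [mul_zero] at h2
    apply h2.congr
    intro i
    simp only [Function.comp]
    rw [add_comm]
  obtain ⟨i, hi⟩ := (h1.eventually (gt_mem_nhds hn)).exists
  have h2 := rho_close hz h0 (j + i)
  rw [hzero i, sub_zero, abs_of_nonneg (norm_nonneg _)] at h2
  have h3 := K_norm_le hz (j + i)
  linarith

/-- injectivity of the coordinates -/
theorem rho_inj {z w : ℂ} (hz : z ∈ s.K) (hw : w ∈ s.K) (z0 : z ≠ 0) (w0 : w ≠ 0)
    (hadr : s.adr z = s.adr w) (hr : s.rho z 0 = s.rho w 0) : z = w := by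
  have hc := (adr_isAdr hz z0).norm
  have heq : ∀ j, s.rho z j = s.rho w j := by
    intro j
    induction j with
    | zero => exact hr
    | succ j ih =>
      rw [rho_succ hz z0, rho_succ hw w0, ← hadr] at ih
      exact (b_mono hc j).injOn (rho_mem hz z0 _) (rho_mem hw w0 _) ih
  have hclose : ∀ j, ‖s.Lam j z - s.Lam j w‖ ≤ 12 / s.m j := by
    intro j
    have hm := s.m_posR j
    have h1 := (adr_good hz z0 j).close (K_norm hz j).2
    have h2 := (adr_good hw w0 j).close (K_norm hw j).2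
    have h3 := rho_close hz z0 j
    have h4 := rho_close hw w0 j
    rw [heq j] at h3
    rw [← hadr] at h2
    have h5 : |‖s.Lam j z‖ - ‖s.Lam j w‖| ≤ 3 * (1 / s.m j) := by
      rw [abs_le] at h3 h4 ⊢
      constructor <;> linarith [h3.1, h3.2, h4.1, h4.2]
    have h6 : ‖(‖s.Lam j z‖ : ℂ) * s.adr z j - (‖s.Lam j w‖ : ℂ) * s.adr z j‖ ≤
        3 * (1 / s.m j) := by
      rw [← sub_mul, norm_mul, hc, mul_one, ← Complex.ofReal_sub, Complex.norm_real,
        Real.norm_eq_abs]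
      exact h5
    have h7 : s.Lam j z - s.Lam j w =
        -((‖s.Lam j z‖ : ℂ) * s.adr z j - s.Lam j z) +
        (((‖s.Lam j w‖ : ℂ) * s.adr z j - s.Lam j w) +
        ((‖s.Lam j z‖ : ℂ) * s.adr z j - (‖s.Lam j w‖ : ℂ) * s.adr z j)) := by ring
    rw [h7]
    have h8 := norm_add_le (-((‖s.Lam j z‖ : ℂ) * s.adr z j - s.Lam j z))
        (((‖s.Lam j w‖ : ℂ) * s.adr z j - s.Lam j w) +
        ((‖s.Lam j z‖ : ℂ) * s.adr z j - (‖s.Lam j w‖ : ℂ) * s.adr z j))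
    have h9 := norm_add_le ((‖s.Lam j w‖ : ℂ) * s.adr z j - s.Lam j w)
        ((‖s.Lam j z‖ : ℂ) * s.adr z j - (‖s.Lam j w‖ : ℂ) * s.adr z j)
    rw [norm_neg] at h8
    have h10 : (12 : ℝ) / s.m j = 4 / s.m j + (4 / s.m j + 4 * (1 / s.m j)) := by
      field_simp
      norm_num
    have h11 : 0 < 1 / (s.m j : ℝ) := one_div_pos.mpr hm
    rw [h10]
    linarith
  have hdist : ∀ n : ℕ, ‖z - w‖ ≤ (1 / 2) ^ n := by
    intro n
    have h1 := s.condB n _ (K_Lam hz (n + 1)).1 _ (K_Lam hw (n + 1)).1 (hclose (n + 1))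
    rwa [(K_Lam hz (n + 1)).2, (K_Lam hw (n + 1)).2] at h1
  have hlim : Tendsto (fun n : ℕ => (1 / 2 : ℝ) ^ n) atTop (𝓝 0) :=
    tendsto_pow_atTop_nhds_zero_of_lt_one (by norm_num) (by norm_num)
  have h1 : ‖z - w‖ ≤ 0 := ge_of_tendsto' hlim hdist
  have h2 : ‖z - w‖ = 0 := le_antisymm h1 (norm_nonneg _)
  exact sub_eq_zero.mp (norm_eq_zero.mp h2)

end FanSys

end Pool.Agent.H44.Crem
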