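import Pool.Agent.H44.Crem.Defs

/-!
# M9: fans with proportional length functions are homeomorphic
-/

set_option autoImplicit false

open Complex Metric Set Filter Topology

namespace Pool.Agent.H44.Crem

theorem FanCoord.usc {C : Type} [TopologicalSpace C] [T2Space C] {K : Set ℂ} {D : ℂ → C}
    {r : ℂ → ℝ} {ell : C → ℝ} (hK : FanCoord K D r ell) : UpperSemicontinuous ell := by
  rw [upperSemicontinuous_iff_isClosed_preimage]
  intro y
  rcases le_or_gt y 0 with hy | hy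
  · have h : ell ⁻¹' Ici y = univ := eq_univ_of_forall fun c => hy.trans (hK.ell_nonneg c)
    rw [h]
    exact isClosed_univ
  · have h : ell ⁻¹' Ici y = D '' (K ∩ r ⁻¹' {y}) := by
      ext c
      constructor
      · intro hc
        obtain ⟨z, hz, -, h1, h2⟩ := (hK.surj c y hy).1 hc
        exact ⟨z, ⟨hz, h2⟩, h1⟩
      · rintro ⟨z, ⟨hz, h2⟩, h1⟩
        have hz0 : z ≠ 0 := by
          rintro rfl
          have h3 : r 0 = y := h2
          rw [hK.r_zero] at h3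
          exact hy.ne h3
        exact (hK.surj c y hy).2 ⟨z, hz, hz0, h1, h2⟩
    rw [h]
    have hc : IsCompact (K ∩ r ⁻¹' {y}) := by
      have h1 : IsClosed (K ∩ r ⁻¹' {y}) :=
        hK.r_cont.preimage_isClosed_of_isClosed hK.compact.isClosed isClosed_singleton
      exact hK.compact.of_isClosed_subset h1 inter_subset_left
    refine (hc.image_of_continuousOn (hK.D_cont.mono ?_)).isClosed
    rintro z ⟨hz, h2⟩
    refine ⟨hz, ?_⟩
    rintro rfl
    have h3 : r 0 = y := h2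
    rw [hK.r_zero] at h3
    exact hy.ne h3

theorem FanCoord.r_nonneg {C : Type} [TopologicalSpace C] {K : Set ℂ} {D : ℂ → C}
    {r : ℂ → ℝ} {ell : C → ℝ} (hK : FanCoord K D r ell) {z : ℂ} (hz : z ∈ K) : 0 ≤ r z := by
  by_cases h : z = 0
  · rw [h, hK.r_zero]
  · exact (hK.r_pos z hz h).le

theorem fan_cont {C C' : Type} [TopologicalSpace C] [CompactSpace C] [T2Space C]
    [TopologicalSpace C'] [T2Space C'] {K K' : Set ℂ}
    {D : ℂ → C} {r : ℂ → ℝ} {ell : C → ℝ} {D' : ℂ → C'} {r' : ℂ → ℝ} {ell' : C' → ℝ}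
    (hK : FanCoord K D r ell) (hK' : FanCoord K' D' r' ell')
    {φ : C → C'} (hφ : Continuous φ) {lam : C → ℝ} (hlam : Continuous lam) {F : ℂ → ℂ}
    (hF : ∀ z ∈ K, z ≠ 0 → F z ∈ K' ∧ F z ≠ 0 ∧ D' (F z) = φ (D z) ∧ r' (F z) = lam (D z) * r z)
    (hF0 : F 0 = 0) : ContinuousOn F K := by
  have hFK : ∀ z ∈ K, F z ∈ K' := by
    intro z hz
    by_cases h : z = 0
    · rw [h, hF0]; exact hK'.zero_mem
    · exact (hF z hz h).1
  intro z hz
  show Tendsto F (𝓝[K] z) (𝓝 (F z))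
  rw [tendsto_iff_ultrafilter]
  intro U hU
  have hKU : K ∈ U := hU self_mem_nhdsWithin
  have hUz : (U : Filter ℂ) ≤ 𝓝 z := hU.trans nhdsWithin_le_nhds
  have h1 : K' ∈ U.map F := by
    rw [Ultrafilter.mem_map]
    exact mem_of_superset hKU fun x hx => hFK x hx
  obtain ⟨w, hw, hUw⟩ := hK'.compact.ultrafilter_le_nhds (U.map F) (le_principal_iff.2 h1)
  have hFw : Tendsto F U (𝓝 w) := hUw
  have hFw' : Tendsto F U (𝓝[K'] w) :=
    tendsto_nhdsWithin_iff.2 ⟨hFw, mem_of_superset hKU fun x hx => hFK x hx⟩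
  have hr' : Tendsto (fun x => r' (F x)) U (𝓝 (r' w)) := (hK'.r_cont w hw).tendsto.comp hFw'
  have hr : Tendsto r U (𝓝 (r z)) := (hK.r_cont z hz).tendsto.mono_left hU
  suffices hwz : w = F z by rw [← hwz]; exact hFw
  by_cases hz0 : z = 0
  · subst hz0
    obtain ⟨B, hB⟩ := (isCompact_univ.image hlam).bddAbove
    have hB' : ∀ c, lam c ≤ max B 0 := fun c =>
      (hB (mem_image_of_mem lam (mem_univ c))).trans (le_max_left _ _)
    have h2 : ∀ᶠ x in (U : Filter ℂ), r' (F x) ≤ max B 0 * r x := by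
      filter_upwards [hKU] with x hx
      by_cases hx0 : x = 0
      · rw [hx0, hF0, hK'.r_zero, hK.r_zero, mul_zero]
      · rw [(hF x hx hx0).2.2.2]
        exact mul_le_mul_of_nonneg_right (hB' _) (hK.r_nonneg hx)
    have h3 : Tendsto (fun x => max B 0 * r x) U (𝓝 (max B 0 * r 0)) := hr.const_mul _
    have h4 : r' w ≤ max B 0 * r 0 := le_of_tendsto_of_tendsto hr' h3 h2
    rw [hK.r_zero, mul_zero] at h4
    by_contra hne
    rw [hF0] at hne
    exact absurd (hK'.r_pos w hw hne) (not_lt.2 h4)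
  · have hne : {x : ℂ | x ≠ 0} ∈ U := hUz (isOpen_ne.mem_nhds hz0)
    have hKU' : K \ {0} ∈ U := by
      filter_upwards [hKU, hne] with x hx hx0
      exact ⟨hx, hx0⟩
    have hUz' : (U : Filter ℂ) ≤ 𝓝[K \ {0}] z := le_inf hUz (le_principal_iff.2 hKU')
    have hD : Tendsto D U (𝓝 (D z)) := (hK.D_cont z ⟨hz, hz0⟩).tendsto.mono_left hUz'
    have h2 : Tendsto (fun x => lam (D x) * r x) U (𝓝 (lam (D z) * r z)) :=
      ((hlam.tendsto _).comp hD).mul hr
    have h3 : (fun x => r' (F x)) =ᶠ[(U : Filter ℂ)] fun x => lam (D x) * r x := by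
      filter_upwards [hKU'] with x hx
      exact (hF x hx.1 hx.2).2.2.2
    have h4 : r' w = lam (D z) * r z := tendsto_nhds_unique (hr'.congr' h3) h2
    have h5 : r' w = r' (F z) := by rw [h4, (hF z hz hz0).2.2.2]
    have hFz := hF z hz hz0
    have hw0 : w ≠ 0 := by
      rintro rfl
      rw [hK'.r_zero] at h5
      exact (hK'.r_pos _ hFz.1 hFz.2.1).ne h5
    have h6 : Tendsto F U (𝓝[K' \ {0}] w) := by
      refine tendsto_nhdsWithin_iff.2 ⟨hFw, ?_⟩
      filter_upwards [hKU'] with x hx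
      exact ⟨(hF x hx.1 hx.2).1, (hF x hx.1 hx.2).2.1⟩
    have h7 : Tendsto (fun x => D' (F x)) U (𝓝 (D' w)) :=
      (hK'.D_cont w ⟨hw, hw0⟩).tendsto.comp h6
    have h8 : (fun x => D' (F x)) =ᶠ[(U : Filter ℂ)] fun x => φ (D x) := by
      filter_upwards [hKU'] with x hx
      exact (hF x hx.1 hx.2).2.2.1
    have h9 : Tendsto (fun x => φ (D x)) U (𝓝 (φ (D z))) := (hφ.tendsto _).comp hD
    have h10 : D' w = D' (F z) := by
      rw [tendsto_nhds_unique (h7.congr' h8) h9, hFz.2.2.1]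
    exact hK'.inj w hw _ hFz.1 hw0 hFz.2.1 h10 h5

theorem fan_exists {C C' : Type} [TopologicalSpace C]
    [TopologicalSpace C'] {K K' : Set ℂ}
    {D : ℂ → C} {r : ℂ → ℝ} {ell : C → ℝ} {D' : ℂ → C'} {r' : ℂ → ℝ} {ell' : C' → ℝ}
    (hK : FanCoord K D r ell) (hK' : FanCoord K' D' r' ell')
    (φ : C → C') (lam : C → ℝ) (hpos : ∀ x, 0 < lam x)
    (hφ : ∀ x, ell' (φ x) = lam x * ell x) :
    ∃ F : ℂ → ℂ, F 0 = 0 ∧ ∀ z ∈ K, z ≠ 0 →
      F z ∈ K' ∧ F z ≠ 0 ∧ D' (F z) = φ (D z) ∧ r' (F z) = lam (D z) * r z := by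
  have h : ∀ z : ℂ, ∃ w : ℂ, (z = 0 → w = 0) ∧ (z ∈ K → z ≠ 0 →
      w ∈ K' ∧ w ≠ 0 ∧ D' w = φ (D z) ∧ r' w = lam (D z) * r z) := by
    intro z
    by_cases hz0 : z = 0
    · exact ⟨0, fun _ => rfl, fun _ h => absurd hz0 h⟩
    · by_cases hz : z ∈ K
      · have h1 : 0 < r z := hK.r_pos z hz hz0
        have h2 : r z ≤ ell (D z) := (hK.surj (D z) (r z) h1).2 ⟨z, hz, hz0, rfl, rfl⟩
        have h3 : 0 < lam (D z) * r z := mul_pos (hpos _) h1
        have h4 : lam (D z) * r z ≤ ell' (φ (D z)) := by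
          rw [hφ]
          exact mul_le_mul_of_nonneg_left h2 (hpos _).le
        obtain ⟨w, hw, hw0, h5, h6⟩ := (hK'.surj _ _ h3).1 h4
        exact ⟨w, fun h => absurd h hz0, fun _ _ => ⟨hw, hw0, h5, h6⟩⟩
      · exact ⟨0, fun _ => rfl, fun h => absurd h hz⟩
  choose F hF using h
  exact ⟨F, (hF 0).1 rfl, fun z hz hz0 => (hF z).2 hz hz0⟩

theorem fan_homeo {C C' : Type} [TopologicalSpace C] [CompactSpace C] [T2Space C]
    [TopologicalSpace C'] [CompactSpace C'] [T2Space C'] {K K' : Set ℂ}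
    {D : ℂ → C} {r : ℂ → ℝ} {ell : C → ℝ} {D' : ℂ → C'} {r' : ℂ → ℝ} {ell' : C' → ℝ}
    (hK : FanCoord K D r ell) (hK' : FanCoord K' D' r' ell')
    (φ : C ≃ₜ C') (lam : C → ℝ) (hlam : Continuous lam) (hpos : ∀ x, 0 < lam x)
    (hφ : ∀ x, ell' (φ x) = lam x * ell x) :
    ∃ Φ : ↥K ≃ₜ ↥K', ∀ x : ↥K, (x : ℂ) = 0 → ((Φ x : ↥K') : ℂ) = 0 := by
  obtain ⟨F, hF0, hF⟩ := fan_exists hK hK' φ lam hpos hφ
  have hlam' : Continuous fun c' => (lam (φ.symm c'))⁻¹ :=
    (hlam.comp φ.symm.continuous).inv₀ fun c' => (hpos _).ne'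
  have hφ' : ∀ x, ell (φ.symm x) = (lam (φ.symm x))⁻¹ * ell' x := by
    intro x
    have h1 := hφ (φ.symm x)
    rw [φ.apply_symm_apply] at h1
    rw [h1, ← mul_assoc, inv_mul_cancel₀ (hpos _).ne', one_mul]
  obtain ⟨G, hG0, hG⟩ := fan_exists hK' hK φ.symm (fun c' => (lam (φ.symm c'))⁻¹)
    (fun c' => inv_pos.2 (hpos _)) hφ'
  have hFc := fan_cont hK hK' φ.continuous hlam hF hF0
  have hGc := fan_cont hK' hK φ.symm.continuous hlam' hG hG0
  have hFK : ∀ z ∈ K, F z ∈ K' := by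
    intro z hz
    by_cases h : z = 0
    · rw [h, hF0]; exact hK'.zero_mem
    · exact (hF z hz h).1
  have hGK : ∀ z ∈ K', G z ∈ K := by
    intro z hz
    by_cases h : z = 0
    · rw [h, hG0]; exact hK.zero_mem
    · exact (hG z hz h).1
  have hGF : ∀ z ∈ K, G (F z) = z := by
    intro z hz
    by_cases h : z = 0
    · rw [h, hF0, hG0]
    · obtain ⟨h1, h2, h3, h4⟩ := hF z hz h
      obtain ⟨h5, h6, h7, h8⟩ := hG (F z) h1 h2
      refine hK.inj _ h5 z hz h6 h ?_ ?_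
      · rw [h7, h3, φ.symm_apply_apply]
      · rw [h8, h3, h4, φ.symm_apply_apply, ← mul_assoc, inv_mul_cancel₀ (hpos _).ne', one_mul]
  have hFG : ∀ z ∈ K', F (G z) = z := by
    intro z hz
    by_cases h : z = 0
    · rw [h, hG0, hF0]
    · obtain ⟨h1, h2, h3, h4⟩ := hG z hz h
      obtain ⟨h5, h6, h7, h8⟩ := hF (G z) h1 h2
      refine hK'.inj _ h5 z hz h6 h ?_ ?_
      · rw [h7, h3, φ.apply_symm_apply]
      · rw [h8, h3, h4, ← mul_assoc, mul_inv_cancel₀ (hpos _).ne', one_mul]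
  refine ⟨{ toFun := fun x => ⟨F x, hFK x x.2⟩
            invFun := fun x => ⟨G x, hGK x x.2⟩
            left_inv := fun x => Subtype.ext (hGF x x.2)
            right_inv := fun x => Subtype.ext (hFG x x.2)
            continuous_toFun := ?_
            continuous_invFun := ?_ }, ?_⟩
  · exact Continuous.subtype_mk (continuousOn_iff_continuous_domRestrict.1 hFc) _
  · exact Continuous.subtype_mk (continuousOn_iff_continuous_domRestrict.1 hGc) _
  · intro x hx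
    show F (x : ℂ) = 0
    rw [hx, hF0]

end Pool.Agent.H44.Crem
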