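import Pool.Agent.H44.Crem.FanTop

/-!
# M7f: the length function of the limit fan is of Lelek type
-/

set_option autoImplicit false
set_option maxHeartbeats 4000000

open Complex Metric Set Filter Topology

namespace Pool.Agent.H44.Crem

namespace FanSys

variable {s : FanSys} {c : ℕ → ℂ}

theorem ell_usc : UpperSemicontinuous s.ell := by
  unfold ell len
  apply upperSemicontinuous_ciInf
  · intro x
    exact bdd (val_isAdr x).norm
  · intro i
    apply Continuous.upperSemicontinuous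
    rw [← continuousOn_univ]
    exact Bc_continuousOn (s := s) (fun x : s.Adr => val x) (fun _ => 1)
      (fun j => (val_continuous j).continuousOn) (fun x _ j => (val_isAdr x).norm j)
      continuousOn_const (fun _ _ => one_mem) 0 i

/-- the address `x` changed to the constant `om` after `N` -/
def ext (x : ℕ → ℂ) (N : ℕ) (om : ℂ) (j : ℕ) : ℂ := if j ≤ N then x j else om

theorem ext_le {x : ℕ → ℂ} {N : ℕ} {om : ℂ} {j : ℕ} (h : j ≤ N) : ext x N om j = x j := by
  simp [ext, h]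

theorem ext_gt {x : ℕ → ℂ} {N : ℕ} {om : ℂ} {j : ℕ} (h : N < j) : ext x N om j = om := by
  simp [ext, not_le.mpr h]

theorem pow_m_of_le {om : ℂ} {N M : ℕ} (h : N ≤ M) (ho : om ^ s.m N = 1) : om ^ s.m M = 1 := by
  induction M, h using Nat.le_induction with
  | base => exact ho
  | succ M _ ih => rw [s.m_succ, mul_comm, pow_mul, ih, one_pow]

theorem ext_isAdr {x : ℕ → ℂ} (hx : s.IsAdr x) {N : ℕ} {om : ℂ} (ho : om ^ s.m (N + 1) = 1)
    (hs : sig (s.m N) om = x N) : s.IsAdr (ext x N om) := by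
  constructor
  · intro j
    by_cases h : j ≤ N
    · rw [ext_le h]; exact hx.root j
    · rw [ext_gt (not_le.mp h)]
      exact pow_m_of_le (by omega) ho
  · intro j
    rcases lt_trichotomy j N with h | h | h
    · rw [ext_le h.le, ext_le (by omega)]
      exact hx.link j
    · subst h
      rw [ext_le le_rfl, ext_gt (Nat.lt_succ_self j), hs]
    · rw [ext_gt h, ext_gt (by omega)]
      exact (sig_of_pow_eq_one (pow_m_of_le (by omega) ho)).symm

theorem b_root {l : ℕ} (h : c (l + 1) ^ s.m l = 1) {t : ℝ} (_ht : t ∈ Icc (0 : ℝ) 1) :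
    s.b c l t = ‖s.h l t‖ := by
  unfold b
  rw [mul_comm, s.h_rot l _ _ h, norm_mul, norm_eq_one_of_pow (s.m_pos' l) h, one_mul]

theorem b_root_one {l : ℕ} (h : c (l + 1) ^ s.m l = 1) : s.b c l 1 = 1 := by
  rw [b_root h one_mem, Complex.ofReal_one, s.h_one]
  simp

/-- strands with eventually constant address -/
theorem len_const {N : ℕ} (hc : s.IsAdr c) (h : ∀ j, N ≤ j → c j = c N) :
    s.len c = Bc s.h c 0 N 1 := by
  have h1 : ∀ i, Bc s.h c 0 (N + i) 1 = Bc s.h c 0 N 1 := by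
    intro i
    induction i with
    | zero => rfl
    | succ i ih =>
      rw [← add_assoc, Bc_succ, zero_add, b_root_one, ih]
      rw [h (N + i + 1) (by omega), ← h (N + i) (by omega)]
      exact hc.root _
  apply le_antisymm (len_le hc.norm N)
  apply le_len
  intro M
  rcases le_total M N with hM | hM
  · exact Bc_anti hc.norm hM
  · obtain ⟨i, rfl⟩ := Nat.exists_eq_add_of_le hM
    rw [h1 i]

theorem len_ext {x : ℕ → ℂ} (hx : s.IsAdr x) {N : ℕ} {om : ℂ} (ho : om ^ s.m (N + 1) = 1)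
    (hs : sig (s.m N) om = x N) : s.len (ext x N om) = Bc s.h x 0 N ‖s.h N om‖ := by
  rw [len_const (N := N + 1) (ext_isAdr hx ho hs)]
  · rw [Bc_succ, zero_add]
    have h1 : s.b (ext x N om) N 1 = ‖s.h N om‖ := by
      unfold b
      rw [ext_gt (Nat.lt_succ_self N), Complex.ofReal_one, one_mul]
    rw [h1]
    apply Bc_congr
    intro l _ h3
    exact ext_le (by omega)
  · intro j hj
    rw [ext_gt (by omega), ext_gt (by omega)]

theorem len_ext_self {x : ℕ → ℂ} (hx : s.IsAdr x) (N : ℕ) :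
    s.len (ext x N (x N)) = Bc s.h x 0 N 1 := by
  have h1 := hx.root N
  rw [len_ext hx (pow_m_of_le (by omega) h1) (sig_of_pow_eq_one h1)]
  have h2 : s.h N (x N) = x N := by
    have h3 := s.h_rot N (x N) 1 h1
    rwa [mul_one, s.h_one, mul_one] at h3
  rw [h2, hx.norm]

theorem Bc_pos (hc : ∀ i, ‖c i‖ = 1) (j i : ℕ) {t : ℝ} (ht : t ∈ Icc (0 : ℝ) 1) (h : 0 < t) :
    0 < Bc s.h c j i t := by
  have h1 := Bc_strictMono (s := s) hc j i ⟨le_rfl, zero_le_one⟩ ht h
  rwa [Bc_zero_right] at h1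

theorem ell_pos (V : Set s.Adr) (hV : IsClopen V) (hne : V.Nonempty) : ∃ x ∈ V, 0 < s.ell x := by
  obtain ⟨x, hx⟩ := hne
  obtain ⟨N, hN⟩ := exists_cyl x hV.isOpen hx
  have hxa := val_isAdr x
  have h1 := hxa.root N
  have h2 : s.IsAdr (ext (val x) N (val x N)) :=
    ext_isAdr hxa (pow_m_of_le (by omega) h1) (sig_of_pow_eq_one h1)
  refine ⟨mkAdr h2, hN _ ?_, ?_⟩
  · rw [val_mkAdr, ext_le le_rfl]
  · unfold ell
    rw [val_mkAdr, len_ext_self hxa]
    exact Bc_pos hxa.norm 0 N one_mem one_pos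

/-- contraction along a constant piece of the address -/
theorem Bc_half {x : ℕ → ℂ} {N : ℕ} (hx : s.IsAdr x) (hconst : ∀ j, N ≤ j → x j = x N) (i : ℕ) :
    Bc s.h x N i (1 / 2) ≤ (1 / 2) ^ (i + 1) := by
  have key : ∀ i, ∀ t ∈ Icc (0 : ℝ) (1 / 2), Bc s.h x N i t ≤ (1 / 2) ^ i * t := by
    intro i
    induction i with
    | zero => intro t _; simp [Bc_zero]
    | succ i ih =>
      intro t ht
      have ht1 : t ∈ Icc (0 : ℝ) 1 := ⟨ht.1, by linarith [ht.2]⟩
      rw [Bc_succ]
      have h1 : s.b x (N + i) t ≤ t / 2 := by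
        rw [b_root _ ht1]
        · exact s.h_half _ t ht
        · rw [hconst (N + i + 1) (by omega), ← hconst (N + i) (by omega)]
          exact hx.root _
      have h2 : s.b x (N + i) t ∈ Icc (0 : ℝ) (1 / 2) :=
        ⟨s.b_nonneg _ _ _, by linarith [ht.1, ht.2]⟩
      refine (ih _ h2).trans ?_
      rw [pow_succ, mul_assoc]
      apply mul_le_mul_of_nonneg_left _ (by positivity)
      linarith
  have h1 := key i (1 / 2) ⟨by norm_num, le_rfl⟩
  rw [pow_succ]
  exact h1

theorem rot_pow {M i : ℕ} {om : ℂ} (ho : om ^ s.m M = 1) :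
    (om * exp (((2 * Real.pi * i / s.m (M + 1) : ℝ) : ℂ) * I)) ^ s.m (M + 1) = 1 := by
  have hm : (s.m (M + 1) : ℝ) ≠ 0 := (s.m_posR (M + 1)).ne'
  rw [mul_pow, pow_m_of_le (s := s) (Nat.le_succ M) ho, one_mul, ← Complex.exp_nat_mul]
  rw [Complex.exp_eq_one_iff]
  refine ⟨i, ?_⟩
  have h1 : (s.m (M + 1) : ℂ) * (((2 * Real.pi * i / s.m (M + 1) : ℝ) : ℂ) * I) =
      (((s.m (M + 1) : ℝ) * (2 * Real.pi * i / s.m (M + 1)) : ℝ) : ℂ) * I := by
    push_cast
    ring
  rw [h1, mul_div_cancel₀ _ hm]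
  push_cast
  ring

theorem rot_angle {M i : ℕ} :
    (s.m M : ℝ) * (2 * Real.pi * i / s.m (M + 1)) = 2 * Real.pi * i / s.k M := by
  have hm : (s.m M : ℝ) ≠ 0 := (s.m_posR M).ne'
  have hk : (s.k M : ℝ) ≠ 0 := by
    have := s.k_ge M
    have h : s.k M ≠ 0 := by omega
    exact_mod_cast h
  rw [s.m_succ]
  push_cast
  field_simp

theorem rot_sig {M i : ℕ} {om : ℂ} (ho : om ^ s.m M = 1) (hi : 2 * i < s.k M) :
    sig (s.m M) (om * exp (((2 * Real.pi * i / s.m (M + 1) : ℝ) : ℂ) * I)) = om := by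
  have h1 := sig_polar (s.m_pos' M) ho (r := 1) (θ := 2 * Real.pi * i / s.m (M + 1)) one_pos ?_ ?_
  · rw [Complex.ofReal_one, one_mul] at h1
    exact h1
  · rw [rot_angle]
    have h2 : (0 : ℝ) ≤ 2 * Real.pi * i / s.k M := by positivity
    linarith [Real.pi_pos]
  · rw [rot_angle]
    have hk : (0 : ℝ) < s.k M := by
      have := s.k_ge M
      have h : 0 < s.k M := by omega
      exact_mod_cast h
    rw [div_le_iff₀ hk]
    have h2 : 2 * (i : ℝ) ≤ s.k M := by exact_mod_cast hi.le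
    nlinarith [Real.pi_pos]

theorem ell_dense (V : Set s.Adr) (hV : IsClopen V) (x : s.Adr) (hx : x ∈ V) (t : ℝ)
    (ht : 0 < t) (htx : t < s.ell x) (ε : ℝ) (hε : 0 < ε) :
    ∃ V' ⊆ V, IsClopen V' ∧ (∀ y ∈ V', s.ell y ≤ t) ∧ ∃ y ∈ V', t - ε < s.ell y := by
  obtain ⟨N, hN⟩ := exists_cyl x hV.isOpen hx
  have hxa := val_isAdr x
  set X := val x with hX
  -- the truncated address
  have hr := hxa.root N
  set Y : ℕ → ℂ := ext X N (X N) with hY
  have hYa : s.IsAdr Y := ext_isAdr hxa (pow_m_of_le (by omega) hr) (sig_of_pow_eq_one hr)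
  have hYN : ∀ j, N ≤ j → Y j = X N := by
    intro j hj
    rcases Nat.eq_or_lt_of_le hj with h | h
    · subst h; exact ext_le le_rfl
    · exact ext_gt h
  have hYlen : Bc s.h Y 0 N 1 = Bc s.h X 0 N 1 := by
    apply Bc_congr
    intro l _ h2
    exact ext_le (by omega)
  have hYconst : ∀ j, N ≤ j → Y j = Y N := fun j hj => by rw [hYN j hj, hYN N le_rfl]
  -- choice of `M`
  obtain ⟨δ, hδ, hδt⟩ : ∃ δ > 0, ∀ u ∈ Icc (0 : ℝ) 1, u < δ → Bc s.h Y 0 N u < t := by
    have h1 := Bc_cont (s := s) hYa.norm 0 N 0 ⟨le_rfl, zero_le_one⟩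
    unfold ContinuousWithinAt at h1
    rw [Bc_zero_right] at h1
    have h2 := h1.eventually (gt_mem_nhds ht)
    rw [Filter.Eventually, Metric.mem_nhdsWithin_iff] at h2
    obtain ⟨δ, hδ, h3⟩ := h2
    refine ⟨δ, hδ, fun u hu hlt => ?_⟩
    apply h3
    refine ⟨?_, hu⟩
    rw [Metric.mem_ball, Real.dist_eq, sub_zero, abs_of_nonneg hu.1]
    exact hlt
  obtain ⟨d, hd1, hd2⟩ : ∃ d : ℕ, 1 / (s.m (N + d) : ℝ) < ε ∧ ((1 : ℝ) / 2) ^ (d + 1) < δ := by
    have h1 : Tendsto (fun d => 1 / (s.m (N + d) : ℝ)) atTop (𝓝 0) := by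
      have h2 := s.tendsto_inv_m.comp (tendsto_add_atTop_nat N)
      apply h2.congr
      intro i
      simp only [Function.comp]
      rw [add_comm]
    have h3 : Tendsto (fun d : ℕ => ((1 : ℝ) / 2) ^ (d + 1)) atTop (𝓝 0) :=
      (tendsto_add_atTop_iff_nat 1).mpr
        (tendsto_pow_atTop_nhds_zero_of_lt_one (by norm_num) (by norm_num))
    exact ((h1.eventually (gt_mem_nhds hε)).and (h3.eventually (gt_mem_nhds hδ))).exists
  set M := N + d with hM
  set om : ℂ := X N with hom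
  have hoM : om ^ s.m M = 1 := pow_m_of_le (by omega) hr
  have hYM : Y M = om := hYN M (by omega)
  -- the rotated roots
  set O : ℕ → ℂ := fun i => om * exp (((2 * Real.pi * i / s.m (M + 1) : ℝ) : ℂ) * I) with hO
  have hOroot : ∀ i, O i ^ s.m (M + 1) = 1 := fun i => rot_pow hoM
  have hOnorm : ∀ i, ‖O i‖ = 1 := fun i => norm_eq_one_of_pow (s.m_pos' (M + 1)) (hOroot i)
  have hOmem : ∀ i, O i ∈ closedBall (0 : ℂ) 1 := fun i => by simp [hOnorm i]
  have hOsig : ∀ i, 2 * i < s.k M → sig (s.m M) (O i) = Y M := fun i hi => by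
    rw [hYM]; exact rot_sig hoM hi
  set v : ℕ → ℝ := fun i => Bc s.h Y 0 M ‖s.h M (O i)‖ with hv
  have hhm : ∀ i, ‖s.h M (O i)‖ ∈ Icc (0 : ℝ) 1 := fun i =>
    ⟨norm_nonneg _, by simpa using s.h_mem M (hOmem i)⟩
  have hv0 : t < v 0 := by
    have h1 : O 0 = om := by simp [hO]
    have h2 : s.h M om = om := by
      have h3 := s.h_rot M om 1 hoM
      rwa [mul_one, s.h_one, mul_one] at h3
    have h4 : ‖om‖ = 1 := hxa.norm N
    have h5 : v 0 = Bc s.h Y 0 M 1 := by
      simp only [hv]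
      rw [h1, h2, h4]
    have h6 := len_const (s := s) (N := N) hYa hYconst
    have h7 := len_const (s := s) (N := M) hYa (fun j hj => by
      rw [hYconst j (by omega), hYconst M (by omega)])
    rw [h5, ← h7, h6, hYlen]
    exact htx.trans_le (len_le hxa.norm N)
  -- the last one
  set L := (s.k M - 1) / 2 with hL
  have hkM := s.k_ge M
  obtain ⟨q, hq⟩ := s.k_odd M
  have hLq : L = q := by omega
  have hvL : v L ≤ t := by
    have h1 : (O L ^ s.m M).re ≤ 0 := by
      have h2 : O L ^ s.m M = exp (((2 * Real.pi * L / s.k M : ℝ) : ℂ) * I) := by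
        simp only [hO]
        rw [mul_pow, hoM, one_mul, ← Complex.exp_nat_mul, ← rot_angle]
        congr 1
        push_cast
        ring
      rw [h2, Complex.exp_ofReal_mul_I_re]
      apply Real.cos_nonpos_of_pi_div_two_le_of_le
      · have hk : (0 : ℝ) < s.k M := by
          have h : 0 < s.k M := by omega
          exact_mod_cast h
        rw [div_le_div_iff₀ two_pos hk]
        have h3 : (s.k M : ℝ) ≤ 4 * L := by
          have : s.k M ≤ 4 * L := by omega
          exact_mod_cast this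
        nlinarith [Real.pi_pos]
      · have hk : (0 : ℝ) < s.k M := by
          have h : 0 < s.k M := by omega
          exact_mod_cast h
        rw [div_le_iff₀ hk]
        have h3 : 2 * (L : ℝ) ≤ s.k M := by
          have : 2 * L ≤ s.k M := by omega
          exact_mod_cast this
        nlinarith [Real.pi_pos]
    have h2 := s.h_small M (O L) (hOmem L) h1
    have hhalf : (1 / 2 : ℝ) ∈ Icc (0 : ℝ) 1 := by constructor <;> norm_num
    have h3 : v L ≤ Bc s.h Y 0 M (1 / 2) :=
      (Bc_strictMono hYa.norm 0 M).monotoneOn (hhm L) hhalf h2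
    have h4 : Bc s.h Y 0 M (1 / 2) = Bc s.h Y 0 N (Bc s.h Y N d (1 / 2)) := by
      rw [hM, Bc_add, zero_add]
    have h5 := Bc_half hYa hYconst d
    have h6 := hδt _ (Bc_mem (s := s) hYa.norm N d hhalf) (h5.trans_lt hd2)
    rw [← h4] at h6
    exact h3.trans h6.le
  -- discrete intermediate value
  have hstep : ∀ i, |v i - v (i + 1)| ≤ 1 / s.m M := by
    intro i
    have h1 := s.condA M 0 (Nat.zero_le M) Y hYa.norm (O i) (hOmem i) (O (i + 1)) (hOmem (i + 1)) ?_
    · exact h1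
    · have hm := s.m_posR (M + 1)
      have h2 : O i - O (i + 1) = -(om * exp (((2 * Real.pi * i / s.m (M + 1) : ℝ) : ℂ) * I) *
          (exp (I * ((2 * Real.pi / s.m (M + 1) : ℝ) : ℂ)) - 1)) := by
        simp only [hO]
        have h3 : exp (((2 * Real.pi * ((i + 1 : ℕ) : ℝ) / s.m (M + 1) : ℝ) : ℂ) * I) =
            exp (((2 * Real.pi * i / s.m (M + 1) : ℝ) : ℂ) * I) *
            exp (I * ((2 * Real.pi / s.m (M + 1) : ℝ) : ℂ)) := by
          rw [← Complex.exp_add]
          congr 1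
          push_cast
          ring
        rw [h3]
        ring
      rw [h2, norm_neg, norm_mul, norm_mul, hxa.norm N, Complex.norm_exp_ofReal_mul_I, one_mul,
        one_mul]
      refine (Real.norm_exp_I_mul_ofReal_sub_one_le).trans ?_
      rw [Real.norm_eq_abs, abs_of_nonneg (div_nonneg (by positivity) hm.le)]
      apply div_le_div_of_nonneg_right _ hm.le
      linarith [Real.pi_lt_d2]
  have hex : ∃ i, v i ≤ t := ⟨L, hvL⟩
  classical
  set i0 := Nat.find hex with hi0
  have hi0t : v i0 ≤ t := Nat.find_spec hex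
  have hi0L : i0 ≤ L := Nat.find_min' hex hvL
  have hi0pos : i0 ≠ 0 := by
    intro h
    rw [h] at hi0t
    linarith
  obtain ⟨i1, hi1⟩ := Nat.exists_eq_succ_of_ne_zero hi0pos
  have hi1t : t < v i1 := by
    have := Nat.find_min hex (m := i1) (by omega)
    exact not_le.mp this
  have hclose : t - ε < v i0 := by
    have h1 := hstep i1
    rw [Nat.succ_eq_add_one] at hi1
    rw [← hi1, abs_le] at h1
    linarith [h1.2]
  have hi0k : 2 * i0 < s.k M := by omega
  -- the address
  have hZa : s.IsAdr (ext Y M (O i0)) := ext_isAdr hYa (hOroot i0) (hOsig i0 hi0k)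
  set Z : ℕ → ℂ := ext Y M (O i0) with hZ
  have hZlen : s.len Z = v i0 := len_ext hYa (hOroot i0) (hOsig i0 hi0k)
  have hZN : Z N = X N := by
    rw [hZ, ext_le (by omega)]
    exact hYN N le_rfl
  have hZlen2 : Bc s.h Z 0 (M + 1) 1 = v i0 := by
    have h1 := len_const (s := s) (N := M + 1) hZa (fun j hj => by
      rw [hZ, ext_gt (by omega), ext_gt (by omega)])
    rw [← h1, hZlen]
  refine ⟨{y : s.Adr | val y (M + 1) = Z (M + 1)}, ?_, ?_, ?_, ?_⟩
  · intro y hy
    apply hN y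
    rw [(val_isAdr y).eq_below hZa hy N (by omega), hZN]
  · have h1 : {y : s.Adr | val y (M + 1) = Z (M + 1)} = (fun y : s.Adr => y.1 (M + 1)) ⁻¹'
        {u | (u : ℂ) = Z (M + 1)} := rfl
    rw [h1]
    apply (isClopen_discrete _).preimage
    exact (continuous_apply (M + 1)).comp continuous_subtype_val
  · intro y hy
    have h1 := len_le (s := s) (val_isAdr y).norm (M + 1)
    have h2 : Bc s.h (val y) 0 (M + 1) 1 = Bc s.h Z 0 (M + 1) 1 := by
      apply Bc_congr
      intro l _ hl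
      exact (val_isAdr y).eq_below hZa hy l (by omega)
    rw [h2, hZlen2] at h1
    exact h1.trans hi0t
  · refine ⟨mkAdr hZa, ?_, ?_⟩
    · show val (mkAdr hZa) (M + 1) = Z (M + 1)
      rw [val_mkAdr]
    · unfold ell
      rw [val_mkAdr, hZlen]
      exact hclose

theorem lelekLen : LelekLen s.ell where
  usc := ell_usc
  nonneg := fun c => len_nonneg (val_isAdr c).norm
  pos := ell_pos
  dense := ell_dense

end FanSys

end Pool.Agent.H44.Crem
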