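import Pool.Agent.H44.Crem.FanEst

/-!
# M7d: existence of points of the fan with prescribed coordinates
-/

set_option autoImplicit false
set_option maxHeartbeats 4000000

open Complex Metric Set Filter Topology

namespace Pool.Agent.H44.Crem

namespace FanSys

variable {s : FanSys} {c : ℕ → ℂ}

/-- the length of the strand of address `c` -/
noncomputable def len (s : FanSys) (c : ℕ → ℂ) : ℝ := ⨅ N, Bc s.h c 0 N 1

theorem one_mem : (1 : ℝ) ∈ Icc (0 : ℝ) 1 := ⟨zero_le_one, le_rfl⟩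

theorem Bc_anti (hc : ∀ i, ‖c i‖ = 1) : Antitone (fun N => Bc s.h c 0 N 1) := by
  apply antitone_nat_of_succ_le
  intro N
  rw [Bc_succ]
  exact (Bc_strictMono hc 0 N).monotoneOn (b_mem hc _ one_mem) one_mem (b_mem hc _ one_mem).2

theorem bdd (hc : ∀ i, ‖c i‖ = 1) : BddBelow (range fun N => Bc s.h c 0 N 1) :=
  ⟨0, by rintro _ ⟨N, rfl⟩; exact (Bc_mem hc 0 N one_mem).1⟩

theorem len_le (hc : ∀ i, ‖c i‖ = 1) (N : ℕ) : s.len c ≤ Bc s.h c 0 N 1 := ciInf_le (bdd hc) N

theorem le_len {x : ℝ} (h : ∀ N, x ≤ Bc s.h c 0 N 1) : x ≤ s.len c := le_ciInf h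

theorem len_nonneg (hc : ∀ i, ‖c i‖ = 1) : 0 ≤ s.len c :=
  le_len fun N => (Bc_mem hc 0 N one_mem).1

theorem rho_le_len {z : ℂ} (hz : z ∈ s.K) (h0 : z ≠ 0) : s.rho z 0 ≤ s.len (s.adr z) := by
  have hc := (adr_isAdr hz h0).norm
  apply le_len
  intro N
  apply le_of_tendsto (rho_tendsto hz h0 0)
  filter_upwards [eventually_ge_atTop N] with i hi
  have h1 : Bc s.h (s.adr z) 0 i ‖s.Lam (0 + i) z‖ ≤ Bc s.h (s.adr z) 0 i 1 :=
    (Bc_strictMono hc 0 i).monotoneOn (K_norm hz _) one_mem (K_norm hz _).2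
  exact h1.trans (Bc_anti hc hi)

theorem exists_point (hc : s.IsAdr c) {t : ℝ} (ht : 0 < t) (hl : t ≤ s.len c) :
    ∃ z ∈ s.K, z ≠ 0 ∧ s.adr z = c ∧ s.rho z 0 = t := by
  have hex : ∀ N, ∃ x ∈ Icc (0 : ℝ) 1, Bc s.h c 0 N x = t := by
    intro N
    have h1 := intermediate_value_Icc (zero_le_one' ℝ) (Bc_cont (s := s) hc.norm 0 N)
    have h2 : t ∈ Icc (Bc s.h c 0 N 0) (Bc s.h c 0 N 1) := by
      rw [Bc_zero_right]
      exact ⟨ht.le, hl.trans (len_le hc.norm N)⟩
    exact h1 h2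
  choose x hx hxt using hex
  have xge : ∀ N, t ≤ x N := fun N => by
    rw [← hxt N]
    exact Bc_le hc.norm 0 N (hx N)
  have xpos : ∀ N, 0 < x N := fun N => ht.trans_le (xge N)
  have xb : ∀ N, s.b c N (x (N + 1)) = x N := by
    intro N
    apply (Bc_strictMono (s := s) hc.norm 0 N).injOn (b_mem hc.norm _ (hx _)) (hx N)
    have h1 := hxt (N + 1)
    rw [Bc_succ, zero_add] at h1
    rw [h1, hxt N]
  have xBc : ∀ j i, Bc s.h c j i (x (j + i)) = x j := by
    intro j i
    induction i with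
    | zero => rfl
    | succ i ih =>
      rw [Bc_succ, ← add_assoc, xb, ih]
  -- the approximating points
  have xmem : ∀ N, (x N : ℂ) * c N ∈ closedBall (0 : ℂ) 1 := fun N => mul_mem (hx N) (hc.norm N)
  set w : ℕ → ℂ := fun N => s.Gam N ((x N : ℂ) * c N) with hw
  have wP : ∀ N, w N ∈ s.P N := fun N => ⟨_, xmem N, rfl⟩
  have wLam : ∀ N, s.Lam N (w N) = (x N : ℂ) * c N := fun N => Lam_Gam N (xmem N)
  have wgood : ∀ N, ∀ j ≤ N, s.Good c j (s.Lam j (w N)) := by
    intro N
    have key : ∀ d j, j + d = N → s.Good c j (s.Lam j (w N)) := by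
      intro d
      induction d with
      | zero =>
        intro j hj
        rw [add_zero] at hj
        subst hj
        rw [wLam]
        exact Good.of_mul hc j (xpos j)
      | succ d ih =>
        intro j hj
        have h1 := ih (j + 1) (by omega)
        have h2 := h1.down hc (P_Lam (wP N) (j := j + 1) (by omega)).1
        rwa [P_h (wP N) (by omega)] at h2
    intro j hj
    exact key (N - j) j (by omega)
  have wstep : ∀ N, dist (w (N + 1)) (w (N + 1 + 1)) ≤ 1 * (1 / 2) ^ N := by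
    intro N
    have h1 : w (N + 1 + 1) = s.Gam (N + 1) (s.h (N + 1) ((x (N + 1 + 1) : ℂ) * c (N + 1 + 1))) :=
      s.Gam_succ (N + 1) _
    have h2 : s.Good c (N + 1) (s.h (N + 1) ((x (N + 1 + 1) : ℂ) * c (N + 1 + 1))) :=
      (Good.of_mul hc (N + 1 + 1) (xpos _)).down hc (xmem _)
    have h3 := s.h_mem (N + 1) (xmem (N + 1 + 1))
    have h4 := h2.close (by simpa using h3)
    have h5 : ‖s.h (N + 1) ((x (N + 1 + 1) : ℂ) * c (N + 1 + 1))‖ = x (N + 1) := xb (N + 1)
    rw [h5] at h4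
    rw [h1, dist_eq_norm, one_mul]
    apply s.condB N _ (xmem (N + 1)) _ h3
    exact h4.trans (div_le_div_of_nonneg_right (by norm_num) (s.m_posR _).le)
  have hcauchy : CauchySeq (fun N => w (N + 1)) :=
    cauchySeq_of_le_geometric (1 / 2) 1 (by norm_num) wstep
  obtain ⟨z, hz⟩ := cauchySeq_tendsto_of_complete hcauchy
  have zK : z ∈ s.K := by
    rw [mem_K]
    intro n
    apply (s.P_compact n).isClosed.mem_of_tendsto hz
    filter_upwards [eventually_ge_atTop n] with N hN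
    exact s.P_anti (show n ≤ N + 1 by omega) (wP (N + 1))
  have hest : ∀ j, |x j - ‖s.Lam j z‖| ≤ 3 / 2 * (1 / s.m j) := by
    intro j
    have h1 : Tendsto (fun N => |x j - ‖s.Lam j (w (N + 1))‖|) atTop (𝓝 |x j - ‖s.Lam j z‖|) := by
      apply Tendsto.abs
      apply tendsto_const_nhds.sub
      apply Tendsto.norm
      exact ((s.Lam_cont j).tendsto z).comp hz
    apply le_of_tendsto h1
    filter_upwards [eventually_ge_atTop j] with N hN
    have h2 := fin_est hc (wP (N + 1)) (wgood (N + 1)) (j := j) (i := N + 1 - j) (by omega)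
    rw [show j + (N + 1 - j) = N + 1 by omega, wLam] at h2
    have h3 : ‖(x (N + 1) : ℂ) * c (N + 1)‖ = x (N + 1) := by
      rw [norm_mul, hc.norm, mul_one, Complex.norm_real, Real.norm_eq_abs, abs_of_pos (xpos _)]
    have h4 := xBc j (N + 1 - j)
    rw [show j + (N + 1 - j) = N + 1 by omega] at h4
    rw [h3, h4] at h2
    refine h2.trans ?_
    rw [mul_comm]
    exact mul_le_mul_of_nonneg_right (geo_bound _) (one_div_pos.mpr (s.m_posR j)).le
  have hlim0 : Tendsto (fun j => 3 / 2 * (1 / (s.m j : ℝ))) atTop (𝓝 0) := by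
    have := s.tendsto_inv_m.const_mul (3 / 2)
    rwa [mul_zero] at this
  have z0 : z ≠ 0 := by
    rintro rfl
    obtain ⟨j, hj⟩ := (hlim0.eventually (gt_mem_nhds ht)).exists
    have h1 := hest j
    rw [s.Lam_zero', norm_zero, sub_zero, abs_of_pos (xpos j)] at h1
    have h2 := xge j
    linarith
  have hadr : s.adr z = c := by
    funext j
    have h1 : Tendsto (fun N => sig (s.m j) (s.Lam j (w (N + 1)))) atTop
        (𝓝 (sig (s.m j) (s.Lam j z))) := by
      apply ((continuousAt_sig (s.m_pos' j) (slit_all zK z0 j)).tendsto).comp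
      exact ((s.Lam_cont j).tendsto z).comp hz
    have h2 : Tendsto (fun N => sig (s.m j) (s.Lam j (w (N + 1)))) atTop (𝓝 (c j)) := by
      apply tendsto_const_nhds.congr'
      filter_upwards [eventually_ge_atTop j] with N hN
      exact (wgood (N + 1) j (by omega)).2.symm
    exact tendsto_nhds_unique h1 h2
  refine ⟨z, zK, z0, hadr, ?_⟩
  have h1 := (tendsto_add_atTop_iff_nat 1).mpr (rho_tendsto zK z0 0)
  rw [hadr] at h1
  have h2 : Tendsto (fun i => Bc s.h c 0 (i + 1) ‖s.Lam (0 + (i + 1)) z‖) atTop (𝓝 t) := by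
    rw [tendsto_iff_dist_tendsto_zero]
    apply squeeze_zero (fun _ => dist_nonneg) _ s.tendsto_inv_m
    intro i
    rw [Real.dist_eq, zero_add]
    have h3 : t = Bc s.h c 0 (i + 1) (x (i + 1)) := (hxt (i + 1)).symm
    rw [h3, Bc_succ, Bc_succ, zero_add]
    have h4 := s.condA i 0 (Nat.zero_le i) c hc.norm
      ((‖s.Lam (i + 1) z‖ : ℂ) * c (i + 1)) (mul_mem (K_norm zK _) (hc.norm _))
      ((x (i + 1) : ℂ) * c (i + 1)) (xmem _) ?_
    · exact h4
    · rw [← sub_mul, norm_mul, hc.norm, mul_one, ← Complex.ofReal_sub, Complex.norm_real,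
        Real.norm_eq_abs, abs_sub_comm]
      refine (hest (i + 1)).trans ?_
      have h5 : 0 < 1 / (s.m (i + 1) : ℝ) := one_div_pos.mpr (s.m_posR _)
      have h6 : (7 : ℝ) / s.m (i + 1) = 7 * (1 / s.m (i + 1)) := by ring
      rw [h6]
      linarith
  exact tendsto_nhds_unique h1 h2

end FanSys

end Pool.Agent.H44.Crem
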