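import Pool.Agent.H44.Crem.FanLelek

/-!
# M7: the limit fan of a sequence of level maps
-/

set_option autoImplicit false
set_option maxHeartbeats 4000000

open Complex Metric Set Filter Topology

namespace Pool.Agent.H44.Crem

namespace FanSys

/-- points of the fan avoid the negative directions at level `0` -/
theorem slit (s : FanSys) : ∀ z ∈ s.K, z ≠ 0 → z ^ s.m 0 ∈ slitPlane := slit'

theorem fan (s : FanSys) :
    ∃ (C : Type) (_ : TopologicalSpace C) (_ : CompactSpace C) (_ : T2Space C) (_ : Nonempty C)
      (e : ℕ → C → ℕ) (D : ℂ → C) (r : ℂ → ℝ) (ell : C → ℝ),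
      (∀ k, Continuous (e k)) ∧ (∀ x y, (∀ k, e k x = e k y) → x = y) ∧
      FanCoord s.K D r ell ∧ LelekLen ell := by
  have hf : ∀ j, ∃ f : s.Rt j → ℕ, Function.Injective f := fun j => exists_injective_nat _
  choose f hf using hf
  refine ⟨s.Adr, inferInstance, inferInstance, inferInstance, inferInstance,
    fun k c => f k (c.1 k), s.DD, s.rr, s.ell, ?_, ?_, fanCoord, lelekLen⟩
  · intro k
    exact continuous_of_discreteTopology.comp ((continuous_apply k).comp continuous_subtype_val)
  · intro x y h
    apply Subtype.ext
    funext k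
    exact hf k (h k)

end FanSys

end Pool.Agent.H44.Crem
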