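import Pool.Agent.H44.Crem.Defs

/-!
# M7: the structure `FanSys` (the limit fan of a sequence of level maps)
-/

set_option autoImplicit false

open Complex Metric Set Filter Topology

namespace Pool.Agent.H44.Crem

/-- The level maps `h n` (with `m n` petals), their entire inverses `H n`, the composites
`Gam n = h 0 ∘ ⋯ ∘ h (n-1)` and `Lam n = H (n-1) ∘ ⋯ ∘ H 0`. -/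
structure FanSys where
  m : ℕ → ℕ
  k : ℕ → ℕ
  H : ℕ → ℂ → ℂ
  h : ℕ → ℂ → ℂ
  Lam : ℕ → ℂ → ℂ
  Gam : ℕ → ℂ → ℂ
  m_pos : 0 < m 0
  k_odd : ∀ n, Odd (k n)
  k_ge : ∀ n, 3 ≤ k n
  m_succ : ∀ n, m (n + 1) = k n * m n
  Lam_zero : ∀ z, Lam 0 z = z
  Lam_succ : ∀ n z, Lam (n + 1) z = H n (Lam n z)
  Gam_zero : ∀ ξ, Gam 0 ξ = ξ
  Gam_succ : ∀ n ξ, Gam (n + 1) ξ = Gam n (h n ξ)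
  H_cont : ∀ n, Continuous (H n)
  h_cont : ∀ n, ContinuousOn (h n) (closedBall 0 1)
  H_h : ∀ n, ∀ ξ ∈ closedBall (0 : ℂ) 1, H n (h n ξ) = ξ
  H_zero : ∀ n, H n 0 = 0
  h_rot : ∀ n (ω ξ : ℂ), ω ^ (m n) = 1 → h n (ω * ξ) = ω * h n ξ
  h_one : ∀ n, h n 1 = 1
  h_real : ∀ n, ∀ x ∈ Icc (0 : ℝ) 1, h n x = ((‖h n x‖ : ℝ) : ℂ)
  h_le : ∀ n, ∀ ξ ∈ closedBall (0 : ℂ) 1, ‖h n ξ‖ ≤ ‖h n (‖ξ‖ : ℝ)‖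
  h_le' : ∀ n, ∀ x ∈ Icc (0 : ℝ) 1, ‖h n x‖ ≤ x
  h_half : ∀ n, ∀ x ∈ Icc (0 : ℝ) (1 / 2), ‖h n x‖ ≤ x / 2
  h_mono : ∀ n (ω : ℂ), ‖ω‖ = 1 → StrictMonoOn (fun t : ℝ => ‖h n (t * ω)‖) (Icc 0 1)
  h_small : ∀ n, ∀ ξ ∈ closedBall (0 : ℂ) 1, (ξ ^ m n).re ≤ 0 → ‖h n ξ‖ ≤ 1 / 2
  h_slit : ∀ n, ∀ ξ ∈ closedBall (0 : ℂ) 1, ξ ^ m n ∈ slitPlane ↔ (h n ξ) ^ m n ∈ slitPlane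
  h_sig : ∀ n, ∀ ξ ∈ closedBall (0 : ℂ) 1, ξ ^ m n ∈ slitPlane →
    sig (m n) (h n ξ) = sig (m n) ξ
  H_neg : ∀ n (ζ : ℂ), ζ ≠ 0 → ζ ^ m n ∉ slitPlane →
    (H n ζ) ^ m n ∉ slitPlane ∧ 2 * ‖ζ‖ ≤ ‖H n ζ‖
  condA : ∀ n j, j ≤ n → ∀ c : ℕ → ℂ, (∀ i, ‖c i‖ = 1) →
    ∀ ξ ∈ closedBall (0 : ℂ) 1, ∀ ξ' ∈ closedBall (0 : ℂ) 1, ‖ξ - ξ'‖ ≤ 7 / m (n + 1) →
    |Bc h c j (n - j) ‖h n ξ‖ - Bc h c j (n - j) ‖h n ξ'‖| ≤ 1 / m n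
  condB : ∀ n, ∀ ξ ∈ closedBall (0 : ℂ) 1, ∀ ξ' ∈ closedBall (0 : ℂ) 1,
    ‖ξ - ξ'‖ ≤ 12 / m (n + 1) → ‖Gam (n + 1) ξ - Gam (n + 1) ξ'‖ ≤ (1 / 2) ^ n

namespace FanSys

/-- the limit fan -/
def K (s : FanSys) : Set ℂ := ⋂ n, s.Gam n '' closedBall 0 1

end FanSys

end Pool.Agent.H44.Crem
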