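import Pool.Agent.H44.Crem.FanSurj

/-!
# M7e: the space of addresses and the fan coordinates
-/

set_option autoImplicit false
set_option maxHeartbeats 4000000

open Complex Metric Set Filter Topology

namespace Pool.Agent.H44.Crem

namespace FanSys

variable (s : FanSys)

/-- the roots of unity of level `j` -/
abbrev Rt (j : ℕ) : Type := {x : ℂ // x ^ s.m j = 1}

instance (j : ℕ) : Finite (s.Rt j) := by
  have h : {x : ℂ | x ^ s.m j = 1}.Finite := by
    have h1 : {x : ℂ | x ^ s.m j = 1} ⊆ ↑(Polynomial.nthRoots (s.m j) (1 : ℂ)).toFinset := by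
      intro x hx
      simp only [Finset.mem_coe, Multiset.mem_toFinset]
      rw [Polynomial.mem_nthRoots (s.m_pos' j)]
      exact hx
    exact (Finset.finite_toSet _).subset h1
  exact h.to_subtype

/-- the set of addresses -/
def AdrSet : Set (∀ j, s.Rt j) := {c | ∀ j, (c j : ℂ) = sig (s.m j) (c (j + 1) : ℂ)}

/-- the space of addresses -/
abbrev Adr : Type := ↥s.AdrSet

theorem isClosed_AdrSet : IsClosed s.AdrSet := by
  have h : s.AdrSet = ⋂ j, (fun c : ∀ j, s.Rt j => ((c j, c (j + 1)) : s.Rt j × s.Rt (j + 1))) ⁻¹'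
      {p | (p.1 : ℂ) = sig (s.m j) (p.2 : ℂ)} := by
    ext c
    simp [AdrSet]
  rw [h]
  apply isClosed_iInter
  intro j
  apply (isClosed_discrete _).preimage
  exact (continuous_apply j).prodMk (continuous_apply (j + 1))

instance : CompactSpace s.Adr := isCompact_iff_compactSpace.mp s.isClosed_AdrSet.isCompact

variable {s}

/-- the sequence of roots attached to an address -/
def val (c : s.Adr) (j : ℕ) : ℂ := (c.1 j : ℂ)

theorem val_isAdr (c : s.Adr) : s.IsAdr (val c) := ⟨fun j => (c.1 j).2, c.2⟩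

/-- an address from a sequence -/
def mkAdr {c : ℕ → ℂ} (h : s.IsAdr c) : s.Adr := ⟨fun j => ⟨c j, h.root j⟩, h.link⟩

theorem val_mkAdr {c : ℕ → ℂ} (h : s.IsAdr c) : val (mkAdr h) = c := rfl

theorem val_injective : Function.Injective (val : s.Adr → ℕ → ℂ) := by
  intro c c' h
  apply Subtype.ext
  funext j
  apply Subtype.ext
  exact congrFun h j

theorem val_continuous (j : ℕ) : Continuous (fun c : s.Adr => val c j) :=
  continuous_subtype_val.comp ((continuous_apply j).comp continuous_subtype_val)

theorem one_isAdr : s.IsAdr (fun _ => 1) :=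
  ⟨fun _ => one_pow _, fun _ => (sig_of_pow_eq_one (one_pow _)).symm⟩

instance : Nonempty s.Adr := ⟨mkAdr one_isAdr⟩

theorem IsAdr.eq_below {c c' : ℕ → ℂ} (hc : s.IsAdr c) (hc' : s.IsAdr c') {J : ℕ}
    (h : c J = c' J) : ∀ l ≤ J, c l = c' l := by
  have key : ∀ d l, l + d = J → c l = c' l := by
    intro d
    induction d with
    | zero =>
      intro l hl
      rw [add_zero] at hl
      rw [hl, h]
    | succ d ih =>
      intro l hl
      rw [hc.link, hc'.link, ih (l + 1) (by omega)]
  intro l hl
  exact key (J - l) l (by omega)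

/-- the cylinder sets form a basis -/
theorem exists_cyl (x : s.Adr) {U : Set s.Adr} (hU : IsOpen U) (hx : x ∈ U) :
    ∃ N, ∀ y : s.Adr, val y N = val x N → y ∈ U := by
  set V : ℕ → Set s.Adr := fun N => {y | val y N = val x N} with hV
  have hclosed : ∀ N, IsClosed (V N) := fun N =>
    isClosed_eq (val_continuous N) continuous_const
  have hanti : Antitone V := by
    intro a b hab y hy
    exact (val_isAdr y).eq_below (val_isAdr x) hy a hab
  have hdir : Directed (fun x1 x2 => x1 ⊇ x2) V := hanti.directed_ge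
  have hinter : ∀ y ∈ ⋂ N, V N, U ∈ 𝓝 y := by
    intro y hy
    have h1 : y = x := by
      apply val_injective
      funext N
      exact mem_iInter.mp hy N
    rw [h1]
    exact hU.mem_nhds hx
  obtain ⟨N, hN⟩ := exists_subset_nhds_of_compactSpace hdir hclosed hinter
  exact ⟨N, fun y hy => hN hy⟩

/-- the strand map -/
noncomputable def DD (s : FanSys) (z : ℂ) : s.Adr := by
  classical
  exact if h : z ∈ s.K ∧ z ≠ 0 then mkAdr (adr_isAdr h.1 h.2) else mkAdr one_isAdr

theorem DD_val {z : ℂ} (hz : z ∈ s.K) (h0 : z ≠ 0) : val (s.DD z) = s.adr z := by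
  unfold DD
  rw [dif_pos ⟨hz, h0⟩]
  rfl

theorem adr_cont (j : ℕ) : ContinuousOn (fun z => s.adr z j) (s.K \ {0}) := by
  intro z hz
  apply ContinuousAt.continuousWithinAt
  have h1 := continuousAt_sig (s.m_pos' j) (slit_all hz.1 (by simpa using hz.2) j)
  exact ContinuousAt.comp (g := sig (s.m j)) (f := s.Lam j) h1 (s.Lam_cont j).continuousAt

theorem DD_cont : ContinuousOn s.DD (s.K \ {0}) := by
  rw [Topology.IsInducing.subtypeVal.continuousOn_iff]
  rw [continuousOn_pi]
  intro j
  have hind : Topology.IsInducing (Subtype.val : s.Rt j → ℂ) := Topology.IsInducing.subtypeVal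
  apply hind.continuousOn_iff.mpr
  apply (adr_cont (s := s) j).congr
  intro z hz
  have h1 := DD_val hz.1 (by simpa using hz.2 : z ≠ 0)
  exact congrFun h1 j

/-- the radial coordinate -/
noncomputable def rr (s : FanSys) (z : ℂ) : ℝ := by
  classical
  exact if z = 0 then 0 else s.rho z 0

theorem rr_zero : s.rr 0 = 0 := by
  unfold rr
  rw [if_pos rfl]

theorem rr_ne {z : ℂ} (h : z ≠ 0) : s.rr z = s.rho z 0 := by
  unfold rr
  rw [if_neg h]

theorem rr_cont : ContinuousOn s.rr s.K := by
  set F : ℕ → ℂ → ℝ := fun i z => Bc s.h (s.adr z) 0 i ‖s.Lam i z‖ with hF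
  have hF0 : ∀ i, F i 0 = 0 := by
    intro i
    simp only [hF]
    rw [s.Lam_zero', norm_zero]
    exact Bc_zero_right 0 i
  have hunif : TendstoUniformlyOn F s.rr atTop s.K := by
    rw [Metric.tendstoUniformlyOn_iff]
    intro ε hε
    have h1 : Tendsto (fun i : ℕ => 1 / (s.m 0 : ℝ) * (1 / 3) ^ i / (1 - 1 / 3)) atTop (𝓝 0) := by
      have h2 := ((tendsto_pow_atTop_nhds_zero_of_lt_one (r := (1 / 3 : ℝ)) (by norm_num)
        (by norm_num)).const_mul (1 / (s.m 0 : ℝ))).div_const (1 - 1 / 3)
      simpa using h2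
    filter_upwards [h1.eventually (gt_mem_nhds hε)] with i hi z hz
    by_cases h0 : z = 0
    · rw [h0, rr_zero, hF0, dist_self]
      exact hε
    · rw [rr_ne h0, dist_comm]
      have h3 := rho_dist hz h0 0 i
      rw [zero_add] at h3
      exact h3.trans_lt hi
  apply hunif.continuousOn
  apply Frequently.of_forall
  intro i
  have hcont : ContinuousOn (F i) (s.K \ {0}) := by
    apply Bc_continuousOn (s := s) (fun z => s.adr z) (fun z => ‖s.Lam i z‖)
    · exact adr_cont
    · intro z hz j
      exact (adr_isAdr hz.1 (by simpa using hz.2)).norm j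
    · exact (s.Lam_cont i).norm.continuousOn
    · intro z hz
      exact K_norm hz.1 i
  intro z hz
  by_cases h0 : z = 0
  · rw [h0]
    unfold ContinuousWithinAt
    rw [hF0]
    have h1 : Tendsto (fun z => ‖s.Lam i z‖) (𝓝[s.K] 0) (𝓝 0) := by
      have h2 := ((s.Lam_cont i).norm.tendsto 0).mono_left (nhdsWithin_le_nhds (s := s.K))
      rwa [s.Lam_zero', norm_zero] at h2
    apply squeeze_zero_norm' _ h1
    filter_upwards [self_mem_nhdsWithin] with w hw
    by_cases hw0 : w = 0
    · rw [hw0, hF0]
      simp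
    · have h3 := Bc_mem (s := s) (adr_isAdr hw hw0).norm 0 i (K_norm hw i)
      have h4 := Bc_le (s := s) (adr_isAdr hw hw0).norm 0 i (K_norm hw i)
      rw [Real.norm_eq_abs, abs_of_nonneg h3.1]
      exact h4
  · have h1 := hcont z ⟨hz, h0⟩
    have h2 : s.K \ {0} = s.K ∩ {0}ᶜ := rfl
    rw [h2] at h1
    exact (continuousWithinAt_inter (isOpen_compl_singleton.mem_nhds h0)).mp h1

/-- the length function on the address space -/
noncomputable def ell (s : FanSys) (c : s.Adr) : ℝ := s.len (val c)

theorem fanCoord : FanCoord s.K s.DD s.rr s.ell where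
  compact := s.K_compact
  zero_mem := s.zero_mem_K
  D_cont := DD_cont
  r_cont := rr_cont
  r_zero := rr_zero
  r_pos := fun z hz h0 => by rw [rr_ne h0]; exact rho_pos hz h0 0
  inj := by
    intro z hz w hw z0 w0 hD hr
    have h1 := congrArg val hD
    rw [DD_val hz z0, DD_val hw w0] at h1
    rw [rr_ne z0, rr_ne w0] at hr
    exact rho_inj hz hw z0 w0 h1 hr
  surj := by
    intro c t ht
    constructor
    · intro h
      obtain ⟨z, hz, z0, hadr, hr⟩ := exists_point (val_isAdr c) ht h
      refine ⟨z, hz, z0, ?_, ?_⟩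
      · apply val_injective
        rw [DD_val hz z0, hadr]
      · rw [rr_ne z0, hr]
    · rintro ⟨z, hz, z0, hD, hr⟩
      rw [rr_ne z0] at hr
      have h1 := rho_le_len hz z0
      rw [← DD_val hz z0, hD, hr] at h1
      exact h1
  ell_nonneg := fun c => len_nonneg (val_isAdr c).norm

end FanSys

end Pool.Agent.H44.Crem
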