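import Pool.Agent.H44.Crem.Defs

/-!
# M8: uniqueness of length functions with dense endpoints (Lelek type)

Back-and-forth construction: finer and finer matched clopen partitions of the two spaces such that
the ratios of the block maxima of the two length functions converge uniformly.
-/

set_option autoImplicit false

open Complex Metric Set Filter Topology

namespace Pool.Agent.H44.Crem

namespace LelekAux

/-- the supremum of `ell` on `A` -/
noncomputable def mx {C : Type} (ell : C → ℝ) (A : Set C) : ℝ := sSup (ell '' A)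

theorem mx_eq {C : Type} {ell : C → ℝ} {A : Set C} {x : C} (hx : x ∈ A)
    (h : ∀ y ∈ A, ell y ≤ ell x) : mx ell A = ell x := by
  apply le_antisymm
  · exact csSup_le ⟨_, x, hx, rfl⟩ (by rintro _ ⟨y, hy, rfl⟩; exact h y hy)
  · exact le_csSup ⟨ell x, by rintro _ ⟨y, hy, rfl⟩; exact h y hy⟩ ⟨x, hx, rfl⟩

section one

variable {C : Type} [TopologicalSpace C] [CompactSpace C] {ell : C → ℝ}

theorem mx_spec (h : LelekLen ell) {A : Set C} (hA : IsClosed A) (hne : A.Nonempty) :
    ∃ x ∈ A, ell x = mx ell A ∧ ∀ y ∈ A, ell y ≤ mx ell A := by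
  obtain ⟨x, hx, hmax⟩ := UpperSemicontinuousOn.exists_isMaxOn hne hA.isCompact
    (h.usc.upperSemicontinuousOn A)
  have hmax' : ∀ y ∈ A, ell y ≤ ell x := fun y hy => hmax hy
  have h1 : mx ell A = ell x := mx_eq hx hmax'
  exact ⟨x, hx, h1.symm, fun y hy => h1 ▸ hmax' y hy⟩

theorem mx_pos (h : LelekLen ell) {A : Set C} (hA : IsClopen A) (hne : A.Nonempty) :
    0 < mx ell A := by
  obtain ⟨x, hx, -, h2⟩ := mx_spec h hA.1 hne
  obtain ⟨y, hy, hy0⟩ := h.pos A hA hne
  exact lt_of_lt_of_le hy0 (h2 y hy)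

theorem mx_mono (h : LelekLen ell) {A B : Set C} (hA : IsClosed A) (hB : IsClosed B)
    (hne : A.Nonempty) (hAB : A ⊆ B) : mx ell A ≤ mx ell B := by
  obtain ⟨x, hx, h1, -⟩ := mx_spec h hA hne
  obtain ⟨-, -, -, h2⟩ := mx_spec h hB (hne.mono hAB)
  rw [← h1]
  exact h2 x (hAB hx)

end one

section two

variable {C C' : Type} [TopologicalSpace C] [CompactSpace C] [TopologicalSpace C']
  [CompactSpace C'] {ell : C → ℝ} {ell' : C' → ℝ}

theorem block (h : LelekLen ell) (h' : LelekLen ell') {A : Set C} (hA : IsClopen A)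
    (hAne : A.Nonempty) {A' : Set C'} (hA' : IsClopen A') (hAne' : A'.Nonempty) {e : C → ℕ}
    (he : Continuous e) {eps : ℝ} (heps : 0 < eps) :
    ∃ G : C' → ℕ, Continuous G ∧ G '' A' = e '' A ∧ ∀ j ∈ e '' A,
      |Real.log (mx ell' (A' ∩ G ⁻¹' {j})) - Real.log (mx ell (A ∩ e ⁻¹' {j})) -
        (Real.log (mx ell' A') - Real.log (mx ell A))| ≤ eps := by
  classical
  obtain ⟨p, hpA, hp1, hp2⟩ := mx_spec h hA.1 hAne
  obtain ⟨p', hpA', hp1', hp2'⟩ := mx_spec h' hA'.1 hAne'
  have hs : 0 < mx ell A := mx_pos h hA hAne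
  have hs' : 0 < mx ell' A' := mx_pos h' hA' hAne'
  set s := mx ell A with hsdef
  set s' := mx ell' A' with hsdef'
  have hcl : ∀ j, IsClopen (A ∩ e ⁻¹' {j}) := fun j =>
    hA.inter ((isClopen_discrete _).preimage he)
  have hne : ∀ j ∈ e '' A, (A ∩ e ⁻¹' {j}).Nonempty := by
    rintro _ ⟨x, hx, rfl⟩
    exact ⟨x, hx, rfl⟩
  have hsj : ∀ j ∈ e '' A, 0 < mx ell (A ∩ e ⁻¹' {j}) := fun j hj => mx_pos h (hcl j) (hne j hj)
  have hsj' : ∀ j ∈ e '' A, mx ell (A ∩ e ⁻¹' {j}) ≤ s := fun j hj =>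
    mx_mono h (hcl j).1 hA.1 (hne j hj) inter_subset_left
  set q := Real.exp (-(eps / 2)) with hq
  have hq0 : 0 < q := Real.exp_pos _
  have hq1 : q < 1 := by
    rw [hq, Real.exp_lt_one_iff]
    linarith
  set t : ℕ → ℝ := fun j => min (mx ell (A ∩ e ⁻¹' {j}) * s' / s) (s' * q) with ht
  have ht0 : ∀ j ∈ e '' A, 0 < t j := fun j hj =>
    lt_min (div_pos (mul_pos (hsj j hj) hs') hs) (mul_pos hs' hq0)
  have ht1 : ∀ j, t j < s' := fun j => lt_of_le_of_lt (min_le_right _ _) (by nlinarith)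
  have key : ∀ T : Finset ℕ, (∀ j ∈ T, j ∈ e '' A) → e p ∉ T → ∃ G : C' → ℕ, Continuous G ∧
      (∀ y ∈ A', G y = e p ∨ G y ∈ T) ∧ G p' = e p ∧ ∀ j ∈ T,
        (∃ y ∈ A', G y = j ∧ t j * q < ell' y) ∧ ∀ y ∈ A', G y = j → ell' y ≤ t j := by
    intro T
    induction T using Finset.induction_on with
    | empty =>
      intro _ _
      exact ⟨fun _ => e p, continuous_const, fun y _ => Or.inl rfl, rfl, by simp⟩
    | insert j T hjT ih =>
      intro hT hp
      have hTe : ∀ i ∈ T, i ∈ e '' A := fun i hi => hT i (Finset.mem_insert_of_mem hi)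
      have hje : j ∈ e '' A := hT j (Finset.mem_insert_self j T)
      have hpj : e p ≠ j := fun hh => hp (hh ▸ Finset.mem_insert_self _ _)
      obtain ⟨G, hG, hG1, hG2, hG3⟩ := ih hTe (fun hh => hp (Finset.mem_insert_of_mem hh))
      have hV : IsClopen (A' ∩ G ⁻¹' {e p}) := hA'.inter ((isClopen_discrete _).preimage hG)
      obtain ⟨V', hV'sub, hV', hV'1, y, hy, hy1⟩ := h'.dense (A' ∩ G ⁻¹' {e p}) hV p' ⟨hpA', hG2⟩
        (t j) (ht0 j hje) (by rw [hp1']; exact ht1 j) (t j * (1 - q))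
        (mul_pos (ht0 j hje) (by linarith))
      have hp'V : p' ∉ V' := fun hh => absurd (hV'1 p' hh) (by
        rw [hp1']; exact not_le.mpr (ht1 j))
      refine ⟨fun z => if z ∈ V' then j else G z, ?_, ?_, ?_, ?_⟩
      · apply continuous_def.mpr
        intro s _
        have : (fun z => if z ∈ V' then j else G z) ⁻¹' s =
            (V' ∩ (fun _ => j) ⁻¹' s) ∪ (V'ᶜ ∩ G ⁻¹' s) := by
          ext z
          by_cases hz : z ∈ V' <;> simp [hz]
        rw [this]
        exact (hV'.2.inter ((isOpen_discrete s).preimage continuous_const)).union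
          (hV'.compl.2.inter ((isOpen_discrete s).preimage hG))
      · intro z hz
        by_cases hzV : z ∈ V'
        · right; simp [hzV]
        · simp only [if_neg hzV]
          rcases hG1 z hz with h1 | h1
          · exact Or.inl h1
          · exact Or.inr (Finset.mem_insert_of_mem h1)
      · simp [hp'V, hG2]
      · intro i hi
        rcases Finset.mem_insert.mp hi with rfl | hi
        · refine ⟨⟨y, (hV'sub hy).1, by simp [hy], ?_⟩, ?_⟩
          · calc t i * q = t i - t i * (1 - q) := by ring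
              _ < ell' y := hy1
          · intro z hz hzi
            by_cases hzV : z ∈ V'
            · exact hV'1 z hzV
            · simp only [if_neg hzV] at hzi
              exfalso
              rcases hG1 z hz with h1 | h1
              · exact hpj (h1.symm.trans hzi)
              · exact hjT (hzi ▸ h1)
        · have hij : i ≠ j := fun hh => hjT (hh ▸ hi)
          have hip : i ≠ e p := fun hh => hp (Finset.mem_insert_of_mem (hh ▸ hi))
          obtain ⟨⟨w, hw, hw1, hw2⟩, h3⟩ := hG3 i hi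
          refine ⟨⟨w, hw, ?_, hw2⟩, ?_⟩
          · have hwV : w ∉ V' := fun hh => hip (hw1.symm.trans (hV'sub hh).2)
            simp [hwV, hw1]
          · intro z hz hzi
            by_cases hzV : z ∈ V'
            · simp only [if_pos hzV] at hzi
              exact absurd hzi.symm hij
            · simp only [if_neg hzV] at hzi
              exact h3 z hz hzi
  have hfin : (e '' A).Finite :=
    ((isCompact_range he).finite_of_discrete).subset (image_subset_range _ _)
  obtain ⟨G, hG, hG1, hG2, hG3⟩ := key (hfin.toFinset.erase (e p)) (by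
    intro j hj
    exact hfin.mem_toFinset.mp (Finset.mem_of_mem_erase hj)) (by simp)
  refine ⟨G, hG, ?_, ?_⟩
  · apply Subset.antisymm
    · rintro _ ⟨y, hy, rfl⟩
      rcases hG1 y hy with h1 | h1
      · exact ⟨p, hpA, h1.symm⟩
      · exact hfin.mem_toFinset.mp (Finset.mem_of_mem_erase h1)
    · intro j hj
      by_cases hjp : j = e p
      · exact ⟨p', hpA', by rw [hG2, hjp]⟩
      · obtain ⟨⟨y, hy, hy1, -⟩, -⟩ := hG3 j (Finset.mem_erase.mpr ⟨hjp, hfin.mem_toFinset.mpr hj⟩)
        exact ⟨y, hy, hy1⟩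
  · intro j hj
    by_cases hjp : j = e p
    · have h1 : mx ell' (A' ∩ G ⁻¹' {j}) = s' := by
        rw [← hp1']
        have hmem : p' ∈ A' ∩ G ⁻¹' {j} := ⟨hpA', by simp [hG2, hjp]⟩
        apply mx_eq hmem
        intro y hy
        rw [hp1']
        exact hp2' y hy.1
      have h2 : mx ell (A ∩ e ⁻¹' {j}) = s := by
        rw [← hp1]
        have hmem : p ∈ A ∩ e ⁻¹' {j} := ⟨hpA, by simp [hjp]⟩
        apply mx_eq hmem
        intro y hy
        rw [hp1]
        exact hp2 y hy.1
      rw [h1, h2]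
      simp [heps.le]
    · obtain ⟨⟨y, hy, hy1, hy2⟩, h3⟩ := hG3 j (Finset.mem_erase.mpr ⟨hjp,
        hfin.mem_toFinset.mpr hj⟩)
      have hcl' : IsClopen (A' ∩ G ⁻¹' {j}) := hA'.inter ((isClopen_discrete _).preimage hG)
      have hne' : (A' ∩ G ⁻¹' {j}).Nonempty := ⟨y, hy, hy1⟩
      obtain ⟨w, hw, hw1, hw2⟩ := mx_spec h' hcl'.1 hne'
      have hm0 := mx_pos h' hcl' hne'
      have hup : mx ell' (A' ∩ G ⁻¹' {j}) ≤ t j := by
        rw [← hw1]; exact h3 w hw.1 hw.2
      have hlo : t j * q < mx ell' (A' ∩ G ⁻¹' {j}) := lt_of_lt_of_le hy2 (hw2 y ⟨hy, hy1⟩)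
      set m := mx ell' (A' ∩ G ⁻¹' {j}) with hm
      have hsj0 := hsj j hj
      have hsj1 := hsj' j hj
      set σ := mx ell (A ∩ e ⁻¹' {j}) with hσ
      have e1 : Real.log (σ * s' / s) = Real.log σ + Real.log s' - Real.log s := by
        rw [Real.log_div (by positivity) hs.ne', Real.log_mul hsj0.ne' hs'.ne']
      have hA1 : Real.log m ≤ Real.log σ + Real.log s' - Real.log s := by
        rw [← e1]
        exact Real.log_le_log hm0 (hup.trans (min_le_left _ _))
      have hA2 : Real.log σ + Real.log s' - Real.log s - eps ≤ Real.log m := by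
        have h4 : σ * s' / s * q * q ≤ m := by
          refine le_trans ?_ hlo.le
          have h5 : σ * s' / s * q ≤ t j := by
            apply le_min
            · have : 0 < σ * s' / s := by positivity
              nlinarith
            · have : σ * s' / s ≤ s' := by
                rw [div_le_iff₀ hs]
                nlinarith
              nlinarith
          nlinarith
        have h6 : Real.log (σ * s' / s * q * q) = Real.log σ + Real.log s' - Real.log s - eps := by
          rw [Real.log_mul (by positivity) hq0.ne', Real.log_mul (by positivity) hq0.ne', e1, hq,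
            Real.log_exp]
          ring
        rw [← h6]
        exact Real.log_le_log (by positivity) h4
      rw [abs_le]
      constructor <;> linarith

/-- the log-ratio of the block maxima -/
noncomputable def Lam (ell : C → ℝ) (ell' : C' → ℝ) (f : C → ℕ) (g : C' → ℕ) (x : C) (y : C') : ℝ :=
  Real.log (mx ell' {z | g z = g y}) - Real.log (mx ell {z | f z = f x})

theorem half (h : LelekLen ell) (h' : LelekLen ell') {f : C → ℕ} (hf : Continuous f)
    {g : C' → ℕ} (hg : Continuous g) (hr : range f = range g) {e : C → ℕ} (he : Continuous e)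
    {eps : ℝ} (heps : 0 < eps) :
    ∃ (f₂ : C → ℕ) (g₂ : C' → ℕ), Continuous f₂ ∧ Continuous g₂ ∧ range f₂ = range g₂ ∧
      (∀ x y, f₂ x = f₂ y → f x = f y ∧ e x = e y) ∧ (∀ x y, g₂ x = g₂ y → g x = g y) ∧
      (∀ x y, f₂ x = g₂ y → f x = g y) ∧
      ∀ x y, f₂ x = g₂ y → |Lam ell ell' f₂ g₂ x y - Lam ell ell' f g x y| ≤ eps := by
  classical
  have hb : ∀ i : ℕ, ∃ G : C' → ℕ, Continuous G ∧ (i ∈ range f →
      (G '' (g ⁻¹' {i}) = e '' (f ⁻¹' {i}) ∧ ∀ j ∈ e '' (f ⁻¹' {i}),
      |Real.log (mx ell' ((g ⁻¹' {i}) ∩ G ⁻¹' {j})) - Real.log (mx ell ((f ⁻¹' {i}) ∩ e ⁻¹' {j})) -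
        (Real.log (mx ell' (g ⁻¹' {i})) - Real.log (mx ell (f ⁻¹' {i})))| ≤ eps)) := by
    intro i
    by_cases hi : i ∈ range f
    · have hi' : i ∈ range g := hr ▸ hi
      obtain ⟨x, hx⟩ := hi
      obtain ⟨y, hy⟩ := hi'
      obtain ⟨G, hG, hG1, hG2⟩ := block h h' ((isClopen_discrete {i}).preimage hf)
        ⟨x, hx⟩ ((isClopen_discrete {i}).preimage hg) ⟨y, hy⟩ he heps
      exact ⟨G, hG, fun _ => ⟨hG1, hG2⟩⟩
    · exact ⟨fun _ => 0, continuous_const, fun hh => absurd hh hi⟩
  choose G hG hG' using hb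
  have hfib : ∀ x, {z | Nat.pair (f z) (e z) = Nat.pair (f x) (e x)} =
      f ⁻¹' {f x} ∩ e ⁻¹' {e x} := by
    intro x
    ext z
    simp [Nat.pair_eq_pair]
  have hfib' : ∀ y, {z | Nat.pair (g z) (G (g z) z) = Nat.pair (g y) (G (g y) y)} =
      g ⁻¹' {g y} ∩ (G (g y)) ⁻¹' {G (g y) y} := by
    intro y
    ext z
    simp only [Nat.pair_eq_pair, mem_ofPred_eq, mem_inter_iff, mem_preimage, mem_singleton_iff]
    constructor
    · rintro ⟨h1, h2⟩
      rw [h1] at h2
      exact ⟨h1, h2⟩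
    · rintro ⟨h1, h2⟩
      rw [h1]
      exact ⟨rfl, h2⟩
  refine ⟨fun x => Nat.pair (f x) (e x), fun y => Nat.pair (g y) (G (g y) y), ?_, ?_, ?_, ?_, ?_,
    ?_, ?_⟩
  · exact (continuous_of_discreteTopology (f := fun p : ℕ × ℕ => Nat.pair p.1 p.2)).comp
      (hf.prodMk he)
  · have hG2 : Continuous (fun y => G (g y) y) := by
      apply continuous_def.mpr
      intro s _
      have hs : (fun y => G (g y) y) ⁻¹' s = ⋃ i, (g ⁻¹' {i} ∩ G i ⁻¹' s) := by
        ext z
        simp
      rw [hs]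
      exact isOpen_iUnion fun i => ((isOpen_discrete {i}).preimage hg).inter
        ((isOpen_discrete s).preimage (hG i))
    exact (continuous_of_discreteTopology (f := fun p : ℕ × ℕ => Nat.pair p.1 p.2)).comp
      (hg.prodMk hG2)
  · apply Subset.antisymm
    · rintro _ ⟨x, rfl⟩
      have h1 : e x ∈ G (f x) '' (g ⁻¹' {f x}) := by
        rw [(hG' (f x) ⟨x, rfl⟩).1]
        exact ⟨x, rfl, rfl⟩
      obtain ⟨y, hy, hy1⟩ := h1
      have hy' : g y = f x := hy
      exact ⟨y, by simp only [hy', hy1]⟩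
    · rintro _ ⟨y, rfl⟩
      have hmem : g y ∈ range f := hr ▸ ⟨y, rfl⟩
      have h1 : G (g y) y ∈ e '' (f ⁻¹' {g y}) := by
        rw [← (hG' (g y) hmem).1]
        exact ⟨y, rfl, rfl⟩
      obtain ⟨x, hx, hx1⟩ := h1
      have hx' : f x = g y := hx
      exact ⟨x, by simp only [hx', hx1]⟩
  · intro x y hxy
    exact Nat.pair_eq_pair.mp hxy
  · intro x y hxy
    exact (Nat.pair_eq_pair.mp hxy).1
  · intro x y hxy
    exact (Nat.pair_eq_pair.mp hxy).1
  · intro x y hxy
    obtain ⟨h1, h2⟩ := Nat.pair_eq_pair.mp hxy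
    simp only [Lam]
    rw [hfib, hfib']
    have h3 := (hG' (f x) ⟨x, rfl⟩).2 (e x) ⟨x, rfl, rfl⟩
    have e1 : {z | g z = g y} = g ⁻¹' {f x} := by
      ext z; simp [h1]
    have e2 : {z | f z = f x} = f ⁻¹' {f x} := rfl
    rw [e1, e2, ← h2, ← h1]
    exact h3

end two

section limit

variable {C : Type} [TopologicalSpace C] [CompactSpace C]

theorem shrink {f : ℕ → C → ℕ} (hf : ∀ k, Continuous (f k))
    (href : ∀ k x y, f (k + 1) x = f (k + 1) y → f k x = f k y)
    (hsep : ∀ x y, (∀ k, f k x = f k y) → x = y) (c : C) {U : Set C} (hU : IsOpen U)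
    (hc : c ∈ U) : ∃ k, ∀ x, f k x = f k c → x ∈ U := by
  by_contra hcon
  push Not at hcon
  have hcl : ∀ k, IsClosed (f k ⁻¹' {f k c} ∩ Uᶜ) := fun k =>
    ((isClosed_discrete {f k c}).preimage (hf k)).inter hU.isClosed_compl
  obtain ⟨x, hx⟩ := IsCompact.nonempty_iInter_of_sequence_nonempty_isCompact_isClosed
    (fun k => f k ⁻¹' {f k c} ∩ Uᶜ) (fun k x hx => ⟨href k x c hx.1, hx.2⟩) (fun k => hcon k)
    (hcl 0).isCompact hcl
  rw [mem_iInter] at hx
  have hxc : x = c := hsep x c (fun k => (hx k).1)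
  exact (hx 0).2 (hxc ▸ hc)

theorem mono_ref {D : Type} {f : ℕ → D → ℕ}
    (href : ∀ k x y, f (k + 1) x = f (k + 1) y → f k x = f k y) {k m : ℕ} (hkm : k ≤ m) {x y : D}
    (h : f m x = f m y) : f k x = f k y := by
  induction m, hkm using Nat.le_induction with
  | base => exact h
  | succ m _ ih => exact ih (href m x y h)

theorem mx_tendsto {ell : C → ℝ} (h : LelekLen ell) {f : ℕ → C → ℕ} (hf : ∀ k, Continuous (f k))
    (href : ∀ k x y, f (k + 1) x = f (k + 1) y → f k x = f k y)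
    (hsep : ∀ x y, (∀ k, f k x = f k y) → x = y) (c : C) :
    Tendsto (fun k => mx ell {z | f k z = f k c}) atTop (𝓝 (ell c)) := by
  rw [Metric.tendsto_atTop]
  intro δ hδ
  obtain ⟨k0, hk0⟩ := shrink hf href hsep c (h.usc.isOpen_preimage (ell c + δ))
    (by simp [hδ])
  refine ⟨k0, fun k hk => ?_⟩
  have hcl : IsClosed {z | f k z = f k c} := (isClosed_discrete {f k c}).preimage (hf k)
  obtain ⟨x, hx, h1, h2⟩ := mx_spec h hcl ⟨c, rfl⟩
  have h3 : ell x < ell c + δ := hk0 x (mono_ref href hk hx)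
  have h4 := h2 c rfl
  rw [Real.dist_eq, abs_lt]
  constructor <;> linarith

theorem exists_match {D : Type} {f : ℕ → D → ℕ} {g : ℕ → C → ℕ} (hg : ∀ k, Continuous (g k))
    (hr : ∀ k, range (f k) = range (g k))
    (hfg : ∀ k x y, f (k + 1) x = g (k + 1) y → f k x = g k y) (c : D) :
    ∃ y, ∀ k, g k y = f k c := by
  have hcl : ∀ k, IsClosed (g k ⁻¹' {f k c}) := fun k =>
    (isClosed_discrete {f k c}).preimage (hg k)
  obtain ⟨x, hx⟩ := IsCompact.nonempty_iInter_of_sequence_nonempty_isCompact_isClosed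
    (fun k => g k ⁻¹' {f k c}) (fun k y hy => (hfg k c y hy.symm).symm) (fun k => by
      have : f k c ∈ range (g k) := hr k ▸ ⟨c, rfl⟩
      exact this) (hcl 0).isCompact hcl
  rw [mem_iInter] at hx
  exact ⟨x, fun k => hx k⟩

end limit

section seq

variable {C C' : Type} [TopologicalSpace C] [CompactSpace C] [TopologicalSpace C']
  [CompactSpace C'] {ell : C → ℝ} {ell' : C' → ℝ}

/-- A stage of the construction. -/
structure St (C C' : Type) [TopologicalSpace C] [TopologicalSpace C'] where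
  f : C → ℕ
  g : C' → ℕ
  hf : Continuous f
  hg : Continuous g
  hr : range f = range g

theorem step (h : LelekLen ell) (h' : LelekLen ell') (S : St C C') {e : C → ℕ}
    (he : Continuous e) {e' : C' → ℕ} (he' : Continuous e') {eps : ℝ} (heps : 0 < eps) :
    ∃ T : St C C', (∀ x y, T.f x = T.f y → S.f x = S.f y ∧ e x = e y) ∧
      (∀ x y, T.g x = T.g y → S.g x = S.g y ∧ e' x = e' y) ∧
      (∀ x y, T.f x = T.g y → S.f x = S.g y) ∧
      ∀ x y, T.f x = T.g y → |Lam ell ell' T.f T.g x y - Lam ell ell' S.f S.g x y| ≤ eps := by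
  obtain ⟨f₂, g₂, hf₂, hg₂, hr₂, a1, a2, a3, a4⟩ := half h h' S.hf S.hg S.hr he (half_pos heps)
  obtain ⟨g₃, f₃, hg₃, hf₃, hr₃, b1, b2, b3, b4⟩ := half h' h hg₂ hf₂ hr₂.symm he' (half_pos heps)
  refine ⟨⟨f₃, g₃, hf₃, hg₃, hr₃.symm⟩, fun x y hxy => a1 x y (b2 x y hxy),
    fun x y hxy => ⟨a2 x y (b1 x y hxy).1, (b1 x y hxy).2⟩,
    fun x y hxy => a3 x y (b3 y x hxy.symm).symm, fun x y hxy => ?_⟩
  have h1 := a4 x y (b3 y x hxy.symm).symm
  have h2 := b4 y x hxy.symm
  simp only [Lam] at h1 h2 ⊢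
  rw [abs_le] at h1 h2 ⊢
  constructor <;> linarith [h1.1, h1.2, h2.1, h2.2]

end seq

end LelekAux

open LelekAux in
theorem lelek {C C' : Type} [TopologicalSpace C] [CompactSpace C] [T2Space C]
    [TopologicalSpace C'] [CompactSpace C'] [T2Space C'] [Nonempty C] [Nonempty C']
    (e : ℕ → C → ℕ) (he : ∀ k, Continuous (e k)) (hsep : ∀ x y, (∀ k, e k x = e k y) → x = y)
    (e' : ℕ → C' → ℕ) (he' : ∀ k, Continuous (e' k))
    (hsep' : ∀ x y, (∀ k, e' k x = e' k y) → x = y)
    {ell : C → ℝ} {ell' : C' → ℝ} (h : LelekLen ell) (h' : LelekLen ell') :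
    ∃ (φ : C ≃ₜ C') (lam : C → ℝ), Continuous lam ∧ (∀ x, 0 < lam x) ∧
      ∀ x, ell' (φ x) = lam x * ell x := by
  have hst : ∀ (k : ℕ) (S : St C C'), ∃ T : St C C',
      (∀ x y, T.f x = T.f y → S.f x = S.f y ∧ e k x = e k y) ∧
      (∀ x y, T.g x = T.g y → S.g x = S.g y ∧ e' k x = e' k y) ∧
      (∀ x y, T.f x = T.g y → S.f x = S.g y) ∧
      ∀ x y, T.f x = T.g y →
        |Lam ell ell' T.f T.g x y - Lam ell ell' S.f S.g x y| ≤ (1 / 2 : ℝ) ^ k := fun k S =>
    step h h' S (he k) (he' k) (by positivity)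
  choose nx hnx using hst
  let S0 : St C C' := ⟨fun _ => 0, fun _ => 0, continuous_const, continuous_const, by simp⟩
  let S : ℕ → St C C' := fun n => Nat.rec S0 (fun k T => nx k T) n
  have hS : ∀ k, S (k + 1) = nx k (S k) := fun k => rfl
  have c1 : ∀ k x y, (S (k + 1)).f x = (S (k + 1)).f y → (S k).f x = (S k).f y ∧ e k x = e k y :=
    fun k => (hnx k (S k)).1
  have c2 : ∀ k x y, (S (k + 1)).g x = (S (k + 1)).g y → (S k).g x = (S k).g y ∧ e' k x = e' k y :=
    fun k => (hnx k (S k)).2.1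
  have c3 : ∀ k x y, (S (k + 1)).f x = (S (k + 1)).g y → (S k).f x = (S k).g y :=
    fun k => (hnx k (S k)).2.2.1
  have c4 : ∀ k x y, (S (k + 1)).f x = (S (k + 1)).g y →
      |Lam ell ell' (S (k + 1)).f (S (k + 1)).g x y - Lam ell ell' (S k).f (S k).g x y| ≤
        (1 / 2 : ℝ) ^ k :=
    fun k => (hnx k (S k)).2.2.2
  have sf : ∀ x y, (∀ k, (S k).f x = (S k).f y) → x = y := fun x y hxy =>
    hsep x y fun k => (c1 k x y (hxy (k + 1))).2
  have sg : ∀ x y, (∀ k, (S k).g x = (S k).g y) → x = y := fun x y hxy =>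
    hsep' x y fun k => (c2 k x y (hxy (k + 1))).2
  choose φ hφ using exists_match (f := fun k => (S k).f) (g := fun k => (S k).g)
    (fun k => (S k).hg) (fun k => (S k).hr) c3
  choose ψ hψ using exists_match (f := fun k => (S k).g) (g := fun k => (S k).f)
    (fun k => (S k).hf) (fun k => (S k).hr.symm) (fun k x y hxy => (c3 k y x hxy.symm).symm)
  have hφc : Continuous φ := by
    have hE : IsClosedEmbedding (fun y => fun k => e' k y) :=
      (continuous_pi he').isClosedEmbedding (fun x y hxy => hsep' x y (fun k => congrFun hxy k))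
    rw [hE.isEmbedding.continuous_iff]
    refine continuous_pi fun k => ?_
    have hfac : ∀ x y, (S (k + 1)).f x = (S (k + 1)).f y → e' k (φ x) = e' k (φ y) := by
      intro x y hxy
      refine (c2 k _ _ ?_).2
      rw [hφ x (k + 1), hφ y (k + 1)]
      exact hxy
    apply continuous_def.mpr
    intro s _
    have : ((fun y => fun k => e' k y) ∘ φ) = (fun x k => e' k (φ x)) := rfl
    have h2 : (fun x => e' k (φ x)) ⁻¹' s = (S (k + 1)).f ⁻¹' ((S (k + 1)).f ''
        ((fun x => e' k (φ x)) ⁻¹' s)) := by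
      apply Subset.antisymm (subset_preimage_image _ _)
      rintro x ⟨y, hy, hyx⟩
      have h3 : e' k (φ y) ∈ s := hy
      show e' k (φ x) ∈ s
      rw [← hfac y x hyx]
      exact h3
    show IsOpen ((fun x => e' k (φ x)) ⁻¹' s)
    rw [h2]
    exact (isOpen_discrete _).preimage (S (k + 1)).hf
  let φe : C ≃ C' :=
    { toFun := φ
      invFun := ψ
      left_inv := fun x => sf _ _ fun k => by rw [hψ (φ x) k, hφ x k]
      right_inv := fun y => sg _ _ fun k => by rw [hφ (ψ y) k, hψ y k] }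
  let Φ : C ≃ₜ C' := Continuous.homeoOfEquivCompactToT2 (f := φe) hφc
  -- the log ratio along the sequence
  let L : ℕ → C → ℝ := fun k x => Lam ell ell' (S k).f (S k).g x (φ x)
  have hL : ∀ k, Continuous (L k) := by
    intro k
    have : L k = (fun i => Real.log (mx ell' {z | (S k).g z = i}) -
        Real.log (mx ell {z | (S k).f z = i})) ∘ (S k).f := by
      ext x
      simp only [L, Lam, Function.comp, hφ x k]
    rw [this]
    exact continuous_of_discreteTopology.comp (S k).hf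
  have hd : ∀ k x, |L (k + 1) x - L k x| ≤ (1 / 2 : ℝ) ^ k := fun k x =>
    c4 k x (φ x) (hφ x (k + 1)).symm
  let Lim : C → ℝ := fun x => L 0 x + ∑' k, (L (k + 1) x - L k x)
  have hsum : ∀ x, Summable (fun k => L (k + 1) x - L k x) := fun x =>
    Summable.of_norm_bounded (summable_geometric_two) (fun k => hd k x)
  have hLim : Continuous Lim := by
    apply (hL 0).add
    exact continuous_tsum (fun k => (hL (k + 1)).sub (hL k)) summable_geometric_two
      (fun k x => hd k x)
  have hconv : ∀ x, Tendsto (fun k => L k x) atTop (𝓝 (Lim x)) := by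
    intro x
    have h1 := (hsum x).hasSum.tendsto_sum_nat
    have h2 := h1.const_add (L 0 x)
    refine h2.congr fun n => ?_
    rw [Finset.sum_range_sub (fun k => L k x)]
    ring
  refine ⟨Φ, fun x => Real.exp (Lim x), Real.continuous_exp.comp hLim, fun x => Real.exp_pos _,
    fun x => ?_⟩
  have t1 : Tendsto (fun k => mx ell {z | (S k).f z = (S k).f x}) atTop (𝓝 (ell x)) :=
    mx_tendsto h (fun k => (S k).hf) (fun k x y hxy => (c1 k x y hxy).1) sf x
  have t2 : Tendsto (fun k => mx ell' {z | (S k).g z = (S k).g (φ x)}) atTop (𝓝 (ell' (φ x))) :=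
    mx_tendsto h' (fun k => (S k).hg) (fun k x y hxy => (c2 k x y hxy).1) sg (φ x)
  have t3 : Tendsto (fun k => Real.exp (L k x) * mx ell {z | (S k).f z = (S k).f x}) atTop
      (𝓝 (Real.exp (Lim x) * ell x)) :=
    (((Real.continuous_exp.tendsto _).comp (hconv x)).mul t1)
  refine tendsto_nhds_unique t2 (t3.congr fun k => ?_)
  have p1 : 0 < mx ell {z | (S k).f z = (S k).f x} :=
    mx_pos h ((isClopen_discrete {(S k).f x}).preimage (S k).hf) ⟨x, rfl⟩
  have p2 : 0 < mx ell' {z | (S k).g z = (S k).g (φ x)} :=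
    mx_pos h' ((isClopen_discrete {(S k).g (φ x)}).preimage (S k).hg) ⟨φ x, rfl⟩
  simp only [L, Lam]
  rw [Real.exp_sub, Real.exp_log p1, Real.exp_log p2]
  field_simp

end Pool.Agent.H44.Crem
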