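import Pool.Agent.H44.Crem.Defs

/-!
# M10: a criterion for non-conjugacy
-/

set_option autoImplicit false

open Complex Metric Set Filter Topology

namespace Pool.Agent.H44.Crem

theorem no_conj (f g : ℂ → ℂ) (hf : ContinuousAt f 0) (hf0 : f 0 = 0) (N B : ℕ → ℕ)
    (h1 : ∀ r > 0, ∃ᶠ n in atTop, ∃ C : Set ℂ, IsPreconnected C ∧ (0 : ℂ) ∈ C ∧
      (∀ z ∈ C, ∀ j ≤ N n, ‖f^[j] z‖ < r) ∧ ∃ z ∈ C, ∃ j ≤ B n, 1 ≤ ‖f^[j] z‖)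
    (h2 : ∀ a b : ℝ, 0 < a → a < b → b ≤ 1 → ∀ᶠ n in atTop, ∀ C : Set ℂ, IsPreconnected C →
      (0 : ℂ) ∈ C → (∀ z ∈ C, ∀ j ≤ N n, ‖g^[j] z‖ < a) → ∀ z ∈ C, ∀ j ≤ B n, ‖g^[j] z‖ < b) :
    ¬ ∃ V : Set ℂ, V ∈ nhds (0 : ℂ) ∧ ∃ W : Set ℂ, W ∈ nhds (0 : ℂ) ∧
      ∃ h : ↥V ≃ₜ ↥W,
      (∀ x : ↥V, (x : ℂ) = 0 → ((h x : ↥W) : ℂ) = 0) ∧
      ∃ ε : ℝ, ε > 0 ∧ ∀ x y : ↥V, ‖(x : ℂ)‖ < ε → (y : ℂ) = f (x : ℂ) →
        ((h y : ↥W) : ℂ) = g ((h x : ↥W) : ℂ) := by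
  rintro ⟨V, hV, W, hW, h, h0, ε, hε, hconj⟩
  have hV0 : (0 : ℂ) ∈ V := mem_of_mem_nhds hV
  have hW0 : (0 : ℂ) ∈ W := mem_of_mem_nhds hW
  have hh0 : h ⟨0, hV0⟩ = ⟨0, hW0⟩ := Subtype.ext (h0 ⟨0, hV0⟩ rfl)
  obtain ⟨ρ, hρ, hρV⟩ := Metric.mem_nhds_iff.1 hV
  obtain ⟨ρ', hρ', hρW⟩ := Metric.mem_nhds_iff.1 hW
  -- `r₂`
  obtain ⟨s, hs, hs'⟩ := Metric.continuousAt_iff.1 hf ρ hρ
  rw [hf0] at hs'
  obtain ⟨r₂, hr₂, hr₂ε, hr₂ρ, hr₂1, hr₂s⟩ : ∃ r₂ : ℝ, 0 < r₂ ∧ r₂ ≤ ε ∧ r₂ ≤ ρ ∧ r₂ ≤ 1/2 ∧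
      r₂ ≤ s := by
    refine ⟨min (min ε ρ) (min (1/2) s), by positivity, ?_, ?_, ?_, ?_⟩
    · exact (min_le_left _ _).trans (min_le_left _ _)
    · exact (min_le_left _ _).trans (min_le_right _ _)
    · exact (min_le_right _ _).trans (min_le_left _ _)
    · exact (min_le_right _ _).trans (min_le_right _ _)
  -- `b`
  obtain ⟨t, ht, ht'⟩ := Metric.continuousAt_iff.1 (h.symm.continuous.continuousAt
    (x := (⟨0, hW0⟩ : W))) r₂ hr₂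
  have hsymm0 : h.symm ⟨0, hW0⟩ = ⟨0, hV0⟩ := by rw [← hh0, h.symm_apply_apply]
  obtain ⟨b, hb, hbt, hbρ, hb1⟩ : ∃ b : ℝ, 0 < b ∧ b ≤ t ∧ b ≤ ρ' ∧ b ≤ 1 := by
    refine ⟨min t (min ρ' 1), by positivity, min_le_left _ _, ?_, ?_⟩
    · exact (min_le_right _ _).trans (min_le_left _ _)
    · exact (min_le_right _ _).trans (min_le_right _ _)
  -- `r₁`
  obtain ⟨s₁, hs₁, hs₁'⟩ := Metric.continuousAt_iff.1 (h.continuous.continuousAt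
    (x := (⟨0, hV0⟩ : V))) (b/2) (by positivity)
  obtain ⟨r₁, hr₁, hr₁2, hr₁s⟩ : ∃ r₁ : ℝ, 0 < r₁ ∧ r₁ ≤ r₂ ∧ r₁ ≤ s₁ :=
    ⟨min r₂ s₁, by positivity, min_le_left _ _, min_le_right _ _⟩
  obtain ⟨n, ⟨C, hCp, hC0, hC1, z₀, hz₀, j₀, hj₀, hj₀'⟩, h2n⟩ :=
    ((h1 r₁ hr₁).and_eventually (h2 (b/2) b (by positivity) (by linarith) hb1)).exists
  have hsmallV : ∀ z : ℂ, ‖z‖ < r₁ → z ∈ V := fun z hz => hρV (by
    rw [mem_ball_zero_iff]; linarith)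
  have hCV : ∀ z ∈ C, z ∈ V := fun z hz => hsmallV z (hC1 z hz 0 (Nat.zero_le _))
  have hnorm1 : ∀ (z : ℂ) (hz : z ∈ V), ‖z‖ < r₁ → ‖((h ⟨z, hz⟩ : W) : ℂ)‖ < b/2 := by
    intro z hz hzr
    have := @hs₁' ⟨z, hz⟩ (by
      rw [Subtype.dist_eq, dist_zero_right]
      exact lt_of_lt_of_le hzr hr₁s)
    rw [hh0, Subtype.dist_eq, dist_zero_right] at this
    exact this
  have hnorm2 : ∀ (w : ℂ) (hw : w ∈ W), ‖w‖ < b → ‖((h.symm ⟨w, hw⟩ : V) : ℂ)‖ < r₂ := by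
    intro w hw hwb
    have := @ht' ⟨w, hw⟩ (by
      rw [Subtype.dist_eq, dist_zero_right]
      exact lt_of_lt_of_le hwb hbt)
    rw [hsymm0, Subtype.dist_eq, dist_zero_right] at this
    exact this
  -- the image set
  set C' : Set ℂ := (fun x : V => ((h x : W) : ℂ)) '' (Subtype.val ⁻¹' C) with hC'
  have hC'p : IsPreconnected C' := by
    have h3 : IsPreconnected (Subtype.val ⁻¹' C : Set V) := by
      rw [← Topology.IsInducing.subtypeVal.isPreconnected_image, Subtype.image_preimage_coe,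
        inter_eq_right.2 hCV]
      exact hCp
    exact h3.image _ (continuous_subtype_val.comp h.continuous).continuousOn
  have hC'0 : (0 : ℂ) ∈ C' := ⟨⟨0, hV0⟩, hC0, by
    show ((h ⟨0, hV0⟩ : W) : ℂ) = 0
    rw [hh0]⟩
  have horb : ∀ (z : ℂ) (hz : z ∈ C), ∀ j ≤ N n, ∀ hj : f^[j] z ∈ V,
      g^[j] (h ⟨z, hCV z hz⟩ : W) = (h ⟨f^[j] z, hj⟩ : W) := by
    intro z hz j
    induction j with
    | zero => intro _ hj; rfl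
    | succ j ih =>
      intro hj hjV
      have h4 : ‖f^[j] z‖ < r₁ := hC1 z hz j (by omega)
      have h5 := ih (by omega) (hsmallV _ h4)
      rw [Function.iterate_succ_apply', h5]
      exact (hconj ⟨f^[j] z, hsmallV _ h4⟩ ⟨f^[j+1] z, hjV⟩ (by
        exact lt_of_lt_of_le h4 (hr₁2.trans hr₂ε)) (Function.iterate_succ_apply' f j z)).symm
  have hstay : ∀ w ∈ C', ∀ j ≤ N n, ‖g^[j] w‖ < b/2 := by
    rintro w ⟨⟨z, hzV⟩, hz, rfl⟩ j hj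
    have h4 : ‖f^[j] z‖ < r₁ := hC1 z hz j hj
    have h5 := horb z hz j hj (hsmallV _ h4)
    show ‖g^[j] (h ⟨z, hCV z hz⟩ : W)‖ < b/2
    rw [h5]
    exact hnorm1 _ _ h4
  have hB := h2n C' hC'p hC'0 hstay
  have key : ∀ j ≤ B n, ∃ hj : f^[j] z₀ ∈ V, ‖f^[j] z₀‖ < r₂ ∧
      g^[j] (h ⟨z₀, hCV z₀ hz₀⟩ : W) = (h ⟨f^[j] z₀, hj⟩ : W) := by
    intro j
    induction j with
    | zero =>
      intro _
      exact ⟨hCV z₀ hz₀, lt_of_lt_of_le (hC1 z₀ hz₀ 0 (Nat.zero_le _)) hr₁2, rfl⟩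
    | succ j ih =>
      intro hj
      obtain ⟨hjV, hjr, hjg⟩ := ih (by omega)
      have h6 : f^[j+1] z₀ ∈ V := by
        apply hρV
        rw [mem_ball_zero_iff, Function.iterate_succ_apply']
        have := @hs' (f^[j] z₀) (by rw [dist_zero_right]; linarith)
        rwa [dist_zero_right] at this
      have h7 : ((h ⟨f^[j+1] z₀, h6⟩ : W) : ℂ) = g^[j+1] (h ⟨z₀, hCV z₀ hz₀⟩ : W) := by
        rw [Function.iterate_succ_apply' g, hjg]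
        exact hconj ⟨f^[j] z₀, hjV⟩ ⟨f^[j+1] z₀, h6⟩ (by
          exact lt_of_lt_of_le hjr hr₂ε) (Function.iterate_succ_apply' f j z₀)
      have h8 : ‖g^[j+1] (h ⟨z₀, hCV z₀ hz₀⟩ : W)‖ < b :=
        hB _ ⟨⟨z₀, hCV z₀ hz₀⟩, hz₀, rfl⟩ (j+1) hj
      rw [← h7] at h8
      have h9 := hnorm2 _ (h ⟨f^[j+1] z₀, h6⟩).2 h8
      rw [Subtype.coe_eta, h.symm_apply_apply] at h9
      exact ⟨h6, h9, h7.symm⟩
  obtain ⟨_, h10, _⟩ := key j₀ hj₀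
  linarith

end Pool.Agent.H44.Crem
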