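import Pool.Agent.H44.Crem.Misc
import Pool.Agent.H44.Crem.FanSys
import Pool.Agent.H44.Crem.Lelek
import Pool.Agent.H44.Crem.FanHomeo
import Pool.Agent.H44.Crem.NoConj

/-!
# M12: from the two systems to the frozen statement
-/

set_option autoImplicit false

open Complex Metric Set Filter Topology

namespace Pool.Agent.H44.Crem

/-- what the recursion gives for each of the two germs -/
structure GermData (F : ℂ → ℂ) (α : ℝ) (s : FanSys) : Prop where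
  diff : DifferentiableOn ℂ F (ball 0 2)
  inj : InjOn F (ball 0 2)
  zero : F 0 = 0
  deriv : deriv F 0 = Complex.exp (2 * (Real.pi : ℂ) * Complex.I * (α : ℂ))
  stable : {z : ℂ | ∀ k : ℕ, F^[k] z ∈ closedBall (0 : ℂ) 1} = s.K

/-- the germ of a system is not linearizable -/
theorem GermData.nonlin {F : ℂ → ℂ} {α : ℝ} {s : FanSys} (h : GermData F α s) :
    ¬ ∃ ψ : ℂ → ℂ, AnalyticAt ℂ ψ 0 ∧ ψ 0 = 0 ∧ _root_.deriv ψ 0 ≠ 0 ∧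
        ∀ᶠ z in nhds (0 : ℂ), ψ (F z) = _root_.deriv F 0 * ψ z := by
  intro hlin
  have hFa : AnalyticAt ℂ F 0 :=
    h.diff.analyticAt (ball_mem_nhds 0 (by norm_num))
  have hmul : ‖_root_.deriv F 0‖ = 1 := by
    rw [h.deriv, show 2 * (Real.pi : ℂ) * Complex.I * (α : ℂ) = ((2 * Real.pi * α : ℝ) : ℂ) * I by
      push_cast; ring]
    exact norm_exp_ofReal_mul_I _
  obtain ⟨δ, hδ, hst⟩ := lin_stable F hFa h.zero hmul hlin 1 one_pos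
  have hm := s.m_pos
  have hm' : (s.m 0 : ℂ) ≠ 0 := by exact_mod_cast hm.ne'
  set z : ℂ := ((δ / 2 : ℝ) : ℂ) * exp (Real.pi * I / s.m 0) with hz
  have hexp : exp (Real.pi * I / s.m 0) ^ s.m 0 = -1 := by
    rw [← Complex.exp_nat_mul, mul_div_cancel₀ _ hm', exp_pi_mul_I]
  have hne : ‖exp (Real.pi * I / s.m 0)‖ = 1 := by
    rw [show (Real.pi : ℂ) * I / s.m 0 = ((Real.pi / s.m 0 : ℝ) : ℂ) * I by push_cast; ring]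
    exact norm_exp_ofReal_mul_I _
  have hzn : ‖z‖ = δ / 2 := by
    rw [hz, norm_mul, hne, mul_one, norm_real, Real.norm_eq_abs, abs_of_pos (by positivity)]
  have hzK : z ∈ s.K := by
    rw [← h.stable]
    intro k
    rw [mem_closedBall_zero_iff]
    exact hst z (by rw [hzn]; linarith) k
  have hz0 : z ≠ 0 := by
    intro h0
    rw [h0, norm_zero] at hzn
    linarith
  have h1 := s.slit z hzK hz0
  rw [hz, mul_pow, hexp, ← ofReal_pow, mul_neg_one, ← ofReal_neg, ofReal_mem_slitPlane] at h1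
  have : 0 < (δ / 2) ^ s.m 0 := by positivity
  linarith

theorem final (F G : ℂ → ℂ) (α : ℝ) (hα : Irrational α) (sF sG : FanSys)
    (hF : GermData F α sF) (hG : GermData G α sG) (N B : ℕ → ℕ)
    (h1 : ∀ r > 0, ∃ᶠ n in atTop, ∃ C : Set ℂ, IsPreconnected C ∧ (0 : ℂ) ∈ C ∧
      (∀ z ∈ C, ∀ j ≤ N n, ‖F^[j] z‖ < r) ∧ ∃ z ∈ C, ∃ j ≤ B n, 1 ≤ ‖F^[j] z‖)
    (h2 : ∀ a b : ℝ, 0 < a → a < b → b ≤ 1 → ∀ᶠ n in atTop, ∀ C : Set ℂ, IsPreconnected C →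
      (0 : ℂ) ∈ C → (∀ z ∈ C, ∀ j ≤ N n, ‖G^[j] z‖ < a) → ∀ z ∈ C, ∀ j ≤ B n, ‖G^[j] z‖ < b) :
    ¬ (∀ f g : ℂ → ℂ, AnalyticAt ℂ f 0 → AnalyticAt ℂ g 0 → f 0 = 0 → g 0 = 0 →
    (∃ θ : ℝ, Irrational θ ∧
        deriv f 0 = Complex.exp (2 * (Real.pi : ℂ) * Complex.I * (θ : ℂ))) →
    (¬ ∃ ψ : ℂ → ℂ, AnalyticAt ℂ ψ 0 ∧ ψ 0 = 0 ∧ _root_.deriv ψ 0 ≠ 0 ∧
        ∀ᶠ z in nhds (0 : ℂ), ψ (f z) = _root_.deriv f 0 * ψ z) →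
    (∃ θ : ℝ, Irrational θ ∧
        _root_.deriv g 0 = Complex.exp (2 * (Real.pi : ℂ) * Complex.I * (θ : ℂ))) →
    (¬ ∃ ψ : ℂ → ℂ, AnalyticAt ℂ ψ 0 ∧ ψ 0 = 0 ∧ _root_.deriv ψ 0 ≠ 0 ∧
        ∀ᶠ z in nhds (0 : ℂ), ψ (g z) = _root_.deriv g 0 * ψ z) →
    _root_.deriv f 0 = _root_.deriv g 0 →
    ∀ U U' : Set ℂ,
    (IsCompact U ∧ Nonempty (↥U ≃ₜ ↥(Metric.closedBall (0 : ℂ) 1)) ∧
        (0 : ℂ) ∈ interior U ∧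
        ∃ W : Set ℂ, IsOpen W ∧ U ⊆ W ∧ DifferentiableOn ℂ f W ∧ Set.InjOn f W) →
    (IsCompact U' ∧ Nonempty (↥U' ≃ₜ ↥(Metric.closedBall (0 : ℂ) 1)) ∧
        (0 : ℂ) ∈ interior U' ∧
        ∃ W : Set ℂ, IsOpen W ∧ U' ⊆ W ∧ DifferentiableOn ℂ g W ∧ Set.InjOn g W) →
    (∃ V : Set ℂ, V ∈ nhds (0 : ℂ) ∧ ∃ W : Set ℂ, W ∈ nhds (0 : ℂ) ∧
        ∃ φ : ↥({z : ℂ | ∀ k : ℕ, f^[k] z ∈ U} ∩ V) ≃ₜ
              ↥({z : ℂ | ∀ k : ℕ, g^[k] z ∈ U'} ∩ W),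
          ∀ x : ↥({z : ℂ | ∀ k : ℕ, f^[k] z ∈ U} ∩ V),
            (x : ℂ) = 0 → ((φ x : ↥({z : ℂ | ∀ k : ℕ, g^[k] z ∈ U'} ∩ W)) : ℂ) = 0) →
    ∃ V : Set ℂ, V ∈ nhds (0 : ℂ) ∧ ∃ W : Set ℂ, W ∈ nhds (0 : ℂ) ∧
      ∃ h : ↥V ≃ₜ ↥W,
      (∀ x : ↥V, (x : ℂ) = 0 → ((h x : ↥W) : ℂ) = 0) ∧
      ∃ ε : ℝ, ε > 0 ∧ ∀ x y : ↥V, ‖(x : ℂ)‖ < ε → (y : ℂ) = f (x : ℂ) →
        ((h y : ↥W) : ℂ) = g ((h x : ↥W) : ℂ)) := by
  intro hconj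
  have hFa : AnalyticAt ℂ F 0 := hF.diff.analyticAt (ball_mem_nhds 0 (by norm_num))
  have hGa : AnalyticAt ℂ G 0 := hG.diff.analyticAt (ball_mem_nhds 0 (by norm_num))
  have hadm : ∀ (f : ℂ → ℂ), DifferentiableOn ℂ f (ball 0 2) → InjOn f (ball 0 2) →
      IsCompact (closedBall (0 : ℂ) 1) ∧
        Nonempty (↥(closedBall (0 : ℂ) 1) ≃ₜ ↥(Metric.closedBall (0 : ℂ) 1)) ∧
        (0 : ℂ) ∈ interior (closedBall (0 : ℂ) 1) ∧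
        ∃ W : Set ℂ, IsOpen W ∧ closedBall (0 : ℂ) 1 ⊆ W ∧ DifferentiableOn ℂ f W ∧
          Set.InjOn f W := by
    intro f hf hfi
    refine ⟨isCompact_closedBall _ _, ⟨Homeomorph.refl _⟩, ?_, ball 0 2, isOpen_ball,
      closedBall_subset_ball (by norm_num), hf, hfi⟩
    exact mem_interior_iff_mem_nhds.2 (closedBall_mem_nhds 0 one_pos)
  refine no_conj F G hFa.continuousAt hF.zero N B h1 h2
    (hconj F G hFa hGa hF.zero hG.zero ⟨α, hα, hF.deriv⟩ hF.nonlin ⟨α, hα, hG.deriv⟩ hG.nonlin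
      (by rw [hF.deriv, hG.deriv]) (closedBall 0 1) (closedBall 0 1) (hadm F hF.diff hF.inj)
      (hadm G hG.diff hG.inj) ?_)
  obtain ⟨C, i1, i2, i3, i4, e, D, r, ell, he, hsep, hfc, hll⟩ := sF.fan
  obtain ⟨C', j1, j2, j3, j4, e', D', r', ell', he', hsep', hfc', hll'⟩ := sG.fan
  obtain ⟨φ, lam, hlam, hpos, hφ⟩ := lelek e he hsep e' he' hsep' hll hll'
  obtain ⟨Φ, hΦ⟩ := fan_homeo hfc hfc' φ lam hlam hpos hφ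
  have e1 : {z : ℂ | ∀ k : ℕ, F^[k] z ∈ closedBall (0 : ℂ) 1} ∩ univ = sF.K := by
    rw [inter_univ, hF.stable]
  have e2 : {z : ℂ | ∀ k : ℕ, G^[k] z ∈ closedBall (0 : ℂ) 1} ∩ univ = sG.K := by
    rw [inter_univ, hG.stable]
  refine ⟨univ, univ_mem, univ, univ_mem, ?_⟩
  rw [e1, e2]
  exact ⟨Φ, hΦ⟩

end Pool.Agent.H44.Crem
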