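import Pool.Agent.H44.Crem.UFun

/-!
# M2: level maps
-/

set_option autoImplicit false

open Complex Metric Set Filter Topology

namespace Pool.Agent.H44.Crem

/-- the exponent of the entire level map -/
noncomputable def em (E : ℂ → ℂ) (m : ℕ) (c : ℝ) (ζ : ℂ) : ℂ := (E (c * ζ ^ m) - E c) / m

/-- the entire level map -/
noncomputable def Hm (E : ℂ → ℂ) (m : ℕ) (c : ℝ) (ζ : ℂ) : ℂ := ζ * exp (em E m c ζ)

/-- its real version -/
noncomputable def HR (E : ℂ → ℂ) (m : ℕ) (c : ℝ) (x : ℝ) : ℝ :=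
  x * Real.exp (((E (c * x ^ m : ℝ)).re - (E c).re) / m)

/-- its inverse -/
noncomputable def hm (E I : ℂ → ℂ) (m : ℕ) (c : ℝ) (ξ : ℂ) : ℂ :=
  ξ * exp ((I (WRof E c * ξ ^ m) - I (WRof E c)) / m)

section

variable {E I : ℂ → ℂ} {rs : ℝ}

theorem WR_zero : WRof E 0 = 0 := by simp [WRof]

namespace IsUFun

theorem WR_pos (_U : IsUFun E I rs) {x : ℝ} (hx : 0 < x) : 0 < WRof E x :=
  mul_pos hx (Real.exp_pos _)

theorem ER_zero (U : IsUFun E I rs) : (E 0).re = 0 := by rw [U.E_zero, zero_re]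

theorem E_neg (U : IsUFun E I rs) {x : ℝ} (hx : 0 < x) : (E x).re < 0 := by
  have := U.E_anti hx
  simpa [U.E_zero] using this

theorem E_pos (U : IsUFun E I rs) {x : ℝ} (hx : x < 0) : 0 < (E x).re := by
  have := U.E_anti hx
  simpa [U.E_zero] using this

theorem E_c (U : IsUFun E I rs) {x : ℝ} (hx : 0 ≤ x) : E x = - I (WRof E x) := by
  have h1 : (WRof E x : ℂ) ∈ ball (0 : ℂ) rs := by
    rw [mem_ball_zero_iff, norm_real, Real.norm_eq_abs, abs_of_nonneg]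
    · exact U.WR_lt x hx
    · exact mul_nonneg hx (Real.exp_pos _).le
  have h2 := U.E_S _ h1
  rwa [U.S_WR x hx] at h2

theorem exp_I (U : IsUFun E I rs) {c : ℝ} (hc : 0 < c) :
    c * exp (-I (WRof E c)) = WRof E c := by
  have h := U.S_WR c hc.le
  have h2 : exp (I (WRof E c)) * exp (-I (WRof E c)) = 1 := by
    rw [← exp_add, add_neg_cancel, exp_zero]
  calc (c : ℂ) * exp (-I (WRof E c))
      = (WRof E c * exp (I (WRof E c))) * exp (-I (WRof E c)) := by rw [h]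
    _ = WRof E c * (exp (I (WRof E c)) * exp (-I (WRof E c))) := by ring
    _ = WRof E c := by rw [h2, mul_one]

theorem WR_tendsto (U : IsUFun E I rs) {y : ℝ} (hy : y < rs) : ∀ᶠ x in atTop, y < WRof E x := by
  obtain ⟨x, hx, hxy⟩ := U.WR_surj (max ((y + rs) / 2) 0) (le_max_right _ _) (by
    apply max_lt
    · linarith
    · exact U.rs_pos)
  filter_upwards [eventually_ge_atTop x] with z hz
  have h1 : WRof E x ≤ WRof E z := U.WR_mono.monotoneOn (mem_Ici.2 hx) (mem_Ici.2 (hx.trans hz)) hz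
  have h2 : (y + rs) / 2 ≤ WRof E x := by rw [hxy]; exact le_max_left _ _
  linarith

end IsUFun

/-! ### the entire map -/

theorem Hm_zero (m : ℕ) (c : ℝ) : Hm E m c 0 = 0 := by simp [Hm]

theorem Hm_eq_zero {m : ℕ} {c : ℝ} {ζ : ℂ} : Hm E m c ζ = 0 ↔ ζ = 0 := by
  simp [Hm, exp_ne_zero]

theorem em_diff (U : IsUFun E I rs) (m : ℕ) (c : ℝ) : Differentiable ℂ (em E m c) := by
  unfold em
  apply Differentiable.div_const
  apply Differentiable.sub_const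
  exact U.E_diff.comp (by fun_prop)

theorem Hm_diff (U : IsUFun E I rs) (m : ℕ) (c : ℝ) : Differentiable ℂ (Hm E m c) := by
  have := em_diff U m c
  unfold Hm
  fun_prop

theorem Hm_deriv (U : IsUFun E I rs) {m : ℕ} (hm0 : 0 < m) (c : ℝ) (ζ : ℂ) :
    deriv (Hm E m c) ζ ≠ 0 := by
  have hE : HasDerivAt E (deriv E (c * ζ ^ m)) (c * ζ ^ m) := (U.E_diff _).hasDerivAt
  have h1 : HasDerivAt (fun ζ : ℂ => (c : ℂ) * ζ ^ m) (c * (m * ζ ^ (m - 1))) ζ := by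
    simpa using (hasDerivAt_pow m ζ).const_mul (c : ℂ)
  have h2 : HasDerivAt (em E m c) (deriv E (c * ζ ^ m) * (c * (m * ζ ^ (m - 1))) / m) ζ :=
    ((hE.comp ζ h1).sub_const _).div_const _
  have h3 : HasDerivAt (Hm E m c) (1 * exp (em E m c ζ) +
      ζ * (exp (em E m c ζ) * (deriv E (c * ζ ^ m) * (c * (m * ζ ^ (m - 1))) / m))) ζ :=
    (hasDerivAt_id ζ).mul h2.cexp
  have hm' : (m : ℂ) ≠ 0 := by exact_mod_cast hm0.ne'
  have hz : ζ * ζ ^ (m - 1) = ζ ^ m := by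
    rw [← pow_succ', Nat.sub_add_cancel hm0]
  have h4 : 1 * exp (em E m c ζ) +
      ζ * (exp (em E m c ζ) * (deriv E (c * ζ ^ m) * (c * (m * ζ ^ (m - 1))) / m)) =
      exp (em E m c ζ) * exp (-(c * ζ ^ m)) := by
    have h5 := U.E_deriv (c * ζ ^ m)
    have h6 : exp (-(c * ζ ^ m)) = 1 + c * ζ ^ m * deriv E (c * ζ ^ m) := by rw [h5]; ring
    rw [h6, ← hz]
    field_simp
  rw [h3.deriv, h4]
  exact mul_ne_zero (exp_ne_zero _) (exp_ne_zero _)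

theorem Hm_rot {m : ℕ} {c : ℝ} {ω : ℂ} (hω : ω ^ m = 1) (ζ : ℂ) :
    Hm E m c (ω * ζ) = ω * Hm E m c ζ := by
  unfold Hm em
  rw [mul_pow, hω, one_mul]
  ring

theorem hm_rot {m : ℕ} {c : ℝ} {ω : ℂ} (hω : ω ^ m = 1) (ξ : ℂ) :
    hm E I m c (ω * ξ) = ω * hm E I m c ξ := by
  unfold hm
  rw [mul_pow, hω, one_mul]
  ring

theorem Hm_real (U : IsUFun E I rs) (m : ℕ) (c : ℝ) (x : ℝ) :
    Hm E m c x = (HR E m c x : ℝ) := by
  unfold Hm HR em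
  push_cast
  have h1 : (c : ℂ) * x ^ m = ((c * x ^ m : ℝ) : ℂ) := by push_cast; ring
  rw [h1, U.E_real (c * x ^ m), U.E_real c]
  simp only [ofReal_re]

theorem HR_zero (m : ℕ) (c : ℝ) : HR E m c 0 = 0 := by simp [HR]

theorem HR_one (m : ℕ) (c : ℝ) : HR E m c 1 = 1 := by simp [HR]

theorem HR_pos (m : ℕ) (c : ℝ) {x : ℝ} (hx : 0 < x) : 0 < HR E m c x :=
  mul_pos hx (Real.exp_pos _)

theorem HR_nonneg (m : ℕ) (c : ℝ) {x : ℝ} (hx : 0 ≤ x) : 0 ≤ HR E m c x :=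
  mul_nonneg hx (Real.exp_pos _).le

theorem HR_pow (m : ℕ) (hm0 : 0 < m) (c : ℝ) (x : ℝ) :
    WRof E c * HR E m c x ^ m = WRof E (c * x ^ m) := by
  unfold HR WRof
  rw [mul_pow, ← Real.exp_nat_mul]
  have hm' : (m : ℝ) ≠ 0 := by exact_mod_cast hm0.ne'
  have h1 : (m : ℝ) * (((E (c * x ^ m : ℝ)).re - (E c).re) / m) =
      (E (c * x ^ m : ℝ)).re - (E c).re := by field_simp
  rw [h1, Real.exp_sub]
  have := Real.exp_pos (E c).re
  field_simp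

theorem HR_strictMono (U : IsUFun E I rs) {m : ℕ} (hm0 : 0 < m) {c : ℝ} (hc : 0 < c) :
    StrictMonoOn (HR E m c) (Ici 0) := by
  intro x hx y hy hxy
  rw [mem_Ici] at hx hy
  have h1 : c * x ^ m < c * y ^ m :=
    mul_lt_mul_of_pos_left (pow_lt_pow_left₀ hxy hx hm0.ne') hc
  have h2 := U.WR_mono (mem_Ici.2 (by positivity : 0 ≤ c * x ^ m))
    (mem_Ici.2 (by positivity : 0 ≤ c * y ^ m)) h1
  rw [← HR_pow m hm0, ← HR_pow m hm0] at h2
  have h3 := (mul_lt_mul_iff_right₀ (U.WR_pos hc)).1 h2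
  exact lt_of_pow_lt_pow_left₀ m (HR_nonneg m c hy) h3

theorem HR_cont (U : IsUFun E I rs) (m : ℕ) (c : ℝ) : Continuous (HR E m c) := by
  have := U.E_diff.continuous
  unfold HR
  fun_prop

theorem HR_ge (U : IsUFun E I rs) {m : ℕ} {c : ℝ} (hc : 0 < c) {x : ℝ}
    (hx : 0 ≤ x) (hx1 : x ≤ 1) : x ≤ HR E m c x := by
  unfold HR
  have h1 : 1 ≤ Real.exp (((E (c * x ^ m : ℝ)).re - (E c).re) / m) := by
    rw [Real.one_le_exp_iff]
    apply div_nonneg _ (Nat.cast_nonneg _)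
    have : c * x ^ m ≤ c := by
      have := pow_le_one₀ (n := m) hx hx1
      nlinarith
    have h : (E (c : ℝ)).re ≤ (E ((c * x ^ m : ℝ))).re := U.E_anti.antitone this
    linarith
  nlinarith

/-! ### the inverse map -/

/-- the domain condition: `w ‖ξ‖^m < rs` -/
theorem dom_of_le (U : IsUFun E I rs) {m : ℕ} (hm0 : 0 < m) {c : ℝ} (hc : 0 < c) {x : ℝ}
    (hx : 0 ≤ x) {ξ : ℂ} (h : ‖ξ‖ ≤ HR E m c x) : WRof E c * ‖ξ‖ ^ m < rs := by
  have h1 : WRof E c * ‖ξ‖ ^ m ≤ WRof E c * HR E m c x ^ m :=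
    mul_le_mul_of_nonneg_left (pow_le_pow_left₀ (norm_nonneg _) h m) (U.WR_pos hc).le
  rw [HR_pow m hm0] at h1
  exact h1.trans_lt (U.WR_lt _ (by positivity))

theorem mem_of_dom (U : IsUFun E I rs) {m : ℕ} {c : ℝ} (hc : 0 < c) {ξ : ℂ}
    (h : WRof E c * ‖ξ‖ ^ m < rs) : (WRof E c * ξ ^ m : ℂ) ∈ ball (0 : ℂ) rs := by
  rw [mem_ball_zero_iff, norm_mul, norm_pow, norm_real, Real.norm_eq_abs,
    abs_of_pos (U.WR_pos hc)]
  exact h

theorem isOpen_dom (E : ℂ → ℂ) (rs : ℝ) (m : ℕ) (c : ℝ) :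
    IsOpen {ξ : ℂ | WRof E c * ‖ξ‖ ^ m < rs} :=
  isOpen_lt (by fun_prop) continuous_const

theorem hm_diff (U : IsUFun E I rs) (m : ℕ) {c : ℝ} (hc : 0 < c) :
    DifferentiableOn ℂ (hm E I m c) {ξ : ℂ | WRof E c * ‖ξ‖ ^ m < rs} := by
  intro ξ hξ
  have h1 := mem_of_dom U hc hξ
  have h2 : DifferentiableAt ℂ I (WRof E c * ξ ^ m) :=
    (U.I_diff _ h1).differentiableAt (isOpen_ball.mem_nhds h1)
  have h3 : DifferentiableAt ℂ (fun ξ : ℂ => I (WRof E c * ξ ^ m)) ξ :=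
    h2.comp ξ (f := fun ξ : ℂ => (WRof E c : ℂ) * ξ ^ m) (by fun_prop)
  apply DifferentiableAt.differentiableWithinAt
  unfold hm
  exact differentiableAt_id.mul ((h3.sub_const _).div_const _).cexp

theorem hm_pow (U : IsUFun E I rs) {m : ℕ} (hm0 : 0 < m) {c : ℝ} (hc : 0 < c) (ξ : ℂ) :
    c * hm E I m c ξ ^ m = (WRof E c * ξ ^ m) * exp (I (WRof E c * ξ ^ m)) := by
  unfold hm
  have hm' : (m : ℂ) ≠ 0 := by exact_mod_cast hm0.ne'
  rw [mul_pow, ← exp_nat_mul]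
  have h1 : (m : ℂ) * ((I (WRof E c * ξ ^ m) - I (WRof E c)) / m) =
      I (WRof E c * ξ ^ m) + -I (WRof E c) := by field_simp; ring
  rw [h1, exp_add]
  calc c * (ξ ^ m * (exp (I (WRof E c * ξ ^ m)) * exp (-I (WRof E c))))
      = (c * exp (-I (WRof E c))) * ξ ^ m * exp (I (WRof E c * ξ ^ m)) := by ring
    _ = _ := by rw [U.exp_I hc]

theorem norm_hm_pow (U : IsUFun E I rs) {m : ℕ} (hm0 : 0 < m) {c : ℝ} (hc : 0 < c) (ξ : ℂ) :
    c * ‖hm E I m c ξ‖ ^ m = ‖(WRof E c * ξ ^ m) * exp (I (WRof E c * ξ ^ m))‖ := by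
  rw [← hm_pow U hm0 hc, norm_mul, norm_pow, norm_real, Real.norm_eq_abs, abs_of_pos hc]

theorem Hm_hm (U : IsUFun E I rs) {m : ℕ} (hm0 : 0 < m) {c : ℝ} (hc : 0 < c) {ξ : ℂ}
    (h : WRof E c * ‖ξ‖ ^ m < rs) : Hm E m c (hm E I m c ξ) = ξ := by
  have h1 := U.E_S _ (mem_of_dom U hc h)
  have h2 := U.E_c hc.le
  unfold Hm em
  rw [hm_pow U hm0 hc, h1, h2]
  unfold hm
  rw [mul_assoc, ← exp_add]
  have : (I (WRof E c * ξ ^ m) - I (WRof E c)) / m +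
      (-I (WRof E c * ξ ^ m) - -I (WRof E c)) / m = 0 := by ring
  rw [this, exp_zero, mul_one]

theorem hm_HR (U : IsUFun E I rs) {m : ℕ} (hm0 : 0 < m) {c : ℝ} (hc : 0 < c) {x : ℝ}
    (hx : 0 ≤ x) : hm E I m c (HR E m c x : ℝ) = x := by
  have h0 : (WRof E c * (HR E m c x : ℝ) ^ m : ℂ) = (WRof E (c * x ^ m) : ℝ) := by
    rw [← HR_pow m hm0]
    push_cast
    ring
  have h1 := U.E_c (x := c * x ^ m) (by positivity)
  have h2 := U.E_c hc.le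
  unfold hm
  rw [h0]
  have h3 : I (WRof E (c * x ^ m)) = - E (c * x ^ m : ℝ) := by rw [h1, neg_neg]
  have h4 : I (WRof E c) = - E c := by rw [h2, neg_neg]
  rw [h3, h4]
  unfold HR
  push_cast
  have h5 : (c : ℂ) * x ^ m = ((c * x ^ m : ℝ) : ℂ) := by push_cast; ring
  rw [h5, U.E_real (c * x ^ m), U.E_real c]
  simp only [ofReal_re]
  rw [mul_assoc, ← exp_add]
  have : (((E ((c * x ^ m : ℝ) : ℂ)).re : ℂ) - (E c).re) / m +
      (-((E ((c * x ^ m : ℝ) : ℂ)).re : ℂ) - -((E c).re : ℂ)) / m = 0 := by ring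
  rw [this, exp_zero, mul_one]

theorem hm_zero (m : ℕ) (c : ℝ) : hm E I m c 0 = 0 := by simp [hm]

theorem norm_hm_le (U : IsUFun E I rs) {m : ℕ} (hm0 : 0 < m) {c : ℝ} (hc : 0 < c) {x : ℝ}
    (hx : 0 ≤ x) {ξ : ℂ} (h : ‖ξ‖ ≤ HR E m c x) : ‖hm E I m c ξ‖ ≤ x := by
  have h1 := norm_hm_pow U hm0 hc ξ
  have h2 := U.S_le (c * x ^ m) (by positivity) (WRof E c * ξ ^ m) (by
    rw [norm_mul, norm_pow, norm_real, Real.norm_eq_abs, abs_of_pos (U.WR_pos hc), ← HR_pow m hm0]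
    exact mul_le_mul_of_nonneg_left (pow_le_pow_left₀ (norm_nonneg _) h m) (U.WR_pos hc).le)
  rw [← h1] at h2
  have h3 := le_of_mul_le_mul_left h2 hc
  exact le_of_pow_le_pow_left₀ hm0.ne' hx h3

theorem hm_mono (U : IsUFun E I rs) {m : ℕ} (hm0 : 0 < m) {c : ℝ} (hc : 0 < c) {ω : ℂ}
    (hω : ‖ω‖ = 1) :
    StrictMonoOn (fun t : ℝ => ‖hm E I m c (t * ω)‖) {t | 0 ≤ t ∧ WRof E c * t ^ m < rs} := by
  intro s hs t ht hst
  have hw := U.WR_pos hc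
  have h1 := U.S_mono (ω ^ m) (by rw [norm_pow, hω, one_pow])
    (mem_Ico.2 ⟨mul_nonneg hw.le (pow_nonneg hs.1 m), hs.2⟩)
    (mem_Ico.2 ⟨mul_nonneg hw.le (pow_nonneg ht.1 m), ht.2⟩)
    (mul_lt_mul_of_pos_left (pow_lt_pow_left₀ hst hs.1 hm0.ne') hw)
  have h2 : ∀ t : ℝ, (((WRof E c * t ^ m : ℝ) : ℂ) * ω ^ m) = WRof E c * (t * ω : ℂ) ^ m := by
    intro t; push_cast; ring
  simp only [h2] at h1
  rw [← norm_hm_pow U hm0 hc, ← norm_hm_pow U hm0 hc] at h1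
  exact lt_of_pow_lt_pow_left₀ m (norm_nonneg _) (lt_of_mul_lt_mul_left h1 hc.le)

/-! ### slit plane and sectors -/

theorem hm_pow' {m : ℕ} (hm0 : 0 < m) (c : ℝ) (ξ : ℂ) :
    hm E I m c ξ ^ m = ξ ^ m * exp (I (WRof E c * ξ ^ m) - I (WRof E c)) := by
  unfold hm
  have hm' : (m : ℂ) ≠ 0 := by exact_mod_cast hm0.ne'
  rw [mul_pow, ← exp_nat_mul]
  congr 2
  field_simp

theorem w_lt (U : IsUFun E I rs) {c : ℝ} (hc : 0 < c) : |WRof E c| < rs := by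
  rw [abs_of_pos (U.WR_pos hc)]
  exact U.WR_lt c hc.le

theorem I_w (U : IsUFun E I rs) {c : ℝ} (hc : 0 < c) : (I (WRof E c)).im = 0 := by
  rw [U.I_real _ (w_lt U hc), ofReal_im]

theorem log_hm (U : IsUFun E I rs) {m : ℕ} (hm0 : 0 < m) {c : ℝ} (hc : 0 < c) {ξ : ℂ}
    (h : WRof E c * ‖ξ‖ ^ m < rs) (hs : ξ ^ m ∈ slitPlane) :
    hm E I m c ξ ^ m = exp (log (ξ ^ m) + (I (WRof E c * ξ ^ m) - I (WRof E c))) ∧
    |(log (ξ ^ m) + (I (WRof E c * ξ ^ m) - I (WRof E c))).im| < Real.pi := by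
  have hne : ξ ^ m ≠ 0 := slitPlane_ne_zero hs
  refine ⟨?_, ?_⟩
  · rw [hm_pow' hm0, exp_add, exp_log hne]
  · have h1 : (WRof E c * ξ ^ m : ℂ) ∈ slitPlane := by
      rw [mem_slitPlane_iff] at hs ⊢
      have hw := U.WR_pos hc
      rw [re_ofReal_mul, im_ofReal_mul]
      rcases hs with hs | hs
      · exact Or.inl (mul_pos hw hs)
      · exact Or.inr (mul_ne_zero hw.ne' hs)
    have h2 := U.S_arg _ (mem_of_dom U hc h) h1
    rw [arg_real_mul _ (U.WR_pos hc)] at h2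
    rw [add_im, sub_im, log_im, I_w U hc, sub_zero]
    exact h2

theorem hm_slit (U : IsUFun E I rs) {m : ℕ} (hm0 : 0 < m) {c : ℝ} (hc : 0 < c) {ξ : ℂ}
    (h : WRof E c * ‖ξ‖ ^ m < rs) (hs : ξ ^ m ∈ slitPlane) :
    hm E I m c ξ ^ m ∈ slitPlane ∧ sig m (hm E I m c ξ) = sig m ξ := by
  obtain ⟨h1, h2⟩ := log_hm U hm0 hc h hs
  have hne : ξ ^ m ≠ 0 := slitPlane_ne_zero hs
  rw [abs_lt] at h2
  have h3 : log (hm E I m c ξ ^ m) =
      log (ξ ^ m) + (I (WRof E c * ξ ^ m) - I (WRof E c)) := by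
    rw [h1, log_exp h2.1 h2.2.le]
  have hne' : hm E I m c ξ ^ m ≠ 0 := by rw [h1]; exact exp_ne_zero _
  constructor
  · rw [mem_slitPlane_iff_arg]
    refine ⟨?_, hne'⟩
    rw [← log_im, h3]
    exact h2.2.ne
  · unfold sig
    rw [cpow_def_of_ne_zero hne', cpow_def_of_ne_zero hne, h3, add_mul, exp_add]
    unfold hm
    have : exp ((I (WRof E c * ξ ^ m) - I (WRof E c)) * (1 / m)) =
        exp ((I (WRof E c * ξ ^ m) - I (WRof E c)) / m) := by ring_nf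
    rw [this]
    have h4 := exp_ne_zero ((I (WRof E c * ξ ^ m) - I (WRof E c)) / m)
    have h5 := exp_ne_zero (log (ξ ^ m) * (1 / m))
    field_simp

theorem not_mem_slit_iff {z : ℂ} : z ∉ slitPlane ↔ z.re ≤ 0 ∧ z.im = 0 := by
  rw [mem_slitPlane_iff]
  push Not
  rfl

theorem hm_not_slit (U : IsUFun E I rs) {m : ℕ} (hm0 : 0 < m) {c : ℝ} (hc : 0 < c) {ξ : ℂ}
    (h : WRof E c * ‖ξ‖ ^ m < rs) (hs : ξ ^ m ∉ slitPlane) :
    hm E I m c ξ ^ m ∉ slitPlane := by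
  rw [not_mem_slit_iff] at hs ⊢
  have hξ : ξ ^ m = ((ξ ^ m).re : ℝ) := by
    apply Complex.ext
    · simp
    · simp [hs.2]
  have h1 := mem_of_dom U hc h
  set t : ℝ := (ξ ^ m).re with ht
  have h2 : (WRof E c * ξ ^ m : ℂ) = ((WRof E c * t : ℝ) : ℂ) := by rw [hξ]; push_cast; ring
  have h3 : |WRof E c * t| < rs := by
    rw [h2, mem_ball_zero_iff, norm_real] at h1
    exact h1
  rw [hm_pow' hm0, h2, U.I_real _ h3, U.I_real _ (w_lt U hc), hξ, ← ofReal_sub, ← ofReal_exp,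
    ← ofReal_mul, ofReal_re, ofReal_im]
  exact ⟨mul_nonpos_of_nonpos_of_nonneg hs.1 (Real.exp_pos _).le, rfl⟩

theorem hm_real (U : IsUFun E I rs) {m : ℕ} {c : ℝ} (hc : 0 < c) {x : ℝ} (hx : 0 ≤ x)
    (h : WRof E c * x ^ m < rs) : hm E I m c x = ((‖hm E I m c x‖ : ℝ) : ℂ) := by
  have h2 : (WRof E c * (x : ℂ) ^ m : ℂ) = ((WRof E c * x ^ m : ℝ) : ℂ) := by push_cast; ring
  have h3 : |WRof E c * x ^ m| < rs := by
    rw [abs_of_nonneg (mul_nonneg (U.WR_pos hc).le (pow_nonneg hx m))]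
    exact h
  have h4 : ∃ y : ℝ, 0 ≤ y ∧ hm E I m c x = y := by
    unfold hm
    rw [h2, U.I_real _ h3, U.I_real _ (w_lt U hc)]
    refine ⟨x * Real.exp (((I ((WRof E c * x ^ m : ℝ) : ℂ)).re - (I (WRof E c : ℂ)).re) / m),
      by positivity, ?_⟩
    push_cast
    rfl
  obtain ⟨y, hy, h5⟩ := h4
  rw [h5, norm_real, Real.norm_eq_abs, abs_of_nonneg hy]

theorem Hm_neg (U : IsUFun E I rs) {m : ℕ} (hm0 : 0 < m) {c : ℝ} (hc : 0 < c)
    (hc2 : 2 ≤ Real.exp (-(E c).re / m)) {ζ : ℂ} (hs : ζ ^ m ∉ slitPlane) :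
    Hm E m c ζ ^ m ∉ slitPlane ∧ 2 * ‖ζ‖ ≤ ‖Hm E m c ζ‖ := by
  rw [not_mem_slit_iff] at hs
  rw [not_mem_slit_iff]
  have hξ : ζ ^ m = ((ζ ^ m).re : ℝ) := by
    apply Complex.ext
    · simp
    · simp [hs.2]
  set t : ℝ := (ζ ^ m).re with ht
  have h2 : (c * ζ ^ m : ℂ) = ((c * t : ℝ) : ℂ) := by rw [hξ]; push_cast; ring
  have h3 : em E m c ζ = ((((E (c * t : ℝ)).re - (E c).re) / m : ℝ) : ℂ) := by
    unfold em
    rw [h2, U.E_real (c * t), U.E_real c]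
    push_cast
    simp
  have hEt : 0 ≤ (E (c * t : ℝ)).re := by
    have : c * t ≤ 0 := mul_nonpos_of_nonneg_of_nonpos hc.le hs.1
    have h := U.E_anti.antitone this
    simpa [U.E_zero] using h
  constructor
  · have h4 : Hm E m c ζ ^ m = (t * Real.exp ((E (c * t : ℝ)).re - (E c).re) : ℝ) := by
      unfold Hm
      rw [mul_pow, ← exp_nat_mul, h3, hξ]
      push_cast
      congr 2
      have hm' : (m : ℂ) ≠ 0 := by exact_mod_cast hm0.ne'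
      field_simp
    rw [h4, ofReal_re, ofReal_im]
    exact ⟨mul_nonpos_of_nonpos_of_nonneg hs.1 (Real.exp_pos _).le, rfl⟩
  · unfold Hm
    rw [norm_mul, h3, ← ofReal_exp, norm_real, Real.norm_eq_abs, abs_of_pos (Real.exp_pos _),
      mul_comm]
    apply mul_le_mul_of_nonneg_left _ (norm_nonneg _)
    refine hc2.trans (Real.exp_le_exp.2 ?_)
    apply div_le_div_of_nonneg_right _ (Nat.cast_nonneg m)
    linarith

/-! ### large `c` -/

/-- conditions on `c` (large) -/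
structure BigC (E I : ℂ → ℂ) (rs : ℝ) (m : ℕ) (δ : ℝ) (c : ℝ) : Prop where
  pos : 0 < c
  quarter : 1 / 2 ≤ HR E m c (1 / 4)
  neg : 2 ≤ Real.exp (-(E c).re / m)
  small : ∀ ξ : ℂ, WRof E c * ‖ξ‖ ^ m < rs → Real.pi / 4 ≤ |arg (ξ ^ m)| → ‖hm E I m c ξ‖ ≤ δ

theorem exists_bigC (U : IsUFun E I rs) {m : ℕ} (hm0 : 0 < m) {δ : ℝ} (hδ : 0 < δ) :
    ∀ᶠ c in atTop, BigC E I rs m δ c := by
  have hm' : (0 : ℝ) < m := by exact_mod_cast hm0
  have h1 : ∀ᶠ c : ℝ in atTop, rs * (1 / 2) ^ m < WRof E (c * (1 / 4) ^ m) := by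
    have : Tendsto (fun c : ℝ => c * (1 / 4) ^ m) atTop atTop :=
      tendsto_id.atTop_mul_const (by positivity)
    apply this.eventually (U.WR_tendsto _)
    have : (1 / 2 : ℝ) ^ m < 1 := pow_lt_one₀ (by norm_num) (by norm_num) hm0.ne'
    have := U.rs_pos
    nlinarith
  have h2 : ∀ᶠ c : ℝ in atTop, (E c).re < -(m * Real.log 2) :=
    U.E_tendsto.eventually (eventually_lt_atBot _)
  filter_upwards [h1, h2, eventually_gt_atTop 0,
    eventually_ge_atTop ((Real.pi / 2 + 1 / (Real.pi / 4)) / δ ^ m)] with c h1 h2 hc h4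
  refine ⟨hc, ?_, ?_, ?_⟩
  · rw [← HR_pow m hm0] at h1
    have h5 : WRof E c * (1 / 2) ^ m < WRof E c * HR E m c (1 / 4) ^ m := by
      refine lt_of_le_of_lt ?_ h1
      exact mul_le_mul_of_nonneg_right (U.WR_lt c hc.le).le (by positivity)
    have h6 := lt_of_mul_lt_mul_left h5 (U.WR_pos hc).le
    exact (lt_of_pow_lt_pow_left₀ m (HR_nonneg m c (by norm_num)) h6).le
  · calc (2 : ℝ) = Real.exp (Real.log 2) := (Real.exp_log (by norm_num)).symm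
      _ ≤ _ := by
        apply Real.exp_le_exp.2
        rw [le_div_iff₀ hm']
        linarith
  · intro ξ hξ harg
    have h5 := norm_hm_pow U hm0 hc ξ
    have h6 := U.S_bdd (Real.pi / 4) (by positivity) _ (mem_of_dom U hc hξ) (by
      rw [arg_real_mul _ (U.WR_pos hc)]; exact harg)
    rw [← h5] at h6
    have h7 : Real.pi / 2 + 1 / (Real.pi / 4) ≤ c * δ ^ m := by
      rwa [div_le_iff₀ (by positivity)] at h4
    have h8 := le_of_mul_le_mul_left (h6.trans h7) hc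
    exact le_of_pow_le_pow_left₀ hm0.ne' hδ.le h8

theorem HR_two (U : IsUFun E I rs) {m : ℕ} {δ c : ℝ}
    (B : BigC E I rs m δ c) {x : ℝ} (hx : 0 ≤ x) (hx1 : x ≤ 1 / 4) : 2 * x ≤ HR E m c x := by
  have h1 := B.quarter
  unfold HR at h1 ⊢
  have h2 : (E (c * (1 / 4) ^ m : ℝ)).re ≤ (E (c * x ^ m : ℝ)).re := by
    apply U.E_anti.antitone
    exact mul_le_mul_of_nonneg_left (pow_le_pow_left₀ hx hx1 m) B.pos.le
  have h3 : Real.exp (((E (c * (1 / 4) ^ m : ℝ)).re - (E c).re) / m) ≤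
      Real.exp (((E (c * x ^ m : ℝ)).re - (E c).re) / m) := by
    apply Real.exp_le_exp.2
    apply div_le_div_of_nonneg_right _ (Nat.cast_nonneg m)
    linarith
  nlinarith

theorem exists_HR (U : IsUFun E I rs) (m : ℕ) (c : ℝ) {X y : ℝ} (hX : 0 ≤ X)
    (hy : 0 ≤ y) (hy1 : y ≤ HR E m c X) : ∃ x, 0 ≤ x ∧ x ≤ X ∧ HR E m c x = y := by
  obtain ⟨x, hx, h⟩ := intermediate_value_Icc hX (HR_cont U m c).continuousOn
    (show y ∈ Icc (HR E m c 0) (HR E m c X) by rw [HR_zero]; exact ⟨hy, hy1⟩)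
  exact ⟨x, hx.1, hx.2, h⟩

theorem hm_half (U : IsUFun E I rs) {m : ℕ} (hm0 : 0 < m) {δ c : ℝ} (B : BigC E I rs m δ c)
    {y : ℝ} (hy : y ∈ Icc (0 : ℝ) (1 / 2)) : ‖hm E I m c y‖ ≤ y / 2 := by
  obtain ⟨x, hx, hx1, h⟩ := exists_HR U m c (by norm_num : (0 : ℝ) ≤ 1 / 4) hy.1
    (hy.2.trans B.quarter)
  have h2 := HR_two U B hx hx1
  rw [← h, hm_HR U hm0 B.pos hx, norm_real, Real.norm_eq_abs, abs_of_nonneg hx]
  linarith

theorem hm_le (U : IsUFun E I rs) {m : ℕ} (hm0 : 0 < m) {c : ℝ} (hc : 0 < c)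
    {y : ℝ} (hy : y ∈ Icc (0 : ℝ) 1) : ‖hm E I m c y‖ ≤ y := by
  obtain ⟨x, hx, hx1, h⟩ := exists_HR U m c (by norm_num : (0 : ℝ) ≤ 1) hy.1
    (by rw [HR_one]; exact hy.2)
  have h2 := HR_ge U (m := m) hc hx hx1
  rw [← h, hm_HR U hm0 hc hx, norm_real, Real.norm_eq_abs, abs_of_nonneg hx]
  exact h2

theorem hm_norm_le (U : IsUFun E I rs) {m : ℕ} (hm0 : 0 < m) {c : ℝ} (hc : 0 < c)
    {X : ℝ} (hX : 0 ≤ X) {ξ : ℂ} (hξ : ‖ξ‖ ≤ HR E m c X) :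
    ‖hm E I m c ξ‖ ≤ ‖hm E I m c (‖ξ‖ : ℝ)‖ := by
  obtain ⟨x, hx, hx1, h⟩ := exists_HR U m c hX (norm_nonneg ξ) hξ
  rw [← h, hm_HR U hm0 hc hx, norm_real, Real.norm_eq_abs, abs_of_nonneg hx]
  exact norm_hm_le U hm0 hc hx h.ge

end

end Pool.Agent.H44.Crem
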