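import Pool.Agent.H44.Crem.Defs

/-!
# M6a, M6b, M11: auxiliary facts (equidistribution, closeness of orbits, irrationality,
linearizable germs)
-/

set_option autoImplicit false

open Complex Metric Set Filter Topology

namespace Pool.Agent.H44.Crem

/-- slow drift plus a rational rotation: within `k/a + q` steps the phase comes `a/k`-close to an
integer -/
theorem drift (a p q k : ℕ) (ha : 0 < a) (hq : 0 < q) (hk : 0 < k) (hcop : Nat.Coprime (a * p) q)
    (x : ℝ) :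
    ∃ (j : ℕ) (s : ℤ), (j : ℝ) ≤ k / a + q ∧
      |x + j * (a * ((p : ℝ) / q + 1 / (k * q))) - s| ≤ (a : ℝ) / k := by
  have haR : (0 : ℝ) < a := by exact_mod_cast ha
  have hqR : (0 : ℝ) < q := by exact_mod_cast hq
  have hkR : (0 : ℝ) < k := by exact_mod_cast hk
  set s0 : ℤ := ⌈(q : ℝ) * x⌉ with hs0
  have h1 : (q : ℝ) * x ≤ s0 := Int.le_ceil _
  have h2 : (s0 : ℝ) < q * x + 1 := Int.ceil_lt_add_one _
  set y : ℝ := (s0 - q * x) * (k / a) with hy
  have hy0 : 0 ≤ y := mul_nonneg (by linarith) (by positivity)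
  set j0 : ℕ := ⌈y⌉₊ with hj0
  have h3 : y ≤ j0 := Nat.le_ceil _
  have h4 : (j0 : ℝ) < y + 1 := Nat.ceil_lt_add_one hy0
  have hyk : y ≤ k / a := by
    rw [hy]
    have : (s0 - q * x) * (k / a) ≤ 1 * ((k : ℝ) / a) :=
      mul_le_mul_of_nonneg_right (by linarith) (by positivity)
    linarith
  -- choice of `l`
  obtain ⟨l, hl, s, hs⟩ : ∃ l : ℕ, l < q ∧ ∃ s : ℤ, (s0 + (j0 + l) * (a * p) : ℤ) = q * s := by
    have : ∃ m : ℤ, (q : ℤ) ∣ (s0 + (j0 + m) * (a * p)) := by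
      have hb : (1 : ℤ) = (a * p : ℕ) * Nat.gcdA (a * p) q + q * Nat.gcdB (a * p) q := by
        have := Nat.gcd_eq_gcd_ab (a * p) q
        rw [hcop.gcd_eq_one] at this
        exact_mod_cast this
      push_cast at hb
      refine ⟨-j0 - s0 * Nat.gcdA (a * p) q, s0 * Nat.gcdB (a * p) q, ?_⟩
      linear_combination (s0 : ℤ) * hb
    obtain ⟨m, hm⟩ := this
    have hq0 : (q : ℤ) ≠ 0 := by exact_mod_cast hq.ne'
    have hm1 : 0 ≤ m % q := Int.emod_nonneg _ hq0
    have hm2 : m % q < q := Int.emod_lt_of_pos _ (by exact_mod_cast hq)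
    refine ⟨(m % q).toNat, by omega, ?_⟩
    rw [Int.toNat_of_nonneg hm1]
    obtain ⟨c, hc⟩ := hm
    refine ⟨c - (m / q) * (a * p), ?_⟩
    have := Int.emod_add_mul_ediv m q
    linear_combination hc + (a * p : ℤ) * this
  refine ⟨j0 + l, s, ?_, ?_⟩
  · have : (l : ℝ) + 1 ≤ q := by exact_mod_cast hl
    push_cast
    linarith
  · have hs' : (s0 : ℝ) + (j0 + l) * (a * p) = q * s := by exact_mod_cast hs
    have hl1 : (l : ℝ) + 1 ≤ q := by exact_mod_cast hl
    have key : x + ((j0 + l : ℕ) : ℝ) * (a * ((p : ℝ) / q + 1 / (k * q))) - s =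
        ((j0 + l) * (a / k) - (s0 - q * x)) / q := by
      field_simp
      push_cast
      linear_combination (k : ℝ) * hs'
    have e1 : (s0 - q * x) = y * (a / k) := by
      rw [hy]; field_simp
    rw [key, e1, ← sub_mul, mul_div_right_comm, abs_mul, abs_of_pos (by positivity : (0:ℝ) < a / k)]
    have h5 : 0 ≤ (j0 + l : ℝ) - y := by
      have : (0 : ℝ) ≤ l := Nat.cast_nonneg _
      linarith
    have h6 : ((j0 + l : ℝ) - y) / q ≤ 1 := by
      rw [div_le_one hqR]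
      linarith
    rw [abs_of_nonneg (by positivity)]
    have : ((j0 + l : ℝ) - y) / q * (a / k) ≤ 1 * (a / k) :=
      mul_le_mul_of_nonneg_right h6 (by positivity)
    linarith

/-- orbits of a small perturbation stay close for `Q` steps -/
theorem close_orbits (F : ℂ → ℂ) (hF : ContinuousOn F (closedBall 0 2)) (Q : ℕ) (tol : ℝ)
    (htol : 0 < tol) :
    ∃ η > 0, ∀ G : ℂ → ℂ, (∀ z ∈ closedBall (0 : ℂ) 2, ‖G z - F z‖ ≤ η) → ∀ z : ℂ,
      ((∀ j ≤ Q, ‖F^[j] z‖ ≤ 7 / 4) ∨ (∀ j ≤ Q, ‖G^[j] z‖ ≤ 7 / 4)) →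
      ∀ j ≤ Q, ‖G^[j] z - F^[j] z‖ ≤ tol := by
  induction Q generalizing tol with
  | zero =>
    refine ⟨1, one_pos, fun G _ z _ j hj => ?_⟩
    have : j = 0 := by omega
    subst this
    simpa using htol.le
  | succ Q ih =>
    have hu := (isCompact_closedBall (0 : ℂ) 2).uniformContinuousOn_of_continuous hF
    rw [Metric.uniformContinuousOn_iff] at hu
    obtain ⟨δ, hδ, hu⟩ := hu (tol / 2) (by positivity)
    obtain ⟨η₁, hη₁, h1⟩ := ih (min (δ / 2) (min tol (1 / 4))) (by positivity)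
    refine ⟨min η₁ (tol / 2), by positivity, fun G hG z hz j hj => ?_⟩
    have h2 := h1 G (fun z hz => (hG z hz).trans (min_le_left _ _)) z
      (hz.imp (fun h j hj => h j (by omega)) (fun h j hj => h j (by omega)))
    rcases Nat.lt_or_ge j (Q + 1) with hlt | hge
    · exact (h2 j (by omega)).trans ((min_le_right _ _).trans (min_le_left _ _))
    · have hjQ : j = Q + 1 := by omega
      subst hjQ
      have h3 := h2 Q le_rfl
      have h4 : ‖G^[Q] z - F^[Q] z‖ ≤ δ / 2 := h3.trans (min_le_left _ _)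
      have h5 : ‖G^[Q] z - F^[Q] z‖ ≤ 1 / 4 :=
        h3.trans ((min_le_right _ _).trans (min_le_right _ _))
      have h6 : ‖F^[Q] z‖ ≤ 2 ∧ ‖G^[Q] z‖ ≤ 2 := by
        rcases hz with h | h
        · have a1 := h Q (by omega)
          have a2 : ‖G^[Q] z‖ ≤ ‖F^[Q] z‖ + ‖G^[Q] z - F^[Q] z‖ := by
            calc ‖G^[Q] z‖ = ‖F^[Q] z + (G^[Q] z - F^[Q] z)‖ := by ring_nf
              _ ≤ _ := norm_add_le _ _
          constructor <;> linarith
        · have a1 := h Q (by omega)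
          have a2 : ‖F^[Q] z‖ ≤ ‖G^[Q] z‖ + ‖G^[Q] z - F^[Q] z‖ := by
            calc ‖F^[Q] z‖ = ‖G^[Q] z - (G^[Q] z - F^[Q] z)‖ := by ring_nf
              _ ≤ _ := norm_sub_le _ _
          constructor <;> linarith
      have hGm : G^[Q] z ∈ closedBall (0 : ℂ) 2 := by
        rw [mem_closedBall_zero_iff]; exact h6.2
      have hFm : F^[Q] z ∈ closedBall (0 : ℂ) 2 := by
        rw [mem_closedBall_zero_iff]; exact h6.1
      have h7 := hu _ hGm _ hFm (by rw [dist_eq_norm]; linarith)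
      rw [dist_eq_norm] at h7
      have h8 := (hG _ hGm).trans (min_le_right _ _)
      rw [Function.iterate_succ_apply', Function.iterate_succ_apply']
      calc ‖G (G^[Q] z) - F (F^[Q] z)‖
          = ‖(G (G^[Q] z) - F (G^[Q] z)) + (F (G^[Q] z) - F (F^[Q] z))‖ := by ring_nf
        _ ≤ ‖G (G^[Q] z) - F (G^[Q] z)‖ + ‖F (G^[Q] z) - F (F^[Q] z)‖ := norm_add_le _ _
        _ ≤ tol := by linarith

/-- irrationality of the limit rotation number -/
theorem irrational_lim (k q p : ℕ → ℕ) (hq0 : q 0 = 1) (hq : ∀ n, q (n + 1) = k n * q n)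
    (hp : ∀ n, p (n + 1) = k n * p n + 1) (hk : ∀ n, n + 3 ≤ k n) (α : ℝ)
    (hα : Tendsto (fun n => (p n : ℝ) / q n) atTop (𝓝 α)) : Irrational α := by
  have hqpos : ∀ n, 0 < q n := by
    intro n
    induction n with
    | zero => omega
    | succ n ih => rw [hq]; exact Nat.mul_pos (by have := hk n; omega) ih
  have hqR : ∀ n, (0 : ℝ) < q n := fun n => by exact_mod_cast hqpos n
  have hkR : ∀ n, (0 : ℝ) < k n := fun n => by
    have := hk n
    exact_mod_cast (by omega : 0 < k n)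
  have hkR3 : ∀ n : ℕ, (n : ℝ) + 3 ≤ k n := fun n => by exact_mod_cast hk n
  have hstep : ∀ n, (p (n + 1) : ℝ) / q (n + 1) = p n / q n + 1 / q (n + 1) := by
    intro n
    have h1 := (hqR n).ne'
    have h2 := (hkR n).ne'
    rw [hq, hp]
    push_cast
    field_simp
  have hmono : Monotone (fun n => (p n : ℝ) / q n) := by
    refine monotone_nat_of_le_succ fun n => ?_
    show (p n : ℝ) / q n ≤ p (n + 1) / q (n + 1)
    rw [hstep]
    have := hqR (n + 1)
    have : 0 < 1 / (q (n + 1) : ℝ) := by positivity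
    linarith
  have hanti : Antitone (fun n => (p n : ℝ) / q n + 2 / q (n + 1)) := by
    refine antitone_nat_of_succ_le fun n => ?_
    show (p (n + 1) : ℝ) / q (n + 1) + 2 / q (n + 1 + 1) ≤ p n / q n + 2 / q (n + 1)
    rw [hstep, hq (n + 1)]
    have h1 := hqR (n + 1)
    have h2 := hkR3 (n + 1)
    have h3 : (3 : ℝ) ≤ k (n + 1) := by
      have : (0 : ℝ) ≤ ((n + 1 : ℕ) : ℝ) := Nat.cast_nonneg _
      linarith
    have h4 : 2 / ((k (n + 1) * q (n + 1) : ℕ) : ℝ) ≤ 1 / q (n + 1) := by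
      push_cast
      rw [div_le_div_iff₀ (by positivity) h1]
      nlinarith
    have h5 : 2 / (q (n + 1) : ℝ) = 1 / q (n + 1) + 1 / q (n + 1) := by ring
    linarith
  have hlo : ∀ n, (p n : ℝ) / q n < α := by
    intro n
    have h1 := hmono.ge_of_tendsto hα (n + 1)
    have h2 : (p (n + 1) : ℝ) / q (n + 1) ≤ α := h1
    rw [hstep] at h2
    have := hqR (n + 1)
    have : 0 < 1 / (q (n + 1) : ℝ) := by positivity
    linarith
  have hhi : ∀ n, α ≤ (p n : ℝ) / q n + 2 / q (n + 1) := by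
    intro n
    refine le_of_tendsto hα (eventually_atTop.2 ⟨n, fun m hm => ?_⟩)
    have h1 : (p m : ℝ) / q m + 2 / q (m + 1) ≤ (p n : ℝ) / q n + 2 / q (n + 1) := hanti hm
    have := hqR (m + 1)
    have : 0 < 2 / (q (m + 1) : ℝ) := by positivity
    linarith
  rintro ⟨r, hr⟩
  set Q : ℕ := r.den with hQ
  have hQpos : 0 < Q := r.den_pos
  have hQR : (0 : ℝ) < Q := by exact_mod_cast hQpos
  have hrα : (Q : ℝ) * α = r.num := by
    rw [← hr, hQ]
    exact_mod_cast Rat.den_mul_eq_num r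
  set n := 2 * Q with hn
  have h1 := hlo n
  have h2 := hhi n
  have hqn := hqR n
  have hqn1 := hqR (n + 1)
  have h3 : (p n : ℝ) * Q < r.num * q n := by
    rw [← hrα]
    rw [div_lt_iff₀ hqn] at h1
    nlinarith
  have h4 : (r.num : ℝ) * q n ≤ p n * Q + 2 * Q / k n := by
    rw [← hrα]
    have h5 : α * q n ≤ p n + 2 / k n := by
      have := mul_le_mul_of_nonneg_right h2 hqn.le
      have e : ((p n : ℝ) / q n + 2 / q (n + 1)) * q n = p n + 2 / k n := by
        have h2 := (hkR n).ne'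
        rw [hq]
        push_cast
        field_simp
      linarith
    have h6 := mul_le_mul_of_nonneg_right h5 hQR.le
    have e : ((p n : ℝ) + 2 / k n) * Q = p n * Q + 2 * Q / k n := by ring
    nlinarith
  have h5 : 2 * (Q : ℝ) / k n < 1 := by
    rw [div_lt_one (hkR n)]
    have := hkR3 n
    rw [hn] at this ⊢
    push_cast at this
    linarith
  have h6 : ((p n * Q : ℤ) : ℝ) < ((r.num * q n : ℤ) : ℝ) := by push_cast; exact h3
  have h7 : ((r.num * q n : ℤ) : ℝ) < ((p n * Q + 1 : ℤ) : ℝ) := by push_cast; linarith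
  have h8 : (p n * Q : ℤ) < r.num * q n := by exact_mod_cast h6
  have h9 : r.num * q n < (p n * Q + 1 : ℤ) := by exact_mod_cast h7
  omega

/-- a linearizable germ with unimodular multiplier is Lyapunov stable -/
theorem lin_stable (f : ℂ → ℂ) (hf : AnalyticAt ℂ f 0) (hf0 : f 0 = 0) (hmul : ‖deriv f 0‖ = 1)
    (h : ∃ ψ : ℂ → ℂ, AnalyticAt ℂ ψ 0 ∧ ψ 0 = 0 ∧ deriv ψ 0 ≠ 0 ∧
      ∀ᶠ z in nhds (0 : ℂ), ψ (f z) = deriv f 0 * ψ z) (R : ℝ) (hR : 0 < R) :
    ∃ δ > 0, ∀ z : ℂ, ‖z‖ < δ → ∀ k : ℕ, ‖f^[k] z‖ ≤ R := by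
  obtain ⟨ψ, hψ, hψ0, hψ1, hconj⟩ := h
  have hs := hψ.hasStrictDerivAt.hasStrictFDerivAt_equiv hψ1
  set e : OpenPartialHomeomorph ℂ ℂ := hs.toOpenPartialHomeomorph ψ with he
  have hcoe : ∀ z, e z = ψ z := fun z => by
    rw [he, HasStrictFDerivAt.toOpenPartialHomeomorph_coe]
  have h0s : (0 : ℂ) ∈ e.source := hs.mem_toOpenPartialHomeomorph_source
  have h0t : (0 : ℂ) ∈ e.target := by
    have := e.map_source h0s
    rwa [hcoe, hψ0] at this
  have hsymm0 : e.symm 0 = 0 := by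
    have := e.left_inv h0s
    rwa [hcoe, hψ0] at this
  -- the good neighbourhood
  have hU : ∀ᶠ z in 𝓝 (0 : ℂ), ψ (f z) = deriv f 0 * ψ z ∧ f z ∈ e.source ∧ ‖z‖ ≤ R := by
    refine hconj.and (Filter.Eventually.and ?_ ?_)
    · have hc : Tendsto f (𝓝 0) (𝓝 0) := by
        have := hf.continuousAt.tendsto
        rwa [hf0] at this
      exact hc.eventually (e.open_source.mem_nhds h0s)
    · filter_upwards [closedBall_mem_nhds (0 : ℂ) hR] with z hz
      rwa [mem_closedBall_zero_iff] at hz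
  have hV : ∀ᶠ w in 𝓝 (0 : ℂ), w ∈ e.target ∧ (ψ (f (e.symm w)) = deriv f 0 * ψ (e.symm w) ∧
      f (e.symm w) ∈ e.source ∧ ‖e.symm w‖ ≤ R) := by
    refine Filter.Eventually.and (e.open_target.mem_nhds h0t) ?_
    have hc : Tendsto e.symm (𝓝 0) (𝓝 0) := by
      have := (e.continuousAt_symm h0t).tendsto
      rwa [hsymm0] at this
    exact hc.eventually hU
  obtain ⟨ρ, hρ, hρV⟩ := Metric.eventually_nhds_iff_ball.1 hV
  have hinv : ∀ z ∈ e.source, ‖ψ z‖ < ρ → ‖z‖ ≤ R ∧ f z ∈ e.source ∧ ‖ψ (f z)‖ < ρ := by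
    intro z hz hzρ
    have h1 := hρV (ψ z) (by rwa [mem_ball_zero_iff])
    have h2 : e.symm (ψ z) = z := by
      rw [← hcoe]; exact e.left_inv hz
    rw [h2] at h1
    refine ⟨h1.2.2.2, h1.2.2.1, ?_⟩
    rw [h1.2.1, norm_mul, hmul, one_mul]
    exact hzρ
  have hstart : ∀ᶠ z in 𝓝 (0 : ℂ), z ∈ e.source ∧ ‖ψ z‖ < ρ := by
    refine Filter.Eventually.and (e.open_source.mem_nhds h0s) ?_
    have hc : Tendsto (fun z => ‖ψ z‖) (𝓝 0) (𝓝 0) := by
      have := hψ.continuousAt.norm.tendsto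
      rwa [hψ0, norm_zero] at this
    exact hc.eventually (gt_mem_nhds hρ)
  obtain ⟨δ, hδ, hδV⟩ := Metric.eventually_nhds_iff_ball.1 hstart
  refine ⟨δ, hδ, fun z hz k => ?_⟩
  have hk : f^[k] z ∈ e.source ∧ ‖ψ (f^[k] z)‖ < ρ := by
    induction k with
    | zero => exact hδV z (by rwa [mem_ball_zero_iff])
    | succ k ih =>
      rw [Function.iterate_succ_apply']
      exact (hinv _ ih.1 ih.2).2
  exact (hinv _ hk.1 hk.2).1

end Pool.Agent.H44.Crem
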