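import Pool.Agent.H44.Crem.TowerDefs
import Pool.Agent.H44.Crem.Misc

/-!
# M6g3: the rotation number
-/

set_option autoImplicit false
set_option maxHeartbeats 4000000

open Complex Metric Set Filter Topology

namespace Pool.Agent.H44.Crem

/-- the rotation number -/
theorem exists_alpha {d : ℕ → Dat} (D : DatOK d) :
    ∃ α : ℝ, Irrational α ∧ Tendsto (fun n => rot (Ls d n)) atTop (𝓝 α) := by
  have hq : ∀ n, 3 ^ n ≤ qq (Ls d n) := by
    intro n
    induction n with
    | zero => exact le_refl 1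
    | succ n ih =>
      show 3 ^ (n + 1) ≤ (d n).k * qq (Ls d n)
      have h1 : 3 ≤ (d n).k := by have := D.k_ge n; omega
      calc 3 ^ (n + 1) = 3 * 3 ^ n := by ring
        _ ≤ (d n).k * qq (Ls d n) := Nat.mul_le_mul h1 ih
  have hstep : ∀ n, dist (rot (Ls d n)) (rot (Ls d (n + 1))) ≤ 1 / 3 * (1 / 3) ^ n := by
    intro n
    have h1 : rot (Ls d (n + 1)) = rot (Ls d n) + 1 / qq (Ls d (n + 1)) :=
      rot_cons (D.pos (n + 1))
    rw [dist_comm, Real.dist_eq, h1, add_sub_cancel_left]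
    have h2 : ((3 : ℝ) ^ (n + 1)) ≤ qq (Ls d (n + 1)) := by exact_mod_cast hq (n + 1)
    have h3 : (0 : ℝ) < 3 ^ (n + 1) := by positivity
    rw [abs_of_nonneg (by positivity)]
    calc 1 / (qq (Ls d (n + 1)) : ℝ) ≤ 1 / 3 ^ (n + 1) := one_div_le_one_div_of_le h3 h2
      _ = _ := by rw [pow_succ, one_div_pow]; ring
  obtain ⟨α, hα⟩ := cauchySeq_tendsto_of_complete
    (cauchySeq_of_le_geometric (1 / 3) (1 / 3) (by norm_num) hstep)
  refine ⟨α, ?_, hα⟩
  apply irrational_lim (fun n => (d n).k) (fun n => qq (Ls d n)) (fun n => pp (Ls d n)) rfl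
    (fun n => rfl) (fun n => rfl) D.k_ge α
  exact hα

end Pool.Agent.H44.Crem
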