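import Pool.Agent.H44.Crem.TowerDefs
import Pool.Agent.H44.Crem.FanSysDef

/-!
# M6g1: the fan system of a tower
-/

set_option autoImplicit false
set_option maxHeartbeats 4000000

open Complex Metric Set Filter Topology

namespace Pool.Agent.H44.Crem

/-- the fan system of a tower -/
theorem tower_fanSys {E I : ℂ → ℂ} {rs : ℝ} (U : IsUFun E I rs) {a : ℕ} (ha : 0 < a)
    {d : ℕ → Dat} (D : DatOK d) {F : ℕ → ℂ → ℂ} (T : Tower E I rs d a F) :
    ∃ s : FanSys, s.m 0 = a ∧ (∀ n, s.Gam n = GG E I a (Ls d n)) ∧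
      (∀ n, s.Lam n = LL E a (Ls d n)) := by
  have hm0 : ∀ n, 0 < a * qq (Ls d n) := fun n => Nat.mul_pos ha (qq_pos (D.pos n))
  have hdom : ∀ n, ∀ ξ : ℂ, ‖ξ‖ ≤ 1 → WRof E (d n).c * ‖ξ‖ ^ (a * qq (Ls d n)) < rs := by
    intro n ξ hξ
    apply dom_of_le U (hm0 n) (D.c_pos n) zero_le_one
    rw [HR_one]
    exact hξ
  have hdomR : ∀ n, ∀ x : ℝ, x ∈ Icc (0 : ℝ) 1 →
      WRof E (d n).c * x ^ (a * qq (Ls d n)) < rs := by
    intro n x hx
    have h1 := hdom n (x : ℂ) (by simpa [abs_of_nonneg hx.1] using hx.2)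
    simpa [abs_of_nonneg hx.1] using h1
  refine ⟨{
    m := fun n => a * qq (Ls d n)
    k := fun n => (d n).k
    H := fun n => Hm E (a * qq (Ls d n)) (d n).c
    h := hseq E I a d
    Lam := fun n => LL E a (Ls d n)
    Gam := fun n => GG E I a (Ls d n)
    m_pos := hm0 0
    k_odd := D.odd
    k_ge := fun n => by have := D.k_ge n; omega
    m_succ := fun n => ?_
    Lam_zero := fun _ => rfl
    Lam_succ := fun _ _ => rfl
    Gam_zero := fun _ => rfl
    Gam_succ := fun _ _ => rfl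
    H_cont := fun n => (Hm_diff U _ _).continuous
    h_cont := fun n => ?_
    H_h := fun n ξ hξ => ?_
    H_zero := fun n => Hm_zero _ _
    h_rot := fun n ω ξ hω => hm_rot hω ξ
    h_one := fun n => ?_
    h_real := fun n x hx => hm_real U (D.c_pos n) hx.1 (hdomR n x hx)
    h_le := fun n ξ hξ => ?_
    h_le' := fun n x hx => hm_le U (hm0 n) (D.c_pos n) hx
    h_half := fun n x hx => hm_half U (hm0 n) (T.big n) hx
    h_mono := fun n ω hω => (hm_mono U (hm0 n) (D.c_pos n) hω).mono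
      (fun t ht => ⟨ht.1, hdomR n t ht⟩)
    h_small := fun n ξ hξ hre => ?_
    h_slit := fun n ξ hξ => ?_
    h_sig := fun n ξ hξ hs => ?_
    H_neg := fun n ζ _ hs => Hm_neg U (hm0 n) (D.c_pos n) (T.big n).neg hs
    condA := T.condA
    condB := fun n ξ hξ ξ' hξ' h => ?_ }, ?_, fun _ => rfl, fun _ => rfl⟩
  · show a * ((d n).k * qq (Ls d n)) = (d n).k * (a * qq (Ls d n))
    ring
  · apply (hm_diff U _ (D.c_pos n)).continuousOn.mono
    intro ξ hξ
    exact hdom n ξ (by simpa using hξ)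
  · exact Hm_hm U (hm0 n) (D.c_pos n) (hdom n ξ (by simpa using hξ))
  · have h1 := hm_HR (I := I) U (hm0 n) (D.c_pos n) zero_le_one
    rw [HR_one, Complex.ofReal_one] at h1
    exact h1
  · exact hm_norm_le U (hm0 n) (D.c_pos n) zero_le_one (by rw [HR_one]; simpa using hξ)
  · by_cases h0 : ξ = 0
    · subst h0
      show ‖hm E I _ _ 0‖ ≤ 1 / 2
      rw [hm_zero]
      simp
    · refine ((T.big n).small ξ (hdom n ξ (by simpa using hξ)) ?_).trans (min_le_right _ _)
      have h1 : ¬ |arg (ξ ^ (a * qq (Ls d n)))| < Real.pi / 2 := by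
        rw [Complex.abs_arg_lt_pi_div_two_iff]
        push Not
        exact ⟨hre, pow_ne_zero _ h0⟩
      have h2 := Real.pi_pos
      rw [not_lt] at h1
      linarith
  · constructor
    · intro hs
      exact (hm_slit U (hm0 n) (D.c_pos n) (hdom n ξ (by simpa using hξ)) hs).1
    · intro hs
      by_contra hs'
      exact hm_not_slit U (hm0 n) (D.c_pos n) (hdom n ξ (by simpa using hξ)) hs' hs
  · exact (hm_slit U (hm0 n) (D.c_pos n) (hdom n ξ (by simpa using hξ)) hs).2
  · have h1 : (1 : ℝ) ≤ LR E a (Ls d (n + 1)) 2 := by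
      have h2 := LR_le U ha (D.pos (n + 1)) zero_le_one (by norm_num : (1 : ℝ) ≤ 2)
      rwa [LR_one] at h2
    have hsub : closedBall (0 : ℂ) 1 ⊆ closedBall (0 : ℂ) (LR E a (Ls d (n + 1)) 2) :=
      closedBall_subset_closedBall h1
    have hk : (0 : ℝ) < (d n).k := by
      have h2 := D.k_ge n
      have h3 : 0 < (d n).k := by omega
      exact_mod_cast h3
    have hle : ‖ξ - ξ'‖ ≤ 20 * LR E a (Ls d (n + 1)) 2 / (d n).k := by
      refine h.trans ?_
      have h2 : ((d n).k : ℝ) ≤ ((a * qq (Ls d (n + 1)) : ℕ) : ℝ) := by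
        have h3 : (d n).k ≤ a * qq (Ls d (n + 1)) := by
          show (d n).k ≤ a * ((d n).k * qq (Ls d n))
          have h4 := hm0 n
          calc (d n).k = (d n).k * 1 := (mul_one _).symm
            _ ≤ (d n).k * (a * qq (Ls d n)) := Nat.mul_le_mul_left _ h4
            _ = _ := by ring
        exact_mod_cast h3
      calc 12 / ((a * qq (Ls d (n + 1)) : ℕ) : ℝ) ≤ 12 / (d n).k :=
            div_le_div_of_nonneg_left (by norm_num) hk h2
        _ ≤ _ := by
            apply div_le_div_of_nonneg_right _ hk.le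
            linarith
    have h2 := T.guc n ξ (hsub hξ) ξ' (hsub hξ') hle
    refine h2.trans ?_
    have h3 : (0 : ℝ) < (1 / 2) ^ n := by positivity
    linarith
  · show a * qq [] = a
    simp [qq]

end Pool.Agent.H44.Crem
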