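import Pool.Agent.H44.Crem.TowerDefs
import Pool.Agent.H44.Crem.Final

/-!
# M6g2: the limit germ of a tower and its stable set
-/

set_option autoImplicit false
set_option maxHeartbeats 4000000

open Complex Metric Set Filter Topology

namespace Pool.Agent.H44.Crem

/-- a map of the closed disc which is `1/100`-close to the identity is injective -/
theorem inj_of_near {G : ℂ → ℂ} (hd : DifferentiableOn ℂ G (ball 0 (5 / 2)))
    (hn : ∀ z ∈ ball (0 : ℂ) (5 / 2), ‖G z - z‖ ≤ 1 / 100) : InjOn G (ball 0 2) := by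
  set R : ℂ → ℂ := fun z => G z - z with hR
  have hRd : DifferentiableOn ℂ R (ball 0 (5 / 2)) := hd.sub differentiableOn_id
  have hder : ∀ z ∈ ball (0 : ℂ) 2, ‖deriv R z‖ ≤ 1 / 40 := by
    intro z hz
    rw [mem_ball_zero_iff] at hz
    have hsub : closedBall z (2 / 5) ⊆ ball (0 : ℂ) (5 / 2) := by
      intro w hw
      rw [mem_closedBall, dist_eq_norm] at hw
      rw [mem_ball_zero_iff]
      have h1 := norm_add_le (w - z) z
      rw [sub_add_cancel] at h1
      linarith
    have h1 : DiffContOnCl ℂ R (ball z (2 / 5)) :=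
      (hRd.mono hsub).diffContOnCl_ball (le_refl _)
    have h2 := Complex.norm_deriv_le_of_forall_mem_sphere_norm_le (c := z) (R := 2 / 5)
      (C := 1 / 100) (by norm_num) h1
      (fun w hw => hn w (hsub (sphere_subset_closedBall hw)))
    refine h2.trans ?_
    norm_num
  intro z hz w hw hzw
  have h1 := Convex.norm_image_sub_le_of_norm_deriv_le (f := R) (s := ball (0 : ℂ) 2)
    (C := 1 / 40) (x := z) (y := w)
    (fun x hx => (hRd x (ball_subset_ball (by norm_num) hx)).differentiableAt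
      (isOpen_ball.mem_nhds (ball_subset_ball (by norm_num) hx)))
    hder (convex_ball 0 2) hz hw
  have h2 : R w - R z = -(w - z) := by
    simp only [hR]
    rw [hzw]
    ring
  rw [h2, norm_neg] at h1
  have h3 : ‖w - z‖ = 0 := by
    have := norm_nonneg (w - z)
    linarith
  exact (sub_eq_zero.mp (norm_eq_zero.mp h3)).symm

section

variable {E I : ℂ → ℂ} {rs : ℝ}

theorem Good.map_zero {a : ℕ} {l : List Dat} {F : ℂ → ℂ} (hF : Good E I a l F) : F 0 = 0 := by
  have h1 := hF.semi 0 (by simp)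
  rw [LL_zero, mul_zero] at h1
  exact LL_eq_zero.mp h1

theorem Good.deriv_zero (U : IsUFun E I rs) {a : ℕ} (ha : 0 < a) {l : List Dat} (hl : Pos l)
    {F : ℂ → ℂ} (hF : Good E I a l F) : deriv F 0 = rt l := by
  have h0 : (0 : ℂ) ∈ ball (0 : ℂ) (5 / 2) := by simp
  have hFd : DifferentiableAt ℂ F 0 :=
    (hF.diff 0 h0).differentiableAt (isOpen_ball.mem_nhds h0)
  have h1 : (fun z => LL E a l (F z)) =ᶠ[𝓝 0] fun z => rt l * LL E a l z := by
    filter_upwards [isOpen_ball.mem_nhds h0] with z hz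
    exact hF.semi z hz
  have h2 := h1.deriv_eq
  have h3 : deriv (fun z => LL E a l (F z)) 0 = deriv (LL E a l) (F 0) * deriv F 0 :=
    deriv_comp 0 (LL_diff U l (F 0)) hFd
  have h4 : deriv (fun z => rt l * LL E a l z) 0 = rt l * deriv (LL E a l) 0 :=
    deriv_const_mul _ (LL_diff U l 0)
  rw [h3, h4, hF.map_zero, mul_comm] at h2
  exact mul_right_cancel₀ (LL_deriv U ha hl 0) h2

/-- pushing points down the tower -/
theorem GG_down (U : IsUFun E I rs) {a : ℕ} (ha : 0 < a) {d : ℕ → Dat} (D : DatOK d) (N i : ℕ)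
    {X : ℝ} (hX : 0 ≤ X) {ξ : ℂ} (hξ : ‖ξ‖ ≤ LR E a (Ls d (N + i)) X) :
    ∃ η : ℂ, ‖η‖ ≤ LR E a (Ls d N) X ∧ GG E I a (Ls d N) η = GG E I a (Ls d (N + i)) ξ := by
  induction i generalizing ξ with
  | zero => exact ⟨ξ, hξ, rfl⟩
  | succ i ih =>
    have hl := D.pos (N + i + 1)
    have h1 := norm_hm_le (I := I) U (Nat.mul_pos ha (qq_pos hl.tail)) hl.head.1
      (LR_nonneg (E := E) (a := a) (Ls d (N + i)) hX) hξ
    exact ih h1

end

/-- the limit germ -/
theorem tower_limit {E I : ℂ → ℂ} {rs : ℝ} (U : IsUFun E I rs) {a : ℕ} (ha : 0 < a)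
    {d : ℕ → Dat} (D : DatOK d) {F : ℕ → ℂ → ℂ} (T : Tower E I rs d a F) {α : ℝ}
    (hα : Tendsto (fun n => rot (Ls d n)) atTop (𝓝 α)) (s : FanSys)
    (hs : ∀ n, s.Gam n = GG E I a (Ls d n)) :
    ∃ G : ℂ → ℂ, GermData G α s ∧
      ∀ n, ∀ z ∈ ball (0 : ℂ) (5 / 2), ‖G z - F n z‖ ≤ ee (Ls d n) := by
  -- decay of the tolerances
  have hee : ∀ n, ee (Ls d (n + 1)) ≤ ee (Ls d n) / 2 := fun n => D.eta_half n
  have hee' : ∀ n i, ee (Ls d (n + i)) ≤ ee (Ls d n) * (1 / 2) ^ i := by
    intro n i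
    induction i with
    | zero => simp
    | succ i ih =>
      have h1 := hee (n + i)
      rw [pow_succ]
      have h2 : ee (Ls d (n + (i + 1))) ≤ ee (Ls d (n + i)) / 2 := h1
      linarith
  have hstep : ∀ z ∈ ball (0 : ℂ) (5 / 2), ∀ n i, dist (F (n + i) z) (F (n + (i + 1)) z) ≤
      ee (Ls d n) / 2 * (1 / 2) ^ i := by
    intro z hz n i
    rw [dist_comm, dist_eq_norm]
    have h1 := T.near (n + i) z hz
    have h2 := hee' n i
    have h3 : ‖F (n + (i + 1)) z - F (n + i) z‖ ≤ ee (Ls d (n + i)) / 2 := h1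
    linarith
  have hlim : ∀ z ∈ ball (0 : ℂ) (5 / 2), ∃ w, Tendsto (fun n => F n z) atTop (𝓝 w) := by
    intro z hz
    apply cauchySeq_tendsto_of_complete
    apply cauchySeq_of_le_geometric (1 / 2) (ee (Ls d 0) / 2) (by norm_num)
    intro n
    have := hstep z hz 0 n
    simpa using this
  choose! G hG using hlim
  have hclose : ∀ n, ∀ z ∈ ball (0 : ℂ) (5 / 2), ‖G z - F n z‖ ≤ ee (Ls d n) := by
    intro n z hz
    have h1 : Tendsto (fun i => F (n + i) z) atTop (𝓝 (G z)) := by
      have := (tendsto_add_atTop_iff_nat n).mpr (hG z hz)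
      apply this.congr
      intro i
      rw [add_comm]
    have h2 := dist_le_of_le_geometric_of_tendsto (1 / 2) (ee (Ls d n) / 2) (by norm_num)
      (hstep z hz n) h1 0
    rw [dist_comm, dist_eq_norm] at h2
    simp only [add_zero, pow_zero, mul_one] at h2
    have h3 : ee (Ls d n) / 2 / (1 - 1 / 2) = ee (Ls d n) := by
      rw [show (1 - 1 / 2 : ℝ) = 1 / 2 by norm_num]
      ring
    linarith
  have heetend : Tendsto (fun n => ee (Ls d n)) atTop (𝓝 0) := by
    have h1 : Tendsto (fun n : ℕ => ee (Ls d 0) * (1 / 2 : ℝ) ^ n) atTop (𝓝 0) := by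
      have := (tendsto_pow_atTop_nhds_zero_of_lt_one (r := (1 / 2 : ℝ)) (by norm_num)
        (by norm_num)).const_mul (ee (Ls d 0))
      rwa [mul_zero] at this
    apply squeeze_zero (fun n => (D.ee_pos n).le) _ h1
    intro n
    have := hee' 0 n
    rwa [zero_add] at this
  have hunif : TendstoUniformlyOn F G atTop (ball (0 : ℂ) (5 / 2)) := by
    rw [Metric.tendstoUniformlyOn_iff]
    intro ε hε
    filter_upwards [heetend.eventually (gt_mem_nhds hε)] with n hn z hz
    rw [dist_eq_norm]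
    exact (hclose n z hz).trans_lt hn
  have hGd : DifferentiableOn ℂ G (ball 0 (5 / 2)) :=
    hunif.tendstoLocallyUniformlyOn.differentiableOn
      (Eventually.of_forall fun n => (T.good n).diff) isOpen_ball
  have hGnear : ∀ z ∈ ball (0 : ℂ) (5 / 2), ‖G z - z‖ ≤ 1 / 100 := by
    intro z hz
    have h1 : Tendsto (fun n => ‖F n z - z‖) atTop (𝓝 ‖G z - z‖) :=
      ((hG z hz).sub tendsto_const_nhds).norm
    apply le_of_tendsto' h1
    intro n
    have h2 := (T.good n).near z hz
    refine h2.trans ?_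
    have h3 : (0 : ℝ) < (1 / 2) ^ (Ls d n).length := by positivity
    linarith
  have h0 : (0 : ℂ) ∈ ball (0 : ℂ) (5 / 2) := by simp
  have hG0 : G 0 = 0 := by
    apply tendsto_nhds_unique (hG 0 h0)
    apply tendsto_const_nhds.congr
    intro n
    exact (T.good n).map_zero.symm
  refine ⟨G, ⟨hGd.mono (ball_subset_ball (by norm_num)), inj_of_near hGd hGnear, hG0, ?_, ?_⟩,
    hclose⟩
  · -- the multiplier
    have h1 : TendstoLocallyUniformlyOn (deriv ∘ F) (deriv G) atTop (ball (0 : ℂ) (5 / 2)) :=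
      hunif.tendstoLocallyUniformlyOn.deriv
        (Eventually.of_forall fun n => (T.good n).diff) isOpen_ball
    have h2 : Tendsto (fun n => deriv (F n) 0) atTop (𝓝 (deriv G 0)) := h1.tendsto_at h0
    have h3 : Tendsto (fun n => rt (Ls d n)) atTop
        (𝓝 (Complex.exp (2 * (Real.pi : ℂ) * Complex.I * (α : ℂ)))) := by
      unfold rt
      apply (Complex.continuous_exp.tendsto _).comp
      apply Tendsto.const_mul
      exact (Complex.continuous_ofReal.tendsto _).comp hα
    apply tendsto_nhds_unique h2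
    apply h3.congr
    intro n
    exact ((T.good n).deriv_zero U ha (D.pos n)).symm
  · -- the stable set
    have hpow : Tendsto (fun n : ℕ => (1 / 2 : ℝ) ^ n) atTop (𝓝 0) :=
      tendsto_pow_atTop_nhds_zero_of_lt_one (by norm_num) (by norm_num)
    have hpowle : ∀ n : ℕ, (1 / 2 : ℝ) ^ n ≤ 1 := fun n => pow_le_one₀ (by norm_num) (by norm_num)
    have hpowpos : ∀ n : ℕ, (0 : ℝ) < (1 / 2 : ℝ) ^ n := fun n => by positivity
    have hball : ∀ n, ∀ z ∈ closedBall (0 : ℂ) 2, ‖G z - F n z‖ ≤ ee (Ls d n) := fun n z hz =>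
      hclose n z (closedBall_subset_ball (by norm_num) hz)
    apply Subset.antisymm
    · intro z hz
      have horb : ∀ k, ‖G^[k] z‖ ≤ 1 := fun k => by simpa using hz k
      -- points of all levels
      have hpts : ∀ n, ∃ ξ : ℂ, ‖ξ‖ ≤ LR E a (Ls d n) (1 + 3 / 16 * (1 / 2) ^ n) ∧
          GG E I a (Ls d n) ξ = z := by
        intro n
        have h1 := T.tol n G (hball n) z (Or.inr fun j _ => (horb j).trans (by norm_num))
        have h2 : ∀ j ≤ QQ (Ls d n), ‖(F n)^[j] z‖ ≤ 1 + 1 / 16 * (1 / 2) ^ n := by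
          intro j hj
          have h3 := h1 j hj
          have h4 := norm_sub_norm_le ((F n)^[j] z) (G^[j] z)
          rw [norm_sub_rev] at h3
          have h5 := horb j
          linarith
        have h3 := T.claim n (1 + 1 / 16 * (1 / 2) ^ n) (by have := hpowpos n; linarith)
          (by rw [Ls_length]; have := hpowle n; have := hpowpos n; linarith) z h2
        obtain ⟨ξ, hξ, hξz⟩ := h3
        refine ⟨ξ, ?_, hξz⟩
        rw [Ls_length] at hξ
        have h4 : (1 : ℝ) + 1 / 16 * (1 / 2) ^ n + 1 / 8 * (1 / 2) ^ n =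
            1 + 3 / 16 * (1 / 2) ^ n := by ring
        rwa [h4] at hξ
      unfold FanSys.K
      rw [mem_iInter]
      intro N
      rw [hs N]
      have hbd : ∀ i, ‖LL E a (Ls d N) z‖ ≤ LR E a (Ls d N) (1 + 3 / 16 * (1 / 2) ^ (N + i)) ∧
          GG E I a (Ls d N) (LL E a (Ls d N) z) = z := by
        intro i
        obtain ⟨ξ, hξ, hξz⟩ := hpts (N + i)
        have hX : (0 : ℝ) ≤ 1 + 3 / 16 * (1 / 2) ^ (N + i) := by
          have := hpowpos (N + i); linarith
        obtain ⟨η, hη, hη'⟩ := GG_down (I := I) U ha D N i hX hξ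
        rw [hξz] at hη'
        have h1 : LL E a (Ls d N) z = η := by
          rw [← hη']
          exact LL_GG U ha (D.pos N) hX hη
        rw [h1]
        exact ⟨hη, hη'⟩
      refine ⟨LL E a (Ls d N) z, ?_, (hbd 0).2⟩
      rw [mem_closedBall_zero_iff]
      have h1 : Tendsto (fun i => LR E a (Ls d N) (1 + 3 / 16 * (1 / 2) ^ (N + i))) atTop
          (𝓝 (LR E a (Ls d N) 1)) := by
        apply ((LR_cont U (Ls d N)).tendsto 1).comp
        have h2 : Tendsto (fun i => (1 : ℝ) + 3 / 16 * (1 / 2) ^ (N + i)) atTop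
            (𝓝 (1 + 3 / 16 * 0)) := by
          apply Tendsto.const_add
          apply Tendsto.const_mul
          have h3 := (tendsto_add_atTop_iff_nat N).mpr hpow
          apply h3.congr
          intro i
          rw [add_comm]
        simpa using h2
      rw [LR_one] at h1
      exact ge_of_tendsto' h1 (fun i => (hbd i).1)
    · intro z hz k
      unfold FanSys.K at hz
      rw [mem_iInter] at hz
      rw [mem_closedBall_zero_iff]
      have h1 : Tendsto (fun n : ℕ => (1 : ℝ) + 1 / 16 * (1 / 2) ^ n) atTop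
          (𝓝 (1 + 1 / 16 * 0)) := (hpow.const_mul _).const_add _
      rw [mul_zero, add_zero] at h1
      apply ge_of_tendsto h1
      filter_upwards [eventually_ge_atTop (k + 1)] with n hn
      obtain ⟨ξ, hξ, hξz⟩ := hz n
      rw [hs n] at hξz
      rw [mem_closedBall_zero_iff] at hξ
      have hlt : LR E a (Ls d n) 1 < LR E a (Ls d n) 2 :=
        LR_lt U ha (D.pos n) (by norm_num) (by norm_num)
      rw [LR_one] at hlt
      have hF : ∀ j, ‖(F n)^[j] z‖ ≤ 1 := by
        intro j
        rw [← hξz, (T.good n).iterate (hξ.trans_lt hlt)]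
        apply GG_norm_le U ha (D.pos n) zero_le_one
        rw [LR_one, norm_mul, norm_pow, rt_norm, one_pow, one_mul]
        exact hξ
      have hQ : k ≤ QQ (Ls d n) := by
        obtain ⟨n', rfl⟩ : ∃ n', n = n' + 1 := ⟨n - 1, by omega⟩
        have h2 := D.Q_big n'
        have h3 := D.k_ge n'
        show k ≤ (d n').Q
        omega
      have h2 := T.tol n G (hball n) z (Or.inl fun j _ => (hF j).trans (by norm_num)) k hQ
      have h3 := norm_sub_norm_le (G^[k] z) ((F n)^[k] z)
      have h4 := hF k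
      linarith

end Pool.Agent.H44.Crem
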