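import Pool.Agent.H44.Crem.LimFan
import Pool.Agent.H44.Crem.LimAlpha
import Pool.Agent.H44.Crem.LimGerm

/-!
# M6g: the limit germ of a tower and its stable set (see `LimFan`, `LimAlpha`, `LimGerm`)
-/
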