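import Pool.Agent.H44.Crem.NC1

/-!
# M6h2: the closing-time estimate for the tower with symmetry `2`

A connected set containing `0` whose points stay in the disc of radius `a` for `3 k_n / 4` steps
cannot cross `Γ_{n+1}` of the circle of radius `Λ_{n+1}((a+b)/2)`, because the orbit of a point of
that circle comes close to `±(a+b)/2` within `k_n / 2 + q_n` steps.
-/

set_option autoImplicit false

open Complex Metric Set Filter Topology

namespace Pool.Agent.H44.Crem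

/-- the image of an open disc under `Γ` is open -/
theorem GG_isOpen {E I : ℂ → ℂ} {rs : ℝ} (U : IsUFun E I rs) {a : ℕ} (ha : 0 < a) {l : List Dat}
    (hl : Pos l) {X : ℝ} (hX : 0 ≤ X) : IsOpen (GG E I a l '' ball 0 (LR E a l X)) := by
  rw [isOpen_iff_mem_nhds]
  rintro _ ⟨ξ, hξ, rfl⟩
  have hnhds : ball (0 : ℂ) (LR E a l X) ∈ 𝓝 ξ := isOpen_ball.mem_nhds hξ
  have hd := GG_diff (I := I) U ha hl hX
  have han : AnalyticAt ℂ (GG E I a l) ξ := hd.analyticAt hnhds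
  have hst : HasStrictDerivAt (GG E I a l) (deriv (GG E I a l) ξ) ξ := han.hasStrictDerivAt
  have hne : deriv (GG E I a l) ξ ≠ 0 := by
    intro h0
    have h1 : HasDerivAt (fun w => LL E a l (GG E I a l w))
        (deriv (LL E a l) (GG E I a l ξ) * deriv (GG E I a l) ξ) ξ :=
      HasDerivAt.comp ξ ((LL_diff U l) _).hasDerivAt hst.hasDerivAt
    have h2 : HasDerivAt (fun w => LL E a l (GG E I a l w)) 1 ξ := by
      have h3 : (fun w => LL E a l (GG E I a l w)) =ᶠ[𝓝 ξ] fun w => w := by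
        filter_upwards [hnhds] with w hw
        rw [mem_ball_zero_iff] at hw
        exact LL_GG U ha hl hX hw.le
      exact (hasDerivAt_id ξ).congr_of_eventuallyEq h3
    have h3 := h1.unique h2
    rw [h0, mul_zero] at h3
    exact zero_ne_one h3
  rw [← hst.map_nhds_eq hne]
  exact image_mem_map hnhds

theorem nc_two {E I : ℂ → ℂ} {rs : ℝ} (U : IsUFun E I rs) {d : ℕ → Dat} (D : DatOK d)
    {F : ℕ → ℂ → ℂ} (T : Tower E I rs d 2 F) (G : ℂ → ℂ)
    (hG : ∀ n, ∀ z ∈ ball (0 : ℂ) (5 / 2), ‖G z - F n z‖ ≤ ee (Ls d n)) :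
    ∀ a b : ℝ, 0 < a → a < b → b ≤ 1 → ∀ᶠ n in atTop, ∀ C : Set ℂ, IsPreconnected C →
      (0 : ℂ) ∈ C → (∀ z ∈ C, ∀ j ≤ 3 * (d n).k / 4, ‖G^[j] z‖ < a) →
      ∀ z ∈ C, ∀ j ≤ (d n).Q, ‖G^[j] z‖ < b := by
  intro a b ha0 hab hb1
  have hlim : Tendsto (fun n : ℕ => 1 / 16 * (1 / 2 : ℝ) ^ n) atTop (𝓝 (1 / 16 * 0)) := by
    apply Tendsto.const_mul
    exact tendsto_pow_atTop_nhds_zero_of_lt_one (by norm_num) (by norm_num)
  have hlim' := hlim.eventually (gt_mem_nhds (show (1 : ℝ) / 16 * 0 < (b - a) / 4 by linarith))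
  filter_upwards [hlim'] with n hn C hC h0 hCa z hz j hj
  -- notation
  have ha : 0 < 2 := two_pos
  have hl0 : Pos (Ls d n) := D.pos n
  have hl : Pos (Ls d (n + 1)) := D.pos (n + 1)
  have hm0 : 0 < qq (Ls d n) := qq_pos hl0
  have hk0 : 0 < (d n).k := by have := D.k_ge n; omega
  have hmR : (0 : ℝ) < qq (Ls d n) := by exact_mod_cast hm0
  have hkR : (0 : ℝ) < (d n).k := by exact_mod_cast hk0
  have hQ := D.Q_big n
  have hpow : (1 / 2 : ℝ) ^ (n + 1) = (1 / 2) ^ n / 2 := by rw [pow_succ]; ring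
  have hb'0 : 0 < (a + b) / 2 := by linarith
  set R : ℝ := LR E 2 (Ls d (n + 1)) ((a + b) / 2) with hR
  have hR0 : 0 < R := LR_pos _ hb'0
  have hR2 : R < LR E 2 (Ls d (n + 1)) 2 := LR_lt U ha hl hb'0.le (by linarith)
  have hgood := T.good (n + 1)
  have hiter : ∀ ξ : ℂ, ‖ξ‖ ≤ R → ∀ j : ℕ, (F (n + 1))^[j] (GG E I 2 (Ls d (n + 1)) ξ) =
      GG E I 2 (Ls d (n + 1)) (rt (Ls d (n + 1)) ^ j * ξ) :=
    fun ξ hξ j => hgood.iterate (hξ.trans_lt hR2) j
  have hrn : ∀ (ξ : ℂ) (j : ℕ), ‖rt (Ls d (n + 1)) ^ j * ξ‖ = ‖ξ‖ := by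
    intro ξ j
    rw [norm_mul, norm_pow, rt_norm, one_pow, one_mul]
  have hFn : ∀ ξ : ℂ, ‖ξ‖ ≤ R → ∀ j : ℕ,
      ‖(F (n + 1))^[j] (GG E I 2 (Ls d (n + 1)) ξ)‖ ≤ (a + b) / 2 := by
    intro ξ hξ j
    rw [hiter ξ hξ j]
    exact GG_norm_le U ha hl hb'0.le (by rw [hrn]; exact hξ)
  have hclose : ∀ ξ : ℂ, ‖ξ‖ ≤ R → ∀ j ≤ (d n).Q,
      ‖G^[j] (GG E I 2 (Ls d (n + 1)) ξ) - (F (n + 1))^[j] (GG E I 2 (Ls d (n + 1)) ξ)‖ ≤
        1 / 16 * (1 / 2) ^ (n + 1) := by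
    intro ξ hξ
    apply T.tol (n + 1) G
    · intro w hw
      apply hG (n + 1) w
      rw [mem_closedBall_zero_iff] at hw
      rw [mem_ball_zero_iff]
      linarith
    · left
      intro j _
      have := hFn ξ hξ j
      linarith
  by_contra hcon
  push Not at hcon
  -- `z` is outside
  have hznot : z ∉ GG E I 2 (Ls d (n + 1)) '' closedBall 0 R := by
    rintro ⟨ξ, hξ, rfl⟩
    rw [mem_closedBall_zero_iff] at hξ
    have h1 := hclose ξ hξ j hj
    have h2 := hFn ξ hξ j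
    have h3 : ‖G^[j] (GG E I 2 (Ls d (n + 1)) ξ)‖ ≤
        ‖(F (n + 1))^[j] (GG E I 2 (Ls d (n + 1)) ξ)‖ +
        ‖G^[j] (GG E I 2 (Ls d (n + 1)) ξ) - (F (n + 1))^[j] (GG E I 2 (Ls d (n + 1)) ξ)‖ := by
      have := norm_add_le ((F (n + 1))^[j] (GG E I 2 (Ls d (n + 1)) ξ))
        (G^[j] (GG E I 2 (Ls d (n + 1)) ξ) - (F (n + 1))^[j] (GG E I 2 (Ls d (n + 1)) ξ))
      rwa [add_sub_cancel] at this
    linarith
  -- a point of `C` on the critical curve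
  obtain ⟨ξ, hξR, hξC⟩ : ∃ ξ : ℂ, ‖ξ‖ = R ∧ GG E I 2 (Ls d (n + 1)) ξ ∈ C := by
    by_contra hno
    push Not at hno
    have hopen : IsOpen (GG E I 2 (Ls d (n + 1)) '' ball 0 R) := GG_isOpen U ha hl hb'0.le
    have hclosed : IsClosed (GG E I 2 (Ls d (n + 1)) '' closedBall 0 R) := by
      apply IsCompact.isClosed
      apply (isCompact_closedBall (0 : ℂ) R).image_of_continuousOn
      refine (GG_diff (I := I) U ha hl (by norm_num : (0 : ℝ) ≤ 2)).continuousOn.mono ?_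
      exact closedBall_subset_ball hR2
    have hsub : C ⊆ GG E I 2 (Ls d (n + 1)) '' ball 0 R ∪
        (GG E I 2 (Ls d (n + 1)) '' closedBall 0 R)ᶜ := by
      intro w hw
      by_cases hw2 : w ∈ GG E I 2 (Ls d (n + 1)) '' closedBall 0 R
      · obtain ⟨ξ, hξ, rfl⟩ := hw2
        left
        refine ⟨ξ, ?_, rfl⟩
        rw [mem_closedBall_zero_iff] at hξ
        rw [mem_ball_zero_iff]
        exact lt_of_le_of_ne hξ fun h => hno ξ h hw
      · right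
        exact hw2
    obtain ⟨w, -, hw1, hw2⟩ := hC _ _ hopen hclosed.isOpen_compl hsub
      ⟨0, h0, ⟨0, by simpa using hR0, GG_zero _⟩⟩ ⟨z, hz, hznot⟩
    exact hw2 (image_mono ball_subset_closedBall hw1)
  -- drift
  have hcop : Nat.Coprime (2 * pp (Ls d n)) (qq (Ls d n)) := by
    apply Nat.Coprime.mul_left _ (D.coprime n)
    exact (Nat.coprime_two_left).mpr (D.qq_odd n)
  obtain ⟨i, s, hi, hs⟩ := drift 2 (pp (Ls d n)) (qq (Ls d n)) (d n).k ha hm0 hk0 hcop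
    (arg ξ / Real.pi)
  have hkbig := D.k_big n
  have hi4 : i ≤ 3 * (d n).k / 4 := by
    have h1 : (8 : ℝ) * qq (Ls d n) + 8 ≤ (d n).k := by exact_mod_cast hkbig
    have h2 : (4 : ℝ) * i ≤ 3 * (d n).k := by
      push_cast at hi
      linarith
    have h3 : 4 * i ≤ 3 * (d n).k := by exact_mod_cast h2
    omega
  have hiQ : i ≤ (d n).Q := by omega
  set ψ : ℝ := arg ξ / (2 * Real.pi) + i * rot (Ls d (n + 1)) - s / 2 with hψ
  have hψs : |ψ| ≤ 1 / (d n).k := by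
    have h1 : (arg ξ / Real.pi + i * ((2 : ℕ) * ((pp (Ls d n) : ℝ) / qq (Ls d n) +
        1 / ((d n).k * qq (Ls d n)))) - s) = 2 * ψ := by
      rw [hψ, rot_succ D]
      have := Real.pi_ne_zero
      push_cast
      field_simp
    rw [h1, abs_mul, abs_of_pos (by norm_num : (0 : ℝ) < 2)] at hs
    push_cast at hs
    have h2 : (2 : ℝ) / (d n).k = 2 * (1 / (d n).k) := by ring
    rw [h2] at hs
    linarith
  -- the sign
  set σ : ℂ := ph ((s : ℝ) / 2) with hσ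
  have hσ2 : σ ^ 2 = 1 := by
    rw [hσ, ph_pow]
    have : (((2 : ℕ) : ℝ) * ((s : ℝ) / 2)) = s := by push_cast; ring
    rw [this, ph_int]
  have hσn : ‖σ‖ = 1 := ph_norm _
  have hξ : ξ = (R : ℂ) * ph (arg ξ / (2 * Real.pi)) := by
    conv_lhs => rw [← norm_mul_exp_arg_mul_I ξ, hξR]
    unfold ph
    congr 3
    have := Real.pi_ne_zero
    push_cast
    field_simp
  have hrot : rt (Ls d (n + 1)) ^ i * ξ = (R : ℂ) * σ * ph ψ := by
    have h4 : arg ξ / (2 * Real.pi) + i * rot (Ls d (n + 1)) = (s : ℝ) / 2 + ψ := by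
      rw [hψ]; ring
    have h5 : ph (arg ξ / (2 * Real.pi)) * rt (Ls d (n + 1)) ^ i = σ * ph ψ := by
      rw [rt_eq_ph, ph_pow, ← ph_add, h4, ph_add]
    calc rt (Ls d (n + 1)) ^ i * ξ
        = rt (Ls d (n + 1)) ^ i * ((R : ℂ) * ph (arg ξ / (2 * Real.pi))) := by rw [← hξ]
      _ = R * (ph (arg ξ / (2 * Real.pi)) * rt (Ls d (n + 1)) ^ i) := by ring
      _ = _ := by rw [h5]; ring
  have hnear : ‖(R : ℂ) * σ * ph ψ - σ * R‖ ≤ 20 * LR E 2 (Ls d (n + 1)) 2 / (d n).k := by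
    have h5 : (R : ℂ) * σ * ph ψ - σ * R = R * σ * (ph ψ - 1) := by ring
    rw [h5, norm_mul, norm_mul, hσn, mul_one, norm_real, Real.norm_eq_abs, abs_of_pos hR0]
    have h6 : ‖ph ψ - 1‖ ≤ 20 / (d n).k := by
      refine (norm_ph_sub_one ψ).trans ?_
      have h8 : 2 * Real.pi ≤ 20 := by have := Real.pi_le_four; linarith
      calc 2 * Real.pi * |ψ| ≤ 20 * (1 / (d n).k) :=
            mul_le_mul h8 hψs (abs_nonneg _) (by norm_num)
        _ = 20 / (d n).k := by ring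
    calc R * ‖ph ψ - 1‖ ≤ LR E 2 (Ls d (n + 1)) 2 * (20 / (d n).k) :=
          mul_le_mul hR2.le h6 (norm_nonneg _) (hR0.le.trans hR2.le)
      _ = _ := by ring
  have h5 := T.guc n ((R : ℂ) * σ * ph ψ) (by
      rw [mem_closedBall_zero_iff, norm_mul, norm_mul, hσn, ph_norm ψ, mul_one, mul_one, norm_real,
        Real.norm_eq_abs, abs_of_pos hR0]
      exact hR2.le) (σ * (R : ℂ)) (by
      rw [mem_closedBall_zero_iff, norm_mul, hσn, one_mul, norm_real, Real.norm_eq_abs,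
        abs_of_pos hR0]
      exact hR2.le) hnear
  have h6 : GG E I 2 (Ls d (n + 1)) (σ * (R : ℂ)) = σ * (((a + b) / 2 : ℝ) : ℂ) := by
    rw [GG_rot hσ2, hR, GG_LR U ha hl hb'0.le]
  rw [h6] at h5
  have h7 : ‖σ * (((a + b) / 2 : ℝ) : ℂ)‖ = (a + b) / 2 := by
    rw [norm_mul, hσn, one_mul, norm_real, Real.norm_eq_abs, abs_of_pos hb'0]
  have h1 := hclose ξ hξR.le i hiQ
  rw [hiter ξ hξR.le i, hrot] at h1
  have h2 := hCa _ hξC i hi4
  set A := G^[i] (GG E I 2 (Ls d (n + 1)) ξ) with hA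
  set B := GG E I 2 (Ls d (n + 1)) ((R : ℂ) * σ * ph ψ) with hB
  set w := σ * (((a + b) / 2 : ℝ) : ℂ) with hw
  have h10 : ‖w‖ ≤ ‖A‖ + ‖A - B‖ + ‖B - w‖ := by
    have e : w = A - (A - B) - (B - w) := by ring
    calc ‖w‖ = ‖A - (A - B) - (B - w)‖ := by rw [← e]
      _ ≤ ‖A - (A - B)‖ + ‖B - w‖ := norm_sub_le _ _
      _ ≤ _ := by
        have := norm_sub_le A (A - B)
        linarith
  rw [h7] at h10
  rw [hpow] at h1
  linarith

end Pool.Agent.H44.Crem
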