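import Pool.Agent.H44.Crem.NC1
import Pool.Agent.H44.Crem.NC2

/-!
# M6h: the two closing-time estimates (see `NC1`, `NC2`)
-/
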