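import Pool.Agent.H44.Crem.TowerDefs
import Pool.Agent.H44.Crem.Chain
import Pool.Agent.H44.Crem.Misc

/-!
# M6d: the orbit claim at the next stage
-/

set_option autoImplicit false

open Complex Metric Set Filter Topology

namespace Pool.Agent.H44.Crem

/-- the return of the phase to the positive axis -/
theorem phase_return (l : List Dat) (k : ℕ) (hk : 0 < k) (hq : 0 < qq l)
    (hcop : Nat.Coprime (pp l) (qq l)) (c : ℝ) (Q' : ℕ) (η' : ℝ) (hpos : Pos (⟨c, k, Q', η'⟩ :: l))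
    (ξ : ℂ) :
    ∃ j : ℕ, j ≤ k + qq l ∧
      ‖rt (⟨c, k, Q', η'⟩ :: l) ^ j * ξ - (‖ξ‖ : ℝ)‖ ≤ ‖ξ‖ * (2 * Real.pi / k) := by
  obtain ⟨j, s, hj, hs⟩ := drift 1 (pp l) (qq l) k one_pos hq hk (by simpa using hcop)
    (arg ξ / (2 * Real.pi))
  have hkR : (0 : ℝ) < k := by exact_mod_cast hk
  have hqR : (0 : ℝ) < qq l := by exact_mod_cast hq
  have hπ := Real.pi_pos
  refine ⟨j, ?_, ?_⟩
  · have : (j : ℝ) ≤ ((k + qq l : ℕ) : ℝ) := by
      push_cast
      simpa using hj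
    exact_mod_cast this
  · set θ : ℝ := arg ξ / (2 * Real.pi) +
      j * (((1 : ℕ) : ℝ) * ((pp l : ℝ) / qq l + 1 / (k * qq l))) - s with hθ
    have hrot : rot (⟨c, k, Q', η'⟩ :: l) = (pp l : ℝ) / qq l + 1 / (k * qq l) := by
      rw [rot_cons hpos]
      simp only [rot, qq]
      push_cast
      ring
    have e1 : rt (⟨c, k, Q', η'⟩ :: l) ^ j * ξ =
        (‖ξ‖ : ℝ) * exp (I * ((2 * Real.pi * θ : ℝ) : ℂ)) := by
      have e2 : ((2 * Real.pi * θ : ℝ) : ℂ) = arg ξ + 2 * Real.pi * j *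
          (rot (⟨c, k, Q', η'⟩ :: l) : ℝ) - 2 * Real.pi * s := by
        rw [← ofReal_natCast j, ← ofReal_intCast s, ← ofReal_ofNat, ← ofReal_mul, ← ofReal_mul,
          ← ofReal_mul, ← ofReal_mul, ← ofReal_add, ← ofReal_sub, hrot, hθ]
        congr 1
        field_simp
        push_cast
        ring
      have e3 : exp (I * ((2 * Real.pi * θ : ℝ) : ℂ)) =
          exp (arg ξ * I) * exp (2 * Real.pi * I * (rot (⟨c, k, Q', η'⟩ :: l) : ℝ)) ^ j := by
        rw [← exp_nat_mul, ← exp_add, e2]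
        have e4 : I * (arg ξ + 2 * Real.pi * j *
          (rot (⟨c, k, Q', η'⟩ :: l) : ℝ) - 2 * Real.pi * s) =
          (arg ξ * I + j * (2 * Real.pi * I * (rot (⟨c, k, Q', η'⟩ :: l) : ℝ))) -
            s * (2 * Real.pi * I) := by ring
        rw [e4, exp_sub, exp_int_mul_two_pi_mul_I, div_one]
      rw [e3]
      have e5 := norm_mul_exp_arg_mul_I ξ
      calc rt (⟨c, k, Q', η'⟩ :: l) ^ j * ξ
          = rt (⟨c, k, Q', η'⟩ :: l) ^ j * ((‖ξ‖ : ℝ) * exp (arg ξ * I)) := by rw [e5]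
        _ = _ := by unfold rt; ring
    have e6 : rt (⟨c, k, Q', η'⟩ :: l) ^ j * ξ - (‖ξ‖ : ℝ) =
        (‖ξ‖ : ℝ) * (exp (I * ((2 * Real.pi * θ : ℝ) : ℂ)) - 1) := by
      rw [e1]; ring
    rw [e6, norm_mul, norm_real, norm_norm]
    refine mul_le_mul_of_nonneg_left ?_ (norm_nonneg _)
    refine (Real.norm_exp_I_mul_ofReal_sub_one_le).trans ?_
    rw [Real.norm_eq_abs, abs_mul, abs_of_pos (by positivity : (0 : ℝ) < 2 * Real.pi)]
    have h1 : |θ| ≤ 1 / k := by simpa using hs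
    calc 2 * Real.pi * |θ| ≤ 2 * Real.pi * (1 / k) :=
          mul_le_mul_of_nonneg_left h1 (by positivity)
      _ = 2 * Real.pi / k := by ring

theorem next_claim {E I : ℂ → ℂ} {rs : ℝ} (U : IsUFun E I rs) {a : ℕ} (ha : 0 < a)
    {l : List Dat} (hl : Pos l) (hcop : Nat.Coprime (pp l) (qq l)) {F : ℂ → ℂ}
    (hF : Good E I a l F) {Q : ℕ} (hQ : Claim E I a l F Q) {η : ℝ} (hη : 0 < η)
    (hT : Tol l.length F Q η) {c : ℝ} (hc : 0 < c) :
    ∃ ε > 0, ∃ N0 : ℕ, ∀ᶠ k : ℕ in atTop, ∀ (F' : ℂ → ℂ) (Q' : ℕ) (η' : ℝ),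
      Good E I a (⟨c, k, Q', η'⟩ :: l) F' → (∀ z ∈ ball (0 : ℂ) (5 / 2), ‖F' z - F z‖ ≤ ε) →
      N0 * (k * qq l) + Q + k + qq l ≤ Q' → Claim E I a (⟨c, k, Q', η'⟩ :: l) F' Q' := by
  have hqpos := qq_pos hl
  have hm0 : 0 < a * qq l := Nat.mul_pos ha hqpos
  have hpw : (0 : ℝ) < (1 / 2) ^ l.length := by positivity
  have hpw1 : (1 / 2 : ℝ) ^ l.length ≤ 1 := pow_le_one₀ (by norm_num) (by norm_num)
  have hL1 : 0 < LR E a l (7 / 4) := LR_pos l (by norm_num)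
  have hL12 : LR E a l (7 / 4) < LR E a l (15 / 8) := LR_lt U ha hl (by norm_num) (by norm_num)
  have hL23 : LR E a l (15 / 8) < LR E a l 2 := LR_lt U ha hl (by norm_num) (by norm_num)
  have hR23 : HR E (a * qq l) c (LR E a l (15 / 8)) < HR E (a * qq l) c (LR E a l 2) :=
    HR_strictMono U hm0 hc (mem_Ici.2 (by linarith)) (mem_Ici.2 (by linarith)) hL23
  obtain ⟨N0, ρ, hρ, hch⟩ := chain (Hm E (a * qq l) c) (em E (a * qq l) c)
    (hm E I (a * qq l) c) (em_diff U _ _) (fun ζ => rfl) (Hm_deriv U hm0 c)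
    (LR E a l (7 / 4)) (HR E (a * qq l) c (LR E a l (15 / 8))) (HR E (a * qq l) c (LR E a l 2))
    hL1 (HR_pos _ _ (by linarith)) hR23
    (by
      refine (hm_diff U _ hc).mono fun ξ hξ => ?_
      rw [mem_ball_zero_iff] at hξ
      exact dom_of_le U hm0 hc (by linarith) hξ.le)
    (by
      intro ξ hξ
      rw [mem_ball_zero_iff] at hξ
      exact Hm_hm U hm0 hc (dom_of_le U hm0 hc (by linarith : 0 ≤ LR E a l 2) hξ.le))
    (by
      intro x hx hx1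
      refine ⟨(HR E (a * qq l) c x : ℝ), ?_, hm_HR U hm0 hc hx⟩
      rw [mem_ball_zero_iff, norm_real, Real.norm_eq_abs, abs_of_nonneg (HR_nonneg _ _ hx)]
      exact HR_strictMono U hm0 hc (mem_Ici.2 hx) (mem_Ici.2 (by linarith)) (by linarith))
  -- uniform continuity of `LL` on the closed disc of radius `2`
  have hLu := (isCompact_closedBall (0 : ℂ) 2).uniformContinuousOn_of_continuous
    (LL_diff U (a := a) l).continuous.continuousOn
  rw [Metric.uniformContinuousOn_iff] at hLu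
  obtain ⟨δ₁, hδ₁, hLu⟩ := hLu ρ hρ
  -- uniform continuity of `GG`
  have hpos1 : Pos (⟨c, 1, 0, 0⟩ :: l) := hl.cons hc one_pos
  obtain ⟨δ₂, hδ₂, hGu⟩ := GG_uc (I := I) U ha hpos1
    (show (0 : ℝ) < 1 / 8 * (1 / 2) ^ (l.length + 1) by positivity)
  refine ⟨min η (δ₁ / 2), by positivity, N0, ?_⟩
  have ev1 : ∀ᶠ k : ℕ in atTop, 1 / ρ ≤ (k : ℝ) :=
    tendsto_natCast_atTop_atTop.eventually_ge_atTop (1 / ρ)
  have ev2 : ∀ᶠ k : ℕ in atTop, LR E a (⟨c, 1, 0, 0⟩ :: l) 2 * (2 * Real.pi) / (k : ℝ) ≤ δ₂ := by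
    have : Tendsto (fun k : ℕ => LR E a (⟨c, 1, 0, 0⟩ :: l) 2 * (2 * Real.pi) / (k : ℝ)) atTop
        (𝓝 0) := tendsto_const_nhds.div_atTop tendsto_natCast_atTop_atTop
    exact (this.eventually (gt_mem_nhds hδ₂)).mono fun k hk => le_of_lt hk
  filter_upwards [ev1, ev2, eventually_ge_atTop 1] with k hk1 hk2 hk3 F' Q' η' hF' hε hQ' r hr
    hr1 z hz
  have hkR : (0 : ℝ) < k := by exact_mod_cast hk3
  have hpos : Pos (⟨c, k, Q', η'⟩ :: l) := hl.cons hc hk3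
  have hlen : (⟨c, k, Q', η'⟩ :: l : List Dat).length = l.length + 1 := rfl
  rw [hlen] at hr1 ⊢
  have hpw2 : (1 / 2 : ℝ) ^ (l.length + 1) = (1 / 2) ^ l.length * (1 / 2) := pow_succ _ _
  -- step 1
  have hstep1 : ∀ i, i + Q ≤ Q' → ‖LL E a l (F'^[i] z)‖ ≤ LR E a l (7 / 4) ∧
      GG E I a l (LL E a l (F'^[i] z)) = F'^[i] z := by
    intro i hi
    have h0 : ∀ j ≤ Q, ‖F'^[j] (F'^[i] z)‖ ≤ r := by
      intro j hj
      rw [← Function.iterate_add_apply]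
      exact hz (j + i) (by omega)
    have h1 := hT F' (fun w hw => (hε w (closedBall_subset_ball (by norm_num) hw)).trans
      (min_le_left _ _)) (F'^[i] z) (Or.inr fun j hj => (h0 j hj).trans (by
        rw [hpw2] at hr1; linarith))
    obtain ⟨ζ, hζ1, hζ2⟩ := hQ (r + 1 / 16 * (1 / 2) ^ l.length) (by positivity) (by
      rw [hpw2] at hr1; linarith) (F'^[i] z) (by
        intro j hj
        have h2 := h1 j hj
        have h3 := h0 j hj
        calc ‖F^[j] (F'^[i] z)‖ = ‖F'^[j] (F'^[i] z) - (F'^[j] (F'^[i] z) - F^[j] (F'^[i] z))‖ := by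
              ring_nf
          _ ≤ ‖F'^[j] (F'^[i] z)‖ + ‖F'^[j] (F'^[i] z) - F^[j] (F'^[i] z)‖ := norm_sub_le _ _
          _ ≤ _ := by linarith)
    have hζ3 : ‖ζ‖ ≤ LR E a l (7 / 4) := hζ1.trans (LR_le U ha hl (by positivity) (by
      rw [hpw2] at hr1; linarith))
    have hζ4 : LL E a l (F'^[i] z) = ζ := by
      rw [← hζ2]
      exact LL_GG U ha hl (by norm_num) hζ3
    rw [hζ4]
    exact ⟨hζ3, hζ2⟩
  -- step 2
  have hrt : rt l ≠ 0 := by
    have := rt_norm l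
    intro h0
    rw [h0, norm_zero] at this
    exact zero_ne_one this
  have hrtn : ∀ i : ℕ, ‖(rt l)⁻¹ ^ i‖ = 1 := by
    intro i
    rw [norm_pow, norm_inv, rt_norm, inv_one, one_pow]
  have hrtp : ∀ i : ℕ, ((rt l)⁻¹ ^ i) ^ (a * qq l) = 1 := by
    intro i
    rw [← pow_mul, mul_comm, pow_mul, inv_pow, rt_pow hl, inv_one, one_pow]
  have hxmem : ∀ i ≤ Q', F'^[i] z ∈ ball (0 : ℂ) (7 / 4) := by
    intro i hi
    rw [mem_ball_zero_iff]
    have := hz i hi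
    rw [hpw2] at hr1
    linarith
  set y : ℕ → ℂ := fun i => (rt l)⁻¹ ^ i * LL E a l (F'^[i] z) with hy
  obtain ⟨ξ, hξ, hyξ⟩ := hch (k * qq l) y (by
      refine hk1.trans ?_
      have : k ≤ k * qq l := Nat.le_mul_of_pos_right k hqpos
      exact_mod_cast this)
    (by
      intro i hi
      rw [hy]
      simp only
      rw [norm_mul, hrtn, one_mul]
      exact (hstep1 i (by omega)).1)
    (by
      intro i hi
      have hiQ : i ≤ Q' := by omega
      have hx := hxmem i hiQ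
      have hx' : F'^[i] z ∈ ball (0 : ℂ) (5 / 2) := ball_subset_ball (by norm_num) hx
      have e1 : y (i + 1) - y i = (rt l)⁻¹ ^ (i + 1) *
          (LL E a l (F' (F'^[i] z)) - LL E a l (F (F'^[i] z))) := by
        rw [hF.semi _ hx', hy]
        simp only
        rw [Function.iterate_succ_apply', pow_succ]
        field_simp
      rw [e1, norm_mul, hrtn, one_mul, ← dist_eq_norm]
      have n1 := hF.near _ hx'
      have n2 := hF'.near _ hx'
      rw [mem_ball_zero_iff] at hx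
      have n3 : (0 : ℝ) ≤ (1 / 2) ^ (⟨c, k, Q', η'⟩ :: l : List Dat).length := by positivity
      refine (hLu _ ?_ _ ?_ ?_).le
      · rw [mem_closedBall_zero_iff]
        calc ‖F' (F'^[i] z)‖ = ‖F'^[i] z + (F' (F'^[i] z) - F'^[i] z)‖ := by ring_nf
          _ ≤ ‖F'^[i] z‖ + ‖F' (F'^[i] z) - F'^[i] z‖ := norm_add_le _ _
          _ ≤ 2 := by linarith
      · rw [mem_closedBall_zero_iff]
        calc ‖F (F'^[i] z)‖ = ‖F'^[i] z + (F (F'^[i] z) - F'^[i] z)‖ := by ring_nf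
          _ ≤ ‖F'^[i] z‖ + ‖F (F'^[i] z) - F'^[i] z‖ := norm_add_le _ _
          _ ≤ 2 := by linarith
      · rw [dist_eq_norm]
        have := (hε _ hx').trans (min_le_right _ _)
        linarith)
    (by
      intro i hi
      have hiQ : i ≤ Q' := by omega
      have hx := hxmem i hiQ
      have hx' : F'^[i] z ∈ ball (0 : ℂ) (5 / 2) := ball_subset_ball (by norm_num) hx
      have h1 : Hm E (a * qq l) c (LL E a l (F' (F'^[i] z))) =
          rt (⟨c, k, Q', η'⟩ :: l) * Hm E (a * qq l) c (LL E a l (F'^[i] z)) := hF'.semi _ hx'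
      rw [hy]
      simp only
      rw [Hm_rot (hrtp _), Hm_rot (hrtp _), Function.iterate_succ_apply', h1, rt_cons hpos,
        pow_succ]
      show _ = exp (2 * Real.pi * Complex.I / ((k * qq l : ℕ) : ℂ)) * _
      have e2 : (qq (⟨c, k, Q', η'⟩ :: l) : ℕ) = k * qq l := rfl
      rw [e2]
      field_simp)
  rw [mem_ball_zero_iff] at hξ
  have hy0 : y 0 = LL E a l z := by simp [hy]
  have hGz : GG E I a (⟨c, k, Q', η'⟩ :: l) ξ = z := by
    show GG E I a l (hm E I (a * qq l) c ξ) = z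
    rw [← hyξ, hy0]
    exact (hstep1 0 (by omega)).2
  -- step 3
  have hξ2 : ‖ξ‖ < LR E a (⟨c, k, Q', η'⟩ :: l) 2 := hξ.trans hR23
  obtain ⟨j, hj, hjξ⟩ := phase_return l k hk3 hqpos hcop c Q' η' hpos ξ
  obtain ⟨x', hx0, hx2, hx⟩ := exists_LR U (a := a) (⟨c, k, Q', η'⟩ :: l)
    (by norm_num : (0 : ℝ) ≤ 2) (norm_nonneg ξ) hξ2.le
  have h1 : ‖GG E I a (⟨c, k, Q', η'⟩ :: l) (rt (⟨c, k, Q', η'⟩ :: l) ^ j * ξ) -
      GG E I a (⟨c, k, Q', η'⟩ :: l) (‖ξ‖ : ℝ)‖ ≤ 1 / 8 * (1 / 2) ^ (l.length + 1) := by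
    refine hGu _ ?_ _ ?_ ?_
    · rw [mem_closedBall_zero_iff, norm_mul, norm_pow, rt_norm, one_pow, one_mul]
      exact hξ2.le
    · rw [mem_closedBall_zero_iff, norm_real, norm_norm]
      exact hξ2.le
    · refine hjξ.trans (le_trans ?_ hk2)
      have e3 : LR E a (⟨c, 1, 0, 0⟩ :: l) 2 * (2 * Real.pi) / (k : ℝ) =
          LR E a (⟨c, k, Q', η'⟩ :: l) 2 * (2 * Real.pi / k) := mul_div_assoc _ _ _
      rw [e3]
      exact mul_le_mul_of_nonneg_right hξ2.le (by positivity)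
  rw [← hF'.iterate hξ2, hGz, ← hx, GG_LR U ha hpos hx0] at h1
  have h2 := hz j (by omega)
  have h3 : x' ≤ r + 1 / 8 * (1 / 2) ^ (l.length + 1) := by
    have h4 : ‖(x' : ℂ)‖ ≤ ‖F'^[j] z‖ + ‖F'^[j] z - x'‖ := by
      calc ‖(x' : ℂ)‖ = ‖F'^[j] z - (F'^[j] z - x')‖ := by ring_nf
        _ ≤ _ := norm_sub_le _ _
    rw [norm_real, Real.norm_eq_abs, abs_of_nonneg hx0] at h4
    linarith
  refine ⟨ξ, ?_, hGz⟩
  rw [← hx]
  exact LR_le U ha hpos hx0 h3

end Pool.Agent.H44.Crem
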