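import Pool.Agent.H44.Crem.NextGerm
import Pool.Agent.H44.Crem.NextClaim
import Pool.Agent.H44.Crem.BcUC
import Pool.Agent.H44.Crem.Limit
import Pool.Agent.H44.Crem.NC

/-!
# M6f: existence of the two towers
-/

set_option autoImplicit false

open Complex Metric Set Filter Topology

namespace Pool.Agent.H44.Crem

/-- the level maps attached to a list of stages -/
noncomputable def hsl (E I : ℂ → ℂ) (a : ℕ) : List Dat → ℕ → ℂ → ℂ
  | [], _ => fun ξ => ξ
  | d :: l, j => if j = l.length then hm E I (a * qq l) d.c else hsl E I a l j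

theorem hsl_Ls (E I : ℂ → ℂ) (a : ℕ) (d : ℕ → Dat) (n j : ℕ) (hj : j < n) :
    hsl E I a (Ls d n) j = hseq E I a d j := by
  induction n with
  | zero => omega
  | succ n ih =>
    show (if j = (Ls d n).length then hm E I (a * qq (Ls d n)) (d n).c
      else hsl E I a (Ls d n) j) = _
    rw [Ls_length]
    split_ifs with h
    · rw [h]; rfl
    · exact ih (by omega)

/-- common conditions on the list -/
structure LOK (l : List Dat) : Prop where
  pos : Pos l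
  cop : Nat.Coprime (pp l) (qq l)
  odd : Odd (qq l)
  ee_pos : 0 < ee l

/-- the invariant of the recursion -/
structure Inv (E I : ℂ → ℂ) (a : ℕ) (l : List Dat) (F : ℂ → ℂ) : Prop where
  good : Good E I a l F
  claim : Claim E I a l F (QQ l)
  tol : Tol l.length F (QQ l) (ee l)

/-- the relation between two consecutive stages -/
structure Rel (E I : ℂ → ℂ) (rs : ℝ) (a : ℕ) (l : List Dat) (d : Dat) (F F' : ℂ → ℂ) : Prop where
  near : ∀ z ∈ ball (0 : ℂ) (5 / 2), ‖F' z - F z‖ ≤ ee l / 2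
  big : BigC E I rs (a * qq l) (min (LR E a l (1 / (l.length + 1))) (1 / 2)) d.c
  guc : ∀ ξ ∈ closedBall (0 : ℂ) (LR E a (d :: l) 2),
    ∀ ξ' ∈ closedBall (0 : ℂ) (LR E a (d :: l) 2),
    ‖ξ - ξ'‖ ≤ 20 * LR E a (d :: l) 2 / d.k →
    ‖GG E I a (d :: l) ξ - GG E I a (d :: l) ξ'‖ ≤ 1 / 16 * (1 / 2) ^ l.length
  condA : ∀ j, j ≤ l.length → ∀ c : ℕ → ℂ, (∀ i, ‖c i‖ = 1) →
    ∀ ξ ∈ closedBall (0 : ℂ) 1, ∀ ξ' ∈ closedBall (0 : ℂ) 1,
    ‖ξ - ξ'‖ ≤ 7 / (a * qq (d :: l) : ℕ) →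
    |Bc (hsl E I a l) c j (l.length - j) ‖hm E I (a * qq l) d.c ξ‖ -
      Bc (hsl E I a l) c j (l.length - j) ‖hm E I (a * qq l) d.c ξ'‖| ≤ 1 / (a * qq l : ℕ)

/-- the conditions on the new data -/
structure DOK (l : List Dat) (d : Dat) : Prop where
  c_pos : 0 < d.c
  odd : Odd d.k
  k_ge : l.length + 3 ≤ d.k
  k_dvd : qq l ∣ d.k
  k_big : 8 * qq l + 8 ≤ d.k
  Q_big : d.k + qq l ≤ d.Q
  eta_pos : 0 < d.η
  eta_half : d.η ≤ ee l / 2

section

variable {E I : ℂ → ℂ} {rs : ℝ}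

theorem hm_cont1 (U : IsUFun E I rs) {m : ℕ} (hm0 : 0 < m) {c : ℝ} (hc : 0 < c) :
    ContinuousOn (hm E I m c) (closedBall 0 1) := by
  refine (hm_diff U m hc).continuousOn.mono ?_
  intro ξ hξ
  rw [mem_closedBall_zero_iff] at hξ
  exact dom_of_le U hm0 hc zero_le_one (by rw [HR_one]; exact hξ)

theorem hm_le1 (U : IsUFun E I rs) {m : ℕ} (hm0 : 0 < m) {c : ℝ} (hc : 0 < c) {ξ : ℂ}
    (hξ : ξ ∈ closedBall (0 : ℂ) 1) : ‖hm E I m c ξ‖ ≤ 1 := by
  rw [mem_closedBall_zero_iff] at hξ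
  exact norm_hm_le U hm0 hc zero_le_one (by rw [HR_one]; exact hξ)

theorem hsl_cont (U : IsUFun E I rs) {a : ℕ} (ha : 0 < a) {l : List Dat} (hl : Pos l) (n : ℕ)
    (hn : n < l.length) : ContinuousOn (hsl E I a l n) (closedBall 0 1) ∧
      ∀ ξ ∈ closedBall (0 : ℂ) 1, ‖hsl E I a l n ξ‖ ≤ 1 := by
  induction l with
  | nil => simp at hn
  | cons d l ih =>
    have hm0 := Nat.mul_pos ha (qq_pos hl.tail)
    have h1 : hsl E I a (d :: l) n =
        if n = l.length then hm E I (a * qq l) d.c else hsl E I a l n := rfl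
    rw [h1]
    split_ifs with h
    · exact ⟨hm_cont1 U hm0 hl.head.1, fun ξ hξ => hm_le1 U hm0 hl.head.1 hξ⟩
    · simp only [List.length_cons] at hn
      exact ih hl.tail (by omega)

theorem init_inv (a : ℕ) : Inv E I a [] (fun z => z) := by
  refine ⟨⟨differentiableOn_id, ?_, ?_, ?_⟩, ?_, ?_⟩
  · intro z _; simp
  · intro z _
    rw [rt_nil, one_mul]
  · intro ξ _
    rw [rt_nil, one_mul]
  · intro r hr _ z hz
    refine ⟨z, ?_, rfl⟩
    have := hz 0 le_rfl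
    show ‖z‖ ≤ r + 1 / 8 * (1 / 2) ^ 0
    simp only [Function.iterate_zero, id_eq] at this
    norm_num
    linarith
  · intro G _ z _ j hj
    have : j = 0 := Nat.le_zero.1 hj
    subst this
    simp

theorem init_ok : LOK [] := ⟨Pos.nil, by simp [qq], by simp [qq], by norm_num [ee]⟩

/-- one step of the recursion for one value of `a` -/
theorem step_one (U : IsUFun E I rs) {a : ℕ} (ha : 0 < a) {l : List Dat} (hl : LOK l)
    {F : ℂ → ℂ} (hF : Inv E I a l F) :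
    ∀ᶠ c : ℝ in atTop, ∀ᶠ k : ℕ in atTop, ∃ (F' : ℂ → ℂ) (Q0 : ℕ), ∀ Q ≥ Q0, ∃ η0 > 0,
      ∀ η, 0 < η → η ≤ η0 → Inv E I a (⟨c, k, Q, η⟩ :: l) F' ∧
        Rel E I rs a l ⟨c, k, Q, η⟩ F F' := by
  have hm0 := Nat.mul_pos ha (qq_pos hl.pos)
  have hδ : 0 < min (LR E a l (1 / (l.length + 1))) (1 / 2) :=
    lt_min (LR_pos l (by positivity)) (by norm_num)
  filter_upwards [exists_bigC U hm0 hδ] with c hc
  obtain ⟨ε, hε, N0, hcl⟩ := next_claim U ha hl.pos hl.cop hF.good hF.claim hl.ee_pos hF.tol hc.pos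
  have hee := hl.ee_pos
  have h1 := next_germ U ha hl.pos hF.good hc.pos
    (ε := min ε (ee l / 2)) (lt_min hε (by positivity))
  -- uniform continuity of GG
  have hpos1 : Pos (⟨c, 1, 0, 0⟩ :: l) := hl.pos.cons hc.pos one_pos
  obtain ⟨δ, hδ1, hguc⟩ := GG_uc (I := I) U ha hpos1
    (show (0 : ℝ) < 1 / 16 * (1 / 2) ^ l.length by positivity)
  have h2 : ∀ᶠ k : ℕ in atTop, 20 * LR E a (⟨c, 1, 0, 0⟩ :: l) 2 / (k : ℝ) ≤ δ := by
    have : Tendsto (fun k : ℕ => 20 * LR E a (⟨c, 1, 0, 0⟩ :: l) 2 / (k : ℝ)) atTop (𝓝 0) :=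
      tendsto_const_nhds.div_atTop tendsto_natCast_atTop_atTop
    exact (this.eventually (gt_mem_nhds hδ1)).mono fun k hk => le_of_lt hk
  -- condA
  have h3 : ∀ᶠ k : ℕ in atTop, ∀ j, j ≤ l.length → ∀ cc : ℕ → ℂ, (∀ i, ‖cc i‖ = 1) →
      ∀ ξ ∈ closedBall (0 : ℂ) 1, ∀ ξ' ∈ closedBall (0 : ℂ) 1,
      ‖ξ - ξ'‖ ≤ 7 / (a * (k * qq l) : ℕ) →
      |Bc (hsl E I a l) cc j (l.length - j) ‖hm E I (a * qq l) c ξ‖ -
        Bc (hsl E I a l) cc j (l.length - j) ‖hm E I (a * qq l) c ξ'‖| ≤ 1 / (a * qq l : ℕ) := by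
    have key : ∀ j ∈ Finset.range (l.length + 1), ∀ᶠ k : ℕ in atTop, ∀ cc : ℕ → ℂ,
        (∀ i, ‖cc i‖ = 1) →
        ∀ ξ ∈ closedBall (0 : ℂ) 1, ∀ ξ' ∈ closedBall (0 : ℂ) 1,
        ‖ξ - ξ'‖ ≤ 7 / (a * (k * qq l) : ℕ) →
        |Bc (hsl E I a l) cc j (l.length - j) ‖hm E I (a * qq l) c ξ‖ -
          Bc (hsl E I a l) cc j (l.length - j) ‖hm E I (a * qq l) c ξ'‖| ≤
          1 / (a * qq l : ℕ) := by
      intro j hj
      rw [Finset.mem_range] at hj
      obtain ⟨κ, hκ, hB⟩ := Bc_uc (hsl E I a l) j (l.length - j)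
        (fun n _ hn => (hsl_cont U ha hl.pos n (by omega)).1)
        (fun n _ hn => (hsl_cont U ha hl.pos n (by omega)).2)
        (show (0 : ℝ) < 1 / (a * qq l : ℕ) by
          have : (0 : ℝ) < (a * qq l : ℕ) := by exact_mod_cast hm0
          positivity)
      have hu := (isCompact_closedBall (0 : ℂ) 1).uniformContinuousOn_of_continuous
        (hm_cont1 U hm0 hc.pos)
      rw [Metric.uniformContinuousOn_iff] at hu
      obtain ⟨κ', hκ', hu⟩ := hu κ hκ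
      have h5 : ∀ᶠ k : ℕ in atTop, (7 : ℝ) / (k : ℝ) < κ' := by
        have : Tendsto (fun k : ℕ => (7 : ℝ) / (k : ℝ)) atTop (𝓝 0) :=
          tendsto_const_nhds.div_atTop tendsto_natCast_atTop_atTop
        exact this.eventually (gt_mem_nhds hκ')
      filter_upwards [h5, eventually_gt_atTop 0] with k hk hk0 cc hcc ξ hξ ξ' hξ' hd
      have h6 : (7 : ℝ) / (a * (k * qq l) : ℕ) ≤ 7 / (k : ℝ) := by
        apply div_le_div_of_nonneg_left (by norm_num) (by exact_mod_cast hk0)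
        have : k ≤ a * (k * qq l) := by
          have : 1 ≤ a * qq l := hm0
          nlinarith
        exact_mod_cast this
      have h7 := hu ξ hξ ξ' hξ' (by rw [dist_eq_norm]; linarith)
      rw [dist_eq_norm] at h7
      refine hB cc hcc _ ⟨norm_nonneg _, hm_le1 U hm0 hc.pos hξ⟩ _
        ⟨norm_nonneg _, hm_le1 U hm0 hc.pos hξ'⟩ ?_
      exact (abs_norm_sub_norm_le _ _).trans h7.le
    filter_upwards [(Finset.eventually_all _).2 key] with k hk j hj
    exact hk j (Finset.mem_range.2 (by omega))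
  filter_upwards [h1, h2, h3, hcl] with k hk1 hk2 hk3 hk4
  obtain ⟨F', hF'1, hF'2⟩ := hk1
  refine ⟨F', N0 * (k * qq l) + QQ l + k + qq l, fun Q hQ => ?_⟩
  have hcont : ContinuousOn F' (closedBall 0 2) :=
    (hF'2 0 0).diff.continuousOn.mono (closedBall_subset_ball (by norm_num))
  obtain ⟨η0, hη0, hclose⟩ := close_orbits F' hcont Q (1 / 16 * (1 / 2) ^ (l.length + 1))
    (by positivity)
  refine ⟨η0, hη0, fun η hη hηle => ⟨⟨hF'2 Q η, ?_, ?_⟩, ⟨?_, hc, ?_, ?_⟩⟩⟩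
  · refine hk4 F' Q η (hF'2 Q η) (fun z hz => (hF'1 z hz).trans (min_le_left _ _)) hQ
  · intro G hG z hz j hj
    exact hclose G (fun z hz => (hG z hz).trans hηle) z hz j hj
  · exact fun z hz => (hF'1 z hz).trans (min_le_right _ _)
  · intro ξ hξ ξ' hξ' hd
    exact hguc ξ hξ ξ' hξ' (hd.trans hk2)
  · exact hk3

/-- one step of the recursion -/
theorem step_two (U : IsUFun E I rs) {l : List Dat} (hl : LOK l) {F₁ F₂ : ℂ → ℂ}
    (h₁ : Inv E I 1 l F₁) (h₂ : Inv E I 2 l F₂) :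
    ∃ (d : Dat) (F₁' F₂' : ℂ → ℂ), DOK l d ∧ LOK (d :: l) ∧ Inv E I 1 (d :: l) F₁' ∧
      Inv E I 2 (d :: l) F₂' ∧ Rel E I rs 1 l d F₁ F₁' ∧ Rel E I rs 2 l d F₂ F₂' := by
  obtain ⟨c, hc1, hc2, hc0⟩ := ((step_one U one_pos hl h₁).and
    ((step_one U two_pos hl h₂).and (eventually_gt_atTop 0))).exists
  have hq := qq_pos hl.pos
  have hT : Tendsto (fun t : ℕ => (2 * t + 1) * qq l) atTop atTop := by
    apply tendsto_atTop_mono (f := fun t : ℕ => t)
    · intro t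
      nlinarith
    · exact tendsto_id
  obtain ⟨t, ⟨F₁', Q₁, hF₁⟩, ⟨F₂', Q₂, hF₂⟩, hk1, hk2⟩ := (hT.eventually (hc1.and (hc2.and
    ((eventually_ge_atTop (l.length + 3)).and (eventually_ge_atTop (8 * qq l + 8)))))).exists
  set k := (2 * t + 1) * qq l with hk
  set Q := max (max Q₁ Q₂) (k + qq l) with hQ
  obtain ⟨η₁, hη₁, h1⟩ := hF₁ Q ((le_max_left _ _).trans (le_max_left _ _))
  obtain ⟨η₂, hη₂, h2⟩ := hF₂ Q ((le_max_right _ _).trans (le_max_left _ _))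
  have hee := hl.ee_pos
  set η := min (min η₁ η₂) (ee l / 2) with hη
  have hη0 : 0 < η := lt_min (lt_min hη₁ hη₂) (by positivity)
  have h1' := h1 η hη0 ((min_le_left _ _).trans (min_le_left _ _))
  have h2' := h2 η hη0 ((min_le_left _ _).trans (min_le_right _ _))
  have hodd : Odd k := (odd_two_mul_add_one t).mul hl.odd
  have hk0 : 0 < k := by omega
  refine ⟨⟨c, k, Q, η⟩, F₁', F₂', ⟨hc0, hodd, hk1, Dvd.intro_left _ rfl, hk2, le_max_right _ _,
    hη0, min_le_right _ _⟩, ⟨hl.pos.cons hc0 hk0, coprime_succ (Dvd.intro_left _ rfl),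
    hodd.mul hl.odd, hη0⟩, h1'.1, h2'.1, h1'.2, h2'.2⟩

theorem exists_tower (U : IsUFun E I rs) :
    ∃ (d : ℕ → Dat) (F₁ F₂ : ℕ → ℂ → ℂ), DatOK d ∧ Tower E I rs d 1 F₁ ∧ Tower E I rs d 2 F₂ := by
  classical
  let St := {s : List Dat × (ℂ → ℂ) × (ℂ → ℂ) // LOK s.1 ∧ Inv E I 1 s.1 s.2.1 ∧
    Inv E I 2 s.1 s.2.2}
  have hstep : ∀ s : St, ∃ p : Dat × St, p.2.1.1 = p.1 :: s.1.1 ∧ DOK s.1.1 p.1 ∧
      Rel E I rs 1 s.1.1 p.1 s.1.2.1 p.2.1.2.1 ∧ Rel E I rs 2 s.1.1 p.1 s.1.2.2 p.2.1.2.2 := by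
    rintro ⟨⟨l, F₁, F₂⟩, hl, h1, h2⟩
    obtain ⟨d, F₁', F₂', hd, hl', h1', h2', hr1, hr2⟩ := step_two U hl h1 h2
    exact ⟨⟨d, ⟨⟨d :: l, F₁', F₂'⟩, hl', h1', h2'⟩⟩, rfl, hd, hr1, hr2⟩
  choose nxt hnxt using hstep
  let s0 : St := ⟨⟨[], fun z => z, fun z => z⟩, init_ok, init_inv 1, init_inv 2⟩
  let S : ℕ → St := fun n => Nat.rec s0 (fun _ s => (nxt s).2) n
  have hS : ∀ n, S (n + 1) = (nxt (S n)).2 := fun n => rfl
  let d : ℕ → Dat := fun n => (nxt (S n)).1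
  have hL : ∀ n, Ls d n = (S n).1.1 := by
    intro n
    induction n with
    | zero => rfl
    | succ n ih =>
      show d n :: Ls d n = (S (n + 1)).1.1
      rw [hS, (hnxt (S n)).1, ih]
  have hlen : ∀ n, (S n).1.1.length = n := fun n => by rw [← hL, Ls_length]
  have hD : DatOK d := by
    constructor
    · exact fun n => (hnxt (S n)).2.1.c_pos
    · exact fun n => (hnxt (S n)).2.1.odd
    · intro n
      have := (hnxt (S n)).2.1.k_ge
      rwa [hlen] at this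
    · intro n; rw [hL]; exact (hnxt (S n)).2.1.k_dvd
    · intro n; rw [hL]; exact (hnxt (S n)).2.1.k_big
    · intro n; rw [hL]; exact (hnxt (S n)).2.1.Q_big
    · exact fun n => (hnxt (S n)).2.1.eta_pos
    · intro n; rw [hL]; exact (hnxt (S n)).2.1.eta_half
  have hT : ∀ (a : ℕ) (F : ℕ → ℂ → ℂ), (∀ n, Inv E I a (S n).1.1 (F n)) →
      (∀ n, Rel E I rs a (S n).1.1 (d n) (F n) (F (n + 1))) → Tower E I rs d a F := by
    intro a F h1 h2
    constructor
    · intro n; rw [hL]; exact (h1 n).good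
    · intro n; rw [hL]; exact (h1 n).claim
    · intro n
      have := (h1 n).tol
      rw [hlen] at this
      rw [hL]; exact this
    · intro n; rw [hL]; exact (h2 n).near
    · intro n
      have := (h2 n).big
      rw [hlen] at this
      rw [hL]; exact this
    · intro n
      have := (h2 n).guc
      rw [hlen] at this
      have h6 : Ls d (n + 1) = d n :: (S n).1.1 := by
        show d n :: Ls d n = _
        rw [hL]
      rw [h6]
      exact this
    · intro n j hj c hc ξ hξ ξ' hξ' hd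
      have h3 := (h2 n).condA
      rw [hlen] at h3
      have h4 : ∀ t, Bc (hseq E I a d) c j (n - j) t = Bc (hsl E I a (S n).1.1) c j (n - j) t := by
        intro t
        apply Bc_congr
        intro i _ hi
        rw [← hL, hsl_Ls E I a d n i (by omega)]
      rw [h4, h4]
      have h5 : hseq E I a d n = hm E I (a * qq (S n).1.1) (d n).c := by
        unfold hseq; rw [hL]
      rw [h5, hL]
      refine h3 j hj c hc ξ hξ ξ' hξ' ?_
      have h6 : qq (Ls d (n + 1)) = qq (d n :: (S n).1.1) := by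
        rw [← hL]; rfl
      rw [h6] at hd
      exact hd
  refine ⟨d, fun n => (S n).1.2.1, fun n => (S n).1.2.2, hD, hT 1 _ ?_ ?_, hT 2 _ ?_ ?_⟩
  · exact fun n => (S n).2.2.1
  · exact fun n => (hnxt (S n)).2.2.1
  · exact fun n => (S n).2.2.2
  · exact fun n => (hnxt (S n)).2.2.2

end

end Pool.Agent.H44.Crem
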