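import Pool.Agent.H44.Crem.Main

/-!
# The result
-/

set_option autoImplicit false

open Complex Metric Set Filter Topology

namespace Pool.Agent.H44.Crem

theorem main_result :
    ¬ (∀ f g : ℂ → ℂ, AnalyticAt ℂ f 0 → AnalyticAt ℂ g 0 → f 0 = 0 → g 0 = 0 →
    (∃ θ : ℝ, Irrational θ ∧
        deriv f 0 = Complex.exp (2 * (Real.pi : ℂ) * Complex.I * (θ : ℂ))) →
    (¬ ∃ ψ : ℂ → ℂ, AnalyticAt ℂ ψ 0 ∧ ψ 0 = 0 ∧ deriv ψ 0 ≠ 0 ∧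
        ∀ᶠ z in nhds (0 : ℂ), ψ (f z) = deriv f 0 * ψ z) →
    (∃ θ : ℝ, Irrational θ ∧
        deriv g 0 = Complex.exp (2 * (Real.pi : ℂ) * Complex.I * (θ : ℂ))) →
    (¬ ∃ ψ : ℂ → ℂ, AnalyticAt ℂ ψ 0 ∧ ψ 0 = 0 ∧ deriv ψ 0 ≠ 0 ∧
        ∀ᶠ z in nhds (0 : ℂ), ψ (g z) = deriv g 0 * ψ z) →
    deriv f 0 = deriv g 0 →
    ∀ U U' : Set ℂ,
    (IsCompact U ∧ Nonempty (↥U ≃ₜ ↥(Metric.closedBall (0 : ℂ) 1)) ∧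
        (0 : ℂ) ∈ interior U ∧
        ∃ W : Set ℂ, IsOpen W ∧ U ⊆ W ∧ DifferentiableOn ℂ f W ∧ Set.InjOn f W) →
    (IsCompact U' ∧ Nonempty (↥U' ≃ₜ ↥(Metric.closedBall (0 : ℂ) 1)) ∧
        (0 : ℂ) ∈ interior U' ∧
        ∃ W : Set ℂ, IsOpen W ∧ U' ⊆ W ∧ DifferentiableOn ℂ g W ∧ Set.InjOn g W) →
    (∃ V : Set ℂ, V ∈ nhds (0 : ℂ) ∧ ∃ W : Set ℂ, W ∈ nhds (0 : ℂ) ∧
        ∃ φ : ↥({z : ℂ | ∀ k : ℕ, f^[k] z ∈ U} ∩ V) ≃ₜ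
              ↥({z : ℂ | ∀ k : ℕ, g^[k] z ∈ U'} ∩ W),
          ∀ x : ↥({z : ℂ | ∀ k : ℕ, f^[k] z ∈ U} ∩ V),
            (x : ℂ) = 0 → ((φ x : ↥({z : ℂ | ∀ k : ℕ, g^[k] z ∈ U'} ∩ W)) : ℂ) = 0) →
    ∃ V : Set ℂ, V ∈ nhds (0 : ℂ) ∧ ∃ W : Set ℂ, W ∈ nhds (0 : ℂ) ∧
      ∃ h : ↥V ≃ₜ ↥W,
      (∀ x : ↥V, (x : ℂ) = 0 → ((h x : ↥W) : ℂ) = 0) ∧
      ∃ ε : ℝ, ε > 0 ∧ ∀ x y : ↥V, ‖(x : ℂ)‖ < ε → (y : ℂ) = f (x : ℂ) →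
        ((h y : ↥W) : ℂ) = g ((h x : ↥W) : ℂ)) := by
  obtain ⟨E, I, rs, U⟩ := exists_ufun
  obtain ⟨d, F₁, F₂, D, T₁, T₂⟩ := exists_tower U
  obtain ⟨α, hα, hlim⟩ := exists_alpha D
  obtain ⟨s₁, hm₁, hs₁, -⟩ := tower_fanSys U one_pos D T₁
  obtain ⟨s₂, hm₂, hs₂, -⟩ := tower_fanSys U two_pos D T₂
  obtain ⟨G₁, hG₁, hc₁⟩ := tower_limit U one_pos D T₁ hlim s₁ hs₁
  obtain ⟨G₂, hG₂, hc₂⟩ := tower_limit U two_pos D T₂ hlim s₂ hs₂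
  exact final G₁ G₂ α hα s₁ s₂ hG₁ hG₂ (fun n => 3 * (d n).k / 4) (fun n => (d n).Q)
    (fun r hr => (nc_one U D T₁ G₁ hc₁ r hr).frequently) (nc_two U D T₂ G₂ hc₂)

end Pool.Agent.H44.Crem
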