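import Pool.Agent.H44.Crem.TowerDefs
import Pool.Agent.H44.Crem.Misc

/-!
# M6h1: the closing-time estimate for the tower with symmetry `1`

At scale `n` the image under `Γ_{n+1}` of a ray of argument `2π/(8 q_n)` stays near `0` for
`3 k_n / 4` steps, and its tip comes close to the real point `3/2` within `k_n + q_n` steps.
-/

set_option autoImplicit false

open Complex Metric Set Filter Topology

namespace Pool.Agent.H44.Crem

/-- the phase factor `e^{2πi x}` -/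
noncomputable def ph (x : ℝ) : ℂ := exp (((2 * Real.pi * x : ℝ) : ℂ) * Complex.I)

theorem ph_add (x y : ℝ) : ph (x + y) = ph x * ph y := by
  unfold ph
  rw [← exp_add]
  congr 1
  push_cast
  ring

theorem ph_norm (x : ℝ) : ‖ph x‖ = 1 := by
  unfold ph
  exact norm_exp_ofReal_mul_I _

theorem ph_pow (x : ℝ) (j : ℕ) : ph x ^ j = ph (j * x) := by
  unfold ph
  rw [← exp_nat_mul]
  congr 1
  push_cast
  ring

theorem ph_int (s : ℤ) : ph s = 1 := by
  unfold ph
  have : (((2 * Real.pi * (s : ℝ) : ℝ) : ℂ) * Complex.I) = s * (2 * Real.pi * Complex.I) := by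
    push_cast
    ring
  rw [this, exp_int_mul_two_pi_mul_I]

theorem rt_eq_ph (l : List Dat) : rt l = ph (rot l) := by
  unfold rt ph
  congr 1
  push_cast
  ring

theorem ph_re (x : ℝ) : (ph x).re = Real.cos (2 * Real.pi * x) := by
  unfold ph
  exact exp_ofReal_mul_I_re _

theorem norm_ph_sub_one (x : ℝ) : ‖ph x - 1‖ ≤ 2 * Real.pi * |x| := by
  unfold ph
  rw [mul_comm _ Complex.I]
  refine (Real.norm_exp_I_mul_ofReal_sub_one_le).trans ?_
  rw [Real.norm_eq_abs, abs_mul, abs_of_pos Real.two_pi_pos]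

/-- a phase in `[1/8, 7/8]` has argument of absolute value at least `π/4` -/
theorem arg_ph {t x : ℝ} (ht : 0 < t) (hx : 1 / 8 ≤ x) (hx' : x ≤ 7 / 8) :
    Real.pi / 4 ≤ |arg ((t : ℂ) * ph x)| := by
  have hpi := Real.pi_pos
  rw [arg_real_mul _ ht]
  by_contra hcon
  push Not at hcon
  have hne : ph x ≠ 0 := by
    intro h
    have := ph_norm x
    rw [h, norm_zero] at this
    exact zero_ne_one this
  have h1 : Real.cos (Real.pi / 4) < Real.cos |arg (ph x)| :=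
    Real.cos_lt_cos_of_nonneg_of_le_pi (abs_nonneg _) (by linarith) hcon
  rw [Real.cos_abs, cos_arg hne, ph_norm, div_one, ph_re] at h1
  have h2 : Real.cos (2 * Real.pi * x) ≤ Real.cos (Real.pi / 4) := by
    rcases le_total x (1 / 2) with h | h
    · exact Real.cos_le_cos_of_nonneg_of_le_pi (by linarith) (by nlinarith) (by nlinarith)
    · have h3 : Real.cos (2 * Real.pi * x) = Real.cos (2 * Real.pi * (1 - x)) := by
        rw [mul_sub, mul_one, Real.cos_two_pi_sub]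
      rw [h3]
      exact Real.cos_le_cos_of_nonneg_of_le_pi (by linarith) (by nlinarith) (by nlinarith)
  linarith

theorem rot_succ {d : ℕ → Dat} (D : DatOK d) (n : ℕ) :
    rot (Ls d (n + 1)) = (pp (Ls d n) : ℝ) / qq (Ls d n) + 1 / ((d n).k * qq (Ls d n)) := by
  have h := rot_cons (D.pos (n + 1))
  change rot (Ls d (n + 1)) = rot (Ls d n) + 1 / (qq (Ls d (n + 1)) : ℕ) at h
  rw [h]
  unfold rot
  congr 2
  change ((((d n).k * qq (Ls d n) : ℕ) : ℝ)) = _
  push_cast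
  rfl

/-- the phase of `(e^{2πi α_{n+1}})^{j q_n}` -/
theorem rt_succ_pow {d : ℕ → Dat} (D : DatOK d) (n j : ℕ) :
    (rt (Ls d (n + 1)) ^ j) ^ (qq (Ls d n)) = ph ((j : ℝ) / (d n).k) := by
  have hq : (0 : ℝ) < qq (Ls d n) := by exact_mod_cast qq_pos (D.pos n)
  have hk : (0 : ℝ) < (d n).k := by
    have := D.k_ge n
    exact_mod_cast (show 0 < (d n).k by omega)
  rw [rt_eq_ph, ph_pow, ph_pow, rot_succ D]
  have h1 : (qq (Ls d n) : ℝ) * ((j : ℝ) * ((pp (Ls d n) : ℝ) / qq (Ls d n) +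
      1 / ((d n).k * qq (Ls d n)))) = (j : ℝ) / (d n).k + ((j * pp (Ls d n) : ℕ) : ℤ) := by
    push_cast
    field_simp
    ring
  rw [h1, ph_add, ph_int, mul_one]

theorem nc_one {E I : ℂ → ℂ} {rs : ℝ} (U : IsUFun E I rs) {d : ℕ → Dat} (D : DatOK d)
    {F : ℕ → ℂ → ℂ} (T : Tower E I rs d 1 F) (G : ℂ → ℂ)
    (hG : ∀ n, ∀ z ∈ ball (0 : ℂ) (5 / 2), ‖G z - F n z‖ ≤ ee (Ls d n)) :
    ∀ r > 0, ∀ᶠ n in atTop, ∃ C : Set ℂ, IsPreconnected C ∧ (0 : ℂ) ∈ C ∧
      (∀ z ∈ C, ∀ j ≤ 3 * (d n).k / 4, ‖G^[j] z‖ < r) ∧ ∃ z ∈ C, ∃ j ≤ (d n).Q, 1 ≤ ‖G^[j] z‖ := by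
  intro r hr
  have hlim : Tendsto (fun n : ℕ => 1 / ((n : ℝ) + 1) + 1 / 16 * (1 / 2 : ℝ) ^ (n + 1)) atTop
      (𝓝 (0 + 1 / 16 * 0)) := by
    apply Tendsto.add tendsto_one_div_add_atTop_nhds_zero_nat
    apply Tendsto.const_mul
    exact (tendsto_pow_atTop_nhds_zero_of_lt_one (by norm_num) (by norm_num)).comp
      (tendsto_add_atTop_nat 1)
  have hlim' := hlim.eventually (gt_mem_nhds (show (0 : ℝ) + 1 / 16 * 0 < r by simpa using hr))
  filter_upwards [hlim'] with n hn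
  -- notation
  have ha : 0 < 1 := one_pos
  have hl0 : Pos (Ls d n) := D.pos n
  have hl : Pos (Ls d (n + 1)) := D.pos (n + 1)
  have hm0 : 0 < qq (Ls d n) := qq_pos hl0
  have hk0 : 0 < (d n).k := by have := D.k_ge n; omega
  have hmR : (0 : ℝ) < qq (Ls d n) := by exact_mod_cast hm0
  have hkR : (0 : ℝ) < (d n).k := by exact_mod_cast hk0
  set R : ℝ := LR E 1 (Ls d (n + 1)) (3 / 2) with hR
  have hR0 : 0 < R := LR_pos _ (by norm_num)
  have hR2 : R < LR E 1 (Ls d (n + 1)) 2 := LR_lt U ha hl (by norm_num) (by norm_num)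
  set φ : ℂ := ph (1 / (8 * qq (Ls d n))) with hφ
  have hφn : ‖φ‖ = 1 := ph_norm _
  have hnorm : ∀ t : ℝ, 0 ≤ t → ‖(t : ℂ) * φ‖ = t := by
    intro t ht
    rw [norm_mul, hφn, mul_one, norm_real, Real.norm_eq_abs, abs_of_nonneg ht]
  -- orbits of `F (n+1)`
  have hgood := T.good (n + 1)
  have hiter : ∀ t ∈ Icc 0 R, ∀ j : ℕ, (F (n + 1))^[j] (GG E I 1 (Ls d (n + 1)) (t * φ)) =
      GG E I 1 (Ls d (n + 1)) (rt (Ls d (n + 1)) ^ j * (t * φ)) := by
    intro t ht j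
    apply hgood.iterate
    rw [hnorm t ht.1]
    exact ht.2.trans_lt hR2
  have hrot : ∀ t ∈ Icc 0 R, ∀ j : ℕ, ‖rt (Ls d (n + 1)) ^ j * ((t : ℂ) * φ)‖ = t := by
    intro t ht j
    rw [norm_mul, norm_pow, rt_norm, one_pow, one_mul, hnorm t ht.1]
  have hclose : ∀ t ∈ Icc 0 R, ∀ j ≤ (d n).Q,
      ‖G^[j] (GG E I 1 (Ls d (n + 1)) (t * φ)) -
        (F (n + 1))^[j] (GG E I 1 (Ls d (n + 1)) (t * φ))‖ ≤ 1 / 16 * (1 / 2) ^ (n + 1) := by
    intro t ht
    apply T.tol (n + 1) G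
    · intro z hz
      apply hG (n + 1) z
      rw [mem_closedBall_zero_iff] at hz
      rw [mem_ball_zero_iff]
      linarith
    · left
      intro j _
      rw [hiter t ht j]
      have h1 := GG_norm_le (I := I) U ha hl (X := 3 / 2) (by norm_num)
        (ξ := rt (Ls d (n + 1)) ^ j * ((t : ℂ) * φ)) (by rw [hrot t ht j]; exact ht.2)
      linarith
  have hQ := D.Q_big n
  refine ⟨(fun t : ℝ => GG E I 1 (Ls d (n + 1)) (t * φ)) '' Icc 0 R, ?_, ?_, ?_, ?_⟩
  · apply isPreconnected_Icc.image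
    have h1 := (GG_diff (I := I) U ha hl (by norm_num : (0 : ℝ) ≤ 2)).continuousOn
    refine h1.comp (by fun_prop) ?_
    intro t ht
    rw [mem_ball_zero_iff, hnorm t ht.1]
    exact ht.2.trans_lt hR2
  · refine ⟨0, ⟨le_rfl, hR0.le⟩, ?_⟩
    change GG E I 1 (Ls d (n + 1)) (((0 : ℝ) : ℂ) * φ) = 0
    rw [ofReal_zero, zero_mul, GG_zero]
  · rintro _ ⟨t, ht, rfl⟩ j hj
    have h1 := hclose t ht j (by omega)
    have h2 : ‖(F (n + 1))^[j] (GG E I 1 (Ls d (n + 1)) (t * φ))‖ ≤ 1 / ((n : ℝ) + 1) := by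
      rw [hiter t ht j]
      rcases ht.1.eq_or_lt with h0 | h0
      · rw [← h0, ofReal_zero, zero_mul, mul_zero, GG_zero, norm_zero]
        positivity
      · change ‖GG E I 1 (Ls d n) (hm E I (1 * qq (Ls d n)) (d n).c
          (rt (Ls d (n + 1)) ^ j * ((t : ℂ) * φ)))‖ ≤ _
        have hB := T.big n
        have h3 : ‖hm E I (1 * qq (Ls d n)) (d n).c (rt (Ls d (n + 1)) ^ j * ((t : ℂ) * φ))‖ ≤
            min (LR E 1 (Ls d n) (1 / ((n : ℝ) + 1))) (1 / 2) := by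
          apply hB.small
          · apply dom_of_le U (by omega) hB.pos (LR_nonneg (E := E) (a := 1) (Ls d n)
              (by norm_num : (0 : ℝ) ≤ 3 / 2))
            rw [hrot t ht j]
            exact ht.2
          · rw [one_mul, mul_pow, rt_succ_pow D, mul_pow]
            have h4 : φ ^ qq (Ls d n) = ph (1 / 8) := by
              rw [hφ, ph_pow]
              congr 1
              field_simp
            have h5 : ph ((j : ℝ) / (d n).k) * ((t : ℂ) ^ qq (Ls d n) * φ ^ qq (Ls d n)) =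
                ((t ^ qq (Ls d n) : ℝ) : ℂ) * ph (1 / 8 + (j : ℝ) / (d n).k) := by
              rw [h4, ph_add]
              push_cast
              ring
            rw [h5]
            apply arg_ph (by positivity)
            · have : 0 ≤ (j : ℝ) / (d n).k := by positivity
              linarith
            · have h6 : (j : ℝ) / (d n).k ≤ 3 / 4 := by
                rw [div_le_iff₀ hkR]
                have : 4 * j ≤ 3 * (d n).k := by omega
                have h7 : (4 : ℝ) * j ≤ 3 * (d n).k := by exact_mod_cast this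
                linarith
              linarith
        exact GG_norm_le U ha hl0 (by positivity) (h3.trans (min_le_left _ _))
    have h3 : ‖G^[j] (GG E I 1 (Ls d (n + 1)) (t * φ))‖ ≤
        ‖(F (n + 1))^[j] (GG E I 1 (Ls d (n + 1)) (t * φ))‖ +
        ‖G^[j] (GG E I 1 (Ls d (n + 1)) (t * φ)) -
          (F (n + 1))^[j] (GG E I 1 (Ls d (n + 1)) (t * φ))‖ := by
      have := norm_add_le ((F (n + 1))^[j] (GG E I 1 (Ls d (n + 1)) (t * φ)))
        (G^[j] (GG E I 1 (Ls d (n + 1)) (t * φ)) -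
          (F (n + 1))^[j] (GG E I 1 (Ls d (n + 1)) (t * φ)))
      rwa [add_sub_cancel] at this
    change ‖G^[j] (GG E I 1 (Ls d (n + 1)) (t * φ))‖ < r
    linarith
  · obtain ⟨j, s, hj, hs⟩ := drift 1 (pp (Ls d n)) (qq (Ls d n)) (d n).k one_pos hm0 hk0
      (by rw [one_mul]; exact D.coprime n) (1 / (8 * qq (Ls d n)))
    have hjQ : j ≤ (d n).Q := by
      have h1 : (j : ℝ) ≤ (d n).k + qq (Ls d n) := by simpa using hj
      have h2 : j ≤ (d n).k + qq (Ls d n) := by exact_mod_cast h1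
      omega
    have hRmem : R ∈ Icc 0 R := ⟨hR0.le, le_rfl⟩
    refine ⟨_, ⟨R, hRmem, rfl⟩, j, hjQ, ?_⟩
    have h1 := hclose R hRmem j hjQ
    have h2 := hiter R hRmem j
    change 1 ≤ ‖G^[j] (GG E I 1 (Ls d (n + 1)) (R * φ))‖
    -- the tip is close to the real axis
    set ψ : ℝ := 1 / (8 * qq (Ls d n)) +
      j * ((1 : ℕ) * ((pp (Ls d n) : ℝ) / qq (Ls d n) + 1 / ((d n).k * qq (Ls d n)))) - s with hψ
    have h3 : rt (Ls d (n + 1)) ^ j * ((R : ℂ) * φ) = R * ph ψ := by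
      have h4 : (1 / (8 * qq (Ls d n)) : ℝ) + j * rot (Ls d (n + 1)) = ψ + s := by
        rw [hψ, rot_succ D]
        push_cast
        ring
      have h5 : φ * rt (Ls d (n + 1)) ^ j = ph ψ := by
        rw [hφ, rt_eq_ph, ph_pow, ← ph_add, h4, ph_add, ph_int, mul_one]
      calc rt (Ls d (n + 1)) ^ j * ((R : ℂ) * φ) = R * (φ * rt (Ls d (n + 1)) ^ j) := by ring
        _ = _ := by rw [h5]
    have h4 : ‖(R : ℂ) * ph ψ - R‖ ≤ 20 * LR E 1 (Ls d (n + 1)) 2 / (d n).k := by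
      have h5 : (R : ℂ) * ph ψ - R = R * (ph ψ - 1) := by ring
      rw [h5, norm_mul, norm_real, Real.norm_eq_abs, abs_of_pos hR0]
      have h6 : ‖ph ψ - 1‖ ≤ 20 / (d n).k := by
        refine (norm_ph_sub_one ψ).trans ?_
        have h7 : |ψ| ≤ 1 / (d n).k := by simpa using hs
        have h8 : 2 * Real.pi ≤ 20 := by have := Real.pi_le_four; linarith
        calc 2 * Real.pi * |ψ| ≤ 20 * (1 / (d n).k) :=
              mul_le_mul h8 h7 (abs_nonneg _) (by norm_num)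
          _ = 20 / (d n).k := by ring
      calc R * ‖ph ψ - 1‖ ≤ LR E 1 (Ls d (n + 1)) 2 * (20 / (d n).k) :=
            mul_le_mul hR2.le h6 (norm_nonneg _) (hR0.le.trans hR2.le)
        _ = _ := by ring
    have h5 := T.guc n ((R : ℂ) * ph ψ) (by
        rw [mem_closedBall_zero_iff, norm_mul, ph_norm, mul_one, norm_real, Real.norm_eq_abs,
          abs_of_pos hR0]
        exact hR2.le) (R : ℂ) (by
        rw [mem_closedBall_zero_iff, norm_real, Real.norm_eq_abs, abs_of_pos hR0]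
        exact hR2.le) h4
    have h6 : GG E I 1 (Ls d (n + 1)) (R : ℂ) = ((3 / 2 : ℝ) : ℂ) :=
      GG_LR U ha hl (by norm_num)
    rw [h6] at h5
    rw [h2, h3] at h1
    have h7 : ‖((3 / 2 : ℝ) : ℂ)‖ = 3 / 2 := by
      rw [norm_real, Real.norm_eq_abs, abs_of_pos (by norm_num)]
    have h8 : (1 / 2 : ℝ) ^ n ≤ 1 := pow_le_one₀ (by norm_num) (by norm_num)
    have h9 : (1 / 2 : ℝ) ^ (n + 1) ≤ 1 := pow_le_one₀ (by norm_num) (by norm_num)
    set A := G^[j] (GG E I 1 (Ls d (n + 1)) (R * φ)) with hA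
    set B := GG E I 1 (Ls d (n + 1)) ((R : ℂ) * ph ψ) with hB
    have h10 : ‖((3 / 2 : ℝ) : ℂ)‖ ≤ ‖A‖ + ‖A - B‖ + ‖B - ((3 / 2 : ℝ) : ℂ)‖ := by
      have e : ((3 / 2 : ℝ) : ℂ) = A - (A - B) - (B - ((3 / 2 : ℝ) : ℂ)) := by ring
      calc ‖((3 / 2 : ℝ) : ℂ)‖ = ‖A - (A - B) - (B - ((3 / 2 : ℝ) : ℂ))‖ := by rw [← e]
        _ ≤ ‖A - (A - B)‖ + ‖B - ((3 / 2 : ℝ) : ℂ)‖ := norm_sub_le _ _
        _ ≤ _ := by
          have := norm_sub_le A (A - B)
          linarith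
    rw [h7] at h10
    nlinarith

end Pool.Agent.H44.Crem
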