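import Pool.Agent.H44.Crem.TowerDefs
import Pool.Agent.H44.Crem.Chain

/-!
# M6c: the next germ of the tower
-/

set_option autoImplicit false

open Complex Metric Set Filter Topology

namespace Pool.Agent.H44.Crem

/-- For `k` large there is a germ attached to `⟨c,k,·,·⟩ :: l` which is `ε`-close to `F`.
(It does not depend on `Q`, `η`, on which `LL, GG, LR, rt` do not depend: `Good` for different
`Q, η` are definitionally the same.) -/
theorem next_germ {E I : ℂ → ℂ} {rs : ℝ} (U : IsUFun E I rs) {a : ℕ} (ha : 0 < a) {l : List Dat}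
    (hl : Pos l) {F : ℂ → ℂ} (hF : Good E I a l F) {c : ℝ} (hc : 0 < c) {ε : ℝ} (hε : 0 < ε) :
    ∀ᶠ k : ℕ in atTop, ∃ F' : ℂ → ℂ, (∀ z ∈ ball (0 : ℂ) (5 / 2), ‖F' z - F z‖ ≤ ε) ∧
      ∀ (Q : ℕ) (η : ℝ), Good E I a (⟨c, k, Q, η⟩ :: l) F' := by
  have hqq : 0 < qq l := qq_pos hl
  have hm0 : 0 < a * qq l := Nat.mul_pos ha hqq
  have hP : ∀ (k Q : ℕ) (η : ℝ), 0 < k → Pos (⟨c, k, Q, η⟩ :: l) :=
    fun k Q η hk => hl.cons hc hk
  have hP1 := hP 1 0 0 one_pos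
  obtain ⟨ρ, hρ, hinj⟩ := local_inj (LL E a (⟨c, 1, 0, 0⟩ :: l)) (LL_diff U _)
    (LL_deriv U ha hP1) 2
  obtain ⟨δ₂, hδ₂, huc⟩ := GG_uc U ha hP1 (half_pos hρ)
  have hpow : (0 : ℝ) < 1 / 100 * (1 / 2) ^ (l.length + 1) := by positivity
  obtain ⟨q0, hq0⟩ := exists_solve (LL E a (⟨c, 1, 0, 0⟩ :: l)) (LL_diff U _)
    (LL_deriv U ha hP1) 3 (min (min ε (ρ / 2)) (1 / 100 * (1 / 2) ^ (l.length + 1)))
    (lt_min (lt_min hε (half_pos hρ)) hpow)
  set R' : ℝ := LR E a (⟨c, 1, 0, 0⟩ :: l) 2 with hR'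
  have hR'pos : 0 < R' := LR_pos _ (by norm_num)
  filter_upwards [eventually_ge_atTop q0, eventually_gt_atTop 0,
    eventually_ge_atTop ⌈2 * Real.pi * R' / δ₂⌉₊] with k hk1 hk0 hk2
  have hkq : q0 ≤ k * qq l := hk1.trans (Nat.le_mul_of_pos_right k hqq)
  obtain ⟨Φ, hΦd, hΦ⟩ := hq0 (k * qq l) hkq
  -- `F` maps `ball 0 (5/2)` to `ball 0 3`
  have hF3 : ∀ z ∈ ball (0 : ℂ) (5 / 2), F z ∈ ball (0 : ℂ) 3 := by
    intro z hz
    have h1 := hF.near z hz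
    rw [mem_ball_zero_iff] at hz ⊢
    have h2 : (0 : ℝ) ≤ (1 / 2) ^ l.length := by positivity
    have h3 : ‖F z‖ ≤ ‖F z - z‖ + ‖z‖ := by
      calc ‖F z‖ = ‖(F z - z) + z‖ := by rw [sub_add_cancel]
        _ ≤ _ := norm_add_le _ _
    nlinarith
  have hclose : ∀ z ∈ ball (0 : ℂ) (5 / 2), ‖Φ (F z) - F z‖ ≤ ε := by
    intro z hz
    exact ((hΦ _ (hF3 z hz)).1.trans (min_le_left _ _)).trans (min_le_left _ _)
  have hrt : ∀ (Q : ℕ) (η : ℝ), rt (⟨c, k, Q, η⟩ :: l)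
      = exp (2 * Real.pi * Complex.I / (k * qq l : ℕ)) * rt l := fun Q η => rt_cons (hP k Q η hk0)
  refine ⟨fun z => Φ (F z), hclose, fun Q η => ⟨?_, ?_, ?_, ?_⟩⟩
  · -- differentiability
    exact hΦd.comp hF.diff hF3
  · -- closeness to the identity
    intro z hz
    have h1 := hF.near z hz
    have h2 : ‖Φ (F z) - F z‖ ≤ 1 / 100 * (1 / 2) ^ (l.length + 1) :=
      (hΦ _ (hF3 z hz)).1.trans (min_le_right _ _)
    have h3 : ‖Φ (F z) - z‖ ≤ ‖Φ (F z) - F z‖ + ‖F z - z‖ := norm_sub_le_norm_sub_add_norm_sub _ _ _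
    have h4 : ((⟨c, k, Q, η⟩ : Dat) :: l).length = l.length + 1 := rfl
    rw [h4]
    have h5 : ((1 : ℝ) / 2) ^ (l.length + 1) = (1 / 2) ^ l.length / 2 := by
      rw [pow_succ]; ring
    rw [h5] at h2 ⊢
    change ‖Φ (F z) - z‖ ≤ _
    linarith
  · -- semiconjugacy
    intro z hz
    change LL E a (⟨c, 1, 0, 0⟩ :: l) (Φ (F z)) = _ * LL E a (⟨c, 1, 0, 0⟩ :: l) z
    have hs : LL E a (⟨c, 1, 0, 0⟩ :: l) (F z) = rt l * LL E a (⟨c, 1, 0, 0⟩ :: l) z := by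
      change Hm E (a * qq l) c (LL E a l (F z)) = rt l * Hm E (a * qq l) c (LL E a l z)
      rw [hF.semi z hz, Hm_rot (rt_pow hl a)]
    rw [(hΦ _ (hF3 z hz)).2, hrt, hs, ← mul_assoc]
  · -- conjugacy
    intro ξ hξ
    change ‖ξ‖ < R' at hξ
    change Φ (F (GG E I a l (hm E I (a * qq l) c ξ)))
      = GG E I a (⟨c, 1, 0, 0⟩ :: l) (rt (⟨c, k, Q, η⟩ :: l) * ξ)
    -- `‖hm ξ‖ < LR l 2`
    have h1 : ‖hm E I (a * qq l) c ξ‖ < LR E a l 2 := by
      obtain ⟨y, hy, hyX, h⟩ := exists_HR U (a * qq l) c (LR_nonneg (E := E) (a := a) l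
        (by norm_num : (0 : ℝ) ≤ 2)) (norm_nonneg ξ) (show ‖ξ‖ ≤ HR E (a * qq l) c (LR E a l 2)
          from hξ.le)
      have h1 := norm_hm_le U hm0 hc hy h.ge
      have h2 : y < LR E a l 2 := by
        rcases hyX.lt_or_eq with h' | h'
        · exact h'
        · rw [h'] at h
          have h3 : R' = HR E (a * qq l) c (LR E a l 2) := rfl
          rw [h3] at hξ
          linarith
      exact h1.trans_lt h2
    have hFG : F (GG E I a l (hm E I (a * qq l) c ξ))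
        = GG E I a (⟨c, 1, 0, 0⟩ :: l) (rt l * ξ) := by
      rw [hF.conj _ h1]
      change _ = GG E I a l (hm E I (a * qq l) c (rt l * ξ))
      rw [hm_rot (rt_pow hl a)]
    rw [hFG]
    have hn1 : ‖rt l * ξ‖ ≤ R' := by
      rw [norm_mul, rt_norm, one_mul]; exact hξ.le
    have hn2 : ‖rt (⟨c, k, Q, η⟩ :: l) * ξ‖ ≤ R' := by
      rw [norm_mul, rt_norm, one_mul]; exact hξ.le
    have hy : GG E I a (⟨c, 1, 0, 0⟩ :: l) (rt l * ξ) ∈ ball (0 : ℂ) 3 := by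
      rw [mem_ball_zero_iff]
      have := GG_norm_le (I := I) U ha hP1 (by norm_num : (0 : ℝ) ≤ 2) hn1
      linarith
    have hΦy := hΦ _ hy
    have hy2 : GG E I a (⟨c, 1, 0, 0⟩ :: l) (rt (⟨c, k, Q, η⟩ :: l) * ξ)
        ∈ closedBall (0 : ℂ) 2 := by
      rw [mem_closedBall_zero_iff]
      exact GG_norm_le (I := I) U ha hP1 (by norm_num : (0 : ℝ) ≤ 2) hn2
    refine hinj _ hy2 _ ?_ ?_
    · have h2 : ‖Φ (GG E I a (⟨c, 1, 0, 0⟩ :: l) (rt l * ξ))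
          - GG E I a (⟨c, 1, 0, 0⟩ :: l) (rt l * ξ)‖ ≤ ρ / 2 :=
        (hΦy.1.trans (min_le_left _ _)).trans (min_le_right _ _)
      have h3 : ‖GG E I a (⟨c, 1, 0, 0⟩ :: l) (rt l * ξ)
          - GG E I a (⟨c, 1, 0, 0⟩ :: l) (rt (⟨c, k, Q, η⟩ :: l) * ξ)‖ ≤ ρ / 2 := by
        apply huc _ (by simpa using hn1) _ (by simpa using hn2)
        have h4 : rt l * ξ - rt (⟨c, k, Q, η⟩ :: l) * ξ
            = -((exp (Complex.I * ((2 * Real.pi / (k * qq l : ℕ) : ℝ) : ℂ)) - 1) * (rt l * ξ)) := by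
          rw [hrt]
          have h5 : (2 * Real.pi * Complex.I / (k * qq l : ℕ) : ℂ)
              = Complex.I * ((2 * Real.pi / (k * qq l : ℕ) : ℝ) : ℂ) := by
            push_cast
            ring
          rw [h5]
          ring
        rw [h4, norm_neg, norm_mul]
        have h5 := Real.norm_exp_I_mul_ofReal_sub_one_le (x := 2 * Real.pi / (k * qq l : ℕ))
        have hkqpos : (0 : ℝ) < (k * qq l : ℕ) := by exact_mod_cast Nat.mul_pos hk0 hqq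
        rw [Real.norm_of_nonneg (by positivity)] at h5
        calc _ ≤ (2 * Real.pi / (k * qq l : ℕ)) * R' :=
              mul_le_mul h5 hn1 (norm_nonneg _) (by positivity)
          _ ≤ δ₂ := by
            rw [div_mul_eq_mul_div, div_le_iff₀ hkqpos]
            have h6 : 2 * Real.pi * R' / δ₂ ≤ k := (Nat.le_ceil _).trans (by exact_mod_cast hk2)
            rw [div_le_iff₀ hδ₂] at h6
            have h7 : (k : ℝ) ≤ (k * qq l : ℕ) := by
              exact_mod_cast Nat.le_mul_of_pos_right k hqq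
            nlinarith
      calc _ ≤ ‖Φ (GG E I a (⟨c, 1, 0, 0⟩ :: l) (rt l * ξ))
          - GG E I a (⟨c, 1, 0, 0⟩ :: l) (rt l * ξ)‖ + ‖GG E I a (⟨c, 1, 0, 0⟩ :: l) (rt l * ξ)
          - GG E I a (⟨c, 1, 0, 0⟩ :: l) (rt (⟨c, k, Q, η⟩ :: l) * ξ)‖ :=
            norm_sub_le_norm_sub_add_norm_sub _ _ _
        _ ≤ ρ := by linarith
    · rw [hΦy.2, LL_GG U ha hP1 (by norm_num : (0 : ℝ) ≤ 2) hn1,
        LL_GG U ha hP1 (by norm_num : (0 : ℝ) ≤ 2) hn2, hrt, ← mul_assoc]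

end Pool.Agent.H44.Crem
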