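import Pool.Agent.H44.Crem.Level

/-!
# M3: finite lists of stages
-/

set_option autoImplicit false

open Complex Metric Set Filter Topology

namespace Pool.Agent.H44.Crem

/-- the data of one stage: thickness parameter `c`, factor `k`, time horizon `Q`, tolerance `η` -/
structure Dat where
  c : ℝ
  k : ℕ
  Q : ℕ
  η : ℝ

/-- the denominator `q_n` -/
def qq : List Dat → ℕ
  | [] => 1
  | d :: l => d.k * qq l

/-- the numerator `p_n` -/
def pp : List Dat → ℕ
  | [] => 0
  | d :: l => d.k * pp l + 1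

/-- the rotation number `α_n = p_n / q_n` -/
noncomputable def rot (l : List Dat) : ℝ := (pp l : ℝ) / qq l

/-- the multiplier `e^{2πi α_n}` -/
noncomputable def rt (l : List Dat) : ℂ := exp (2 * Real.pi * Complex.I * (rot l : ℝ))

/-- the time horizon -/
def QQ : List Dat → ℕ
  | [] => 0
  | d :: _ => d.Q

/-- the tolerance -/
noncomputable def ee : List Dat → ℝ
  | [] => 1 / 100
  | d :: _ => d.η

/-- `Λ_n = H_{n-1} ∘ ⋯ ∘ H_0` -/
noncomputable def LL (E : ℂ → ℂ) (a : ℕ) : List Dat → ℂ → ℂ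
  | [] => fun z => z
  | d :: l => fun z => Hm E (a * qq l) d.c (LL E a l z)

/-- `Γ_n = h_0 ∘ ⋯ ∘ h_{n-1}` -/
noncomputable def GG (E I : ℂ → ℂ) (a : ℕ) : List Dat → ℂ → ℂ
  | [] => fun ξ => ξ
  | d :: l => fun ξ => GG E I a l (hm E I (a * qq l) d.c ξ)

/-- the real version of `Λ_n` -/
noncomputable def LR (E : ℂ → ℂ) (a : ℕ) : List Dat → ℝ → ℝ
  | [] => fun x => x
  | d :: l => fun x => HR E (a * qq l) d.c (LR E a l x)

/-- all parameters are positive -/
def Pos (l : List Dat) : Prop := ∀ d ∈ l, 0 < d.c ∧ 0 < d.k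

theorem Pos.tail {d : Dat} {l : List Dat} (h : Pos (d :: l)) : Pos l :=
  fun d' hd' => h d' (List.mem_cons_of_mem _ hd')

theorem Pos.head {d : Dat} {l : List Dat} (h : Pos (d :: l)) : 0 < d.c ∧ 0 < d.k :=
  h d List.mem_cons_self

theorem Pos.cons {d : Dat} {l : List Dat} (h : Pos l) (hc : 0 < d.c) (hk : 0 < d.k) :
    Pos (d :: l) := by
  intro d' hd'
  rcases List.mem_cons.1 hd' with rfl | h'
  · exact ⟨hc, hk⟩
  · exact h d' h'

theorem Pos.nil : Pos [] := fun d hd => by simp at hd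

theorem qq_pos {l : List Dat} (h : Pos l) : 0 < qq l := by
  induction l with
  | nil => simp [qq]
  | cons d l ih => exact Nat.mul_pos h.head.2 (ih h.tail)

theorem coprime_succ {p q k : ℕ} (hqk : q ∣ k) :
    Nat.Coprime (k * p + 1) (k * q) := by
  have h1 : Nat.Coprime (k * p + 1) k := by simp
  exact h1.mul_right (Nat.Coprime.coprime_dvd_right hqk h1)

theorem rot_cons {d : Dat} {l : List Dat} (h : Pos (d :: l)) :
    rot (d :: l) = rot l + 1 / qq (d :: l) := by
  have h1 : (0 : ℝ) < d.k := by exact_mod_cast h.head.2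
  have h2 : (0 : ℝ) < qq l := by exact_mod_cast qq_pos h.tail
  unfold rot
  simp only [pp, qq]
  push_cast
  field_simp

theorem rt_norm (l : List Dat) : ‖rt l‖ = 1 := by
  unfold rt
  rw [norm_exp]
  simp

theorem rt_nil : rt [] = 1 := by simp [rt, rot, pp]

theorem rt_cons {d : Dat} {l : List Dat} (h : Pos (d :: l)) :
    rt (d :: l) = exp (2 * Real.pi * Complex.I / (qq (d :: l) : ℕ)) * rt l := by
  unfold rt
  rw [rot_cons h, ← exp_add]
  congr 1
  push_cast
  ring

theorem rt_pow {l : List Dat} (h : Pos l) (a : ℕ) : rt l ^ (a * qq l) = 1 := by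
  have h2 : (qq l : ℂ) ≠ 0 := by exact_mod_cast (qq_pos h).ne'
  unfold rt rot
  rw [← exp_nat_mul]
  push_cast
  have : (a : ℂ) * qq l * (2 * Real.pi * Complex.I * (pp l / qq l)) =
      ((a * pp l : ℕ) : ℂ) * (2 * Real.pi * Complex.I) := by
    push_cast
    field_simp
  rw [this, exp_nat_mul_two_pi_mul_I]

section

variable {E I : ℂ → ℂ} {rs : ℝ} (U : IsUFun E I rs) {a : ℕ} (ha : 0 < a)

include U

theorem LL_diff (l : List Dat) : Differentiable ℂ (LL E a l) := by
  induction l with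
  | nil => exact differentiable_id
  | cons d l ih => exact (Hm_diff U _ _).comp ih

omit U in
theorem LL_zero (l : List Dat) : LL E a l 0 = 0 := by
  induction l with
  | nil => rfl
  | cons d l ih => show Hm E _ _ (LL E a l 0) = 0; rw [ih, Hm_zero]

omit U in
theorem LL_eq_zero {l : List Dat} {z : ℂ} : LL E a l z = 0 ↔ z = 0 := by
  induction l with
  | nil => rfl
  | cons d l ih => show Hm E _ _ (LL E a l z) = 0 ↔ _; rw [Hm_eq_zero, ih]

include ha in
theorem LL_deriv {l : List Dat} (hl : Pos l) (z : ℂ) : deriv (LL E a l) z ≠ 0 := by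
  induction l with
  | nil =>
    show deriv (fun z : ℂ => z) z ≠ 0
    simp
  | cons d l ih =>
    have h1 : deriv (LL E a (d :: l)) z = deriv (Hm E (a * qq l) d.c) (LL E a l z) *
        deriv (LL E a l) z :=
      deriv_comp z (Hm_diff U _ _ _) (LL_diff U l z)
    rw [h1]
    exact mul_ne_zero (Hm_deriv U (Nat.mul_pos ha (qq_pos hl.tail)) _ _) (ih hl.tail)

theorem LL_real (l : List Dat) (x : ℝ) : LL E a l x = (LR E a l x : ℝ) := by
  induction l with
  | nil => rfl
  | cons d l ih =>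
    show Hm E _ _ (LL E a l x) = (HR E _ _ (LR E a l x) : ℝ)
    rw [ih, Hm_real U]

omit U in
theorem LR_zero (l : List Dat) : LR E a l 0 = 0 := by
  induction l with
  | nil => rfl
  | cons d l ih => show HR E _ _ (LR E a l 0) = 0; rw [ih, HR_zero]

omit U in
theorem LR_one (l : List Dat) : LR E a l 1 = 1 := by
  induction l with
  | nil => rfl
  | cons d l ih => show HR E _ _ (LR E a l 1) = 1; rw [ih, HR_one]

theorem LR_cont (l : List Dat) : Continuous (LR E a l) := by
  induction l with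
  | nil => exact continuous_id
  | cons d l ih => exact (HR_cont U _ _).comp ih

omit U in
theorem LR_nonneg (l : List Dat) {x : ℝ} (hx : 0 ≤ x) : 0 ≤ LR E a l x := by
  induction l with
  | nil => exact hx
  | cons d l ih => exact HR_nonneg _ _ ih

omit U in
theorem LR_pos (l : List Dat) {x : ℝ} (hx : 0 < x) : 0 < LR E a l x := by
  induction l with
  | nil => exact hx
  | cons d l ih => exact HR_pos _ _ ih

include ha in
theorem LR_strictMono {l : List Dat} (hl : Pos l) : StrictMonoOn (LR E a l) (Ici 0) := by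
  induction l with
  | nil => exact fun x _ y _ h => h
  | cons d l ih =>
    intro x hx y hy h
    exact HR_strictMono U (Nat.mul_pos ha (qq_pos hl.tail)) hl.head.1
      (mem_Ici.2 (LR_nonneg l hx)) (mem_Ici.2 (LR_nonneg l hy)) (ih hl.tail hx hy h)

include ha in
theorem LR_le {l : List Dat} (hl : Pos l) {x y : ℝ} (hx : 0 ≤ x) (h : x ≤ y) :
    LR E a l x ≤ LR E a l y :=
  (LR_strictMono U ha hl).monotoneOn (mem_Ici.2 hx) (mem_Ici.2 (hx.trans h)) h

include ha in
theorem LR_lt {l : List Dat} (hl : Pos l) {x y : ℝ} (hx : 0 ≤ x) (h : x < y) :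
    LR E a l x < LR E a l y :=
  (LR_strictMono U ha hl) (mem_Ici.2 hx) (mem_Ici.2 (hx.trans h.le)) h

include ha in
theorem LR_le_iff {l : List Dat} (hl : Pos l) {x y : ℝ} (hx : 0 ≤ x) (hy : 0 ≤ y) :
    LR E a l x ≤ LR E a l y ↔ x ≤ y :=
  (LR_strictMono U ha hl).le_iff_le (mem_Ici.2 hx) (mem_Ici.2 hy)

/-- every value in `[0, Λ X]` is attained -/
theorem exists_LR (l : List Dat) {X y : ℝ} (hX : 0 ≤ X) (hy : 0 ≤ y) (hy1 : y ≤ LR E a l X) :
    ∃ x, 0 ≤ x ∧ x ≤ X ∧ LR E a l x = y := by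
  obtain ⟨x, hx, h⟩ := intermediate_value_Icc hX (LR_cont U l).continuousOn
    (show y ∈ Icc (LR E a l 0) (LR E a l X) by rw [LR_zero]; exact ⟨hy, hy1⟩)
  exact ⟨x, hx.1, hx.2, h⟩

include ha in
theorem GG_norm_le {l : List Dat} (hl : Pos l) {X : ℝ} (hX : 0 ≤ X) {ξ : ℂ}
    (hξ : ‖ξ‖ ≤ LR E a l X) : ‖GG E I a l ξ‖ ≤ X := by
  induction l generalizing ξ with
  | nil => exact hξ
  | cons d l ih =>
    exact ih hl.tail (norm_hm_le U (Nat.mul_pos ha (qq_pos hl.tail)) hl.head.1
      (LR_nonneg l hX) hξ)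

include ha in
theorem GG_norm_lt {l : List Dat} (hl : Pos l) {X : ℝ} (hX : 0 ≤ X) {ξ : ℂ}
    (hξ : ‖ξ‖ < LR E a l X) : ‖GG E I a l ξ‖ < X := by
  obtain ⟨x, hx, hxX, h⟩ := exists_LR U l hX (norm_nonneg ξ) hξ.le
  have h1 := GG_norm_le (I := I) U ha hl hx h.ge
  have h2 : x < X := by
    rcases hxX.lt_or_eq with h' | h'
    · exact h'
    · rw [h'] at h; linarith
  exact h1.trans_lt h2

include ha in
theorem LL_GG {l : List Dat} (hl : Pos l) {X : ℝ} (hX : 0 ≤ X) {ξ : ℂ}
    (hξ : ‖ξ‖ ≤ LR E a l X) : LL E a l (GG E I a l ξ) = ξ := by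
  induction l generalizing ξ with
  | nil => rfl
  | cons d l ih =>
    have hm0 := Nat.mul_pos ha (qq_pos hl.tail)
    show Hm E _ _ (LL E a l (GG E I a l (hm E I (a * qq l) d.c ξ))) = ξ
    rw [ih hl.tail (norm_hm_le U hm0 hl.head.1 (LR_nonneg l hX) hξ)]
    exact Hm_hm U hm0 hl.head.1 (dom_of_le U hm0 hl.head.1 (LR_nonneg l hX) hξ)

include ha in
theorem GG_LR {l : List Dat} (hl : Pos l) {x : ℝ} (hx : 0 ≤ x) :
    GG E I a l (LR E a l x : ℝ) = x := by
  induction l with
  | nil => rfl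
  | cons d l ih =>
    show GG E I a l (hm E I (a * qq l) d.c (HR E (a * qq l) d.c (LR E a l x) : ℝ)) = x
    rw [hm_HR U (Nat.mul_pos ha (qq_pos hl.tail)) hl.head.1 (LR_nonneg l hx)]
    exact ih hl.tail

include ha in
theorem GG_diff {l : List Dat} (hl : Pos l) {X : ℝ} (hX : 0 ≤ X) :
    DifferentiableOn ℂ (GG E I a l) (ball 0 (LR E a l X)) := by
  induction l with
  | nil => exact differentiableOn_id
  | cons d l ih =>
    have hm0 := Nat.mul_pos ha (qq_pos hl.tail)
    refine (ih hl.tail).comp ((hm_diff U _ hl.head.1).mono ?_) ?_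
    · intro ξ hξ
      rw [mem_ball_zero_iff] at hξ
      exact dom_of_le U hm0 hl.head.1 (LR_nonneg l hX) hξ.le
    · intro ξ hξ
      rw [mem_ball_zero_iff] at hξ ⊢
      obtain ⟨y, hy, hyX, h⟩ := exists_HR U _ d.c (LR_nonneg l hX) (norm_nonneg ξ)
        (show ‖ξ‖ ≤ HR E (a * qq l) d.c (LR E a l X) from hξ.le)
      have h1 := norm_hm_le U hm0 hl.head.1 hy h.ge
      have h2 : y < LR E a l X := by
        rcases hyX.lt_or_eq with h' | h'
        · exact h'
        · rw [h'] at h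
          have h3 : LR E a (d :: l) X = HR E (a * qq l) d.c (LR E a l X) := rfl
          rw [h3] at hξ
          linarith
      exact h1.trans_lt h2

omit U in
theorem GG_zero (l : List Dat) : GG E I a l 0 = 0 := by
  induction l with
  | nil => rfl
  | cons d l ih => show GG E I a l (hm E I _ _ 0) = 0; rw [hm_zero, ih]

omit U in
/-- symmetry under `a`-th roots of unity -/
theorem LL_rot {ω : ℂ} (hω : ω ^ a = 1) (l : List Dat) (z : ℂ) :
    LL E a l (ω * z) = ω * LL E a l z := by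
  induction l with
  | nil => rfl
  | cons d l ih =>
    show Hm E _ _ (LL E a l (ω * z)) = _
    rw [ih, Hm_rot (by rw [pow_mul, hω, one_pow])]
    rfl

omit U in
theorem GG_rot {ω : ℂ} (hω : ω ^ a = 1) (l : List Dat) (ξ : ℂ) :
    GG E I a l (ω * ξ) = ω * GG E I a l ξ := by
  induction l generalizing ξ with
  | nil => rfl
  | cons d l ih =>
    show GG E I a l (hm E I (a * qq l) d.c (ω * ξ)) = _
    rw [hm_rot (by rw [pow_mul, hω, one_pow]), ih]
    rfl

end

end Pool.Agent.H44.Crem
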