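import Pool.Agent.H44.Crem.Stage

/-!
# Towers: definitions for the recursion, and uniform continuity of `GG`
-/

set_option autoImplicit false

open Complex Metric Set Filter Topology

namespace Pool.Agent.H44.Crem

/-- the germ `F` is attached to the list of stages `l` -/
structure Good (E I : ℂ → ℂ) (a : ℕ) (l : List Dat) (F : ℂ → ℂ) : Prop where
  diff : DifferentiableOn ℂ F (ball 0 (5 / 2))
  near : ∀ z ∈ ball (0 : ℂ) (5 / 2), ‖F z - z‖ ≤ 1 / 100 * (1 - (1 / 2) ^ l.length)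
  semi : ∀ z ∈ ball (0 : ℂ) (5 / 2), LL E a l (F z) = rt l * LL E a l z
  conj : ∀ ξ : ℂ, ‖ξ‖ < LR E a l 2 → F (GG E I a l ξ) = GG E I a l (rt l * ξ)

/-- the orbit claim with time horizon `Q`: an orbit staying in the closed disc of radius `r` for
`Q` steps starts in `Γ (closedBall (Λ (r + small)))` -/
def Claim (E I : ℂ → ℂ) (a : ℕ) (l : List Dat) (F : ℂ → ℂ) (Q : ℕ) : Prop :=
  ∀ r : ℝ, 0 < r → r ≤ 5 / 4 + 1 / 4 * (1 / 2) ^ l.length → ∀ z : ℂ, (∀ j ≤ Q, ‖F^[j] z‖ ≤ r) →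
    ∃ ξ : ℂ, ‖ξ‖ ≤ LR E a l (r + 1 / 8 * (1 / 2) ^ l.length) ∧ GG E I a l ξ = z

/-- `η` is a good tolerance for `F` and the time horizon `Q` -/
def Tol (n : ℕ) (F : ℂ → ℂ) (Q : ℕ) (η : ℝ) : Prop :=
  ∀ G : ℂ → ℂ, (∀ z ∈ closedBall (0 : ℂ) 2, ‖G z - F z‖ ≤ η) → ∀ z : ℂ,
    ((∀ j ≤ Q, ‖F^[j] z‖ ≤ 7 / 4) ∨ (∀ j ≤ Q, ‖G^[j] z‖ ≤ 7 / 4)) →
    ∀ j ≤ Q, ‖G^[j] z - F^[j] z‖ ≤ 1 / 16 * (1 / 2) ^ n

/-- the first `n` stages -/
def Ls (d : ℕ → Dat) : ℕ → List Dat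
  | 0 => []
  | n + 1 => d n :: Ls d n

/-- the level maps of a tower -/
noncomputable def hseq (E I : ℂ → ℂ) (a : ℕ) (d : ℕ → Dat) (n : ℕ) : ℂ → ℂ :=
  hm E I (a * qq (Ls d n)) (d n).c

/-- the conditions on the data of a tower which do not involve the germs -/
structure DatOK (d : ℕ → Dat) : Prop where
  c_pos : ∀ n, 0 < (d n).c
  odd : ∀ n, Odd (d n).k
  k_ge : ∀ n, n + 3 ≤ (d n).k
  k_dvd : ∀ n, qq (Ls d n) ∣ (d n).k
  k_big : ∀ n, 8 * qq (Ls d n) + 8 ≤ (d n).k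
  Q_big : ∀ n, (d n).k + qq (Ls d n) ≤ (d n).Q
  eta_pos : ∀ n, 0 < (d n).η
  eta_half : ∀ n, (d n).η ≤ ee (Ls d n) / 2

/-- a tower of germs `F n` with symmetry `a` -/
structure Tower (E I : ℂ → ℂ) (rs : ℝ) (d : ℕ → Dat) (a : ℕ) (F : ℕ → ℂ → ℂ) : Prop where
  good : ∀ n, Good E I a (Ls d n) (F n)
  claim : ∀ n, Claim E I a (Ls d n) (F n) (QQ (Ls d n))
  tol : ∀ n, Tol n (F n) (QQ (Ls d n)) (ee (Ls d n))
  near : ∀ n, ∀ z ∈ ball (0 : ℂ) (5 / 2), ‖F (n + 1) z - F n z‖ ≤ ee (Ls d n) / 2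
  big : ∀ n, BigC E I rs (a * qq (Ls d n)) (min (LR E a (Ls d n) (1 / (n + 1))) (1 / 2)) (d n).c
  guc : ∀ n, ∀ ξ ∈ closedBall (0 : ℂ) (LR E a (Ls d (n + 1)) 2),
    ∀ ξ' ∈ closedBall (0 : ℂ) (LR E a (Ls d (n + 1)) 2),
    ‖ξ - ξ'‖ ≤ 20 * LR E a (Ls d (n + 1)) 2 / (d n).k →
    ‖GG E I a (Ls d (n + 1)) ξ - GG E I a (Ls d (n + 1)) ξ'‖ ≤ 1 / 16 * (1 / 2) ^ n
  condA : ∀ n j, j ≤ n → ∀ c : ℕ → ℂ, (∀ i, ‖c i‖ = 1) →
    ∀ ξ ∈ closedBall (0 : ℂ) 1, ∀ ξ' ∈ closedBall (0 : ℂ) 1,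
    ‖ξ - ξ'‖ ≤ 7 / (a * qq (Ls d (n + 1)) : ℕ) →
    |Bc (hseq E I a d) c j (n - j) ‖hseq E I a d n ξ‖ -
      Bc (hseq E I a d) c j (n - j) ‖hseq E I a d n ξ'‖| ≤ 1 / (a * qq (Ls d n) : ℕ)

theorem Ls_length (d : ℕ → Dat) (n : ℕ) : (Ls d n).length = n := by
  induction n with
  | zero => rfl
  | succ n ih => simp [Ls, ih]

theorem DatOK.pos {d : ℕ → Dat} (D : DatOK d) (n : ℕ) : Pos (Ls d n) := by
  induction n with
  | zero => exact Pos.nil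
  | succ n ih => exact ih.cons (D.c_pos n) (by have := D.k_ge n; omega)

theorem DatOK.coprime {d : ℕ → Dat} (D : DatOK d) (n : ℕ) :
    Nat.Coprime (pp (Ls d n)) (qq (Ls d n)) := by
  cases n with
  | zero => simp [Ls, qq]
  | succ n => exact coprime_succ (D.k_dvd n)

theorem DatOK.qq_odd {d : ℕ → Dat} (D : DatOK d) (n : ℕ) : Odd (qq (Ls d n)) := by
  induction n with
  | zero => simp [Ls, qq]
  | succ n ih => exact (D.odd n).mul ih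

theorem DatOK.ee_pos {d : ℕ → Dat} (D : DatOK d) (n : ℕ) : 0 < ee (Ls d n) := by
  cases n with
  | zero => simp [Ls, ee]
  | succ n => exact D.eta_pos n

section

variable {E I : ℂ → ℂ} {rs : ℝ}

/-- uniform continuity of `GG` on the closed disc of radius `LR 2` -/
theorem GG_uc (U : IsUFun E I rs) {a : ℕ} (ha : 0 < a) {l : List Dat} (hl : Pos l) {ε : ℝ}
    (hε : 0 < ε) :
    ∃ δ > 0, ∀ ξ ∈ closedBall (0 : ℂ) (LR E a l 2), ∀ ξ' ∈ closedBall (0 : ℂ) (LR E a l 2),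
      ‖ξ - ξ'‖ ≤ δ → ‖GG E I a l ξ - GG E I a l ξ'‖ ≤ ε := by
  have h1 : ContinuousOn (GG E I a l) (closedBall 0 (LR E a l 2)) := by
    refine (GG_diff U ha hl (by norm_num : (0 : ℝ) ≤ 3)).continuousOn.mono ?_
    exact closedBall_subset_ball (LR_lt U ha hl (by norm_num) (by norm_num))
  have h2 := (isCompact_closedBall (0 : ℂ) (LR E a l 2)).uniformContinuousOn_of_continuous h1
  rw [Metric.uniformContinuousOn_iff] at h2
  obtain ⟨δ, hδ, h⟩ := h2 ε hε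
  refine ⟨δ / 2, by positivity, fun ξ hξ ξ' hξ' hd => ?_⟩
  have := h ξ hξ ξ' hξ' (by rw [dist_eq_norm]; linarith)
  rw [dist_eq_norm] at this
  exact this.le

/-- orbits of a germ attached to `l` inside the domain of `GG` -/
theorem Good.iterate {a : ℕ} {l : List Dat} {F : ℂ → ℂ}
    (hF : Good E I a l F) {ξ : ℂ} (hξ : ‖ξ‖ < LR E a l 2) (j : ℕ) :
    F^[j] (GG E I a l ξ) = GG E I a l (rt l ^ j * ξ) := by
  induction j with
  | zero => simp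
  | succ j ih =>
    rw [Function.iterate_succ_apply', ih, hF.conj, ← mul_assoc, ← pow_succ']
    rwa [norm_mul, norm_pow, rt_norm, one_pow, one_mul]

end

end Pool.Agent.H44.Crem
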