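import Pool.Agent.H44.Crem.UFunDefs
import Pool.Agent.H7.Crem.Main

/-!
# M1: the universal functions `E`, `I`, `S` (existence)

The definitions are in `UFunDefs.lean`, the proof in `Pool/Agent/H7/Crem/*.lean` (helper7).
-/

set_option autoImplicit false

namespace Pool.Agent.H44.Crem

theorem exists_ufun : ∃ (E I : ℂ → ℂ) (rs : ℝ), IsUFun E I rs :=
  Pool.Agent.H7.Crem.exists_ufun'

end Pool.Agent.H44.Crem
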