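import Pool.Agent.H44.Crem.Defs

/-!
# M1: the universal functions `E`, `I`, `S`

`E` is the entire function with `s E'(s) = e^{-s} - 1`, `E 0 = 0`; `W s = s e^{E s}` satisfies
`s W' = W e^{-s}`; it increases on `[0,∞)` to a finite limit `rs`, and `S u = u e^{I u}` is its
holomorphic inverse on the disc of radius `rs`.
-/

set_option autoImplicit false

open Complex Metric Set Filter Topology

namespace Pool.Agent.H44.Crem

/-- the real version of `W` attached to `E` -/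
noncomputable def WRof (E : ℂ → ℂ) (x : ℝ) : ℝ := x * Real.exp (E x).re

/-- Everything which is used about the universal functions. -/
structure IsUFun (E I : ℂ → ℂ) (rs : ℝ) : Prop where
  E_diff : Differentiable ℂ E
  E_zero : E 0 = 0
  E_deriv : ∀ s, s * deriv E s = exp (-s) - 1
  E_real : ∀ x : ℝ, E x = (((E x).re : ℝ) : ℂ)
  E_anti : StrictAnti (fun x : ℝ => (E x).re)
  E_tendsto : Tendsto (fun x : ℝ => (E x).re) atTop atBot
  rs_pos : 0 < rs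
  WR_mono : StrictMonoOn (WRof E) (Ici 0)
  WR_cont : Continuous (WRof E)
  WR_lt : ∀ x, 0 ≤ x → WRof E x < rs
  WR_surj : ∀ y, 0 ≤ y → y < rs → ∃ x, 0 ≤ x ∧ WRof E x = y
  I_diff : DifferentiableOn ℂ I (ball 0 rs)
  I_zero : I 0 = 0
  I_real : ∀ x : ℝ, |x| < rs → I x = (((I x).re : ℝ) : ℂ)
  /-- `W (S u) = u` -/
  E_S : ∀ u ∈ ball (0 : ℂ) rs, E (u * exp (I u)) = - I u
  /-- `S (W x) = x` for `x ≥ 0` -/
  S_WR : ∀ x, 0 ≤ x → (WRof E x : ℂ) * exp (I (WRof E x)) = x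
  /-- `|S u| ≤ S |u|` -/
  S_le : ∀ x, 0 ≤ x → ∀ u, ‖u‖ ≤ WRof E x → ‖u * exp (I u)‖ ≤ x
  /-- starlikeness -/
  S_mono : ∀ ω : ℂ, ‖ω‖ = 1 →
    StrictMonoOn (fun t : ℝ => ‖(t * ω : ℂ) * exp (I (t * ω))‖) (Ico 0 rs)
  S_arg : ∀ u ∈ ball (0 : ℂ) rs, u ∈ slitPlane → |arg u + (I u).im| < Real.pi
  /-- boundedness off the positive axis -/
  S_bdd : ∀ θ, 0 < θ → ∀ u ∈ ball (0 : ℂ) rs, θ ≤ |arg u| →
    ‖u * exp (I u)‖ ≤ Real.pi / 2 + 1 / θ

end Pool.Agent.H44.Crem
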